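import Pool.Agent.Lib.MP_616546_co.CritL

/-!
# MP_616546_co: one cycle (Dirac type argument)
-/

set_option autoImplicit false

namespace Pool.Agent.TwoRegMinor

open Finset

variable {V : Type} [DecidableEq V]

/-! ## JOB PTH -/

private theorem pth_grow {G : SimpleGraph V} {U : Finset V} {s : ℕ}
    (hdeg : ∀ x ∈ U, s ≤ dg G U x + 1) {x : V} (hx : x ∈ U) : ∀ k : ℕ, (k = 0 ∨ k + 1 ≤ s) →
    ∃ l : List V, l.Nodup ∧ (∀ z ∈ l, z ∈ U) ∧ l.IsChain G.Adj ∧ l.length = k + 1 ∧
      l.head? = some x := by
  intro k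
  induction k with
  | zero =>
    intro _
    exact ⟨[x], by simp, by simpa using hx, by simp, rfl, rfl⟩
  | succ k ih =>
    intro hk
    obtain ⟨l, hnd, hU, hch, hlen, hhd⟩ := ih (by omega)
    have hne : l ≠ [] := by
      rintro rfl
      simp at hlen
    have hz : l.getLast hne ∈ l := List.getLast_mem hne
    have hdz := hdeg _ (hU _ hz)
    obtain ⟨w, hwU, hzw, hwl⟩ : ∃ w ∈ U, G.Adj (l.getLast hne) w ∧ w ∉ l := by
      by_contra hcon
      push Not at hcon
      have hle : dg G U (l.getLast hne) ≤ (l.toFinset.erase (l.getLast hne)).card := by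
        classical
        unfold dg
        refine Finset.card_le_card fun w hw => ?_
        rw [Finset.mem_filter] at hw
        rw [Finset.mem_erase, List.mem_toFinset]
        exact ⟨fun he => G.loopless.irrefl _ (he ▸ hw.2), hcon w hw.1 hw.2⟩
      rw [Finset.card_erase_of_mem (List.mem_toFinset.2 hz), List.toFinset_card_of_nodup hnd,
        hlen] at hle
      omega
    refine ⟨l ++ [w], ?_, ?_, ?_, ?_, ?_⟩
    · rw [List.nodup_append]
      refine ⟨hnd, List.nodup_singleton w, fun a ha b hb hab => ?_⟩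
      rw [List.mem_singleton] at hb
      exact hwl (hb ▸ hab ▸ ha)
    · intro z hz'
      rw [List.mem_append, List.mem_singleton] at hz'
      rcases hz' with h | h
      · exact hU z h
      · rw [h]; exact hwU
    · rw [List.isChain_append]
      refine ⟨hch, List.isChain_singleton w, fun a ha b hb => ?_⟩
      rw [List.getLast?_eq_some_getLast hne, Option.mem_some_iff] at ha
      rw [List.head?_cons, Option.mem_some_iff] at hb
      rw [← ha, ← hb]
      exact hzw
    · rw [List.length_append, hlen, List.length_singleton]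
    · rw [List.head?_append_of_ne_nil _ hne]
      exact hhd

/-- greedy path: if every vertex of `U` has at least `s - 1` neighbours in `U` then from every
`x ∈ U` starts a path in `U` with at least `s` vertices, `s ≥ 1` (take a longest path in `U` starting
at `x`; all neighbours in `U` of its last vertex are on the path) -/
theorem greedy_path {G : SimpleGraph V} {U : Finset V} {s : ℕ}
    (hdeg : ∀ x ∈ U, s ≤ dg G U x + 1) {x : V} (hx : x ∈ U) :
    ∃ l : List V, l.Nodup ∧ (∀ z ∈ l, z ∈ U) ∧ l.IsChain G.Adj ∧ s ≤ l.length ∧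
      l.head? = some x := by
  rcases Nat.eq_zero_or_pos s with h0 | h0
  · exact ⟨[x], by simp, by simpa using hx, by simp, by simp [h0], rfl⟩
  · obtain ⟨l, h1, h2, h3, h4, h5⟩ := pth_grow hdeg hx (s - 1) (by omega)
    exact ⟨l, h1, h2, h3, by omega, h5⟩

private theorem pth_short {G : SimpleGraph V} {D U W : Finset V} (hD : Conn G D)
    (hU : U ⊆ D) (hW : W ⊆ D) (hU0 : U.Nonempty) (hW0 : W.Nonempty) :
    ∃ l : List V, l.Nodup ∧ (∀ z ∈ l, z ∈ D) ∧ l.IsChain G.Adj ∧
      (∃ x ∈ U, l.head? = some x) ∧ (∃ y ∈ W, l.getLast? = some y) ∧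
      ∀ z ∈ l.tail, z ∉ U := by
  obtain ⟨u, hu⟩ := hU0
  obtain ⟨w, hw⟩ := hW0
  obtain ⟨l, h1, h2, h3, h4, h5⟩ := conn_path hD (hU hu) (hW hw)
  have key : ∀ n : ℕ, ∀ l : List V, l.length = n → l.Nodup → (∀ z ∈ l, z ∈ D) →
      l.IsChain G.Adj → (∃ x ∈ U, l.head? = some x) → (∃ y ∈ W, l.getLast? = some y) →
      ∃ l : List V, l.Nodup ∧ (∀ z ∈ l, z ∈ D) ∧ l.IsChain G.Adj ∧
      (∃ x ∈ U, l.head? = some x) ∧ (∃ y ∈ W, l.getLast? = some y) ∧
      ∀ z ∈ l.tail, z ∉ U := by
    intro n
    induction n using Nat.strong_induction_on with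
    | _ n ih =>
      intro l hl hnd hD' hch hx hy
      by_cases hcase : ∀ z ∈ l.tail, z ∉ U
      · exact ⟨l, hnd, hD', hch, hx, hy, hcase⟩
      · push Not at hcase
        obtain ⟨z, hz, hzU⟩ := hcase
        obtain ⟨a, b, hab⟩ := List.append_of_mem hz
        have hlne : l ≠ [] := by
          rintro rfl
          simp at hz
        obtain ⟨c, t, rfl⟩ := List.exists_cons_of_ne_nil hlne
        rw [List.tail_cons] at hab
        subst hab
        have hsplit : c :: (a ++ z :: b) = (c :: a) ++ (z :: b) := rfl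
        refine ih (z :: b).length ?_ (z :: b) rfl ?_ ?_ ?_ ⟨z, hzU, rfl⟩ ?_
        · rw [← hl]
          simp only [List.length_cons, List.length_append]
          omega
        · rw [hsplit, List.nodup_append] at hnd
          exact hnd.2.1
        · intro v hv
          exact hD' v (by rw [hsplit, List.mem_append]; exact Or.inr hv)
        · rw [hsplit, List.isChain_append] at hch
          exact hch.2.1
        · obtain ⟨y, hyW, hyl⟩ := hy
          refine ⟨y, hyW, ?_⟩
          rw [hsplit, List.getLast?_append_of_ne_nil _ (List.cons_ne_nil z b)] at hyl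
          exact hyl
  exact key l.length l rfl h1 h2 h3 ⟨u, hu, h4⟩ ⟨w, hw, h5⟩

/-- long path between two sets inside a connected set. Take a shortest path `P` in `D` from `U` to
`W` (it exists by `conn_path`; minimal length among all lists `Nodup`, chain, in `D`, head in `U`,
last in `W`): by minimality its only vertex in `U` is its head `x` (otherwise drop an initial part).
By `greedy_path` there is a path `R` in `U` from `x` with at least `s` vertices. The reversed `R`
followed by the tail of `P` is the path. -/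
theorem long_path {G : SimpleGraph V} {D U W : Finset V} {s : ℕ} (hs : 1 ≤ s) (hD : Conn G D)
    (hU : U ⊆ D) (hW : W ⊆ D) (hU0 : U.Nonempty) (hW0 : W.Nonempty)
    (hdeg : ∀ x ∈ U, s ≤ dg G U x + 1) :
    ∃ l : List V, l.Nodup ∧ (∀ z ∈ l, z ∈ D) ∧ l.IsChain G.Adj ∧ s ≤ l.length ∧
      (∃ x ∈ U, l.head? = some x) ∧ (∃ y ∈ W, l.getLast? = some y) := by
  obtain ⟨P, hPnd, hPD, hPch, ⟨x, hxU, hPx⟩, ⟨y, hyW, hPy⟩, hPU⟩ := pth_short hD hU hW hU0 hW0
  obtain ⟨R, hRnd, hRU, hRch, hRs, hRx⟩ := greedy_path hdeg hxU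
  have hRne : R ≠ [] := by
    rintro rfl
    simp at hRx
  obtain ⟨t, rfl⟩ : ∃ t, P = x :: t := by
    cases P with
    | nil => simp at hPx
    | cons a t =>
      rw [List.head?_cons, Option.some.injEq] at hPx
      exact ⟨t, by rw [hPx]⟩
  have hRlast : R.reverse.getLast? = some x := by
    rw [List.getLast?_reverse, hRx]
  refine ⟨R.reverse ++ t, ?_, ?_, ?_, ?_, ?_, ?_⟩
  · rw [List.nodup_append]
    refine ⟨List.nodup_reverse.2 hRnd, (List.nodup_cons.1 hPnd).2, fun a ha b hb hab => ?_⟩
    rw [List.mem_reverse] at ha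
    exact hPU b hb (hab ▸ hRU a ha)
  · intro z hz
    rw [List.mem_append, List.mem_reverse] at hz
    rcases hz with h | h
    · exact hU (hRU z h)
    · exact hPD z (List.mem_cons_of_mem x h)
  · rw [List.isChain_append]
    refine ⟨?_, (List.isChain_cons.1 hPch).2, fun a ha b hb => ?_⟩
    · rw [List.isChain_reverse]
      exact hRch.imp fun _ _ h => h.symm
    · rw [hRlast, Option.mem_some_iff] at ha
      rw [← ha]
      exact (List.isChain_cons.1 hPch).1 b hb
  · rw [List.length_append, List.length_reverse]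
    omega
  · have hne : R.reverse ≠ [] := by simpa using hRne
    refine ⟨R.getLast hRne, hRU _ (List.getLast_mem hRne), ?_⟩
    rw [List.head?_append_of_ne_nil _ hne, List.head?_reverse, List.getLast?_eq_some_getLast hRne]
  · refine ⟨y, hyW, ?_⟩
    cases t with
    | nil =>
      rw [List.append_nil, hRlast]
      rw [List.getLast?_singleton] at hPy
      exact hPy
    | cons b t =>
      rw [List.getLast?_cons_cons] at hPy
      rw [List.getLast?_append_of_ne_nil _ (List.cons_ne_nil b t)]
      exact hPy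

/-! ## JOB GAP -/

/-- replacing a segment of a cyclic list: `u :: l1 ++ v :: l2` becomes `u :: p ++ v :: l2` -/
theorem isCyc_replace {G : SimpleGraph V} {u v : V} {l1 l2 p : List V}
    (h : IsCyc G ((u :: l1) ++ (v :: l2))) (hp : p.Nodup) (hpc : p.IsChain G.Adj)
    (hpd : ∀ x ∈ p, x ∉ (u :: l1) ++ (v :: l2)) {x y : V} (hx : p.head? = some x)
    (hy : p.getLast? = some y) (hux : G.Adj u x) (hyv : G.Adj y v) :
    IsCyc G ((u :: p) ++ (v :: l2)) := by
  obtain ⟨hnd, hch⟩ := h
  have htake : ∀ q : List V, ((u :: q) ++ (v :: l2)).take 1 = [u] := fun q => rfl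
  rw [htake, List.append_assoc, List.isChain_append] at hch
  have hpne : p ≠ [] := by
    rintro rfl
    simp at hx
  have hnd' := hnd
  rw [List.nodup_append] at hnd
  obtain ⟨hn1, hn2, hn3⟩ := hnd
  refine ⟨?_, ?_⟩
  · rw [List.nodup_append]
    refine ⟨?_, hn2, ?_⟩
    · rw [List.nodup_cons]
      refine ⟨fun hup => ?_, hp⟩
      exact hpd u hup (by simp)
    · intro a ha b hb hab
      rcases List.mem_cons.1 ha with h | h
      · exact hn3 u (by simp) b hb (h ▸ hab)
      · exact hpd a h (by rw [hab, List.mem_append]; exact Or.inr hb)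
  · rw [htake, List.append_assoc, List.isChain_append]
    refine ⟨?_, hch.2.1, ?_⟩
    · rw [List.isChain_cons]
      refine ⟨fun a ha => ?_, hpc⟩
      rw [hx, Option.mem_some_iff] at ha
      rw [← ha]
      exact hux
    · intro a ha b hb
      have h1 : (u :: p).getLast? = some y := by
        obtain ⟨c, t, rfl⟩ := List.exists_cons_of_ne_nil hpne
        rw [List.getLast?_cons_cons]
        exact hy
      rw [h1, Option.mem_some_iff] at ha
      rw [List.cons_append, List.head?_cons, Option.mem_some_iff] at hb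
      rw [← ha, ← hb]
      exact hyv

private theorem gap_rotate_one {G : SimpleGraph V} {l : List V} (h : IsCyc G l) :
    IsCyc G (l.rotate 1) := by
  cases l with
  | nil => simpa using h
  | cons a t =>
    rw [List.rotate_cons_succ, List.rotate_zero]
    obtain ⟨hnd, hch⟩ := h
    have h1 : (a :: t).take 1 = [a] := rfl
    rw [h1] at hch
    refine ⟨?_, ?_⟩
    · exact (List.nodup_append_comm (l₁ := [a]) (l₂ := t)).1 hnd
    · cases t with
      | nil => exact hch
      | cons b t =>
        have h2 : (b :: t ++ [a]).take 1 = [b] := rfl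
        rw [h2, List.isChain_append]
        rw [List.cons_append, List.isChain_cons] at hch
        refine ⟨hch.2, List.isChain_singleton b, fun x hx y hy => ?_⟩
        rw [List.getLast?_append_of_ne_nil _ (List.cons_ne_nil a []), List.getLast?_singleton,
          Option.mem_some_iff] at hx
        rw [List.head?_cons, Option.mem_some_iff] at hy
        rw [← hx, ← hy]
        exact hch.1 b rfl

theorem isCyc_rotate {G : SimpleGraph V} {l : List V} (h : IsCyc G l) (k : ℕ) :
    IsCyc G (l.rotate k) := by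
  induction k with
  | zero => simpa using h
  | succ k ih =>
    rw [← List.rotate_rotate]
    exact gap_rotate_one ih

/-- the distance between two elements of `S` -/
private theorem gap_dist (l : List V) (S : Finset V) (s : ℕ)
    (hgap : ∀ (u v : V) (l1 l2 : List V) (k : ℕ), l.rotate k = (u :: l1) ++ (v :: l2) → u ∈ S →
      v ∈ S → s ≤ l1.length) (i j d : ℕ) (hi : i < l.length) (hj : j < l.length) (hd : 1 ≤ d)
    (hdn : d < l.length) (hij : (d + i) % l.length = j) (hiS : l[i] ∈ S) (hjS : l[j] ∈ S) :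
    s + 1 ≤ d := by
  have hlen : (l.rotate i).length = l.length := List.length_rotate _ _
  have h0 : (l.rotate i)[0]'(by omega) = l[i] := by
    rw [List.getElem_rotate]
    congr 1
    rw [Nat.zero_add, Nat.mod_eq_of_lt hi]
  have h1 : (l.rotate i)[d]'(by omega) = l[j] := by
    rw [List.getElem_rotate]
    congr 1
  have hne : l.rotate i ≠ [] := by
    intro h
    rw [h] at hlen
    simp at hlen
    omega
  obtain ⟨a, t, hat⟩ := List.exists_cons_of_ne_nil hne
  have htl : t.length + 1 = l.length := by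
    rw [← hlen, hat, List.length_cons]
  have ha : a = l[i] := by
    rw [← h0]
    simp only [hat, List.getElem_cons_zero]
  have hdt : d - 1 < t.length := by omega
  have hb : t[d - 1] = l[j] := by
    rw [← h1]
    simp only [hat]
    rw [List.getElem_cons, dif_neg (by omega)]
  have hsplit : t = t.take (d - 1) ++ t[d - 1] :: t.drop (d - 1 + 1) := by
    rw [← List.drop_eq_getElem_cons hdt, List.take_append_drop]
  have h2 := hgap a t[d - 1] (t.take (d - 1)) (t.drop (d - 1 + 1)) i (by
    rw [hat, List.cons_append, ← hsplit]) (by rw [ha]; exact hiS) (by rw [hb]; exact hjS)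
  rw [List.length_take] at h2
  omega

/-- counting gaps: if any two distinct elements of `S` on the cyclic list are at distance at least
`s + 1` then `S.card (s+1) ≤ l.length`. Proof: the arcs of `s + 1` consecutive positions starting at
the positions of the elements of `S` are pairwise disjoint modulo `l.length`. -/
theorem gap_count (l : List V) (hl : l.Nodup) (S : Finset V) (hS : ∀ x ∈ S, x ∈ l)
    (h2 : 2 ≤ S.card) (s : ℕ)
    (hgap : ∀ (u v : V) (l1 l2 : List V) (k : ℕ), l.rotate k = (u :: l1) ++ (v :: l2) → u ∈ S →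
      v ∈ S → s ≤ l1.length) : S.card * (s + 1) ≤ l.length := by
  -- positions
  have hpos : ∀ x ∈ S, ∃ i, ∃ h : i < l.length, l[i] = x := fun x hx =>
    List.mem_iff_getElem.1 (hS x hx)
  have hidx : ∀ x ∈ S, l.idxOf x < l.length := fun x hx => List.idxOf_lt_length_iff.2 (hS x hx)
  have hget : ∀ x (hx : x ∈ S), l[l.idxOf x]'(hidx x hx) = x := fun x hx => List.getElem_idxOf _
  -- two different elements are far apart
  have hfar : ∀ x ∈ S, ∀ y ∈ S, l.idxOf x < l.idxOf y →
      s + 1 ≤ l.idxOf y - l.idxOf x ∧ s + 1 ≤ l.length - (l.idxOf y - l.idxOf x) := by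
    intro x hx y hy hxy
    have hxl := hidx x hx
    have hyl := hidx y hy
    constructor
    · refine gap_dist l S s hgap (l.idxOf x) (l.idxOf y) _ hxl hyl (by omega) (by omega) ?_
        (by rw [hget x hx]; exact hx) (by rw [hget y hy]; exact hy)
      rw [show l.idxOf y - l.idxOf x + l.idxOf x = l.idxOf y by omega]
      exact Nat.mod_eq_of_lt hyl
    · refine gap_dist l S s hgap (l.idxOf y) (l.idxOf x) _ hyl hxl (by omega) (by omega) ?_
        (by rw [hget y hy]; exact hy) (by rw [hget x hx]; exact hx)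
      rw [show l.length - (l.idxOf y - l.idxOf x) + l.idxOf y = l.idxOf x + l.length by omega,
        Nat.add_mod_right]
      exact Nat.mod_eq_of_lt hxl
  have hinjS : ∀ x ∈ S, ∀ y ∈ S, l.idxOf x = l.idxOf y → x = y := by
    intro x hx y hy hxy
    rw [← hget x hx, ← hget y hy]
    congr 1
  obtain ⟨x₀, hx₀, y₀, hy₀, hne₀⟩ := Finset.one_lt_card.1 (show 1 < S.card by omega)
  have hsn : s + 1 < l.length := by
    rcases lt_trichotomy (l.idxOf x₀) (l.idxOf y₀) with h | h | h
    · have := hfar x₀ hx₀ y₀ hy₀ h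
      omega
    · exact absurd (hinjS x₀ hx₀ y₀ hy₀ h) hne₀
    · have := hfar y₀ hy₀ x₀ hx₀ h
      omega
  have hmap : ∀ q ∈ S ×ˢ Finset.range (s + 1),
      (l.idxOf q.1 + q.2) % l.length ∈ Finset.range l.length := by
    intro q _
    rw [Finset.mem_range]
    exact Nat.mod_lt _ (by omega)
  have hmod : ∀ x ∈ S, ∀ a < s + 1, (l.idxOf x + a) % l.length =
      if l.idxOf x + a < l.length then l.idxOf x + a else l.idxOf x + a - l.length := by
    intro x hx a ha
    have hxl := hidx x hx
    split_ifs with h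
    · exact Nat.mod_eq_of_lt h
    · rw [Nat.mod_eq_sub_mod (by omega)]
      exact Nat.mod_eq_of_lt (by omega)
  have hinj : Set.InjOn (fun q : V × ℕ => (l.idxOf q.1 + q.2) % l.length)
      (S ×ˢ Finset.range (s + 1) : Finset (V × ℕ)) := by
    rintro ⟨x, a⟩ hxa ⟨y, b⟩ hyb hab
    rw [Finset.mem_coe, Finset.mem_product, Finset.mem_range] at hxa hyb
    obtain ⟨hx, ha⟩ := hxa
    obtain ⟨hy, hb⟩ := hyb
    simp only at hx ha hy hb
    have hab' : (l.idxOf x + a) % l.length = (l.idxOf y + b) % l.length := hab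
    rw [hmod x hx a ha, hmod y hy b hb] at hab'
    have hxl := hidx x hx
    have hyl := hidx y hy
    rcases lt_trichotomy (l.idxOf x) (l.idxOf y) with h | h | h
    · have := hfar x hx y hy h
      exfalso
      split_ifs at hab' <;> omega
    · have hxy := hinjS x hx y hy h
      have : a = b := by
        split_ifs at hab' <;> omega
      rw [hxy, this]
    · have := hfar y hy x hx h
      exfalso
      split_ifs at hab' <;> omega
  have hcard := Finset.card_le_card_of_injOn _ hmap hinj
  rw [Finset.card_product, Finset.card_range, Finset.card_range] at hcard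
  exact hcard

/-! ## JOB BAS -/

/-- a critical graph contains a triangle (`Crit.tri`), so a longest cycle exists -/
theorem exists_longest {G : SimpleGraph V} {A : Finset V} {a : ℕ} (h : Crit G A a) :
    ∃ l : List V, IsCyc G l ∧ 3 ≤ l.length ∧ (∀ x ∈ l, x ∈ A) ∧
      ∀ l' : List V, IsCyc G l' → 3 ≤ l'.length → (∀ x ∈ l', x ∈ A) → l'.length ≤ l.length := by
  classical
  obtain ⟨P, hP⟩ : ∃ P : ℕ → Prop, ∀ n, P n ↔ ∃ l : List V, IsCyc G l ∧ 3 ≤ l.length ∧
      (∀ x ∈ l, x ∈ A) ∧ l.length = n := ⟨_, fun n => Iff.rfl⟩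
  have hbd : ∀ n, P n → n ≤ A.card := by
    intro n hn
    obtain ⟨l, h1, _, h3, h4⟩ := (hP n).1 hn
    rw [← h4, ← List.toFinset_card_of_nodup h1.1]
    exact Finset.card_le_card fun x hx => h3 x (List.mem_toFinset.1 hx)
  have hex : P 3 := by
    have h1 : 0 < ∑ v ∈ A, dg G A v := by
      rw [← two_mul_ed, h.edges]
      omega
    obtain ⟨v, hv, hv0⟩ : ∃ v ∈ A, 0 < dg G A v := by
      by_contra hcon
      have : ∑ v ∈ A, dg G A v = 0 := Finset.sum_eq_zero fun v hv => by
        by_contra h2
        exact hcon ⟨v, hv, Nat.pos_of_ne_zero h2⟩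
      omega
    obtain ⟨w, hw, hvw⟩ := (dg_pos_iff G A v).1 hv0
    have h2 := h.tri hv hw hvw (A.filter fun x => G.Adj v x ∧ G.Adj w x) (by
      intro x
      rw [Finset.mem_filter])
    have h3 := h.one_le
    obtain ⟨x, hx⟩ := Finset.card_pos.1 (show 0 < (A.filter fun x => G.Adj v x ∧ G.Adj w x).card by
      omega)
    rw [Finset.mem_filter] at hx
    refine (hP 3).2 ⟨[v, w, x], ⟨?_, ?_⟩, by simp, ?_, by simp⟩
    · simp only [List.nodup_cons, List.mem_cons, List.not_mem_nil, or_false, not_or,
        not_false_eq_true, List.nodup_nil, and_true]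
      exact ⟨⟨hvw.ne, hx.2.1.ne⟩, hx.2.2.ne⟩
    · simp only [List.take_succ_cons, List.take_zero, List.cons_append, List.nil_append,
        List.isChain_cons_cons, List.isChain_singleton, and_true]
      exact ⟨hvw, hx.2.2, hx.2.1.symm⟩
    · intro y hy
      simp only [List.mem_cons, List.not_mem_nil, or_false] at hy
      rcases hy with rfl | rfl | rfl
      · exact hv
      · exact hw
      · exact hx.1
  have hg := Nat.findGreatest_spec (P := P) (hbd 3 hex) hex
  obtain ⟨l, h1, h2, h3, h4⟩ := (hP _).1 hg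
  refine ⟨l, h1, h2, h3, ?_⟩
  intro l' h1' h2' h3'
  have h5 : P l'.length := (hP _).2 ⟨l', h1', h2', h3', rfl⟩
  rw [h4]
  exact Nat.le_findGreatest (hbd _ h5) h5

private theorem bas_two {G : SimpleGraph V} {A : Finset V} {a : ℕ} (h : Crit G A a) {C D : Finset V}
    (hC : C ⊆ A) (hC3 : 3 ≤ C.card) (hD : D ⊆ A \ C) (hD0 : D.Nonempty)
    (hsep : ∀ y ∈ D, ∀ z ∈ (A \ C) \ D, ¬ G.Adj y z) : 2 ≤ (nb G C D).card := by
  by_contra hcon
  have hSC : nb G C D ⊆ C := nb_subset G C D
  have hDA : D ⊆ A := fun x hx => (Finset.mem_sdiff.1 (hD hx)).1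
  have hDC : ∀ x ∈ D, x ∉ C := fun x hx => (Finset.mem_sdiff.1 (hD hx)).2
  have h1 := h.twoConn (D ∪ nb G C D) (A \ D) (by
      ext x
      simp only [Finset.mem_union, Finset.mem_sdiff]
      constructor
      · rintro ((hx | hx) | hx)
        · exact hDA hx
        · exact hC (hSC hx)
        · exact hx.1
      · intro hx
        by_cases hxD : x ∈ D
        · exact Or.inl (Or.inl hxD)
        · exact Or.inr ⟨hx, hxD⟩)
    (by
      intro heq
      have h2 : C ⊆ nb G C D := by
        intro x hx
        have h3 : x ∈ D ∪ nb G C D := by rw [heq]; exact hC hx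
        rw [Finset.mem_union] at h3
        rcases h3 with h3 | h3
        · exact absurd hx (hDC x h3)
        · exact h3
      have := Finset.card_le_card h2
      omega)
    (by
      intro heq
      obtain ⟨d, hd⟩ := hD0
      have : d ∈ A \ D := by rw [heq]; exact hDA hd
      exact (Finset.mem_sdiff.1 this).2 hd)
    (by
      have h2 : (D ∪ nb G C D) ∩ (A \ D) ⊆ nb G C D := by
        intro x hx
        simp only [Finset.mem_inter, Finset.mem_union, Finset.mem_sdiff] at hx
        rcases hx.1 with h3 | h3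
        · exact absurd h3 hx.2.2
        · exact h3
      have := Finset.card_le_card h2
      omega)
  obtain ⟨x, hx, y, hy, hxy⟩ := h1
  simp only [Finset.mem_sdiff, Finset.mem_union, not_and, not_or, not_not] at hx hy
  have hxD : x ∈ D := by
    rcases hx.1 with h3 | h3
    · exact h3
    · exact hx.2 (hC (hSC h3))
  by_cases hyC : y ∈ C
  · apply hy.2.2
    rw [mem_nb]
    exact ⟨hyC, x, hxD, hxy.symm⟩
  · exact hsep x hxD y (by
      rw [Finset.mem_sdiff, Finset.mem_sdiff]
      exact ⟨⟨hy.1.1, hyC⟩, hy.2.1⟩) hxy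

private theorem bas_deg {G : SimpleGraph V} {A : Finset V} {a : ℕ} (h : Crit G A a) {C D : Finset V}
    (hC : C ⊆ A) (hD : D ⊆ A \ C) (hsep : ∀ y ∈ D, ∀ z ∈ (A \ C) \ D, ¬ G.Adj y z) {lam : ℕ}
    (hlam : ∀ d ∈ D, dg G C d ≤ lam) {u : V} (hu : u ∈ C) {d : V} (hd : d ∈ nb G D {u}) :
    a + 1 ≤ dg G (nb G D {u}) d + lam := by
  classical
  have hDA : D ⊆ A := fun x hx => (Finset.mem_sdiff.1 (hD hx)).1
  rw [mem_nb] at hd
  obtain ⟨hdD, y, hy, hdu⟩ := hd
  rw [Finset.mem_singleton] at hy
  subst hy
  have h1 := h.tri (hC hu) (hDA hdD) hdu.symm (A.filter fun x => G.Adj y x ∧ G.Adj d x) (by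
      intro x
      rw [Finset.mem_filter])
  have h2 : (A.filter fun x => G.Adj y x ∧ G.Adj d x) ⊆
      (nb G D {y}).filter (fun x => G.Adj d x) ∪ (C.filter (fun x => G.Adj d x)).erase y := by
    intro x hx
    rw [Finset.mem_filter] at hx
    rw [Finset.mem_union]
    by_cases hxC : x ∈ C
    · right
      rw [Finset.mem_erase, Finset.mem_filter]
      exact ⟨hx.2.1.ne', hxC, hx.2.2⟩
    · left
      rw [Finset.mem_filter, mem_nb]
      refine ⟨⟨?_, y, Finset.mem_singleton_self y, hx.2.1.symm⟩, hx.2.2⟩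
      by_contra hxD
      exact hsep d hdD x (by
        rw [Finset.mem_sdiff, Finset.mem_sdiff]
        exact ⟨⟨hx.1, hxC⟩, hxD⟩) hx.2.2
  have h3 := (Finset.card_le_card h2).trans (Finset.card_union_le _ _)
  have h4 : y ∈ C.filter (fun x => G.Adj d x) := Finset.mem_filter.2 ⟨hu, hdu⟩
  rw [Finset.card_erase_of_mem h4] at h3
  have h5 : 0 < (C.filter (fun x => G.Adj d x)).card := Finset.card_pos.2 ⟨y, h4⟩
  have h6 : (C.filter (fun x => G.Adj d x)).card ≤ lam := by
    have := hlam d hdD
    unfold dg at this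
    convert this
  have h7 : ((nb G D {y}).filter (fun x => G.Adj d x)).card = dg G (nb G D {y}) d := by
    unfold dg
    congr
  omega

private theorem bas_arith {a lam S : ℕ} (h1 : 1 ≤ lam) (h2 : lam ≤ S) (h3 : 2 ≤ S) (h4 : lam ≤ a)
    (h5 : S * (a + 2 - lam + 1) ≤ 2 * a + 1) : False := by
  obtain ⟨j, rfl⟩ : ∃ j, a = lam + j := ⟨a - lam, by omega⟩
  have e : lam + j + 2 - lam + 1 = j + 3 := by omega
  rw [e] at h5
  rcases Nat.lt_or_ge lam 2 with h6 | h6
  · have : lam = 1 := by omega
    subst this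
    have := Nat.mul_le_mul_right (j + 3) h3
    omega
  · obtain ⟨i, rfl⟩ : ∃ i, lam = i + 2 := ⟨lam - 2, by omega⟩
    have h7 := Nat.mul_le_mul_right (j + 3) h2
    have h8 : (i + 2) * (j + 3) = i * j + 3 * i + 2 * j + 6 := by ring
    have h9 : 0 ≤ i * j := Nat.zero_le _
    omega

/-- Base case. Suppose not; let `l` be a longest cycle, `ℓ = l.length ≤ 2a+1`
(`cycM_of_isCyc`), `D` a component of `A \ l.toFinset` (nonempty since `2a+2 ≤ A.card`;
`exists_comp`), `S = nb G l.toFinset D`. `2 ≤ S.card` by `TwoConn` for `(D ∪ S, A \ D)`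
(intersection `S`; `A \ D ≠ A`; `D ∪ S ≠ A` because `3 ≤ ℓ`). Let `lam` be the maximum of
`dg G l.toFinset d` over `d ∈ D`; `1 ≤ lam ≤ S.card`. For `u ∈ S` let `U = nb G D {u}` (nonempty).
For `d ∈ U` the edge `u d` is in at least `a` triangles; the third vertex is in `D` (then in `U`) or
on `l` (then it is one of the at most `lam - 1` neighbours of `d` on `l` different from `u`), so
`a ≤ dg G U d + (lam - 1)`.

First take `s0 = 1` in the gap condition: two elements of `S` are never consecutive on `l` (path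
through `D`: `conn_path`), so `gap_count` with `s = 1` gives `2 S.card ≤ ℓ ≤ 2a+1`, `S.card ≤ a`,
`lam ≤ a`. Then take `s = a + 2 - lam ≥ 2`: by `long_path` (with `U = nb G D {u}`,
`W = nb G D {v}`) and `isCyc_replace` and the maximality of `ℓ`, a segment `l1` between `u, v ∈ S`
has at least `s` vertices, so `gap_count` gives `S.card (a + 3 - lam) ≤ ℓ ≤ 2a + 1`. With
`S.card ≥ 2` and `S.card ≥ lam`: if `lam = 1`, `2 (a+2) > 2a+1`; if `2 ≤ lam ≤ a`,
`lam (a + 3 - lam) - (2a+2) = (lam - 2)(a + 1 - lam) ≥ 0`, contradiction. -/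
theorem base_cycle {G : SimpleGraph V} {A : Finset V} {a : ℕ} (h : Crit G A a) :
    CycM G A (2 * a + 2) := by
  classical
  by_contra hno
  obtain ⟨l, hl, hl3, hlA, hmax⟩ := exists_longest h
  have hlen : l.length ≤ 2 * a + 1 := by
    by_contra hcon
    exact hno (cycM_of_isCyc hl hlA (by omega) (by omega))
  have hCA : l.toFinset ⊆ A := fun x hx => hlA x (List.mem_toFinset.1 hx)
  have hCc : l.toFinset.card = l.length := List.toFinset_card_of_nodup hl.1
  have hAcard := h.card
  obtain ⟨x, hx⟩ : (A \ l.toFinset).Nonempty := by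
    rw [← Finset.card_pos, Finset.card_sdiff_of_subset hCA]
    omega
  obtain ⟨D, hDsub, hxD, hDc, hsep⟩ := exists_comp G (A \ l.toFinset) hx
  have hDA : D ⊆ A := fun x hx => (Finset.mem_sdiff.1 (hDsub hx)).1
  have hDl : ∀ x ∈ D, x ∉ l := fun x hx h' =>
    (Finset.mem_sdiff.1 (hDsub hx)).2 (List.mem_toFinset.2 h')
  have hS2 := bas_two h hCA (by omega) hDsub ⟨x, hxD⟩ hsep
  obtain ⟨S, hSdef⟩ : ∃ S, S = nb G l.toFinset D := ⟨_, rfl⟩
  rw [← hSdef] at hS2
  -- the gap inequality
  have hgap : ∀ s : ℕ, 1 ≤ s → (∀ u ∈ S, ∀ x ∈ nb G D {u}, s ≤ dg G (nb G D {u}) x + 1) →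
      S.card * (s + 1) ≤ l.length := by
    intro s hs hdeg
    apply gap_count l hl.1 S _ hS2 s
    · intro u v l1 l2 k hrot hu hv
      by_contra hcon
      have hne : ∀ u ∈ S, (nb G D {u}).Nonempty := by
        intro u hu
        rw [hSdef, mem_nb] at hu
        obtain ⟨_, y, hy, huy⟩ := hu
        exact ⟨y, by rw [mem_nb]; exact ⟨hy, u, Finset.mem_singleton_self u, huy.symm⟩⟩
      obtain ⟨p, hp1, hp2, hp3, hp4, ⟨y1, hy1, hy1'⟩, ⟨y2, hy2, hy2'⟩⟩ :=
        long_path hs hDc (nb_subset G D {u}) (nb_subset G D {v}) (hne u hu) (hne v hv)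
          (hdeg u hu)
      have hcyc := isCyc_rotate hl k
      rw [hrot] at hcyc
      have hmem : ∀ x, x ∈ (u :: l1) ++ (v :: l2) → x ∈ l := by
        intro x hx
        rw [← hrot, List.mem_rotate] at hx
        exact hx
      rw [mem_nb] at hy1 hy2
      obtain ⟨_, u', hu', hyu⟩ := hy1
      obtain ⟨_, v', hv', hyv⟩ := hy2
      rw [Finset.mem_singleton] at hu' hv'
      subst hu' hv'
      have hnew := isCyc_replace hcyc hp1 hp3 (fun x hx hx' => hDl x (hp2 x hx) (hmem x hx'))
        hy1' hy2' hyu.symm hyv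
      have hlenrot : l.length = (u' :: l1 ++ v' :: l2).length := by
        rw [← hrot, List.length_rotate]
      simp only [List.cons_append, List.length_cons, List.length_append] at hlenrot
      have hlen' := hmax _ hnew (by
          simp only [List.cons_append, List.length_cons, List.length_append]
          omega) (by
          intro x hx
          simp only [List.cons_append, List.mem_cons, List.mem_append] at hx
          rcases hx with hx | hx | hx | hx
          · exact hlA x (hmem x (by simp [hx]))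
          · exact hDA (hp2 x hx)
          · exact hlA x (hmem x (by simp [hx]))
          · exact hlA x (hmem x (by simp [hx])))
      simp only [List.cons_append, List.length_cons, List.length_append] at hlen'
      omega
    · intro x hx
      rw [hSdef] at hx
      exact List.mem_toFinset.1 (nb_subset G l.toFinset D hx)
  -- the maximal degree to the cycle
  obtain ⟨d0, hd0, hlam0⟩ := Finset.exists_max_image D (fun d => dg G l.toFinset d) ⟨x, hxD⟩
  obtain ⟨lam, hlamdef⟩ : ∃ lam, lam = dg G l.toFinset d0 := ⟨_, rfl⟩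
  have hlam : ∀ d ∈ D, dg G l.toFinset d ≤ lam := fun d hd => by
    rw [hlamdef]
    exact hlam0 d hd
  have hlamS : lam ≤ S.card := by
    rw [hlamdef, hSdef]
    unfold dg
    apply Finset.card_le_card
    intro y hy
    rw [Finset.mem_filter] at hy
    rw [mem_nb]
    exact ⟨hy.1, d0, hd0, hy.2.symm⟩
  have hlam1 : 1 ≤ lam := by
    obtain ⟨u, hu⟩ := Finset.card_pos.1 (show 0 < S.card by omega)
    rw [hSdef, mem_nb] at hu
    obtain ⟨hul, y, hy, huy⟩ := hu
    refine le_trans ?_ (hlam y hy)
    exact (dg_pos_iff G l.toFinset y).2 ⟨u, hul, huy.symm⟩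
  have hg1 := hgap 1 (le_refl 1) (fun u _ x _ => by omega)
  have hg2 := hgap (a + 2 - lam) (by omega) (fun u hu x hx => by
    have hul : u ∈ l.toFinset := by
      rw [hSdef] at hu
      exact nb_subset G l.toFinset D hu
    have := bas_deg h hCA hDsub hsep hlam hul hx
    omega)
  exact bas_arith hlam1 hlamS hS2 (by omega) (hg2.trans hlen)

end Pool.Agent.TwoRegMinor
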