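import Pool.Agent.Lib.MP_616546_co.Defs

/-!
# MP_616546_co: elementary counting facts
-/

set_option autoImplicit false

namespace Pool.Agent.TwoRegMinor

open Finset

variable {V : Type} [DecidableEq V]

/-! ## JOB CNT1 -/

private theorem cnt1_md_eq (G : SimpleGraph V) (A : Finset V) (v : V) :
    md G A v = dg Gᶜ A v := by
  classical
  unfold md dg
  congr 1
  ext x
  simp only [Finset.mem_filter, SimpleGraph.compl_adj]
  constructor
  · rintro ⟨h1, h2, h3⟩
    exact ⟨h1, h2.symm, h3⟩
  · rintro ⟨h1, h2, h3⟩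
    exact ⟨h1, h2.symm, h3⟩

private theorem cnt1_me_eq (G : SimpleGraph V) (A : Finset V) : me G A = ed Gᶜ A := by
  unfold me ed
  simp only [cnt1_md_eq]

private theorem cnt1_dg_self (G : SimpleGraph V) (A : Finset V) (v : V) :
    dg G (A.erase v) v = dg G A v := by
  classical
  unfold dg
  congr 1
  ext x
  simp only [Finset.mem_filter, Finset.mem_erase]
  constructor
  · rintro ⟨⟨_, h1⟩, h2⟩
    exact ⟨h1, h2⟩
  · rintro ⟨h1, h2⟩
    exact ⟨⟨h2.ne', h1⟩, h2⟩

theorem dg_add_md_mem (G : SimpleGraph V) (A : Finset V) (v : V) (hv : v ∈ A) :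
    dg G A v + md G A v + 1 = A.card := by
  classical
  have h1 : A.filter (fun x => ¬ G.Adj v x) =
      insert v (A.filter (fun x => x ≠ v ∧ ¬ G.Adj v x)) := by
    ext x
    simp only [Finset.mem_filter, Finset.mem_insert]
    constructor
    · rintro ⟨h1, h2⟩
      by_cases hx : x = v
      · exact Or.inl hx
      · exact Or.inr ⟨h1, hx, h2⟩
    · rintro (rfl | ⟨h1, _, h2⟩)
      · exact ⟨hv, fun h => h.ne rfl⟩
      · exact ⟨h1, h2⟩
  have h2 : v ∉ A.filter (fun x => x ≠ v ∧ ¬ G.Adj v x) := by simp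
  have h3 := Finset.card_filter_add_card_filter_not (s := A) (fun x => G.Adj v x)
  rw [h1, Finset.card_insert_of_notMem h2] at h3
  unfold dg md
  omega

theorem dg_add_md_not_mem (G : SimpleGraph V) (A : Finset V) (v : V) (hv : v ∉ A) :
    dg G A v + md G A v = A.card := by
  classical
  have h1 : A.filter (fun x => ¬ G.Adj v x) = A.filter (fun x => x ≠ v ∧ ¬ G.Adj v x) := by
    ext x
    simp only [Finset.mem_filter]
    constructor
    · rintro ⟨h1, h2⟩
      exact ⟨h1, fun h => hv (h ▸ h1), h2⟩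
    · rintro ⟨h1, _, h2⟩
      exact ⟨h1, h2⟩
  have h3 := Finset.card_filter_add_card_filter_not (s := A) (fun x => G.Adj v x)
  rw [h1] at h3
  unfold dg md
  omega

theorem dg_le_card (G : SimpleGraph V) (A : Finset V) (v : V) : dg G A v ≤ A.card := by
  classical
  unfold dg
  exact Finset.card_filter_le _ _

theorem md_le_card (G : SimpleGraph V) (A : Finset V) (v : V) : md G A v ≤ A.card := by
  rw [cnt1_md_eq]
  exact dg_le_card _ _ _

theorem dg_mono (G : SimpleGraph V) {A B : Finset V} (h : A ⊆ B) (v : V) : dg G A v ≤ dg G B v := by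
  classical
  unfold dg
  exact Finset.card_le_card (Finset.filter_subset_filter _ h)

theorem md_mono (G : SimpleGraph V) {A B : Finset V} (h : A ⊆ B) (v : V) : md G A v ≤ md G B v := by
  rw [cnt1_md_eq, cnt1_md_eq]
  exact dg_mono _ h v

theorem dg_union (G : SimpleGraph V) {A B : Finset V} (h : Disjoint A B) (v : V) :
    dg G (A ∪ B) v = dg G A v + dg G B v := by
  classical
  unfold dg
  rw [Finset.filter_union, Finset.card_union_of_disjoint (Finset.disjoint_filter_filter h)]

theorem md_union (G : SimpleGraph V) {A B : Finset V} (h : Disjoint A B) (v : V) :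
    md G (A ∪ B) v = md G A v + md G B v := by
  simp only [cnt1_md_eq]
  exact dg_union _ h v

/-- double counting of the adjacent pairs in `A × B` -/
theorem sum_dg_comm (G : SimpleGraph V) (A B : Finset V) :
    ∑ v ∈ A, dg G B v = ∑ v ∈ B, dg G A v := by
  classical
  unfold dg
  simp only [Finset.card_filter]
  rw [Finset.sum_comm]
  apply Finset.sum_congr rfl
  intro x _
  apply Finset.sum_congr rfl
  intro y _
  simp only [G.adj_comm]

/-- double counting of the nonadjacent pairs of distinct vertices in `A × B` -/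
theorem sum_md_comm (G : SimpleGraph V) (A B : Finset V) :
    ∑ v ∈ A, md G B v = ∑ v ∈ B, md G A v := by
  simp only [cnt1_md_eq]
  exact sum_dg_comm _ A B

theorem dg_pos_iff (G : SimpleGraph V) (A : Finset V) (v : V) :
    0 < dg G A v ↔ ∃ x ∈ A, G.Adj v x := by
  classical
  unfold dg
  rw [Finset.card_pos, Finset.filter_nonempty_iff]

private theorem cnt1_sum_union (G : SimpleGraph V) {A B : Finset V} (h : Disjoint A B) :
    ∑ v ∈ A ∪ B, dg G (A ∪ B) v =
      ∑ v ∈ A, dg G A v + ∑ v ∈ B, dg G B v + 2 * ∑ v ∈ A, dg G B v := by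
  rw [Finset.sum_union h]
  simp only [dg_union G h]
  rw [Finset.sum_add_distrib, Finset.sum_add_distrib, sum_dg_comm G B A]
  ring

private theorem cnt1_sum_single (G : SimpleGraph V) (v : V) :
    ∑ u ∈ ({v} : Finset V), dg G {v} u = 0 := by
  rw [Finset.sum_singleton]
  by_contra h
  obtain ⟨x, hx, hx2⟩ := (dg_pos_iff G {v} v).mp (Nat.pos_of_ne_zero h)
  rw [Finset.mem_singleton] at hx
  exact hx2.ne hx.symm

private theorem cnt1_even (G : SimpleGraph V) (A : Finset V) : Even (∑ v ∈ A, dg G A v) := by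
  induction A using Finset.induction_on with
  | empty => simp
  | insert a s ha ih =>
    have h : Disjoint ({a} : Finset V) s := Finset.disjoint_singleton_left.mpr ha
    rw [Finset.insert_eq, cnt1_sum_union G h, cnt1_sum_single, zero_add]
    exact ih.add (even_two_mul _)

/-- handshake: the degree sum is even (induction on `A` by inserting a vertex, using `sum_dg_comm`) -/
theorem two_mul_ed (G : SimpleGraph V) (A : Finset V) : 2 * ed G A = ∑ v ∈ A, dg G A v := by
  unfold ed
  exact Nat.two_mul_div_two_of_even (cnt1_even G A)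

theorem two_mul_me (G : SimpleGraph V) (A : Finset V) : 2 * me G A = ∑ v ∈ A, md G A v := by
  rw [cnt1_me_eq, two_mul_ed]
  simp only [cnt1_md_eq]

theorem two_ed_add_two_me (G : SimpleGraph V) (A : Finset V) :
    2 * ed G A + 2 * me G A = A.card * (A.card - 1) := by
  rw [two_mul_ed, two_mul_me, ← Finset.sum_add_distrib]
  rw [Finset.sum_congr rfl (g := fun _ => A.card - 1)]
  · rw [Finset.sum_const, smul_eq_mul]
  · intro v hv
    have := dg_add_md_mem G A v hv
    omega

theorem ed_union (G : SimpleGraph V) {A B : Finset V} (h : Disjoint A B) :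
    ed G (A ∪ B) = ed G A + ed G B + ∑ v ∈ A, dg G B v := by
  have h1 := two_mul_ed G (A ∪ B)
  have h2 := two_mul_ed G A
  have h3 := two_mul_ed G B
  rw [cnt1_sum_union G h] at h1
  omega

theorem me_union (G : SimpleGraph V) {A B : Finset V} (h : Disjoint A B) :
    me G (A ∪ B) = me G A + me G B + ∑ v ∈ A, md G B v := by
  simp only [cnt1_me_eq, cnt1_md_eq]
  exact ed_union _ h

theorem ed_insert (G : SimpleGraph V) {A : Finset V} {v : V} (h : v ∉ A) :
    ed G (insert v A) = ed G A + dg G A v := by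
  have h0 : Disjoint ({v} : Finset V) A := Finset.disjoint_singleton_left.mpr h
  have h1 : ed G {v} = 0 := by
    have h2 := two_mul_ed G {v}
    rw [cnt1_sum_single] at h2
    omega
  rw [Finset.insert_eq, ed_union G h0, h1, Finset.sum_singleton]
  ring

theorem me_insert (G : SimpleGraph V) {A : Finset V} {v : V} (h : v ∉ A) :
    me G (insert v A) = me G A + md G A v := by
  simp only [cnt1_me_eq, cnt1_md_eq]
  exact ed_insert _ h

theorem ed_erase (G : SimpleGraph V) {A : Finset V} {v : V} (h : v ∈ A) :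
    ed G A = ed G (A.erase v) + dg G A v := by
  have h1 := ed_insert G (Finset.notMem_erase v A)
  rw [Finset.insert_erase h, cnt1_dg_self] at h1
  exact h1

theorem me_erase (G : SimpleGraph V) {A : Finset V} {v : V} (h : v ∈ A) :
    me G A = me G (A.erase v) + md G A v := by
  simp only [cnt1_me_eq, cnt1_md_eq]
  exact ed_erase _ h

/-! ## JOB CNT2 -/

open Classical in
private theorem cnt2_md_erase (G : SimpleGraph V) {A : Finset V} {x : V} (hx : x ∈ A) (v : V) :
    md G A v = md G (A.erase x) v + (if x ≠ v ∧ ¬ G.Adj v x then 1 else 0) := by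
  unfold md
  split_ifs with h
  · have e : A.filter (fun x => x ≠ v ∧ ¬ G.Adj v x)
        = insert x ((A.erase x).filter (fun x => x ≠ v ∧ ¬ G.Adj v x)) := by
      ext y
      simp only [mem_filter, mem_insert, mem_erase]
      constructor
      · rintro ⟨h1, h2⟩
        by_cases hyx : y = x
        · exact Or.inl hyx
        · exact Or.inr ⟨⟨hyx, h1⟩, h2⟩
      · rintro (rfl | ⟨⟨_, h1⟩, h2⟩)
        · exact ⟨hx, h⟩
        · exact ⟨h1, h2⟩
    rw [e, card_insert_of_notMem (by simp)]
  · have e : A.filter (fun x => x ≠ v ∧ ¬ G.Adj v x)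
        = (A.erase x).filter (fun x => x ≠ v ∧ ¬ G.Adj v x) := by
      ext y
      simp only [mem_filter, mem_erase]
      constructor
      · rintro ⟨h1, h2⟩
        refine ⟨⟨?_, h1⟩, h2⟩
        rintro rfl
        exact h h2
      · rintro ⟨⟨_, h1⟩, h2⟩
        exact ⟨h1, h2⟩
    rw [e, Nat.add_zero]

theorem ed_mono_set (G : SimpleGraph V) {A B : Finset V} (h : A ⊆ B) : ed G A ≤ ed G B := by
  have h1 := ed_union G (A := A) (B := B \ A) disjoint_sdiff
  rw [union_sdiff_of_subset h] at h1
  omega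

theorem me_mono_set (G : SimpleGraph V) {A B : Finset V} (h : A ⊆ B) : me G A ≤ me G B := by
  have h1 := me_union G (A := A) (B := B \ A) disjoint_sdiff
  rw [union_sdiff_of_subset h] at h1
  omega

/-- `A = S ∪ (A \ S)`: the missing edges of `A` are those inside `A \ S` and those hitting `S` -/
theorem me_eq_mi_add (G : SimpleGraph V) {A S : Finset V} (h : S ⊆ A) :
    me G A = mi G A S + me G (A \ S) := by
  have h1 := me_union G (A := S) (B := A \ S) disjoint_sdiff
  rw [union_sdiff_of_subset h] at h1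
  unfold mi
  omega

private theorem cnt2_sdiff_insert (A S : Finset V) (z : V) : A \ insert z S = (A \ S).erase z := by
  ext y
  simp only [mem_sdiff, mem_insert, mem_erase, not_or]
  tauto

/-- inserting a vertex `z` of `A \ S` into `S` adds the missing edges from `z` to `A \ S` -/
theorem mi_insert (G : SimpleGraph V) {A S : Finset V} (h : S ⊆ A) {z : V} (hz : z ∈ A) (hzS : z ∉ S) :
    mi G A (insert z S) = mi G A S + md G (A \ S) z := by
  have h1 := me_eq_mi_add G h
  have h2 := me_eq_mi_add G (A := A) (S := insert z S) (insert_subset hz h)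
  rw [cnt2_sdiff_insert] at h2
  have h3 := me_erase G (A := A \ S) (v := z) (mem_sdiff.2 ⟨hz, hzS⟩)
  omega

/-- inserting two vertices, nonadjacent ones share one missing edge -/
theorem mi_insert_two (G : SimpleGraph V) {A S : Finset V} (h : S ⊆ A) {z z' : V} (hz : z ∈ A)
    (hzS : z ∉ S) (hz' : z' ∈ A) (hzS' : z' ∉ S) (hne : z ≠ z') :
    (G.Adj z z' → mi G A (insert z (insert z' S)) = mi G A S + md G (A \ S) z + md G (A \ S) z') ∧
    (¬ G.Adj z z' →
      mi G A (insert z (insert z' S)) + 1 = mi G A S + md G (A \ S) z + md G (A \ S) z') := by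
  have h1 := mi_insert G (A := A) (S := insert z' S) (insert_subset hz' h) (z := z) hz
    (by simp only [mem_insert, not_or]; exact ⟨hne, hzS⟩)
  have h2 := mi_insert G h hz' hzS'
  rw [cnt2_sdiff_insert] at h1
  have h3 := cnt2_md_erase G (A := A \ S) (x := z') (mem_sdiff.2 ⟨hz', hzS'⟩) z
  constructor
  · intro hadj
    rw [if_neg (by tauto)] at h3
    omega
  · intro hadj
    rw [if_pos ⟨hne.symm, hadj⟩] at h3
    omega

open Classical in
private theorem cnt2_del_other (G : SimpleGraph V) (A : Finset V) (u v w : V) (hwu : w ≠ u)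
    (hwv : w ≠ v) : dg (G.deleteEdges {s(u, v)}) A w = dg G A w := by
  unfold dg
  congr 1
  ext y
  simp only [mem_filter, SimpleGraph.deleteEdges_adj, Set.mem_singleton_iff, Sym2.eq_iff]
  constructor
  · rintro ⟨h1, h2, _⟩
    exact ⟨h1, h2⟩
  · rintro ⟨h1, h2⟩
    refine ⟨h1, h2, ?_⟩
    rintro (⟨h3, _⟩ | ⟨h3, _⟩)
    · exact hwu h3
    · exact hwv h3

open Classical in
private theorem cnt2_del_end (G : SimpleGraph V) (A : Finset V) (u v : V) (hv : v ∈ A)
    (huv : G.Adj u v) : dg (G.deleteEdges {s(u, v)}) A u + 1 = dg G A u := by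
  unfold dg
  have e : A.filter (fun x => G.Adj u x)
      = insert v (A.filter (fun x => (G.deleteEdges {s(u, v)}).Adj u x)) := by
    ext y
    simp only [mem_filter, mem_insert, SimpleGraph.deleteEdges_adj, Set.mem_singleton_iff,
      Sym2.eq_iff]
    constructor
    · rintro ⟨h1, h2⟩
      by_cases hy : y = v
      · exact Or.inl hy
      · refine Or.inr ⟨h1, h2, ?_⟩
        rintro (⟨_, h3⟩ | ⟨h3, h4⟩)
        · exact hy h3
        · exact huv.ne h3
    · rintro (rfl | ⟨h1, h2, _⟩)
      · exact ⟨hv, huv⟩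
      · exact ⟨h1, h2⟩
  rw [e, card_insert_of_notMem]
  · congr!
  · intro h3
    have h4 := (mem_filter.1 h3).2
    rw [SimpleGraph.deleteEdges_adj] at h4
    exact h4.2 rfl

private theorem cnt2_del (G : SimpleGraph V) (A : Finset V) (h : 0 < ed G A) :
    ∃ G' : SimpleGraph V, G' ≤ G ∧ ed G' A + 1 = ed G A := by
  have h2 := two_mul_ed G A
  have hpos : 0 < ∑ v ∈ A, dg G A v := by omega
  obtain ⟨u, hu, hdu⟩ : ∃ u ∈ A, 0 < dg G A u := by
    by_contra hcon
    push Not at hcon
    have : ∑ v ∈ A, dg G A v = 0 := sum_eq_zero (fun v hv => Nat.le_zero.1 (hcon v hv))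
    omega
  obtain ⟨v, hv, huv⟩ := (dg_pos_iff G A u).1 hdu
  refine ⟨G.deleteEdges {s(u, v)}, SimpleGraph.deleteEdges_le _, ?_⟩
  have h3 := two_mul_ed (G.deleteEdges {s(u, v)}) A
  have hne : u ≠ v := huv.ne
  have e1 := cnt2_del_end G A u v hv huv
  have e2 := cnt2_del_end G A v u hu huv.symm
  rw [Sym2.eq_swap] at e2
  have s1 : ∑ w ∈ A, dg G A w = dg G A u + (dg G A v + ∑ w ∈ (A.erase u).erase v, dg G A w) := by
    rw [← add_sum_erase A _ hu, ← add_sum_erase (A.erase u) _ (mem_erase.2 ⟨hne.symm, hv⟩)]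
  have s2 : ∑ w ∈ A, dg (G.deleteEdges {s(u, v)}) A w
      = dg (G.deleteEdges {s(u, v)}) A u + (dg (G.deleteEdges {s(u, v)}) A v
        + ∑ w ∈ (A.erase u).erase v, dg (G.deleteEdges {s(u, v)}) A w) := by
    rw [← add_sum_erase A _ hu, ← add_sum_erase (A.erase u) _ (mem_erase.2 ⟨hne.symm, hv⟩)]
  have s3 : ∑ w ∈ (A.erase u).erase v, dg (G.deleteEdges {s(u, v)}) A w
      = ∑ w ∈ (A.erase u).erase v, dg G A w := by
    apply sum_congr rfl
    intro w hw
    rw [mem_erase, mem_erase] at hw
    exact cnt2_del_other G A u v w hw.2.1 hw.1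
  omega

/-- deleting edges one at a time: every smaller number of edges is attained by a subgraph -/
theorem exists_sub_ed (G : SimpleGraph V) (A : Finset V) (k : ℕ) (hk : k ≤ ed G A) :
    ∃ G' : SimpleGraph V, G' ≤ G ∧ ed G' A = k := by
  obtain ⟨n, hn⟩ : ∃ n, ed G A = k + n := ⟨ed G A - k, by omega⟩
  clear hk
  induction n generalizing G with
  | zero => exact ⟨G, le_rfl, hn⟩
  | succ n ih =>
    obtain ⟨G', hG', he⟩ := cnt2_del G A (by omega)
    obtain ⟨G'', hG'', he'⟩ := ih G' (by omega)
    exact ⟨G'', hG''.trans hG', he'⟩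

theorem dg_mono_graph {G G' : SimpleGraph V} (h : G' ≤ G) (A : Finset V) (v : V) :
    dg G' A v ≤ dg G A v := by
  classical
  unfold dg
  apply card_le_card
  intro x hx
  rw [mem_filter] at hx ⊢
  exact ⟨hx.1, h hx.2⟩

theorem md_anti_graph {G G' : SimpleGraph V} (h : G' ≤ G) (A : Finset V) (v : V) :
    md G A v ≤ md G' A v := by
  classical
  unfold md
  apply card_le_card
  intro x hx
  rw [mem_filter] at hx ⊢
  exact ⟨hx.1, hx.2.1, fun hadj => hx.2.2 (h hadj)⟩

theorem me_anti_graph {G G' : SimpleGraph V} (h : G' ≤ G) (A : Finset V) : me G A ≤ me G' A := by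
  unfold me
  exact Nat.div_le_div_right (sum_le_sum (fun v _ => md_anti_graph h A v))

theorem near_mono_graph {G G' : SimpleGraph V} (h : G' ≤ G) {Q : Finset V} {a : ℕ}
    (hQ : Near G' Q a) : Near G Q a := by
  have h1 := me_anti_graph h Q
  exact ⟨hQ.1, by have := hQ.2; omega⟩

theorem mem_nb (G : SimpleGraph V) (Q P : Finset V) (x : V) :
    x ∈ nb G Q P ↔ x ∈ Q ∧ ∃ y ∈ P, G.Adj x y := by
  classical
  unfold nb
  rw [mem_filter]

theorem nb_subset (G : SimpleGraph V) (Q P : Finset V) : nb G Q P ⊆ Q := by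
  intro x hx
  exact ((mem_nb G Q P x).1 hx).1

theorem nb_mono (G : SimpleGraph V) {Q Q' P P' : Finset V} (hQ : Q ⊆ Q') (hP : P ⊆ P') :
    nb G Q P ⊆ nb G Q' P' := by
  intro x hx
  rw [mem_nb] at hx ⊢
  obtain ⟨h1, y, hy, h2⟩ := hx
  exact ⟨hQ h1, y, hP hy, h2⟩

theorem card_nb_singleton (G : SimpleGraph V) (Q : Finset V) (u : V) :
    (nb G Q {u}).card = dg G Q u := by
  classical
  unfold dg
  congr 1
  ext x
  rw [mem_nb, mem_filter]
  simp only [mem_singleton, exists_eq_left]
  rw [G.adj_comm]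

/-- vertices of `D` without a neighbour outside `B`; here: `D` sends at most one edge per vertex of `D`
and per vertex of `nb G B D` -/
theorem sum_dg_le_card_mul_nb (G : SimpleGraph V) (D B : Finset V) :
    ∑ v ∈ D, dg G B v ≤ D.card * (nb G B D).card := by
  classical
  have h : ∀ v ∈ D, dg G B v ≤ (nb G B D).card := by
    intro v hv
    unfold dg
    apply card_le_card
    intro x hx
    rw [mem_filter] at hx
    rw [mem_nb]
    exact ⟨hx.1, v, hv, hx.2.symm⟩
  calc ∑ v ∈ D, dg G B v ≤ ∑ _v ∈ D, (nb G B D).card := sum_le_sum h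
    _ = D.card * (nb G B D).card := by rw [sum_const, smul_eq_mul]

/-- the degree in a near-clique: at most `a-1` missing edges at each vertex -/
theorem near_md_lt {G : SimpleGraph V} {Q : Finset V} {a : ℕ} (h : Near G Q a) {v : V} (hv : v ∈ Q) :
    md G Q v + 1 ≤ a := by
  have h1 := me_erase G hv
  have h2 := h.2
  omega

theorem near_dg {G : SimpleGraph V} {Q : Finset V} {a : ℕ} (h : Near G Q a) {v : V} (hv : v ∈ Q) :
    a + 1 ≤ dg G Q v := by
  have h1 := near_md_lt h hv
  have h2 := dg_add_md_mem G Q v hv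
  have h3 := h.1
  omega

private theorem cnt2_ed_me {G : SimpleGraph V} {Q : Finset V} {a : ℕ} (h : Q.card = 2 * a + 1) :
    ed G Q + me G Q = a * (2 * a + 1) := by
  have h1 := two_ed_add_two_me G Q
  rw [h, Nat.add_sub_cancel] at h1
  have h2 : (2 * a + 1) * (2 * a) = 2 * (a * (2 * a + 1)) := by ring
  omega

theorem near_ed {G : SimpleGraph V} {Q : Finset V} {a : ℕ} (h : Near G Q a) :
    ed G Q + me G Q = a * (2 * a + 1) := cnt2_ed_me h.1

/-- enough edges on `2a+1` vertices make a near-clique -/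
theorem near_of_ed {G : SimpleGraph V} {Q : Finset V} {a : ℕ} (hc : Q.card = 2 * a + 1)
    (he : 2 * a * a + 1 ≤ ed G Q) : Near G Q a := by
  have h1 := cnt2_ed_me (G := G) hc
  have h2 : a * (2 * a + 1) = 2 * a * a + a := by ring
  exact ⟨hc, by omega⟩

/-- if `2 me(W) ` is positive there is a missing pair -/
theorem exists_missing_of_me_pos {G : SimpleGraph V} {W : Finset V} (h : 0 < me G W) :
    ∃ x ∈ W, ∃ y ∈ W, x ≠ y ∧ ¬ G.Adj x y := by
  classical
  have h1 := two_mul_me G W
  have hpos : 0 < ∑ v ∈ W, md G W v := by omega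
  obtain ⟨u, hu, hdu⟩ : ∃ u ∈ W, 0 < md G W u := by
    by_contra hcon
    push Not at hcon
    have : ∑ v ∈ W, md G W v = 0 := sum_eq_zero (fun v hv => Nat.le_zero.1 (hcon v hv))
    omega
  unfold md at hdu
  obtain ⟨y, hy⟩ := card_pos.1 hdu
  rw [mem_filter] at hy
  exact ⟨u, hu, y, hy.1, hy.2.1.symm, hy.2.2⟩

/-- `me W = me (W - u - v) + md(W-u-v) u + md(W-u-v) v + [u not adjacent to v]` -/
theorem me_erase_two {G : SimpleGraph V} {W : Finset V} {u v : V} (hu : u ∈ W) (hv : v ∈ W)
    (huv : u ≠ v) :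
    me G ((W.erase u).erase v) + md G ((W.erase u).erase v) u + md G ((W.erase u).erase v) v
      ≤ me G W ∧
    (¬ G.Adj u v →
      me G ((W.erase u).erase v) + md G ((W.erase u).erase v) u + md G ((W.erase u).erase v) v + 1
        = me G W) ∧
    (G.Adj u v →
      me G ((W.erase u).erase v) + md G ((W.erase u).erase v) u + md G ((W.erase u).erase v) v
        = me G W) := by
  have hv' : v ∈ W.erase u := mem_erase.2 ⟨huv.symm, hv⟩
  have h1 := me_erase G hu
  have h2 := me_erase G hv'
  have h3 := cnt2_md_erase G hu u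
  rw [if_neg (by tauto)] at h3
  have h4 := cnt2_md_erase G hv' u
  have h5 := cnt2_md_erase G hv' v
  rw [if_neg (by tauto)] at h5
  refine ⟨?_, ?_, ?_⟩
  · omega
  · intro hadj
    rw [if_pos ⟨huv.symm, hadj⟩] at h4
    omega
  · intro hadj
    rw [if_neg (by tauto)] at h4
    omega

end Pool.Agent.TwoRegMinor
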