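import Pool.Agent.Lib.MP_616546_co.Basic

/-!
# MP_616546_co: connected sets
-/

set_option autoImplicit false

namespace Pool.Agent.TwoRegMinor

open Finset

variable {V : Type} [DecidableEq V]

/-! ## JOB CON1 -/

theorem conn_singleton (G : SimpleGraph V) (v : V) : Conn G {v} := by
  refine ⟨singleton_nonempty v, ?_⟩
  intro X hX hne hneq
  exfalso
  rcases subset_singleton_iff.1 hX with h | h
  · exact hne.ne_empty h
  · exact hneq h

theorem conn_union {G : SimpleGraph V} {P Q : Finset V} (hP : Conn G P) (hQ : Conn G Q)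
    (h : (P ∩ Q).Nonempty ∨ adjS G P Q) : Conn G (P ∪ Q) := by
  classical
  obtain ⟨x0, hx0⟩ := hP.1
  refine ⟨⟨x0, mem_union_left _ hx0⟩, ?_⟩
  intro W hW hWne hWneq
  by_cases h1 : (W ∩ P).Nonempty ∧ W ∩ P ≠ P
  · obtain ⟨u, hu, w, hw, huw⟩ := hP.2 (W ∩ P) inter_subset_right h1.1 h1.2
    rw [mem_inter] at hu
    rw [mem_sdiff, mem_inter, not_and] at hw
    refine ⟨u, hu.1, w, ?_, huw⟩
    rw [mem_sdiff, mem_union]
    exact ⟨Or.inl hw.1, fun hc => hw.2 hc hw.1⟩
  by_cases h2 : (W ∩ Q).Nonempty ∧ W ∩ Q ≠ Q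
  · obtain ⟨u, hu, w, hw, huw⟩ := hQ.2 (W ∩ Q) inter_subset_right h2.1 h2.2
    rw [mem_inter] at hu
    rw [mem_sdiff, mem_inter, not_and] at hw
    refine ⟨u, hu.1, w, ?_, huw⟩
    rw [mem_sdiff, mem_union]
    exact ⟨Or.inr hw.1, fun hc => hw.2 hc hw.1⟩
  have h1' : W ∩ P = ∅ ∨ P ⊆ W := by
    by_cases hc : (W ∩ P).Nonempty
    · right
      have : W ∩ P = P := by
        by_contra hne
        exact h1 ⟨hc, hne⟩
      rw [← this]
      exact inter_subset_left
    · left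
      exact not_nonempty_iff_eq_empty.1 hc
  have h2' : W ∩ Q = ∅ ∨ Q ⊆ W := by
    by_cases hc : (W ∩ Q).Nonempty
    · right
      have : W ∩ Q = Q := by
        by_contra hne
        exact h2 ⟨hc, hne⟩
      rw [← this]
      exact inter_subset_left
    · left
      exact not_nonempty_iff_eq_empty.1 hc
  have hn : ∀ (Y : Finset V) (z : V), z ∈ W → W ∩ Y = ∅ → z ∉ Y := by
    intro Y z hz he hzY
    have : z ∈ W ∩ Y := mem_inter.2 ⟨hz, hzY⟩
    rw [he] at this
    exact absurd this (notMem_empty _)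
  rcases h1' with e1 | e1
  · rcases h2' with e2 | e2
    · obtain ⟨z, hz⟩ := hWne
      rcases mem_union.1 (hW hz) with h3 | h3
      · exact absurd h3 (hn P z hz e1)
      · exact absurd h3 (hn Q z hz e2)
    · rcases h with ⟨z, hz⟩ | ⟨x, hx, y, hy, hxy⟩
      · rw [mem_inter] at hz
        exact absurd hz.1 (hn P z (e2 hz.2) e1)
      · refine ⟨y, e2 hy, x, ?_, hxy.symm⟩
        rw [mem_sdiff, mem_union]
        exact ⟨Or.inl hx, fun hc => hn P x hc e1 hx⟩
  · rcases h2' with e2 | e2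
    · rcases h with ⟨z, hz⟩ | ⟨x, hx, y, hy, hxy⟩
      · rw [mem_inter] at hz
        exact absurd hz.2 (hn Q z (e1 hz.1) e2)
      · refine ⟨x, e1 hx, y, ?_, hxy⟩
        rw [mem_sdiff, mem_union]
        exact ⟨Or.inr hy, fun hc => hn Q y hc e2 hy⟩
    · exfalso
      apply hWneq
      exact Subset.antisymm hW (union_subset e1 e2)

theorem conn_pair {G : SimpleGraph V} {u v : V} (h : G.Adj u v) : Conn G {u, v} := by
  have := conn_union (conn_singleton G u) (conn_singleton G v)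
    (Or.inr ⟨u, mem_singleton_self u, v, mem_singleton_self v, h⟩)
  exact this

theorem conn_mono_graph {G G' : SimpleGraph V} (h : G' ≤ G) {P : Finset V} (hP : Conn G' P) :
    Conn G P := by
  refine ⟨hP.1, ?_⟩
  intro X hX hne hneq
  obtain ⟨x, hx, y, hy, hxy⟩ := hP.2 X hX hne hneq
  exact ⟨x, hx, y, hy, h hxy⟩

omit [DecidableEq V] in
/-- a set closed under steps contains everything reachable -/
theorem con1_closed {G : SimpleGraph V} {P X : Finset V}
    (hX : ∀ u ∈ X, ∀ v ∈ P, G.Adj u v → v ∈ X) {x y : V} (hx : x ∈ X)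
    (h : Relation.ReflTransGen (fun u v => G.Adj u v ∧ v ∈ P) x y) : y ∈ X := by
  induction h with
  | refl => exact hx
  | tail _ hbc ih => exact hX _ ih _ hbc.2 hbc.1

/-- reachability form: `P` is connected iff it is nonempty and any two vertices are joined by a walk
in `P` (take for `X` the set of vertices reachable from `x`) -/
theorem conn_iff_reach (G : SimpleGraph V) (P : Finset V) :
    Conn G P ↔ P.Nonempty ∧ ∀ x ∈ P, ∀ y ∈ P,
      Relation.ReflTransGen (fun u v => G.Adj u v ∧ v ∈ P) x y := by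
  classical
  constructor
  · rintro ⟨h1, h2⟩
    refine ⟨h1, ?_⟩
    intro x hx y hy
    by_contra hcon
    let X : Finset V := P.filter
      (fun z => Relation.ReflTransGen (fun u v => G.Adj u v ∧ v ∈ P) x z)
    have hxX : x ∈ X := mem_filter.2 ⟨hx, Relation.ReflTransGen.refl⟩
    have hneq : X ≠ P := by
      intro he
      have : y ∈ X := by rw [he]; exact hy
      exact hcon (mem_filter.1 this).2
    obtain ⟨u, hu, w, hw, huw⟩ := h2 X (filter_subset _ _) ⟨x, hxX⟩ hneq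
    rw [mem_sdiff] at hw
    apply hw.2
    exact mem_filter.2 ⟨hw.1, (mem_filter.1 hu).2.tail ⟨huw, hw.1⟩⟩
  · rintro ⟨h1, h2⟩
    refine ⟨h1, ?_⟩
    intro X hX hne hneq
    by_contra hcon
    push Not at hcon
    obtain ⟨x, hx⟩ := hne
    apply hneq
    apply Subset.antisymm hX
    intro y hy
    refine con1_closed (P := P) ?_ hx (h2 x (hX hx) y hy)
    intro u hu v hv huv
    by_contra hvX
    exact hcon u hu v (mem_sdiff.2 ⟨hv, hvX⟩) huv

theorem conn_iff_induce (G : SimpleGraph V) (P : Finset V) :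
    Conn G P ↔ (G.induce (P : Set V)).Connected := by
  classical
  constructor
  · intro h
    obtain ⟨x0, hx0⟩ := h.1
    have hn : Nonempty (P : Set V) := ⟨⟨x0, hx0⟩⟩
    refine SimpleGraph.Connected.mk ?_
    intro x y
    have h3 := ((conn_iff_reach G P).1 h).2 x x.2 y y.2
    have key : ∀ z, Relation.ReflTransGen (fun u v => G.Adj u v ∧ v ∈ P) (x : V) z →
        ∃ hz : z ∈ (P : Set V), (G.induce (P : Set V)).Reachable x ⟨z, hz⟩ := by
      intro z hz
      induction hz with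
      | refl => exact ⟨x.2, SimpleGraph.Reachable.refl _⟩
      | @tail b c _ hbc ih =>
        obtain ⟨hb, hr⟩ := ih
        refine ⟨hbc.2, hr.trans ?_⟩
        apply SimpleGraph.Adj.reachable
        rw [SimpleGraph.induce_adj]
        exact hbc.1
    obtain ⟨_, hr⟩ := key y h3
    exact hr
  · intro h
    rw [conn_iff_reach]
    obtain ⟨⟨x0, hx0⟩⟩ := h.nonempty
    refine ⟨⟨x0, hx0⟩, ?_⟩
    intro x hx y hy
    have h3 := h.preconnected ⟨x, hx⟩ ⟨y, hy⟩
    rw [SimpleGraph.reachable_iff_reflTransGen] at h3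
    have key : ∀ z : (P : Set V), Relation.ReflTransGen (G.induce (P : Set V)).Adj ⟨x, hx⟩ z →
        Relation.ReflTransGen (fun u v => G.Adj u v ∧ v ∈ P) x (z : V) := by
      intro z hz
      induction hz with
      | refl => exact Relation.ReflTransGen.refl
      | @tail b c _ hbc ih =>
        rw [SimpleGraph.induce_adj] at hbc
        exact ih.tail ⟨hbc, c.2⟩
    exact key ⟨y, hy⟩ h3

/-- a path inside a connected set, as a list of distinct vertices -/
theorem conn_path {G : SimpleGraph V} {P : Finset V} (hP : Conn G P) {x y : V} (hx : x ∈ P)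
    (hy : y ∈ P) :
    ∃ l : List V, l.Nodup ∧ (∀ z ∈ l, z ∈ P) ∧ l.IsChain G.Adj ∧ l.head? = some x ∧
      l.getLast? = some y := by
  classical
  have h := (conn_iff_induce G P).1 hP
  obtain ⟨w⟩ := h.preconnected ⟨x, hx⟩ ⟨y, hy⟩
  have hp := w.toPath.2
  set p := w.toPath.1 with hpdef
  refine ⟨p.support.map Subtype.val, ?_, ?_, ?_, ?_, ?_⟩
  · exact hp.support_nodup.map Subtype.val_injective
  · intro z hz
    rw [List.mem_map] at hz
    obtain ⟨a, _, rfl⟩ := hz
    exact a.2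
  · rw [List.isChain_map]
    exact p.isChain_adj_support.imp (fun a b hab => by
      rw [SimpleGraph.induce_adj] at hab
      exact hab)
  · rw [List.head?_map, List.head?_eq_some_head (SimpleGraph.Walk.support_ne_nil p),
      SimpleGraph.Walk.head_support]
    rfl
  · rw [List.getLast?_map, List.getLast?_eq_some_getLast (SimpleGraph.Walk.support_ne_nil p),
      SimpleGraph.Walk.getLast_support]
    rfl

/-- the component of `x` in `G[W]` -/
theorem exists_comp (G : SimpleGraph V) (W : Finset V) {x : V} (hx : x ∈ W) :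
    ∃ B ⊆ W, x ∈ B ∧ Conn G B ∧ ∀ y ∈ B, ∀ z ∈ W \ B, ¬ G.Adj y z := by
  classical
  let B : Finset V := W.filter (fun z => Relation.ReflTransGen (fun u v => G.Adj u v ∧ v ∈ W) x z)
  have hxB : x ∈ B := mem_filter.2 ⟨hx, Relation.ReflTransGen.refl⟩
  have hstep : ∀ u ∈ B, ∀ v ∈ W, G.Adj u v → v ∈ B := by
    intro u hu v hv huv
    exact mem_filter.2 ⟨hv, (mem_filter.1 hu).2.tail ⟨huv, hv⟩⟩
  have hreach : ∀ z ∈ B, Relation.ReflTransGen (fun u v => G.Adj u v ∧ v ∈ B) x z := by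
    intro z hz
    have h1 := (mem_filter.1 hz).2
    have key : ∀ w, Relation.ReflTransGen (fun u v => G.Adj u v ∧ v ∈ W) x w →
        w ∈ B ∧ Relation.ReflTransGen (fun u v => G.Adj u v ∧ v ∈ B) x w := by
      intro w hw
      induction hw with
      | refl => exact ⟨hxB, Relation.ReflTransGen.refl⟩
      | @tail b c _ hbc ih =>
        have hc : c ∈ B := hstep b ih.1 c hbc.2 hbc.1
        exact ⟨hc, ih.2.tail ⟨hbc.1, hc⟩⟩
    exact (key z h1).2
  refine ⟨B, filter_subset _ _, hxB, ⟨⟨x, hxB⟩, ?_⟩, ?_⟩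
  · intro X hX hne hneq
    by_contra hcon
    push Not at hcon
    by_cases hxX : x ∈ X
    · apply hneq
      apply Subset.antisymm hX
      intro y hy
      refine con1_closed (P := B) ?_ hxX (hreach y hy)
      intro u hu v hv huv
      by_contra hvX
      exact hcon u hu v (mem_sdiff.2 ⟨hv, hvX⟩) huv
    · obtain ⟨y, hy⟩ := hne
      have h4 : y ∈ B \ X := by
        refine con1_closed (P := B) ?_ (mem_sdiff.2 ⟨hxB, hxX⟩) (hreach y (hX hy))
        intro u hu v hv huv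
        rw [mem_sdiff]
        refine ⟨hv, ?_⟩
        intro hvX
        exact hcon v hvX u hu huv.symm
      exact (mem_sdiff.1 h4).2 hy
  · intro y hy z hz hyz
    rw [mem_sdiff] at hz
    exact hz.2 (hstep y hy z hz.1 hyz)

/-- a connected set meeting a component lies in it -/
theorem conn_subset_comp {G : SimpleGraph V} {W B P : Finset V}
    (hB : ∀ y ∈ B, ∀ z ∈ W \ B, ¬ G.Adj y z) (hP : Conn G P) (hPW : P ⊆ W)
    (hm : (P ∩ B).Nonempty) : P ⊆ B := by
  classical
  by_contra hcon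
  have hneq : P ∩ B ≠ P := by
    intro he
    apply hcon
    rw [← he]
    exact inter_subset_right
  obtain ⟨u, hu, w, hw, huw⟩ := hP.2 (P ∩ B) inter_subset_left hm hneq
  rw [mem_sdiff, mem_inter, not_and] at hw
  exact hB u (mem_inter.1 hu).2 w (mem_sdiff.2 ⟨hPW hw.1, hw.2 hw.1⟩) huw

/-! ## JOB CON2 -/

/-- removing a vertex `x0` of a connected set `B` and splitting off the component `Y` of `y` in
`B - x0`: both parts are connected and adjacent. (Every component of `B - x0` has a neighbour `x0`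
since `B` is connected; `B \ Y` is `x0` together with the other components.) -/
theorem conn_split {G : SimpleGraph V} {B : Finset V} (hB : Conn G B) {x0 y : V} (hx0 : x0 ∈ B)
    (hy : y ∈ B) (hne : y ≠ x0) :
    ∃ X Y : Finset V, X ∪ Y = B ∧ Disjoint X Y ∧ x0 ∈ X ∧ y ∈ Y ∧ Conn G X ∧ Conn G Y ∧
      adjS G X Y := by
  obtain ⟨Y, hYW, hyY, hYc, hYn⟩ := exists_comp G (B.erase x0) (x := y)
    (mem_erase.2 ⟨hne, hy⟩)
  have hYB : Y ⊆ B := hYW.trans (erase_subset _ _)
  have hx0Y : x0 ∉ Y := fun h => (mem_erase.1 (hYW h)).1 rfl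
  -- cuts of `B \ Y` avoiding `x0`
  have key : ∀ Z ⊆ B \ Y, Z.Nonempty → x0 ∉ Z → ∃ z ∈ Z, ∃ w ∈ (B \ Y) \ Z, G.Adj z w := by
    intro Z hZ hZn hZx
    have hZB : Z ⊆ B := hZ.trans sdiff_subset
    obtain ⟨z, hz, w, hw, hzw⟩ := hB.2 Z hZB hZn (fun h => hZx (h ▸ hx0))
    have hw' := mem_sdiff.1 hw
    have hz' := mem_sdiff.1 (hZ hz)
    refine ⟨z, hz, w, mem_sdiff.2 ⟨mem_sdiff.2 ⟨hw'.1, fun hwY => ?_⟩, hw'.2⟩, hzw⟩
    refine hYn w hwY z (mem_sdiff.2 ⟨mem_erase.2 ⟨?_, hz'.1⟩, hz'.2⟩) hzw.symm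
    rintro rfl
    exact hZx hz
  refine ⟨B \ Y, Y, sdiff_union_of_subset hYB, sdiff_disjoint, mem_sdiff.2 ⟨hx0, hx0Y⟩, hyY,
    ⟨⟨x0, mem_sdiff.2 ⟨hx0, hx0Y⟩⟩, ?_⟩, hYc, ?_⟩
  · intro Z hZ hZn hZne
    by_cases hx : x0 ∈ Z
    · have h1 : ((B \ Y) \ Z).Nonempty := by
        rw [sdiff_nonempty]
        intro h
        exact hZne (Subset.antisymm hZ h)
      obtain ⟨z, hz, w, hw, hzw⟩ := key ((B \ Y) \ Z) sdiff_subset h1
        (fun h => (mem_sdiff.1 h).2 hx)
      have hw' := mem_sdiff.1 hw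
      have hwZ : w ∈ Z := by
        by_contra h
        exact hw'.2 (mem_sdiff.2 ⟨hw'.1, h⟩)
      exact ⟨w, hwZ, z, hz, hzw.symm⟩
    · exact key Z hZ hZn hx
  · obtain ⟨x, hx, w, hw, hxw⟩ := hB.2 (B \ Y) sdiff_subset ⟨x0, mem_sdiff.2 ⟨hx0, hx0Y⟩⟩
      (fun h => (mem_sdiff.1 (h.symm ▸ hy : y ∈ B \ Y)).2 hyY)
    have hw' := mem_sdiff.1 hw
    refine ⟨x, hx, w, ?_, hxw⟩
    by_contra h
    exact hw'.2 (mem_sdiff.2 ⟨hw'.1, h⟩)

/-- Lemma N, topological part. Let `B` be the component of `A \ F` containing `P` (`exists_comp`,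
`conn_subset_comp`), `2 ≤ B.card`. `TwoConn` with `(B, A \ B)`: an edge from some `x0 ∈ B` to
`A \ B`, its other end lies in `F` since `B` is a component of `A \ F`. `TwoConn` with
`({x0} ∪ (A \ B), B)` (intersection `{x0}`): an edge between `B \ {x0}` (vertex `y`) and `A \ B`,
again with the other end in `F`. Now `conn_split`. A vertex of `F` adjacent to `P` is adjacent to
`B = X ∪ Y`. -/
theorem split_branch {G : SimpleGraph V} {A F P : Finset V} (h2 : TwoConn G A) (hF : F ⊆ A)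
    (hF1 : F.Nonempty) (hP : P ⊆ A \ F) (hP2 : 2 ≤ P.card) (hPc : Conn G P) :
    ∃ X Y : Finset V, X ⊆ A \ F ∧ Y ⊆ A \ F ∧ Disjoint X Y ∧ Conn G X ∧ Conn G Y ∧ adjS G X Y ∧
      (nb G F X).Nonempty ∧ (nb G F Y).Nonempty ∧ nb G F P ⊆ nb G F X ∪ nb G F Y := by
  obtain ⟨p, hp⟩ := hPc.1
  obtain ⟨B, hBW, hpB, hBc, hBn⟩ := exists_comp G (A \ F) (x := p) (hP hp)
  have hPB : P ⊆ B := conn_subset_comp hBn hPc hP ⟨p, mem_inter.2 ⟨hp, hpB⟩⟩
  have hBA : B ⊆ A := hBW.trans sdiff_subset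
  have hBF : ∀ z ∈ B, z ∉ F := fun z hz => (mem_sdiff.1 (hBW hz)).2
  have hB2 : 2 ≤ B.card := hP2.trans (card_le_card hPB)
  obtain ⟨f, hf⟩ := hF1
  have hBneA : B ≠ A := fun h => hBF f (h ▸ hF hf) hf
  -- neighbours of `B` in `A \ B` lie in `F`
  have hout : ∀ x ∈ B, ∀ z ∈ A, z ∉ B → G.Adj x z → z ∈ F := by
    intro x hx z hz hzB hxz
    by_contra hzF
    exact hBn x hx z (mem_sdiff.2 ⟨mem_sdiff.2 ⟨hz, hzF⟩, hzB⟩) hxz
  obtain ⟨x0, hx0, z, hz, hx0z⟩ := h2 B (A \ B) (union_sdiff_of_subset hBA) hBneA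
    (fun h => (mem_sdiff.1 (h.symm ▸ hBA hpB : p ∈ A \ B)).2 hpB) (by simp)
  have hx0B : x0 ∈ B := (mem_sdiff.1 hx0).1
  have hz1 := mem_sdiff.1 (mem_sdiff.1 hz).1
  have hzF : z ∈ F := hout x0 hx0B z hz1.1 hz1.2 hx0z
  obtain ⟨b, hb, hbx⟩ : ∃ b ∈ B, b ≠ x0 := by
    obtain ⟨b, hb, hne⟩ := exists_mem_ne (show 1 < B.card by omega) x0
    exact ⟨b, hb, hne⟩
  obtain ⟨u, hu, y, hy, huy⟩ := h2 (insert x0 (A \ B)) B (by
      ext v
      simp only [mem_union, mem_insert, mem_sdiff]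
      constructor
      · rintro ((rfl | h) | h)
        · exact hBA hx0B
        · exact h.1
        · exact hBA h
      · intro h
        by_cases hv : v ∈ B
        · exact Or.inr hv
        · exact Or.inl (Or.inr ⟨h, hv⟩))
    (by
      intro h
      have h1 : b ∈ insert x0 (A \ B) := h.symm ▸ hBA hb
      rcases mem_insert.1 h1 with h2 | h2
      · exact hbx h2
      · exact (mem_sdiff.1 h2).2 hb)
    hBneA
    (by
      refine (card_le_card (?_ : insert x0 (A \ B) ∩ B ⊆ {x0})).trans (by simp)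
      intro v hv
      obtain ⟨hv1, hv2⟩ := mem_inter.1 hv
      rcases mem_insert.1 hv1 with h2 | h2
      · exact mem_singleton.2 h2
      · exact absurd hv2 (mem_sdiff.1 h2).2)
  obtain ⟨hy1, hy2⟩ := mem_sdiff.1 hy
  obtain ⟨hu1, hu2⟩ := mem_sdiff.1 hu
  have hyx : y ≠ x0 := by
    rintro rfl
    exact hy2 (mem_insert_self _ _)
  have huA : u ∈ A := by
    rcases mem_insert.1 hu1 with h2 | h2
    · exact absurd (h2 ▸ hx0B) hu2
    · exact (mem_sdiff.1 h2).1
  have huF : u ∈ F := hout y hy1 u huA hu2 huy.symm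
  obtain ⟨X, Y, hXY, hd, hx0X, hyY, hXc, hYc, hadj⟩ := conn_split hBc hx0B hy1 hyx
  have hXB : X ⊆ B := hXY ▸ subset_union_left
  have hYB : Y ⊆ B := hXY ▸ subset_union_right
  refine ⟨X, Y, hXB.trans hBW, hYB.trans hBW, hd, hXc, hYc, hadj,
    ⟨z, (mem_nb G F X z).2 ⟨hzF, x0, hx0X, hx0z.symm⟩⟩,
    ⟨u, (mem_nb G F Y u).2 ⟨huF, y, hyY, huy⟩⟩, ?_⟩
  intro v hv
  obtain ⟨hvF, w, hw, hvw⟩ := (mem_nb G F P v).1 hv
  have hwB : w ∈ X ∪ Y := hXY.symm ▸ hPB hw
  rcases mem_union.1 hwB with h | h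
  · exact mem_union_left _ ((mem_nb G F X v).2 ⟨hvF, w, h, hvw⟩)
  · exact mem_union_right _ ((mem_nb G F Y v).2 ⟨hvF, w, h, hvw⟩)

/-- a near-clique is connected: a cut set `X` of size `i` with no edge to `Q \ X` gives
`i (2a+1-i) ≥ 2a` missing edges; or use `near_dg`: two vertices of degree `≥ a+1` in `2a+1` vertices
are equal, adjacent or have a common neighbour -/
theorem near_conn {G : SimpleGraph V} {Q : Finset V} {a : ℕ} (h : Near G Q a) : Conn G Q := by
  have hQ : Q.card = 2 * a + 1 := h.1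
  refine ⟨card_pos.1 (by omega), ?_⟩
  intro X hX hXn hXQ
  by_contra hno
  push Not at hno
  obtain ⟨x, hx⟩ := hXn
  obtain ⟨y, hy⟩ : (Q \ X).Nonempty := by
    rw [sdiff_nonempty]
    intro h'
    exact hXQ (Subset.antisymm hX h')
  have hb : ∀ (v : V) (S : Finset V), (∀ w ∈ Q, G.Adj v w → w ∈ S) → dg G Q v ≤ S.card := by
    intro v S hS
    classical
    unfold dg
    refine card_le_card ?_
    intro w hw
    obtain ⟨h1, h2⟩ := mem_filter.1 hw
    exact hS w h1 h2
  have h1 := near_dg h (hX hx)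
  have h2 := near_dg h (mem_sdiff.1 hy).1
  have h3 := hb x X (fun w hw hxw => by
    by_contra hwX
    exact hno x hx w (mem_sdiff.2 ⟨hw, hwX⟩) hxw)
  have h4 := hb y (Q \ X) (fun w hw hyw => by
    by_contra hwX
    have hwX' : w ∈ X := by
      by_contra h5
      exact hwX (mem_sdiff.2 ⟨hw, h5⟩)
    exact hno w hwX' y hy hyw.symm)
  have h5 : (Q \ X).card + X.card = Q.card := card_sdiff_add_card_eq_card hX
  omega

end Pool.Agent.TwoRegMinor
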