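import Pool.Agent.Lib.MP_616546_co.Emb

/-!
# MP_616546_co: the minor-minimal counterexample
-/

set_option autoImplicit false

namespace Pool.Agent.TwoRegMinor

open Finset

variable {V : Type} [DecidableEq V]

/-! ## JOB RED -/

/-- edges of a union: for `X ∪ Y = A` without edges between `X \ Y` and `Y \ X`,
`ed A + ed (X ∩ Y) = ed X + ed Y` -/
theorem ed_sep {G : SimpleGraph V} {A X Y : Finset V} (h : X ∪ Y = A)
    (hn : ∀ x ∈ X \ Y, ∀ y ∈ Y \ X, ¬ G.Adj x y) : ed G A + ed G (X ∩ Y) = ed G X + ed G Y := by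
  have h1 : A = (X \ Y) ∪ Y := by rw [← h, sdiff_union_self_eq_union]
  have h2 : X = (X \ Y) ∪ (X ∩ Y) := (sdiff_union_inter X Y).symm
  have h3 : Y = (X ∩ Y) ∪ (Y \ X) := by
    rw [inter_comm, union_comm, sdiff_union_inter]
  have h4 : ∀ v ∈ X \ Y, dg G Y v = dg G (X ∩ Y) v := by
    intro v hv
    have h5 : dg G (Y \ X) v = 0 := by
      by_contra h6
      obtain ⟨x, hx, hx2⟩ := (dg_pos_iff G _ v).1 (Nat.pos_of_ne_zero h6)
      exact hn v hv x hx hx2
    have h7 : dg G ((X ∩ Y) ∪ (Y \ X)) v = dg G (X ∩ Y) v + dg G (Y \ X) v := by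
      apply dg_union
      rw [disjoint_left]
      intro z hz hz'
      exact (mem_sdiff.1 hz').2 (mem_inter.1 hz).1
    rw [← h3, h5, add_zero] at h7
    exact h7
  have h8 : ed G A = ed G (X \ Y) + ed G Y + ∑ v ∈ X \ Y, dg G Y v := by
    conv_lhs => rw [h1]
    exact ed_union G sdiff_disjoint
  have h9 : ed G X = ed G (X \ Y) + ed G (X ∩ Y) + ∑ v ∈ X \ Y, dg G (X ∩ Y) v := by
    conv_lhs => rw [h2]
    apply ed_union
    rw [disjoint_left]
    intro z hz hz'
    exact (mem_sdiff.1 hz).2 (mem_inter.1 hz').2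
  have h10 : ∑ v ∈ X \ Y, dg G Y v = ∑ v ∈ X \ Y, dg G (X ∩ Y) v := sum_congr rfl h4
  omega

/-- if `ed A = a (n-1) + 1` and all proper subsets have at most `a (|B|-1)` edges then there is no
separation of order at most one -/
theorem twoConn_of_sub {G : SimpleGraph V} {A : Finset V} {a : ℕ}
    (edges : ed G A = a * (A.card - 1) + 1)
    (sub : ∀ B, B ⊆ A → B ≠ A → ed G B ≤ a * (B.card - 1)) : TwoConn G A := by
  intro X Y hXY hX hY hc
  by_contra hcon
  push Not at hcon
  have hsep := ed_sep hXY hcon
  have hXA : X ⊆ A := by rw [← hXY]; exact subset_union_left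
  have hYA : Y ⊆ A := by rw [← hXY]; exact subset_union_right
  have h1 := sub X hXA hX
  have h2 := sub Y hYA hY
  have h3 := card_union_add_card_inter X Y
  rw [hXY] at h3
  have hX0 : 1 ≤ X.card := by
    rw [Nat.one_le_iff_ne_zero, Ne, card_eq_zero]
    rintro rfl
    rw [empty_union] at hXY
    exact hY hXY
  have hY0 : 1 ≤ Y.card := by
    rw [Nat.one_le_iff_ne_zero, Ne, card_eq_zero]
    rintro rfl
    rw [union_empty] at hXY
    exact hX hXY
  have h4 : a * (X.card - 1) + a * (Y.card - 1) ≤ a * (A.card - 1) := by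
    rw [← mul_add]
    exact Nat.mul_le_mul_left _ (by omega)
  omega

/-- `ed A > a (n-1)` forces `n ≥ 2a + 1`, and `n = 2a+1` gives a near-clique -/
theorem card_of_ed {G : SimpleGraph V} {A : Finset V} {a : ℕ} (ha : 1 ≤ a)
    (h : a * (A.card - 1) < ed G A) : 2 * a + 2 ≤ A.card ∨ Near G A a := by
  have h1 := two_ed_add_two_me G A
  have h2 : 1 ≤ A.card := by
    rw [Nat.one_le_iff_ne_zero]
    intro h0
    rw [card_eq_zero] at h0
    subst h0
    simp [ed] at h
  have h3 : 2 * a + 1 ≤ A.card := by
    by_contra h4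
    have h5 : A.card ≤ 2 * a := by omega
    have h6 : A.card * (A.card - 1) ≤ 2 * a * (A.card - 1) := Nat.mul_le_mul_right _ h5
    have h7 : 2 * a * (A.card - 1) = 2 * (a * (A.card - 1)) := by ring
    omega
  rcases Nat.lt_or_ge (2 * a + 1) A.card with h4 | h4
  · left; omega
  · right
    have h5 : A.card = 2 * a + 1 := by omega
    apply near_of_ed h5
    rw [h5, Nat.add_sub_cancel] at h
    have h6 : 2 * a * a = a * (2 * a) := by ring
    omega

/-- Reduction to critical graphs. Strong induction on `A.card` for the property `TP`. Suppose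
`(G0, A)` is a counterexample with `A.card` minimal; pass to a subgraph `G` with
`ed G A = a (n-1) + 1` (`exists_sub_ed`; still no packing and no near-clique). `card_of_ed` gives
`2a+2 ≤ A.card`. A proper subset `B` with more than `a (|B|-1)` edges contains a packing or a
near-clique by induction: impossible. So `TwoConn` holds. For `P ⊆ A` connected with `2 ≤ P.card`
choose `p ∈ P`; if `con` fails then by `ed_contr` and `card_contr` the contracted graph on
`insert p (A \ P)` has more than `a (n'-1)` edges and fewer vertices, so it has a packing (then `G`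
has, `pack_lift`) or a near-clique `Q` (then `hN` gives a packing). Hence `Crit G A a` and `hC`
gives the packing. -/
theorem tp_of_crit (L : List ℕ) (a : ℕ) (ha : 1 ≤ a)
    (hN : ∀ (G : SimpleGraph V) (A P : Finset V) (p : V), TwoConn G A → P ⊆ A → 2 ≤ P.card →
      Conn G P → p ∈ P → (∃ Q ⊆ insert p (A \ P), Near (contr G P p) Q a) →
      (¬ ∃ Q ⊆ A, Near G Q a) → Pack G L A)
    (hC : ∀ (G : SimpleGraph V) (A : Finset V), Crit G A a → Pack G L A) : TP V L a := by
  have key : ∀ (n : ℕ) (G : SimpleGraph V) (A : Finset V), A.card = n →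
      a * (A.card - 1) < ed G A → Pack G L A ∨ ∃ Q ⊆ A, Near G Q a := by
    intro n
    induction n using Nat.strong_induction_on with
    | _ n ih =>
      intro G₀ A hn h₀
      by_contra hcon
      push Not at hcon
      obtain ⟨hnp, hnn⟩ := hcon
      obtain ⟨G, hG, hGe⟩ := exists_sub_ed G₀ A (a * (A.card - 1) + 1) h₀
      have hnp' : ¬ Pack G L A := fun h => hnp (pack_mono_graph hG h)
      have hnn' : ¬ ∃ Q ⊆ A, Near G Q a := by
        rintro ⟨Q, hQ, hQ2⟩
        exact hnn Q hQ (near_mono_graph hG hQ2)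
      have hcard : 2 * a + 2 ≤ A.card := by
        rcases card_of_ed ha (by rw [hGe]; omega) with h | h
        · exact h
        · exact absurd ⟨A, Subset.refl _, h⟩ hnn'
      have hsub : ∀ B, B ⊆ A → B ≠ A → ed G B ≤ a * (B.card - 1) := by
        intro B hB hBA
        by_contra h
        have hlt : B.card < n := by
          rw [← hn]
          exact card_lt_card (ssubset_of_subset_of_ne hB hBA)
        rcases ih B.card hlt G B rfl (not_le.1 h) with h1 | ⟨Q, hQ, hQ2⟩
        · exact hnp' (pack_mono hB h1)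
        · exact hnn' ⟨Q, hQ.trans hB, hQ2⟩
      have htwo := twoConn_of_sub hGe hsub
      refine hnp' (hC G A ⟨ha, hcard, hGe, hsub, fun P hP hP2 hPc => ?_⟩)
      by_contra hlt
      obtain ⟨p, hp⟩ := hPc.1
      have h1 := ed_contr G hP hp
      have h2 := card_contr hP hp
      have h3 : P.card ≤ A.card := card_le_card hP
      have h4 : (insert p (A \ P)).card - 1 = A.card - P.card := by omega
      have h5 : a * (A.card - 1) = a * (A.card - P.card) + a * (P.card - 1) := by
        rw [← mul_add]
        congr 1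
        omega
      have h6 : a * ((insert p (A \ P)).card - 1) < ed (contr G P p) (insert p (A \ P)) := by
        rw [h4]
        omega
      rcases ih (insert p (A \ P)).card (by omega) (contr G P p) _ rfl h6 with h7 | h7
      · exact hnp' (pack_lift hP hp hPc h7)
      · exact hnp' (hN G A P p htwo hP hP2 hPc hp h7 hnn')
  intro G A h
  exact key A.card G A rfl h

/-! ## JOB RED2 -/

theorem red2_me_congr {G G' : SimpleGraph V} {S : Finset V}
    (h : ∀ x ∈ S, ∀ y ∈ S, G.Adj x y ↔ G'.Adj x y) : me G S = me G' S := by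
  classical
  rw [me, me]
  congr 1
  refine sum_congr rfl fun v hv => ?_
  rw [md, md]
  congr 1
  ext x
  simp only [mem_filter]
  refine and_congr_right fun hx => and_congr_right fun _ => not_congr (h v hv x hx)

theorem red2_adj_contr {G : SimpleGraph V} {P : Finset V} {p x y : V} (hp : p ∈ P) (hx : x ∉ P)
    (hy : y ∉ P) : (contr G P p).Adj x y ↔ G.Adj x y := by
  have hxp : x ≠ p := fun h => hx (h ▸ hp)
  have hyp : y ≠ p := fun h => hy (h ▸ hp)
  constructor
  · rintro ⟨_, u, hu, v, hv, huv⟩
    rw [fib, if_neg hxp, mem_singleton] at hu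
    rw [fib, if_neg hyp, mem_singleton] at hv
    rw [hu, hv] at huv
    exact huv
  · intro h
    refine ⟨h.ne, x, ?_, y, ?_, h⟩
    · rw [fib, if_neg hxp, mem_singleton]
    · rw [fib, if_neg hyp, mem_singleton]

theorem red2_adj_contr_p {G : SimpleGraph V} {P : Finset V} {p y : V} (hp : p ∈ P)
    (hy : y ∉ P) : (contr G P p).Adj p y ↔ ∃ u ∈ P, G.Adj y u := by
  have hyp : y ≠ p := fun h => hy (h ▸ hp)
  constructor
  · rintro ⟨_, u, hu, v, hv, huv⟩
    rw [fib, if_pos rfl] at hu
    rw [fib, if_neg hyp, mem_singleton] at hv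
    rw [hv] at huv
    exact ⟨u, hu, huv.symm⟩
  · rintro ⟨u, hu, huv⟩
    refine ⟨hyp.symm, u, ?_, y, ?_, huv.symm⟩
    · rw [fib, if_pos rfl]; exact hu
    · rw [fib, if_neg hyp, mem_singleton]

/-- the hypothesis `hN` of `tp_of_crit` for admissible lists: `Q` must contain `p` (otherwise `Q` is a
near-clique of `G`, as `contr` agrees with `G` outside `P`); `F = Q.erase p` has `2a` vertices, lies
in `A \ P`, `me G F = me (contr) F` and the non-neighbours of `p` in `F` in the contraction are the
vertices of `F` without a neighbour in `P`: `me (contr) Q = me G F + (F \ nb G F P).card`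
(`me_erase`). Apply `lemmaN`. -/
theorem hN_adm {ms : List ℕ} {a : ℕ} (ha : 1 ≤ a) (hms : Adm ms a) (G : SimpleGraph V)
    (A P : Finset V) (p : V) (h2 : TwoConn G A) (hP : P ⊆ A) (hP2 : 2 ≤ P.card)
    (hPc : Conn G P) (hp : p ∈ P) (hQ : ∃ Q ⊆ insert p (A \ P), Near (contr G P p) Q a)
    (hno : ¬ ∃ Q ⊆ A, Near G Q a) : Pk G ms A := by
  obtain ⟨Q, hQ, hQn⟩ := hQ
  have hpQ : p ∈ Q := by
    by_contra hpQ
    have h1 : Q ⊆ A \ P := by
      intro x hx
      rcases mem_insert.1 (hQ hx) with rfl | h
      · exact absurd hx hpQ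
      · exact h
    apply hno
    refine ⟨Q, h1.trans sdiff_subset, hQn.1, ?_⟩
    have h3 := hQn.2
    rwa [red2_me_congr (G' := G) (fun x hx y hy => red2_adj_contr hp (mem_sdiff.1 (h1 hx)).2
      (mem_sdiff.1 (h1 hy)).2)] at h3
  have hFP : Q.erase p ⊆ A \ P := by
    intro x hx
    rw [mem_erase] at hx
    rcases mem_insert.1 (hQ hx.2) with h | h
    · exact absurd h hx.1
    · exact h
  have h1 := me_erase (contr G P p) hpQ
  rw [red2_me_congr (G' := G) (fun x hx y hy => red2_adj_contr hp (mem_sdiff.1 (hFP hx)).2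
      (mem_sdiff.1 (hFP hy)).2)] at h1
  have h3 : md (contr G P p) Q p = (Q.erase p \ nb G (Q.erase p) P).card := by
    classical
    rw [md]
    congr 1
    ext x
    simp only [mem_filter, mem_sdiff, mem_nb]
    constructor
    · rintro ⟨hxQ, hxp, hx2⟩
      have hx : x ∈ Q.erase p := mem_erase.2 ⟨hxp, hxQ⟩
      refine ⟨hx, fun h => hx2 ?_⟩
      rw [red2_adj_contr_p hp (mem_sdiff.1 (hFP hx)).2]
      exact h.2
    · rintro ⟨hx, hx2⟩
      refine ⟨(mem_erase.1 hx).2, (mem_erase.1 hx).1, fun h => hx2 ⟨hx, ?_⟩⟩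
      rw [red2_adj_contr_p hp (mem_sdiff.1 (hFP hx)).2] at h
      exact h
  refine lemmaN ha hms h2 (hFP.trans sdiff_subset) ?_ ?_ hP2 hPc (F := Q.erase p) ?_
  · rw [card_erase_of_mem hpQ, hQn.1]; omega
  · intro x hx
    rw [mem_sdiff]
    exact ⟨hP hx, fun h => (mem_sdiff.1 (hFP h)).2 hx⟩
  · have h4 := hQn.2
    omega

/-- the hypothesis `hN` for a list of total length at most `2a+1`: `near_pack` in the contraction and
`pack_lift` -/
theorem hN_small {L : List ℕ} {a : ℕ} (hL : ∀ r ∈ L, 3 ≤ r) (hs : L.sum ≤ 2 * a + 1)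
    (G : SimpleGraph V) (A P : Finset V) (p : V) (hP : P ⊆ A) (hPc : Conn G P) (hp : p ∈ P)
    (hQ : ∃ Q ⊆ insert p (A \ P), Near (contr G P p) Q a) : Pack G L A := by
  obtain ⟨Q, hQ, hQn⟩ := hQ
  exact pack_lift hP hp hPc (pack_mono hQ (near_pack hQn L hL hs))

/-! ## JOB CRT: consequences of criticality -/

/-- minimum degree (from `sub` applied to `A.erase v` and `ed_erase`) -/
theorem Crit.deg {G : SimpleGraph V} {A : Finset V} {a : ℕ} (h : Crit G A a) {v : V} (hv : v ∈ A) :
    a + 1 ≤ dg G A v := by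
  have h1 := h.sub (A.erase v) (erase_subset _ _) (fun h1 => by
    have := h1 ▸ hv
    exact (mem_erase.1 (h1.symm ▸ hv : v ∈ A.erase v)).1 rfl)
  have h2 := ed_erase G hv
  have h3 := h.edges
  have h4 := h.card
  rw [card_erase_of_mem hv] at h1
  have h5 : a * (A.card - 1) = a * (A.card - 1 - 1) + a := by
    have h6 : A.card - 1 = (A.card - 1 - 1) + 1 := by omega
    conv_lhs => rw [h6]
    ring
  omega

/-- `md + dg + 1 = n` -/
theorem Crit.md_le {G : SimpleGraph V} {A : Finset V} {a K : ℕ} (h : Crit G A a)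
    (hK : A.card = 2 * a + K) {v : V} (hv : v ∈ A) : md G A v + 2 ≤ a + K := by
  have h1 := h.deg hv
  have h2 := dg_add_md_mem G A v hv
  omega

/-- every edge lies in at least `a` triangles (`con` with `P = {v, w}`) -/
theorem Crit.tri {G : SimpleGraph V} {A : Finset V} {a : ℕ} (h : Crit G A a) {v w : V}
    (hv : v ∈ A) (hw : w ∈ A) (hvw : G.Adj v w) (T : Finset V)
    (hT : ∀ x, x ∈ T ↔ x ∈ A ∧ G.Adj v x ∧ G.Adj w x) : a ≤ T.card := by
  classical
  have hPA : ({v, w} : Finset V) ⊆ A := by
    intro x hx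
    rw [mem_insert, mem_singleton] at hx
    rcases hx with rfl | rfl
    · exact hv
    · exact hw
  have hc : ({v, w} : Finset V).card = 2 := card_pair hvw.ne
  have h1 := h.con {v, w} hPA (by rw [hc]) (conn_pair hvw)
  have h2 : ed G {v, w} ≤ 1 := by
    have h3 := two_ed_add_two_me G ({v, w} : Finset V)
    rw [hc] at h3
    omega
  have h3 : ∑ u ∈ A \ {v, w}, (dg G {v, w} u - 1) ≤ T.card := by
    calc ∑ u ∈ A \ {v, w}, (dg G {v, w} u - 1) ≤
        ∑ u ∈ A \ {v, w}, (if u ∈ T then 1 else 0) := by
          apply sum_le_sum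
          intro u hu
          have h4 : dg G {v, w} u ≤ 2 := by
            rw [← hc]; exact dg_le_card G _ u
          by_cases h5 : u ∈ T
          · rw [if_pos h5]; omega
          · rw [if_neg h5]
            have h6 : dg G {v, w} u ≤ 1 := by
              by_contra h7
              have h8 : dg G {v, w} u = ({v, w} : Finset V).card := by rw [hc]; omega
              rw [dg] at h8
              have h9 := filter_card_eq h8
              apply h5
              rw [hT]
              refine ⟨(mem_sdiff.1 hu).1, (h9 v ?_).symm, (h9 w ?_).symm⟩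
              · rw [mem_insert]; left; rfl
              · rw [mem_insert, mem_singleton]; right; rfl
            omega
      _ = ((A \ {v, w}).filter (fun u => u ∈ T)).card := by
          rw [card_filter]
      _ ≤ T.card := by
          apply card_le_card
          intro x hx
          exact (mem_filter.1 hx).2
  rw [hc] at h1
  have h4 : a * (2 - 1) = a := by ring
  omega

/-- edges incident with `D` (from `sub` applied to `A \ D` and `ed_union`) -/
theorem Crit.inc {G : SimpleGraph V} {A : Finset V} {a : ℕ} (h : Crit G A a) {D : Finset V}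
    (hD : D ⊆ A) (hDA : D ≠ A) (hD0 : D.Nonempty) :
    a * D.card + 1 ≤ ed G D + ∑ v ∈ D, dg G (A \ D) v := by
  have h1 := h.sub (A \ D) sdiff_subset (fun h1 => by
    obtain ⟨x, hx⟩ := hD0
    have h2 : x ∈ A \ D := by rw [h1]; exact hD hx
    exact (mem_sdiff.1 h2).2 hx)
  have h2 : ed G A = ed G D + ed G (A \ D) + ∑ v ∈ D, dg G (A \ D) v := by
    conv_lhs => rw [← union_sdiff_of_subset hD]
    exact ed_union G disjoint_sdiff
  have h3 := h.edges
  have h4 : (A \ D).card = A.card - D.card := card_sdiff_of_subset hD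
  have h5 : D.card < A.card := card_lt_card (ssubset_of_subset_of_ne hD hDA)
  rw [h4] at h1
  have h6 : a * (A.card - 1) = a * (A.card - D.card - 1) + a * D.card := by
    rw [← mul_add]
    congr 1
    omega
  omega

theorem Crit.twoConn {G : SimpleGraph V} {A : Finset V} {a : ℕ} (h : Crit G A a) :
    TwoConn G A := by
  exact twoConn_of_sub h.edges h.sub

/-- STAR: a near-clique `Q` with `2s+1` vertices has at least `a - s` outside vertices with at least
two neighbours in `Q`. (`con` with `P = Q`, `near_conn`, `near_ed`: the sum of `(dg Q u - 1)` is at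
least `2 a s + 1 - s (2s+1)`, each term is at most `2s`.) -/
theorem Crit.star {G : SimpleGraph V} {A : Finset V} {a s : ℕ} (h : Crit G A a) {Q : Finset V}
    (hQ : Q ⊆ A) (hn : Near G Q s) (U : Finset V)
    (hU : ∀ u, u ∈ A → u ∉ Q → 2 ≤ dg G Q u → u ∈ U) : a ≤ s + U.card := by
  classical
  have hs : 1 ≤ s := by
    have := hn.2
    omega
  have hcard := hn.1
  have h1 := h.con Q hQ (by rw [hcard]; omega) (near_conn hn)
  have h2 := near_ed hn
  have h3 : ∑ u ∈ A \ Q, (dg G Q u - 1) ≤ U.card * (2 * s) := by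
    calc ∑ u ∈ A \ Q, (dg G Q u - 1) ≤
        ∑ u ∈ A \ Q, (if u ∈ U then 2 * s else 0) := by
          apply sum_le_sum
          intro u hu
          rw [mem_sdiff] at hu
          have h4 : dg G Q u ≤ 2 * s + 1 := by
            rw [← hcard]; exact dg_le_card G _ u
          by_cases h5 : u ∈ U
          · rw [if_pos h5]; omega
          · rw [if_neg h5]
            have h6 : ¬ 2 ≤ dg G Q u := fun h7 => h5 (hU u hu.1 hu.2 h7)
            omega
      _ = ((A \ Q).filter (fun u => u ∈ U)).card * (2 * s) := by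
          rw [← sum_filter, sum_const, smul_eq_mul]
      _ ≤ U.card * (2 * s) := by
          apply Nat.mul_le_mul_right
          apply card_le_card
          intro x hx
          exact (mem_filter.1 hx).2
  rw [hcard, Nat.add_sub_cancel] at h1
  by_contra hcon
  have h7 : s + U.card + 1 ≤ a := by omega
  have h8 : (s + U.card + 1) * (2 * s) ≤ a * (2 * s) := Nat.mul_le_mul_right _ h7
  have h9 : (s + U.card + 1) * (2 * s) = s * (2 * s + 1) + U.card * (2 * s) + s := by ring
  omega

end Pool.Agent.TwoRegMinor
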