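import Mathlib

/-!
# MP_616546_co: average degree forcing a 2-regular minor. Definitions

`V` is a fixed vertex type, graphs are `G : SimpleGraph V`, all counting is done inside finsets `A : Finset V`.
-/

set_option autoImplicit false

namespace Pool.Agent.TwoRegMinor

open Finset

variable {V : Type} [DecidableEq V]

open Classical in
/-- number of neighbours of `v` in `A` -/
noncomputable def dg (G : SimpleGraph V) (A : Finset V) (v : V) : ℕ :=
  (A.filter (fun x => G.Adj v x)).card

open Classical in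
/-- number of non-neighbours of `v` in `A` (other than `v` itself) -/
noncomputable def md (G : SimpleGraph V) (A : Finset V) (v : V) : ℕ :=
  (A.filter (fun x => x ≠ v ∧ ¬ G.Adj v x)).card

/-- number of edges of `G[A]` -/
noncomputable def ed (G : SimpleGraph V) (A : Finset V) : ℕ := (∑ v ∈ A, dg G A v) / 2

/-- number of missing edges of `G[A]` -/
noncomputable def me (G : SimpleGraph V) (A : Finset V) : ℕ := (∑ v ∈ A, md G A v) / 2

/-- number of missing edges of `G[A]` with at least one end in `S` (used for `S ⊆ A`) -/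
noncomputable def mi (G : SimpleGraph V) (A S : Finset V) : ℕ := me G S + ∑ v ∈ S, md G (A \ S) v

/-- `P` is nonempty and induces a connected subgraph (no-cut form) -/
def Conn (G : SimpleGraph V) (P : Finset V) : Prop :=
  P.Nonempty ∧ ∀ X ⊆ P, X.Nonempty → X ≠ P → ∃ x ∈ X, ∃ y ∈ P \ X, G.Adj x y

/-- there is an edge between `X` and `Y` -/
def adjS (G : SimpleGraph V) (X Y : Finset V) : Prop := ∃ x ∈ X, ∃ y ∈ Y, G.Adj x y

/-- the cycle of length `r` is a minor of `G[A]`: a cyclic list of `r` disjoint connected branch sets -/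
def CycM (G : SimpleGraph V) (A : Finset V) (r : ℕ) : Prop :=
  ∃ l : List (Finset V), l.length = r ∧ (∀ X ∈ l, X ⊆ A ∧ Conn G X) ∧ l.Pairwise Disjoint ∧
    (l ++ l.take 1).IsChain (adjS G)

/-- `G[A]` contains disjoint cycle minors of the lengths in the list -/
def Pack (G : SimpleGraph V) : List ℕ → Finset V → Prop
  | [], _ => True
  | r :: L, A => ∃ B ⊆ A, CycM G B r ∧ Pack G L (A \ B)

/-- disjoint cycle minors of the even lengths `2 m`, `m ∈ ms` -/
def Pk (G : SimpleGraph V) (ms : List ℕ) (A : Finset V) : Prop := Pack G (ms.map (fun m => 2 * m)) A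

/-- near-clique: `2a+1` vertices and at most `a-1` missing edges -/
def Near (G : SimpleGraph V) (Q : Finset V) (a : ℕ) : Prop := Q.card = 2 * a + 1 ∧ me G Q + 1 ≤ a

/-- the main property: more than `a(n-1)` edges force the packing or a near-clique -/
def TP (V : Type) [DecidableEq V] (L : List ℕ) (a : ℕ) : Prop :=
  ∀ (G : SimpleGraph V) (A : Finset V), a * (A.card - 1) < ed G A →
    Pack G L A ∨ ∃ Q ⊆ A, Near G Q a

/-- admissible list of half-lengths -/
def Adm (ms : List ℕ) (a : ℕ) : Prop :=
  (∀ m ∈ ms, 2 ≤ m) ∧ ms.sum = a + 1 ∧ (ms.length = 1 ∨ ∃ m ∈ ms, 3 ≤ m)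

open Classical in
/-- the set of vertices of `Q` with a neighbour in `P` -/
noncomputable def nb (G : SimpleGraph V) (Q P : Finset V) : Finset V :=
  Q.filter (fun x => ∃ y ∈ P, G.Adj x y)

/-- `G[A]` has no separation of order at most one -/
def TwoConn (G : SimpleGraph V) (A : Finset V) : Prop :=
  ∀ X Y : Finset V, X ∪ Y = A → X ≠ A → Y ≠ A → (X ∩ Y).card ≤ 1 →
    ∃ x ∈ X \ Y, ∃ y ∈ Y \ X, G.Adj x y

/-- the fibre of the contraction of `P` onto `p` -/
def fib (P : Finset V) (p x : V) : Finset V := if x = p then P else {x}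

/-- contraction of `P` onto `p` (in place; used on the vertex set `insert p (A \ P)`) -/
def contr (G : SimpleGraph V) (P : Finset V) (p : V) : SimpleGraph V where
  Adj x y := x ≠ y ∧ adjS G (fib P p x) (fib P p y)
  symm := ⟨fun _ _ h => ⟨h.1.symm, by
    obtain ⟨u, hu, v, hv, huv⟩ := h.2
    exact ⟨v, hv, u, hu, huv.symm⟩⟩⟩
  loopless := ⟨fun _ h => h.1 rfl⟩

/-- properties of the minor-minimal counterexample -/
structure Crit (G : SimpleGraph V) (A : Finset V) (a : ℕ) : Prop where
  one_le : 1 ≤ a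
  card : 2 * a + 2 ≤ A.card
  edges : ed G A = a * (A.card - 1) + 1
  sub : ∀ B, B ⊆ A → B ≠ A → ed G B ≤ a * (B.card - 1)
  con : ∀ P, P ⊆ A → 2 ≤ P.card → Conn G P →
    a * (P.card - 1) + 1 ≤ ed G P + ∑ u ∈ A \ P, (dg G P u - 1)

/-- a cycle (or an edge, for length 2) as a list of distinct vertices -/
def IsCyc (G : SimpleGraph V) (l : List V) : Prop := l.Nodup ∧ (l ++ l.take 1).IsChain G.Adj

/-- a cycle (or an edge, for `N = 2`) as an `N`-periodic function on `ℕ` -/
structure PC (G : SimpleGraph V) (N : ℕ) (c : ℕ → V) : Prop where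
  per : ∀ j, c (j + N) = c j
  inj : ∀ i < N, ∀ j < N, c i = c j → i = j
  adj : ∀ j, G.Adj (c j) (c (j + 1))

end Pool.Agent.TwoRegMinor
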