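import Pool.Agent.Lib.MP_616546_co.PackB

/-!
# MP_616546_co: the averaging lemma and embeddings into near-cliques
-/

set_option autoImplicit false

namespace Pool.Agent.TwoRegMinor

open Finset

variable {V : Type} [DecidableEq V]

/-! ## JOB AVG -/

theorem avg_perm2 {W : Type} [DecidableEq W] {x y x' y' : W} (h : x ≠ y) (h' : x' ≠ y') :
    ∃ τ : W ≃ W, τ x = x' ∧ τ y = y' := by
  have h1 : Equiv.swap x x' y ≠ x' := by
    intro h2
    have h3 : Equiv.swap x x' y = Equiv.swap x x' x := by rw [h2, Equiv.swap_apply_left]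
    exact h ((Equiv.swap x x').injective h3).symm
  refine ⟨(Equiv.swap x x').trans (Equiv.swap (Equiv.swap x x' y) y'), ?_, ?_⟩
  · rw [Equiv.trans_apply, Equiv.swap_apply_left, Equiv.swap_apply_of_ne_of_ne h1.symm h']
  · rw [Equiv.trans_apply, Equiv.swap_apply_left]

theorem avg_count2 {P W : Type} [Fintype P] [Fintype W] [DecidableEq P] [DecidableEq W]
    (hcard : Fintype.card P = Fintype.card W) {i j : P} (hij : i ≠ j) {x y : W} (hxy : x ≠ y) :
    Fintype.card P * (Fintype.card P - 1) *
      (univ.filter (fun φ : P ≃ W => φ i = x ∧ φ j = y)).card = Fintype.card (P ≃ W) := by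
  have h1 : ∀ x' y' : W, x' ≠ y' → (univ.filter (fun φ : P ≃ W => φ i = x' ∧ φ j = y')).card =
      (univ.filter (fun φ : P ≃ W => φ i = x ∧ φ j = y)).card := by
    intro x' y' h'
    obtain ⟨τ, hτ1, hτ2⟩ := avg_perm2 h' hxy
    refine Finset.card_bij (fun φ _ => φ.trans τ) ?_ ?_ ?_
    · intro φ hφ
      rw [mem_filter] at hφ ⊢
      exact ⟨mem_univ _, by rw [Equiv.trans_apply, hφ.2.1, hτ1],
        by rw [Equiv.trans_apply, hφ.2.2, hτ2]⟩
    · intro φ _ ψ _ h
      ext z
      have := congrArg (fun e : P ≃ W => e z) h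
      exact τ.injective this
    · intro ψ hψ
      rw [mem_filter] at hψ
      refine ⟨ψ.trans τ.symm, ?_, ?_⟩
      · rw [mem_filter]
        refine ⟨mem_univ _, ?_, ?_⟩
        · rw [Equiv.trans_apply, hψ.2.1, Equiv.symm_apply_eq, hτ1]
        · rw [Equiv.trans_apply, hψ.2.2, Equiv.symm_apply_eq, hτ2]
      · ext z
        simp
  have h2 : (univ : Finset (P ≃ W)).card =
      ∑ p ∈ (univ : Finset W).offDiag, (univ.filter (fun φ : P ≃ W => (φ i, φ j) = p)).card := by
    apply Finset.card_eq_sum_card_fiberwise
    intro φ _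
    rw [mem_coe, mem_offDiag]
    exact ⟨mem_univ _, mem_univ _, fun h => hij (φ.injective h)⟩
  rw [Finset.card_univ] at h2
  rw [h2]
  have h3 : ∀ p ∈ (univ : Finset W).offDiag,
      (univ.filter (fun φ : P ≃ W => (φ i, φ j) = p)).card =
      (univ.filter (fun φ : P ≃ W => φ i = x ∧ φ j = y)).card := by
    intro p hp
    rw [mem_offDiag] at hp
    rw [← h1 p.1 p.2 hp.2.2]
    congr 1
    ext φ
    simp [Prod.ext_iff]
  rw [Finset.sum_congr rfl h3, Finset.sum_const, smul_eq_mul, offDiag_card, Finset.card_univ, hcard,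
    Nat.mul_sub_one]

theorem avg_count1 {P W : Type} [Fintype P] [Fintype W] [DecidableEq P] [DecidableEq W]
    (hcard : Fintype.card P = Fintype.card W) (i : P) (x : W) :
    Fintype.card P * (univ.filter (fun φ : P ≃ W => φ i = x)).card = Fintype.card (P ≃ W) := by
  have h1 : ∀ x' : W, (univ.filter (fun φ : P ≃ W => φ i = x')).card =
      (univ.filter (fun φ : P ≃ W => φ i = x)).card := by
    intro x'
    refine Finset.card_bij (fun φ _ => φ.trans (Equiv.swap x' x)) ?_ ?_ ?_
    · intro φ hφ
      rw [mem_filter] at hφ ⊢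
      exact ⟨mem_univ _, by rw [Equiv.trans_apply, hφ.2, Equiv.swap_apply_left]⟩
    · intro φ _ ψ _ h
      ext z
      have := congrArg (fun e : P ≃ W => e z) h
      exact (Equiv.swap x' x).injective this
    · intro ψ hψ
      rw [mem_filter] at hψ
      refine ⟨ψ.trans (Equiv.swap x' x).symm, ?_, ?_⟩
      · rw [mem_filter]
        refine ⟨mem_univ _, ?_⟩
        rw [Equiv.trans_apply, hψ.2, Equiv.symm_apply_eq, Equiv.swap_apply_left]
      · ext z
        simp
  have h2 : (univ : Finset (P ≃ W)).card =
      ∑ p ∈ (univ : Finset W), (univ.filter (fun φ : P ≃ W => φ i = p)).card :=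
    Finset.card_eq_sum_card_fiberwise fun φ _ => mem_coe.2 (mem_univ _)
  rw [Finset.card_univ] at h2
  rw [h2, Finset.sum_congr rfl (fun p _ => h1 p), Finset.sum_const, smul_eq_mul, Finset.card_univ,
    hcard]

/-- Averaging lemma. `P` positions, `W` vertices, equally many; `E` pairs of distinct positions,
`B` pairs of distinct vertices (forbidden as images of a pair in `E`), `F` forbidden
(position, vertex) pairs. Proof: let `ν = card P`, count triples. For `i ≠ j` and `x ≠ y` the number
`N` of bijections with `φ i = x, φ j = y` does not depend on `x, y` (compose with a permutation of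
`W` taking `(x,y)` to `(x',y')`) and `N ν (ν-1) = ν!`; similarly the number of bijections with
`φ i = w` is `ν!/ν = N (ν-1)`. So the number of pairs (bijection, violated constraint) is at most
`E.card B.card N + F.card (ν-1) N < ν (ν-1) N = ν!`, so some bijection violates nothing. -/
theorem averaging {P W : Type} [Fintype P] [Fintype W] [DecidableEq P] [DecidableEq W]
    (hcard : Fintype.card P = Fintype.card W) (E : Finset (P × P)) (B : Finset (W × W))
    (F : Finset (P × W)) (hE : ∀ e ∈ E, e.1 ≠ e.2) (hB : ∀ b ∈ B, b.1 ≠ b.2)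
    (h : E.card * B.card + F.card * (Fintype.card P - 1)
      < Fintype.card P * (Fintype.card P - 1)) :
    ∃ φ : P ≃ W, (∀ e ∈ E, (φ e.1, φ e.2) ∉ B) ∧ ∀ f ∈ F, φ f.1 ≠ f.2 := by
  by_contra hcon
  push Not at hcon
  have hT : 0 < Fintype.card (P ≃ W) := by
    have : Nonempty (P ≃ W) := ⟨Fintype.equivOfCardEq hcard⟩
    exact Fintype.card_pos
  have h1 : (univ : Finset (P ≃ W)) ⊆
      ((E ×ˢ B).biUnion fun p => univ.filter (fun φ : P ≃ W => φ p.1.1 = p.2.1 ∧ φ p.1.2 = p.2.2)) ∪
        (F.biUnion fun f => univ.filter (fun φ : P ≃ W => φ f.1 = f.2)) := by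
    intro φ _
    rw [mem_union]
    by_cases h2 : ∀ e ∈ E, (φ e.1, φ e.2) ∉ B
    · right
      obtain ⟨f, hf, hf2⟩ := hcon φ h2
      rw [mem_biUnion]
      exact ⟨f, hf, by rw [mem_filter]; exact ⟨mem_univ _, hf2⟩⟩
    · left
      push Not at h2
      obtain ⟨e, he, he2⟩ := h2
      rw [mem_biUnion]
      exact ⟨(e, (φ e.1, φ e.2)), by rw [mem_product]; exact ⟨he, he2⟩,
        by rw [mem_filter]; exact ⟨mem_univ _, rfl, rfl⟩⟩
  have h2 := (Finset.card_le_card h1).trans (Finset.card_union_le _ _)
  rw [Finset.card_univ] at h2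
  have h3 : (Fintype.card P * (Fintype.card P - 1)) *
      ((E ×ˢ B).biUnion fun p =>
        univ.filter (fun φ : P ≃ W => φ p.1.1 = p.2.1 ∧ φ p.1.2 = p.2.2)).card ≤
      E.card * B.card * Fintype.card (P ≃ W) := by
    refine (Nat.mul_le_mul_left _ Finset.card_biUnion_le).trans ?_
    have h5 : ∀ p ∈ E ×ˢ B, Fintype.card P * (Fintype.card P - 1) *
        (univ.filter (fun φ : P ≃ W => φ p.1.1 = p.2.1 ∧ φ p.1.2 = p.2.2)).card =
        Fintype.card (P ≃ W) := by
      intro p hp
      rw [mem_product] at hp
      exact avg_count2 hcard (hE _ hp.1) (hB _ hp.2)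
    rw [Finset.mul_sum, Finset.sum_congr rfl h5, Finset.sum_const, smul_eq_mul, card_product]
  have h4 : (Fintype.card P * (Fintype.card P - 1)) *
      (F.biUnion fun f => univ.filter (fun φ : P ≃ W => φ f.1 = f.2)).card ≤
      F.card * (Fintype.card P - 1) * Fintype.card (P ≃ W) := by
    refine (Nat.mul_le_mul_left _ Finset.card_biUnion_le).trans ?_
    rw [Finset.mul_sum, Finset.sum_congr rfl (fun f _ => by
      rw [mul_comm (Fintype.card P) (Fintype.card P - 1), mul_assoc, avg_count1 hcard]),
      Finset.sum_const, smul_eq_mul, mul_assoc]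
  have h5 : (Fintype.card P * (Fintype.card P - 1)) * Fintype.card (P ≃ W) ≤
      (E.card * B.card + F.card * (Fintype.card P - 1)) * Fintype.card (P ≃ W) := by
    calc (Fintype.card P * (Fintype.card P - 1)) * Fintype.card (P ≃ W) ≤
        (Fintype.card P * (Fintype.card P - 1)) * (_ + _) := Nat.mul_le_mul_left _ h2
      _ ≤ _ := by
        rw [mul_add, add_mul]
        exact Nat.add_le_add h3 h4
  exact absurd (Nat.le_of_mul_le_mul_right h5 hT) (not_le.2 h)

/-! ## JOB BLK -/

/-- cyclic adjacency positions of consecutive blocks of lengths `L`, starting at position `s` -/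
def blocks : List ℕ → ℕ → List (ℕ × ℕ)
  | [], _ => []
  | r :: L, s => (List.range r).map (fun i => (s + i, s + (i + 1) % r)) ++ blocks L (s + r)

theorem blocks_length (L : List ℕ) (s : ℕ) : (blocks L s).length = L.sum := by
  induction L generalizing s with
  | nil => rfl
  | cons r L ih =>
    rw [blocks, List.length_append, List.length_map, List.length_range, ih, List.sum_cons]

theorem blocks_ne (L : List ℕ) (hL : ∀ r ∈ L, 2 ≤ r) (s : ℕ) : ∀ p ∈ blocks L s, p.1 ≠ p.2 := by
  induction L generalizing s with
  | nil => intro p hp; rw [blocks] at hp; simp at hp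
  | cons r L ih =>
    intro p hp
    rw [blocks, List.mem_append, List.mem_map] at hp
    rcases hp with ⟨i, hi, rfl⟩ | hp
    · rw [List.mem_range] at hi
      have h2 := hL r (List.mem_cons_self)
      change s + i ≠ s + (i + 1) % r
      rcases Nat.lt_or_ge (i + 1) r with h | h
      · rw [Nat.mod_eq_of_lt h]; omega
      · have h3 : i + 1 = r := by omega
        rw [h3, Nat.mod_self]; omega
    · exact ih (fun r hr => hL r (List.mem_cons_of_mem _ hr)) (s + r) p hp

theorem blocks_mem (L : List ℕ) (s : ℕ) :
    ∀ p ∈ blocks L s, s ≤ p.1 ∧ p.1 < s + L.sum ∧ s ≤ p.2 ∧ p.2 < s + L.sum := by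
  induction L generalizing s with
  | nil => intro p hp; rw [blocks] at hp; simp at hp
  | cons r L ih =>
    intro p hp
    rw [blocks, List.mem_append, List.mem_map] at hp
    rw [List.sum_cons]
    rcases hp with ⟨i, hi, rfl⟩ | hp
    · rw [List.mem_range] at hi
      have h3 : (i + 1) % r < r := Nat.mod_lt _ (by omega)
      change s ≤ s + i ∧ s + i < s + (r + L.sum) ∧ s ≤ s + (i + 1) % r ∧
        s + (i + 1) % r < s + (r + L.sum)
      omega
    · have := ih (s + r) p hp
      omega

theorem blk_isCyc {G : SimpleGraph V} {r s : ℕ} (hr : 1 ≤ r) {g : ℕ → V}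
    (hinj : ∀ i j, i < r → j < r → g (s + i) = g (s + j) → i = j)
    (hadj : ∀ i < r, G.Adj (g (s + i)) (g (s + (i + 1) % r))) :
    IsCyc G ((List.range r).map fun i => g (s + i)) := by
  refine ⟨?_, ?_⟩
  · rw [List.nodup_map_iff_inj_on List.nodup_range]
    intro i hi j hj h
    exact hinj i j (List.mem_range.1 hi) (List.mem_range.1 hj) h
  · have hlen : (((List.range r).map fun i => g (s + i)) ++
        ((List.range r).map fun i => g (s + i)).take 1).length = r + 1 := by
      rw [List.length_append, List.length_take, List.length_map, List.length_range]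
      omega
    have hget : ∀ i (h : i < (((List.range r).map fun i => g (s + i)) ++
        ((List.range r).map fun i => g (s + i)).take 1).length),
        (((List.range r).map fun i => g (s + i)) ++
          ((List.range r).map fun i => g (s + i)).take 1)[i] = g (s + i % r) := by
      intro i h
      have h' : i < r + 1 := by rw [← hlen]; exact h
      rcases Nat.lt_or_ge i r with h1 | h1
      · rw [List.getElem_append_left (by rw [List.length_map, List.length_range]; exact h1),
          List.getElem_map, List.getElem_range, Nat.mod_eq_of_lt h1]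
      · have h2 : i = r := by omega
        subst h2
        rw [List.getElem_append_right (by rw [List.length_map, List.length_range]),
          List.getElem_take, List.getElem_map, List.getElem_range, Nat.mod_self]
        congr 2
        rw [List.length_map, List.length_range]
        omega
    rw [List.isChain_iff_getElem]
    intro i hi
    rw [hget, hget]
    rw [hlen] at hi
    have h1 : i < r := by omega
    rw [Nat.mod_eq_of_lt h1]
    exact hadj i h1

/-- a placement `g` of the positions `s, ..., s + L.sum - 1` on distinct vertices of `W` respecting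
all the adjacencies of the blocks is a packing -/
theorem pack_of_blocks {G : SimpleGraph V} (L : List ℕ) (hL : ∀ r ∈ L, 2 ≤ r) (s : ℕ) (g : ℕ → V)
    (W : Finset V) (hW : ∀ i, s ≤ i → i < s + L.sum → g i ∈ W)
    (hinj : ∀ i j, s ≤ i → i < s + L.sum → s ≤ j → j < s + L.sum → g i = g j → i = j)
    (hadj : ∀ p ∈ blocks L s, G.Adj (g p.1) (g p.2)) : Pack G L W := by
  induction L generalizing s W with
  | nil => rw [Pack]; trivial
  | cons r L ih =>
    have h2 := hL r (List.mem_cons_self)
    rw [List.sum_cons] at hW hinj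
    rw [Pack]
    refine ⟨(Finset.range r).image (fun i => g (s + i)), ?_, ?_, ?_⟩
    · intro x hx
      rw [mem_image] at hx
      obtain ⟨i, hi, rfl⟩ := hx
      rw [Finset.mem_range] at hi
      exact hW _ (by omega) (by omega)
    · refine cycM_of_isCyc (blk_isCyc (r := r) (s := s) (g := g) (by omega) ?_ ?_) ?_
        (by omega) ?_
      · intro i j hi hj h
        have := hinj (s + i) (s + j) (by omega) (by omega) (by omega) (by omega) h
        omega
      · intro i hi
        apply hadj (s + i, s + (i + 1) % r)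
        rw [blocks, List.mem_append, List.mem_map]
        exact Or.inl ⟨i, List.mem_range.2 hi, rfl⟩
      · intro x hx
        rw [List.mem_map] at hx
        obtain ⟨i, hi, rfl⟩ := hx
        exact mem_image.2 ⟨i, Finset.mem_range.2 (List.mem_range.1 hi), rfl⟩
      · rw [List.length_map, List.length_range]
    · refine ih (fun r hr => hL r (List.mem_cons_of_mem _ hr)) (s + r) _ ?_ ?_ ?_
      · intro i h3 h4
        rw [mem_sdiff]
        refine ⟨hW i (by omega) (by omega), fun h5 => ?_⟩
        rw [mem_image] at h5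
        obtain ⟨j, hj, h6⟩ := h5
        rw [Finset.mem_range] at hj
        have := hinj (s + j) i (by omega) (by omega) (by omega) (by omega) h6
        omega
      · intro i j h3 h4 h5 h6 h7
        exact hinj i j (by omega) (by omega) (by omega) (by omega) h7
      · intro p hp
        apply hadj
        rw [blocks, List.mem_append]
        exact Or.inr hp

/-! ## JOB EMB -/

private theorem emb_chain (R : V → V → Prop) (g : ℕ → V) (k : ℕ)
    (h : ∀ i, i + 1 < k → R (g i) (g (i + 1))) : ((List.range k).map g).IsChain R := by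
  rw [List.isChain_iff_getElem]
  intro i hi
  simp only [List.length_map, List.length_range] at hi
  simpa using h i hi

private theorem emb_chain_ends (R : V → V → Prop) (g : ℕ → V) (k : ℕ) (u v : V)
    (h : ∀ i, i + 1 < k + 1 → R (g i) (g (i + 1))) (hu : R u (g 0)) (hv : R (g k) v) :
    (u :: ((List.range (k + 1)).map g ++ [v])).IsChain R := by
  rw [List.isChain_cons, List.isChain_append]
  refine ⟨?_, emb_chain R g (k + 1) h, by simp, ?_⟩
  · intro y hy
    rw [List.range_succ_eq_map] at hy
    simp at hy
    rw [← hy]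
    exact hu
  · intro x hx y hy
    rw [List.range_succ, List.map_append] at hx
    simp at hx hy
    rw [← hx, ← hy]
    exact hv

private theorem emb_md {G : SimpleGraph V} {W : Finset V} {u : V} (hu : u ∉ W) :
    ∀ (F : Finset {x // x ∈ W}), (∀ w ∈ F, ¬ G.Adj u w.1) → F.card ≤ md G W u := by
  classical
  intro F hF
  unfold md
  rw [← Finset.card_map (Function.Embedding.subtype _)]
  apply Finset.card_le_card
  intro x hx
  rw [Finset.mem_map] at hx
  obtain ⟨w, hw, rfl⟩ := hx
  rw [Finset.mem_filter]
  refine ⟨w.2, ?_, hF w hw⟩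
  intro h
  exact hu (h ▸ w.2)

private theorem emb_B (G : SimpleGraph V) (W : Finset V) (B : Finset ({x // x ∈ W} × {x // x ∈ W}))
    (hB : ∀ b ∈ B, b.1 ≠ b.2 ∧ ¬ G.Adj b.1.1 b.2.1) : B.card ≤ 2 * me G W := by
  classical
  rw [two_mul_me]
  have h1 : B.card = ∑ v ∈ W.attach, (B.filter fun b => b.1 = v).card :=
    Finset.card_eq_sum_card_fiberwise (fun b _ => Finset.mem_attach W b.1)
  rw [h1, ← Finset.sum_attach W]
  refine Finset.sum_le_sum fun v _ => ?_
  unfold md
  refine Finset.card_le_card_of_injOn (fun b => b.2.1) ?_ ?_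
  · intro b hb
    rw [Finset.mem_coe, Finset.mem_filter] at hb
    rw [Finset.mem_coe, Finset.mem_filter]
    obtain ⟨h2, h3⟩ := hB b hb.1
    have h4 := hb.2
    subst h4
    exact ⟨b.2.2, fun h => h2 (Subtype.ext h.symm), h3⟩
  · intro b hb b' hb' h
    rw [Finset.mem_coe, Finset.mem_filter] at hb hb'
    apply Prod.ext
    · rw [hb.2, hb'.2]
    · exact Subtype.ext h

/-- Embedding lemma. A path `u, p_1, ..., p_k, v` through `W` and a packing of cycles of lengths `L`
in the rest of `W`. Proof: `ν = W.card`. Positions `Fin ν`: the path occupies the positions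
`0, ..., k-1`, the blocks start at position `k` (`blocks L k`), the remaining positions are idle.
`E` = pairs `(i, i+1)`, `i + 1 < k`, and the pairs of `blocks L k`: `E.card ≤ (k-1) + L.sum ≤ ν - 1`.
`B` = ordered pairs of distinct nonadjacent vertices of `W`: `B.card = 2 me(W)`. `F` = the pairs
(position `0`, non-neighbour of `u`), (position `k-1`, non-neighbour of `v`). `averaging` applies:
`(ν-1) (2 me(W)) + (md u + md v) (ν-1) < ν (ν-1)` if `ν ≥ 2`; if `ν = 1` then `k = 1`, `L = []`
(as `L.sum ≤ 0` and all lengths are at least 3) and the only vertex of `W` is adjacent to `u` and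
`v`. -/
theorem emb (G : SimpleGraph V) (W : Finset V) (u v : V) (hu : u ∉ W) (hv : v ∉ W) (L : List ℕ)
    (hL : ∀ r ∈ L, 3 ≤ r) (k : ℕ) (hk : 1 ≤ k) (hW : k + L.sum ≤ W.card)
    (hmiss : 2 * me G W + md G W u + md G W v < W.card) :
    ∃ l : List V, l.length = k ∧ l.Nodup ∧ (∀ x ∈ l, x ∈ W) ∧ (u :: (l ++ [v])).IsChain G.Adj ∧
      Pack G L (W \ l.toFinset) := by
  classical
  obtain ⟨k, rfl⟩ : ∃ k', k = k' + 1 := ⟨k - 1, by omega⟩
  rcases Nat.lt_or_ge W.card 2 with hν | hν
  · -- one vertex
    have hL0 : L = [] := by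
      cases L with
      | nil => rfl
      | cons r L' =>
        have := hL r (by simp)
        rw [List.sum_cons] at hW
        omega
    subst hL0
    have hk0 : k = 0 := by simp at hW; omega
    subst hk0
    have hc : W.card = 1 := by simp at hW; omega
    obtain ⟨x, hx⟩ := Finset.card_eq_one.1 hc
    have h0 : md G W u = 0 := by omega
    have h0' : md G W v = 0 := by omega
    have key : ∀ w, w ∉ W → md G W w = 0 → G.Adj w x := by
      intro w hw h
      unfold md at h
      rw [Finset.card_eq_zero, Finset.filter_eq_empty_iff] at h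
      have := h (x := x) (by rw [hx]; simp)
      by_contra hcon
      exact this ⟨fun h' => hw (h' ▸ by rw [hx]; simp), hcon⟩
    refine ⟨[x], rfl, by simp, by rw [hx]; simp, ?_, by trivial⟩
    simp only [List.cons_append, List.nil_append, List.isChain_cons_cons, List.isChain_singleton,
      and_true]
    exact ⟨key u hu h0, (key v hv h0').symm⟩
  · -- the averaging argument
    obtain ⟨PL, hPL⟩ : ∃ PL : List (ℕ × ℕ), PL = (List.range k).map (fun i => (i, i + 1)) ++
        blocks L (k + 1) := ⟨_, rfl⟩
    have hPLlen : PL.length = k + L.sum := by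
      rw [hPL, List.length_append, List.length_map, List.length_range, blocks_length]
    have hL2 : ∀ r ∈ L, 2 ≤ r := fun r hr => by have := hL r hr; omega
    have hPLne : ∀ p ∈ PL, p.1 ≠ p.2 := by
      intro p hp
      rw [hPL, List.mem_append] at hp
      rcases hp with hp | hp
      · rw [List.mem_map] at hp
        obtain ⟨i, _, rfl⟩ := hp
        simp
      · exact blocks_ne L hL2 (k + 1) p hp
    have hPLlt : ∀ p ∈ PL, p.1 < W.card ∧ p.2 < W.card := by
      intro p hp
      rw [hPL, List.mem_append] at hp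
      rcases hp with hp | hp
      · rw [List.mem_map] at hp
        obtain ⟨i, hi, rfl⟩ := hp
        rw [List.mem_range] at hi
        simp only
        omega
      · have := blocks_mem L (k + 1) p hp
        omega
    let ν := W.card
    let E : Finset (Fin ν × Fin ν) := Finset.univ.filter fun e => ((e.1 : ℕ), (e.2 : ℕ)) ∈ PL
    let B : Finset ({x // x ∈ W} × {x // x ∈ W}) :=
      Finset.univ.filter fun b => b.1 ≠ b.2 ∧ ¬ G.Adj b.1.1 b.2.1
    have h0ν : 0 < ν := by change 0 < W.card; omega
    have hkν : k < ν := by change k < W.card; omega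
    let F1 : Finset (Fin ν × {x // x ∈ W}) :=
      Finset.univ.filter fun f => f.1 = ⟨0, h0ν⟩ ∧ ¬ G.Adj u f.2.1
    let F2 : Finset (Fin ν × {x // x ∈ W}) :=
      Finset.univ.filter fun f => f.1 = ⟨k, hkν⟩ ∧ ¬ G.Adj v f.2.1
    have hEc : E.card ≤ ν - 1 := by
      have h1 : E.card ≤ PL.toFinset.card := by
        refine Finset.card_le_card_of_injOn (fun e => ((e.1 : ℕ), (e.2 : ℕ))) ?_ ?_
        · intro e he
          rw [Finset.mem_coe, Finset.mem_filter] at he
          rw [Finset.mem_coe, List.mem_toFinset]
          exact he.2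
        · intro e _ e' _ h
          simp only [Prod.mk.injEq] at h
          exact Prod.ext (Fin.ext h.1) (Fin.ext h.2)
      have h2 := List.toFinset_card_le PL
      change _ ≤ W.card - 1
      omega
    have hBc : B.card ≤ 2 * me G W := emb_B G W B fun b hb => (Finset.mem_filter.1 hb).2
    have hF1c : F1.card ≤ md G W u := by
      have : F1.card ≤ (F1.image Prod.snd).card := by
        rw [Finset.card_image_of_injOn]
        intro f hf f' hf' h
        rw [Finset.mem_coe, Finset.mem_filter] at hf hf'
        exact Prod.ext (by rw [hf.2.1, hf'.2.1]) h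
      refine this.trans (emb_md hu _ ?_)
      intro w hw
      rw [Finset.mem_image] at hw
      obtain ⟨f, hf, rfl⟩ := hw
      exact (Finset.mem_filter.1 hf).2.2
    have hF2c : F2.card ≤ md G W v := by
      have : F2.card ≤ (F2.image Prod.snd).card := by
        rw [Finset.card_image_of_injOn]
        intro f hf f' hf' h
        rw [Finset.mem_coe, Finset.mem_filter] at hf hf'
        exact Prod.ext (by rw [hf.2.1, hf'.2.1]) h
      refine this.trans (emb_md hv _ ?_)
      intro w hw
      rw [Finset.mem_image] at hw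
      obtain ⟨f, hf, rfl⟩ := hw
      exact (Finset.mem_filter.1 hf).2.2
    have hcardW : Fintype.card (Fin ν) = Fintype.card {x // x ∈ W} := by
      rw [Fintype.card_fin, Fintype.card_coe]
    obtain ⟨φ, hφ1, hφ2⟩ := averaging hcardW E B (F1 ∪ F2)
      (by
        intro e he h
        have := (Finset.mem_filter.1 he).2
        exact hPLne _ this (by simp [h]))
      (fun b hb => (Finset.mem_filter.1 hb).2.1)
      (by
        rw [Fintype.card_fin]
        have h1 : (F1 ∪ F2).card ≤ md G W u + md G W v :=
          (Finset.card_union_le _ _).trans (Nat.add_le_add hF1c hF2c)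
        have h2 : 0 < ν - 1 := by change 0 < W.card - 1; omega
        calc E.card * B.card + (F1 ∪ F2).card * (ν - 1)
            ≤ (ν - 1) * (2 * me G W) + (md G W u + md G W v) * (ν - 1) :=
              Nat.add_le_add (Nat.mul_le_mul hEc hBc) (Nat.mul_le_mul_right _ h1)
          _ = (2 * me G W + md G W u + md G W v) * (ν - 1) := by ring
          _ < ν * (ν - 1) := Nat.mul_lt_mul_of_pos_right hmiss h2)
    let g : ℕ → V := fun i => if h : i < ν then (φ ⟨i, h⟩).1 else u
    have hg : ∀ i (h : i < ν), g i = (φ ⟨i, h⟩).1 := fun i h => dif_pos h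
    have hgW : ∀ i, i < ν → g i ∈ W := fun i h => by rw [hg i h]; exact (φ ⟨i, h⟩).2
    have hginj : ∀ i j, i < ν → j < ν → g i = g j → i = j := by
      intro i j hi hj h
      rw [hg i hi, hg j hj] at h
      have := φ.injective (Subtype.ext h)
      exact Fin.mk.inj_iff.1 this
    have hgadj : ∀ p ∈ PL, G.Adj (g p.1) (g p.2) := by
      intro p hp
      obtain ⟨h1, h2⟩ := hPLlt p hp
      have h3 := hφ1 (⟨p.1, h1⟩, ⟨p.2, h2⟩) (Finset.mem_filter.2 ⟨Finset.mem_univ _, hp⟩)
      rw [hg _ h1, hg _ h2]
      by_contra hcon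
      apply h3
      refine Finset.mem_filter.2 ⟨Finset.mem_univ _, ?_, hcon⟩
      intro h4
      have := φ.injective h4
      exact hPLne p hp (Fin.mk.inj_iff.1 this)
    refine ⟨(List.range (k + 1)).map g, by simp, ?_, ?_, ?_, ?_⟩
    · rw [List.nodup_map_iff_inj_on List.nodup_range]
      intro i hi j hj h
      rw [List.mem_range] at hi hj
      exact hginj i j (by change i < W.card; omega) (by change j < W.card; omega) h
    · intro x hx
      rw [List.mem_map] at hx
      obtain ⟨i, hi, rfl⟩ := hx
      rw [List.mem_range] at hi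
      exact hgW i (by change i < W.card; omega)
    · apply emb_chain_ends
      · intro i hi
        exact hgadj (i, i + 1) (by
          rw [hPL, List.mem_append]
          left
          rw [List.mem_map]
          exact ⟨i, by rw [List.mem_range]; omega, rfl⟩)
      · by_contra hcon
        apply hφ2 (⟨0, h0ν⟩, φ ⟨0, h0ν⟩) (Finset.mem_union_left _
          (Finset.mem_filter.2 ⟨Finset.mem_univ _, rfl, ?_⟩))
        · rfl
        · rw [hg 0 h0ν] at hcon
          exact hcon
      · by_contra hcon
        apply hφ2 (⟨k, hkν⟩, φ ⟨k, hkν⟩) (Finset.mem_union_right _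
          (Finset.mem_filter.2 ⟨Finset.mem_univ _, rfl, ?_⟩))
        · rfl
        · rw [hg k hkν] at hcon
          exact fun h => hcon h.symm
    · apply pack_of_blocks L hL2 (k + 1) g
      · intro i hi hi'
        have hiν : i < ν := by change i < W.card; omega
        rw [Finset.mem_sdiff]
        refine ⟨hgW i hiν, ?_⟩
        intro hmem
        rw [List.mem_toFinset, List.mem_map] at hmem
        obtain ⟨j, hj, hj'⟩ := hmem
        rw [List.mem_range] at hj
        have := hginj j i (by change j < W.card; omega) hiν hj'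
        omega
      · intro i j hi hi' hj hj' h
        exact hginj i j (by change i < W.card; omega) (by change j < W.card; omega) h
      · intro p hp
        exact hgadj p (by rw [hPL, List.mem_append]; exact Or.inr hp)

/-! ## JOB NCQ -/

private theorem ncq_card {Q : Finset V} {u v : V} (hu : u ∈ Q) (hv : v ∈ Q) (huv : u ≠ v) :
    ((Q.erase u).erase v).card + 2 = Q.card := by
  have h1 : v ∈ Q.erase u := Finset.mem_erase.2 ⟨huv.symm, hv⟩
  have h2 := Finset.card_erase_add_one h1
  have h3 := Finset.card_erase_add_one hu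
  omega

private theorem ncq_u {Q : Finset V} (u v : V) : u ∉ (Q.erase u).erase v := by
  simp

private theorem ncq_v {Q : Finset V} (u v : V) : v ∉ (Q.erase u).erase v := by
  simp

private theorem ncq_sub {Q : Finset V} (u v : V) : (Q.erase u).erase v ⊆ Q :=
  (Finset.erase_subset _ _).trans (Finset.erase_subset _ _)

omit [DecidableEq V] in
private theorem ncq_nodup {W : Finset V} {u v : V} (hu : u ∉ W) (hv : v ∉ W) (huv : u ≠ v)
    {l : List V} (hl : l.Nodup) (hlW : ∀ x ∈ l, x ∈ W) : (u :: (l ++ [v])).Nodup := by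
  rw [List.nodup_cons]
  refine ⟨?_, ?_⟩
  · intro h
    rcases List.mem_append.1 h with h | h
    · exact hu (hlW _ h)
    · exact huv (List.mem_singleton.1 h)
  · rw [List.nodup_append]
    refine ⟨hl, List.nodup_singleton _, ?_⟩
    intro x hx y hy hxy
    rw [List.mem_singleton] at hy
    subst hy
    subst hxy
    exact hv (hlW _ hx)

omit [DecidableEq V] in
private theorem ncq_mem {u v x : V} {l : List V} :
    x ∈ u :: (l ++ [v]) ↔ x = u ∨ x ∈ l ∨ x = v := by
  simp

/-- a near-clique contains every packing of cycles with at most `2a+1` vertices. Take adjacent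
`u, v ∈ Q` (`near_dg`), `W = Q - u - v`, `emb` with `k = r - 2` for the first length `r`;
`2 me(W) + md u + md v ≤ 2 me(Q) ≤ 2a - 2 < 2a - 1 = W.card` (`me_erase_two`); close the cycle by
the edge `vu`. -/
theorem near_pack {G : SimpleGraph V} {Q : Finset V} {a : ℕ} (h : Near G Q a) (L : List ℕ)
    (hL : ∀ r ∈ L, 3 ≤ r) (hs : L.sum ≤ 2 * a + 1) : Pack G L Q := by
  rcases L with _ | ⟨r, L⟩
  · trivial
  have hQ := h.1
  have hme := h.2
  have hr : 3 ≤ r := hL r (by simp)
  have hL' : ∀ r ∈ L, 3 ≤ r := fun x hx => hL x (by simp [hx])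
  have hne : Q.Nonempty := by
    rw [← Finset.card_pos]; omega
  obtain ⟨u, hu⟩ := hne
  have hdu := near_dg h hu
  obtain ⟨v, hv, huv⟩ := (dg_pos_iff G Q u).1 (by omega)
  have hne : u ≠ v := G.ne_of_adj huv
  have hm := (me_erase_two (G := G) hu hv hne).1
  have hc := ncq_card hu hv hne
  have hs' : r + L.sum ≤ 2 * a + 1 := by simpa using hs
  obtain ⟨l, hlen, hnd, hlW, hch, hpk⟩ := emb G ((Q.erase u).erase v) u v (ncq_u u v) (ncq_v u v) L
    hL' (r - 2) (by omega) (by omega) (by omega)
  have hcyc : IsCyc G (u :: (l ++ [v])) := by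
    refine ⟨ncq_nodup (ncq_u u v) (ncq_v u v) hne hnd hlW, ?_⟩
    have : (u :: (l ++ [v])) ++ (u :: (l ++ [v])).take 1 = (u :: (l ++ [v])) ++ [u] := by simp
    rw [this, List.isChain_append]
    refine ⟨hch, by simp, ?_⟩
    intro x hx y hy
    rw [← List.cons_append, List.getLast?_append] at hx
    simp at hx hy
    subst hx
    subst hy
    exact huv.symm
  have hB : CycM G (insert u (insert v l.toFinset)) r := by
    refine cycM_of_isCyc hcyc ?_ (by omega) ?_
    · intro x hx
      rcases ncq_mem.1 hx with h | h | h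
      · simp [h]
      · simp [h]
      · simp [h]
    · simp only [List.length_cons, List.length_append, List.length_nil]
      omega
  refine pack_cons hB hpk ?_ ?_
  · rw [Finset.disjoint_left]
    intro x hx hx'
    rw [Finset.mem_sdiff] at hx'
    rcases Finset.mem_insert.1 hx with h | h
    · subst h
      exact ncq_u x v hx'.1
    rcases Finset.mem_insert.1 h with h | h
    · subst h
      exact ncq_v u x hx'.1
    · exact hx'.2 h
  · intro x hx
    rcases Finset.mem_union.1 hx with h | h
    · rcases Finset.mem_insert.1 h with h | h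
      · subst h
        exact hu
      rcases Finset.mem_insert.1 h with h | h
      · subst h
        exact hv
      · exact ncq_sub u v (hlW x (by simpa using h))
    · exact ncq_sub u v (Finset.mem_sdiff.1 h).1

/-- Lemma Q+P: a connected set `P` with at least two neighbours `u, v` in the near-clique `Q`;
half-lengths `ms` with sum `a + 1`. First half-length `m`: `emb` with `W = Q - u - v`,
`k = 2m - 3 ≥ 1`, rest of the lengths: `k + rest = 2a - 1 = W.card`; the cycle is closed through
`P` (`cycM_path_set` with the list `u :: (l ++ [v])` of length `2m - 1`). -/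
theorem near_add {G : SimpleGraph V} {Q P : Finset V} {a : ℕ} (h : Near G Q a) (hP : Conn G P)
    (hd : Disjoint P Q) (h2 : 2 ≤ (nb G Q P).card) (ms : List ℕ) (hms : ∀ m ∈ ms, 2 ≤ m)
    (hs : ms.sum = a + 1) : Pk G ms (Q ∪ P) := by
  rcases ms with _ | ⟨m, ms⟩
  · simp at hs
  have hQ := h.1
  have hme := h.2
  have hm2 : 2 ≤ m := hms m (by simp)
  have hms' : ∀ r ∈ ms.map (fun m => 2 * m), 3 ≤ r := by
    intro r hr
    obtain ⟨x, hx, rfl⟩ := List.mem_map.1 hr
    have := hms x (by simp [hx])
    show 3 ≤ 2 * x
    omega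
  have hsum : (ms.map (fun m => 2 * m)).sum = 2 * ms.sum := by
    have := List.sum_map_mul_left ms (fun x => x) 2
    simpa using this
  have hs' : m + ms.sum = a + 1 := by simpa using hs
  obtain ⟨u, hu, v, hv, hne⟩ := Finset.one_lt_card.1 (show 1 < (nb G Q P).card by omega)
  obtain ⟨hu, huP⟩ := (mem_nb G Q P u).1 hu
  obtain ⟨hv, hvP⟩ := (mem_nb G Q P v).1 hv
  have hm := (me_erase_two (G := G) hu hv hne).1
  have hc := ncq_card hu hv hne
  obtain ⟨l, hlen, hnd, hlW, hch, hpk⟩ := emb G ((Q.erase u).erase v) u v (ncq_u u v) (ncq_v u v)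
    (ms.map (fun m => 2 * m)) hms' (2 * m - 3) (by omega) (by omega) (by omega)
  have hlQ : ∀ x ∈ u :: (l ++ [v]), x ∈ Q := by
    intro x hx
    rcases ncq_mem.1 hx with h | h | h
    · rw [h]; exact hu
    · exact ncq_sub u v (hlW x h)
    · rw [h]; exact hv
  have hB : CycM G (P ∪ (u :: (l ++ [v])).toFinset) ((u :: (l ++ [v])).length + 1) := by
    refine cycM_path_set (u := u) (v := v) (ncq_nodup (ncq_u u v) (ncq_v u v) hne hnd hlW) hch hP
      ?_ (by simp) ?_ huP hvP Finset.subset_union_left ?_
    · intro x hx hxP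
      exact Finset.disjoint_left.1 hd hxP (hlQ x hx)
    · rw [← List.cons_append, List.getLast?_append]
      simp
    · intro x hx
      exact Finset.mem_union_right _ (List.mem_toFinset.2 hx)
  have hlen' : (u :: (l ++ [v])).length + 1 = 2 * m := by
    simp only [List.length_cons, List.length_append, List.length_nil]
    omega
  rw [hlen'] at hB
  refine pk_cons hB hpk ?_ ?_
  · rw [Finset.disjoint_left]
    intro x hx hx'
    rw [Finset.mem_sdiff] at hx'
    rcases Finset.mem_union.1 hx with h | h
    · exact Finset.disjoint_left.1 hd h (ncq_sub u v hx'.1)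
    · rcases ncq_mem.1 (List.mem_toFinset.1 h) with h | h | h
      · subst h
        exact ncq_u x v hx'.1
      · exact hx'.2 (List.mem_toFinset.2 h)
      · subst h
        exact ncq_v u x hx'.1
  · intro x hx
    rcases Finset.mem_union.1 hx with h | h
    · rcases Finset.mem_union.1 h with h | h
      · exact Finset.mem_union_right _ h
      · exact Finset.mem_union_left _ (hlQ x (List.mem_toFinset.1 h))
    · exact Finset.mem_union_left _ (ncq_sub u v (Finset.mem_sdiff.1 h).1)

/-- Hamiltonian path with prescribed ends in a set `S` with at least 3 vertices and few missing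
edges (`emb` with `L = []`, `W = S - u - v`, `k = W.card`) -/
theorem ham_path {G : SimpleGraph V} {S : Finset V} {u v : V} (hu : u ∈ S) (hv : v ∈ S)
    (huv : u ≠ v) (h3 : 3 ≤ S.card)
    (hmiss : 2 * me G ((S.erase u).erase v) + md G ((S.erase u).erase v) u
      + md G ((S.erase u).erase v) v + 2 < S.card) :
    ∃ l : List V, l.Nodup ∧ l.toFinset = S ∧ l.IsChain G.Adj ∧ l.head? = some u ∧
      l.getLast? = some v := by
  have hc := ncq_card hu hv huv
  obtain ⟨l, hlen, hnd, hlW, hch, -⟩ := emb G ((S.erase u).erase v) u v (ncq_u u v) (ncq_v u v)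
    [] (by simp) ((S.erase u).erase v).card (by omega) (by simp) (by omega)
  have hlS : l.toFinset = (S.erase u).erase v := by
    apply Finset.eq_of_subset_of_card_le
    · intro x hx
      exact hlW x (List.mem_toFinset.1 hx)
    · rw [List.toFinset_card_of_nodup hnd, hlen]
  refine ⟨u :: (l ++ [v]), ncq_nodup (ncq_u u v) (ncq_v u v) huv hnd hlW, ?_, hch, by simp, ?_⟩
  · ext x
    rw [List.mem_toFinset, ncq_mem]
    have h1 : x ∈ l ↔ x ∈ (S.erase u).erase v := by rw [← hlS, List.mem_toFinset]
    rw [h1]
    constructor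
    · rintro (h | h | h)
      · rw [h]; exact hu
      · exact ncq_sub u v h
      · rw [h]; exact hv
    · intro h
      by_cases hxu : x = u
      · exact Or.inl hxu
      by_cases hxv : x = v
      · exact Or.inr (Or.inr hxv)
      · exact Or.inr (Or.inl (by simp [hxu, hxv, h]))
  · rw [← List.cons_append, List.getLast?_append]
    simp

/-! ## JOB LMN: Lemma N -/

private theorem lmn_distinct {A B : Finset V} (hA : A.Nonempty) (hB : B.Nonempty)
    (h : 2 ≤ (A ∪ B).card) : ∃ u ∈ A, ∃ v ∈ B, u ≠ v := by
  obtain ⟨x, hx⟩ := hA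
  obtain ⟨y, hy⟩ := hB
  by_cases hxy : x = y
  · obtain ⟨z, hz, hzx⟩ := Finset.exists_mem_ne (by omega : 1 < (A ∪ B).card) x
    rcases Finset.mem_union.1 hz with hz | hz
    · exact ⟨z, hz, y, hy, by rw [← hxy]; exact hzx⟩
    · exact ⟨x, hx, z, hz, hzx.symm⟩
  · exact ⟨x, hx, y, hy, hxy⟩

private theorem lmn_md_pos {G : SimpleGraph V} {W : Finset V} {u z : V} (hz : z ∈ W) (hzu : z ≠ u)
    (hadj : ¬ G.Adj u z) : 1 ≤ md G W u := by
  classical
  unfold md
  rw [Nat.succ_le_iff, Finset.card_pos]
  refine ⟨z, ?_⟩
  rw [Finset.mem_filter]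
  exact ⟨hz, hzu, hadj⟩

private theorem lmn_count {G : SimpleGraph V} {F : Finset V} {u v z : V} (hu : u ∈ F) (hv : v ∈ F)
    (huv : u ≠ v) (hz : z ∈ F) (h : (z ≠ u ∧ ¬ G.Adj u z) ∨ (z ≠ v ∧ ¬ G.Adj v z)) :
    2 * me G ((F.erase u).erase v) + md G ((F.erase u).erase v) u
      + md G ((F.erase u).erase v) v < 2 * me G F := by
  obtain ⟨h1, h2, h3⟩ := me_erase_two (G := G) hu hv huv
  by_cases hadj : G.Adj u v
  · have h4 := h3 hadj
    have h5 : 1 ≤ md G ((F.erase u).erase v) u + md G ((F.erase u).erase v) v := by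
      rcases h with ⟨hzu, hz'⟩ | ⟨hzv, hz'⟩
      · have hzv : z ≠ v := by
          rintro rfl
          exact hz' hadj
        have := lmn_md_pos (W := (F.erase u).erase v)
          (Finset.mem_erase.2 ⟨hzv, Finset.mem_erase.2 ⟨hzu, hz⟩⟩) hzu hz'
        omega
      · have hzu : z ≠ u := by
          rintro rfl
          exact hz' hadj.symm
        have := lmn_md_pos (W := (F.erase u).erase v)
          (Finset.mem_erase.2 ⟨hzv, Finset.mem_erase.2 ⟨hzu, hz⟩⟩) hzv hz'
        omega
    omega
  · have h4 := h2 hadj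
    omega

/-- the construction, given the two end vertices -/
private theorem lmn_core {G : SimpleGraph V} {F X Y : Finset V} {a : ℕ} (ha : 2 ≤ a) {ms : List ℕ}
    (hms : Adm ms a) (hF : F.card = 2 * a) (hFX : Disjoint F X) (hFY : Disjoint F Y)
    (hXY : Disjoint X Y) (hX : Conn G X) (hY : Conn G Y) (hadj : adjS G X Y) {u v : V}
    (hu : u ∈ nb G F X) (hv : v ∈ nb G F Y) (huv : u ≠ v)
    (hmiss : 2 * me G ((F.erase u).erase v) + md G ((F.erase u).erase v) u
      + md G ((F.erase u).erase v) v < 2 * a - 2) : Pk G ms (F ∪ X ∪ Y) := by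
  obtain ⟨hm2, hsum, hlen⟩ := hms
  rw [mem_nb] at hu hv
  obtain ⟨huF, huX⟩ := hu
  obtain ⟨hvF, hvY⟩ := hv
  obtain ⟨m, hm, hm3⟩ : ∃ m ∈ ms, 3 ≤ m := by
    rcases hlen with h1 | h1
    · obtain ⟨m, rfl⟩ := List.length_eq_one_iff.1 h1
      refine ⟨m, List.mem_singleton.2 rfl, ?_⟩
      rw [List.sum_singleton] at hsum
      omega
    · exact h1
  have hperm := List.perm_cons_erase hm
  have hsum' : m + (ms.erase m).sum = a + 1 := by
    rw [← hsum, ← List.sum_cons]
    exact hperm.sum_eq.symm
  set W : Finset V := (F.erase u).erase v with hW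
  have hWF : W ⊆ F := (Finset.erase_subset _ _).trans (Finset.erase_subset _ _)
  have hvFu : v ∈ F.erase u := Finset.mem_erase.2 ⟨huv.symm, hvF⟩
  have hWc : W.card = 2 * a - 2 := by
    rw [hW, Finset.card_erase_of_mem hvFu, Finset.card_erase_of_mem huF, hF]
    omega
  have huW : u ∉ W := by
    rw [hW]
    intro h
    exact Finset.notMem_erase u F (Finset.mem_of_mem_erase h)
  have hvW : v ∉ W := Finset.notMem_erase v _
  have hLsum : ((ms.erase m).map (fun m => 2 * m)).sum = 2 * (ms.erase m).sum :=
    List.sum_map_mul_left (ms.erase m) (fun i => i) 2 |>.trans (by rw [List.map_id'])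
  obtain ⟨l, hlk, hln, hlW, hlc, hlP⟩ := emb G W u v huW hvW ((ms.erase m).map (fun m => 2 * m))
    (by
      intro r hr
      rw [List.mem_map] at hr
      obtain ⟨m', hm', rfl⟩ := hr
      have := hm2 m' (List.mem_of_mem_erase hm')
      omega) (2 * m - 4) (by omega) (by rw [hLsum, hWc]; omega) (by rw [hWc]; exact hmiss)
  have hmem : ∀ x ∈ u :: (l ++ [v]), x = u ∨ x = v ∨ x ∈ l := by
    intro x hx
    rw [List.mem_cons, List.mem_append, List.mem_singleton] at hx
    tauto
  have hFmem : ∀ x ∈ u :: (l ++ [v]), x ∈ F := by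
    intro x hx
    rcases hmem x hx with rfl | rfl | h
    · exact huF
    · exact hvF
    · exact hWF (hlW x h)
  have hnodup : (u :: (l ++ [v])).Nodup := by
    rw [List.nodup_cons, List.nodup_append]
    refine ⟨?_, hln, List.nodup_singleton v, ?_⟩
    · rw [List.mem_append, List.mem_singleton]
      rintro (h | h)
      · exact huW (hlW u h)
      · exact huv h
    · intro x hx y hy hxy
      rw [List.mem_singleton] at hy
      rw [hxy, hy] at hx
      exact hvW (hlW v hx)
  have hcyc : CycM G ((u :: (l ++ [v])).toFinset ∪ X ∪ Y) ((u :: (l ++ [v])).length + 2) := by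
    refine cycM_path_two_sets hnodup hlc hX hY hadj hXY ?_ ?_ (u := u) (v := v) rfl ?_ huX hvY
      ?_ ?_ ?_
    · intro x hx hxX
      exact Finset.disjoint_left.1 hFX (hFmem x hx) hxX
    · intro x hx hxY
      exact Finset.disjoint_left.1 hFY (hFmem x hx) hxY
    · rw [← List.cons_append, List.getLast?_append]
      rfl
    · intro x hx
      exact Finset.mem_union_left _ (Finset.mem_union_right _ hx)
    · intro x hx
      exact Finset.mem_union_right _ hx
    · intro x hx
      exact Finset.mem_union_left _ (Finset.mem_union_left _ (List.mem_toFinset.2 hx))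
  have hlen' : (u :: (l ++ [v])).length + 2 = 2 * m := by
    rw [List.length_cons, List.length_append, List.length_singleton, hlk]
    omega
  rw [hlen'] at hcyc
  refine pk_perm hperm.symm (pk_cons hcyc (A := W \ l.toFinset) hlP ?_ ?_)
  · rw [Finset.disjoint_left]
    intro x hx hxW
    rw [Finset.mem_sdiff] at hxW
    obtain ⟨hxW, hxl⟩ := hxW
    rw [Finset.mem_union, Finset.mem_union, List.mem_toFinset] at hx
    rcases hx with (hx | hx) | hx
    · rcases hmem x hx with rfl | rfl | h
      · exact huW hxW
      · exact hvW hxW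
      · exact hxl (List.mem_toFinset.2 h)
    · exact Finset.disjoint_left.1 hFX (hWF hxW) hx
    · exact Finset.disjoint_left.1 hFY (hWF hxW) hx
  · intro x hx
    rw [Finset.mem_union, Finset.mem_union, Finset.mem_union, List.mem_toFinset,
      Finset.mem_sdiff] at hx
    rw [Finset.mem_union, Finset.mem_union]
    rcases hx with ((hx | hx) | hx) | hx
    · exact Or.inl (Or.inl (hFmem x hx))
    · exact Or.inl (Or.inr hx)
    · exact Or.inr hx
    · exact Or.inl (Or.inl (hWF hx.1))

private theorem lmn_sym {G : SimpleGraph V} {F X Y : Finset V} {a : ℕ} (ha : 2 ≤ a) {ms : List ℕ}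
    (hms : Adm ms a) (hF : F.card = 2 * a) (hFX : Disjoint F X) (hFY : Disjoint F Y)
    (hXY : Disjoint X Y) (hX : Conn G X) (hY : Conn G Y) (hadj : adjS G X Y)
    (hnY : (nb G F Y).Nonempty) (hall : F ⊆ nb G F X ∪ nb G F Y) (hme : me G F + 1 ≤ a)
    {z z' : V} (hz : z ∈ nb G F X) (hz' : z' ∈ F) (hne : z ≠ z') (hna : ¬ G.Adj z z') :
    Pk G ms (F ∪ X ∪ Y) := by
  have hzF : z ∈ F := nb_subset G F X hz
  by_cases hv : ∃ v ∈ nb G F Y, v ≠ z
  · obtain ⟨v, hv, hvz⟩ := hv
    refine lmn_core ha hms hF hFX hFY hXY hX hY hadj hz hv hvz.symm ?_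
    have := lmn_count (G := G) hzF (nb_subset G F Y hv) hvz.symm hz' (Or.inl ⟨hne.symm, hna⟩)
    omega
  · push Not at hv
    obtain ⟨y, hy⟩ := hnY
    have hyz := hv y hy
    subst hyz
    obtain ⟨u, huF, huy⟩ := Finset.exists_mem_ne (by omega : 1 < F.card) y
    have hu : u ∈ nb G F X := by
      rcases Finset.mem_union.1 (hall huF) with h | h
      · exact h
      · exact absurd (hv u h) huy
    refine lmn_core ha hms hF hFX hFY hXY hX hY hadj hu hy huy ?_
    have := lmn_count (G := G) huF hzF huy hz' (Or.inr ⟨hne.symm, hna⟩)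
    omega

/-- Lemma N, counting part. `X, Y` adjacent connected sets outside `F`, both with neighbours in `F`,
`F.card = 2a`, at most `a - 1` missing edges counting a vertex of `F` adjacent to neither `X` nor `Y`
as one missing edge.
`a = 1`: then `F = {u, v}`, `u v` adjacent, `nb X ∪ nb Y = F`, both nonempty: choose
`u ∈ nb X, v ∈ nb Y` distinct; `ms = [2]`; `cycM_path_two_sets` with `[u, v]`.
`a ≥ 2`: some `m ∈ ms` has `m ≥ 3` (if `ms.length = 1` then `m = a + 1 ≥ 3`); put it first
(`pk_perm`, `List.perm_cons_erase`). Let `u ∈ nb X`, `v ∈ nb Y` be distinct, `W = F - u - v`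
(`2a - 2` vertices), `emb` with `k = 2m - 4 ≥ 2` (`k + rest = 2(a+1) - 4 = 2a - 2 = W.card`), condition
`2 me(W) + md u + md v < 2a - 2`; the cycle `u, l, v, Y, X` has length `2m`
(`cycM_path_two_sets`). The condition holds unless `me(W) = a - 1`, all vertices of `F` are adjacent
to `X` or `Y` and `u, v` are in no missing edge of `F`. Choice of `u, v`: if some vertex of `F` is
adjacent to neither `X` nor `Y`, or `me(F) ≤ a - 2`, take any distinct `u ∈ nb X, v ∈ nb Y` (exist
because both are nonempty and their union has at least `2a - (a-1) ≥ 2` elements). Otherwise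
`nb X ∪ nb Y = F` and there is a missing pair `z z'` in `F`; say `z ∈ nb X` (else `z ∈ nb Y`,
symmetric): if `nb Y` has an element `v ≠ z` take `u = z` and `v`; otherwise `nb Y = {z}`, take
`v = z` and `u ∈ nb X` different from `z` (exists as `nb X ∪ nb Y = F` has `2a` elements). Then
`me(W) ≤ a - 2` because the pair `z z'` is not inside `W`. -/
theorem pack_of_split {G : SimpleGraph V} {F X Y : Finset V} {a : ℕ} (ha : 1 ≤ a) {ms : List ℕ}
    (hms : Adm ms a) (hF : F.card = 2 * a) (hFX : Disjoint F X) (hFY : Disjoint F Y)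
    (hXY : Disjoint X Y) (hX : Conn G X) (hY : Conn G Y) (hadj : adjS G X Y)
    (hnX : (nb G F X).Nonempty) (hnY : (nb G F Y).Nonempty)
    (hmiss : me G F + (F \ (nb G F X ∪ nb G F Y)).card + 1 ≤ a) : Pk G ms (F ∪ X ∪ Y) := by
  have hcard : F.card = (F \ (nb G F X ∪ nb G F Y)).card + (nb G F X ∪ nb G F Y).card := by
    have := Finset.card_sdiff_add_card_eq_card
      (Finset.union_subset (nb_subset G F X) (nb_subset G F Y))
    omega
  obtain ⟨u, hu, v, hv, huv⟩ := lmn_distinct hnX hnY (by omega)
  have huF := nb_subset G F X hu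
  have hvF := nb_subset G F Y hv
  obtain ⟨h1, h2, h3⟩ := me_erase_two (G := G) huF hvF huv
  rcases Nat.lt_or_ge a 2 with ha2 | ha2
  · have ha1 : a = 1 := by omega
    subst ha1
    have hms2 : ms = [2] := by
      obtain ⟨hm2, hsum, _⟩ := hms
      rcases ms with _ | ⟨m, ms⟩
      · simp at hsum
      · rw [List.sum_cons] at hsum
        have hm := hm2 m List.mem_cons_self
        rcases ms with _ | ⟨m', ms⟩
        · rw [List.sum_nil] at hsum
          have : m = 2 := by omega
          rw [this]
        · rw [List.sum_cons] at hsum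
          have hm' := hm2 m' (List.mem_cons_of_mem _ List.mem_cons_self)
          omega
    rw [hms2]
    have huvA : G.Adj u v := by
      by_contra hna
      have := h2 hna
      omega
    rw [mem_nb] at hu hv
    have hc : CycM G (F ∪ X ∪ Y) ([u, v].length + 2) := by
      refine cycM_path_two_sets (l := [u, v]) ?_ ?_ hX hY hadj hXY ?_ ?_ (u := u) (v := v) rfl rfl
        hu.2 hv.2 ?_ ?_ ?_
      · rw [List.nodup_cons, List.mem_singleton]
        exact ⟨huv, List.nodup_singleton v⟩
      · rw [List.isChain_cons_cons]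
        exact ⟨huvA, List.isChain_singleton v⟩
      · intro x hx hxX
        rw [List.mem_cons, List.mem_singleton] at hx
        rcases hx with rfl | rfl
        · exact Finset.disjoint_left.1 hFX huF hxX
        · exact Finset.disjoint_left.1 hFX hvF hxX
      · intro x hx hxX
        rw [List.mem_cons, List.mem_singleton] at hx
        rcases hx with rfl | rfl
        · exact Finset.disjoint_left.1 hFY huF hxX
        · exact Finset.disjoint_left.1 hFY hvF hxX
      · intro x hx
        exact Finset.mem_union_left _ (Finset.mem_union_right _ hx)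
      · intro x hx
        exact Finset.mem_union_right _ hx
      · intro x hx
        rw [List.mem_cons, List.mem_singleton] at hx
        rcases hx with rfl | rfl
        · exact Finset.mem_union_left _ (Finset.mem_union_left _ huF)
        · exact Finset.mem_union_left _ (Finset.mem_union_left _ hvF)
    exact pack_singleton_iff.2 hc
  · by_cases hcase : me G F + 2 ≤ a
    · refine lmn_core ha2 hms hF hFX hFY hXY hX hY hadj hu hv huv ?_
      omega
    · have hme : me G F + 1 = a := by omega
      have hT : (F \ (nb G F X ∪ nb G F Y)).card = 0 := by omega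
      rw [Finset.card_eq_zero, Finset.sdiff_eq_empty_iff_subset] at hT
      obtain ⟨z, hz, z', hz', hne, hna⟩ := exists_missing_of_me_pos (G := G) (W := F) (by omega)
      rcases Finset.mem_union.1 (hT hz) with h | h
      · exact lmn_sym ha2 hms hF hFX hFY hXY hX hY hadj hnY hT (by omega) h hz' hne hna
      · have := lmn_sym ha2 hms hF hFY hFX hXY.symm hY hX (adjS_symm hadj) hnX
          (by rw [Finset.union_comm]; exact hT) (by omega) h hz' hne hna
        rwa [Finset.union_right_comm] at this

/-- Lemma N: combine `split_branch` and `pack_of_split` -/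
theorem lemmaN {G : SimpleGraph V} {A F P : Finset V} {a : ℕ} (ha : 1 ≤ a) {ms : List ℕ}
    (hms : Adm ms a) (h2 : TwoConn G A) (hF : F ⊆ A) (hFc : F.card = 2 * a) (hP : P ⊆ A \ F)
    (hP2 : 2 ≤ P.card) (hPc : Conn G P) (hmiss : me G F + (F \ nb G F P).card + 1 ≤ a) :
    Pk G ms A := by
  have hF1 : F.Nonempty := by
    rw [← Finset.card_pos]
    omega
  obtain ⟨X, Y, hX, hY, hXY, hXc, hYc, hadj, hnX, hnY, hsub⟩ :=
    split_branch h2 hF hF1 hP hP2 hPc
  have hXA : X ⊆ A := hX.trans Finset.sdiff_subset
  have hYA : Y ⊆ A := hY.trans Finset.sdiff_subset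
  have hFX : Disjoint F X := by
    rw [Finset.disjoint_right]
    intro x hx
    exact (Finset.mem_sdiff.1 (hX hx)).2
  have hFY : Disjoint F Y := by
    rw [Finset.disjoint_right]
    intro x hx
    exact (Finset.mem_sdiff.1 (hY hx)).2
  have hle : (F \ (nb G F X ∪ nb G F Y)).card ≤ (F \ nb G F P).card :=
    Finset.card_le_card (Finset.sdiff_subset_sdiff (Finset.Subset.refl F) hsub)
  exact pk_mono (Finset.union_subset (Finset.union_subset hF hXA) hYA)
    (pack_of_split ha hms hFc hFX hFY hXY hXc hYc hadj hnX hnY (by omega))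

end Pool.Agent.TwoRegMinor
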