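import Pool.Agent.Lib.MP_616546_co.CritL

/-!
# MP_616546_co: the extension lemma

Notation of the docstrings: `c` is a `2M`-periodic cyclic sequence, `S` its image, `R = A \ S`,
`o y = md G R y`, `an y` the number of `j < 2M` with `c j` adjacent to `y`.
-/

set_option autoImplicit false

namespace Pool.Agent.TwoRegMinor

open Finset

variable {V : Type} [DecidableEq V]

/-! ## JOB PCI: cyclic sequences and insertion -/

private theorem pci_mod {G : SimpleGraph V} {N : ℕ} {c : ℕ → V} (h : PC G N c) (j : ℕ) :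
    c j = c (j % N) := by
  have h1 : ∀ k j, c (j + N * k) = c j := by
    intro k
    induction k with
    | zero => intro j; simp
    | succ k ih =>
      intro j
      rw [Nat.mul_succ, ← add_assoc, h.per, ih]
  conv_lhs => rw [← Nat.mod_add_div j N, h1]

private theorem pci_of_fun {G : SimpleGraph V} {N : ℕ} (hN : 1 ≤ N) (d : ℕ → V)
    (hinj : ∀ i < N, ∀ j < N, d i = d j → i = j)
    (hadj : ∀ i, i + 1 < N → G.Adj (d i) (d (i + 1))) (hlast : G.Adj (d (N - 1)) (d 0)) :
    PC G N (fun j => d (j % N)) := by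
  refine ⟨?_, ?_, ?_⟩
  · intro j
    rw [Nat.add_mod_right]
  · intro i hi j hj hij
    simp only [Nat.mod_eq_of_lt hi, Nat.mod_eq_of_lt hj] at hij
    exact hinj i hi j hj hij
  · intro j
    have h1 : j % N < N := Nat.mod_lt _ hN
    by_cases h2 : j % N + 1 < N
    · have h3 : (j + 1) % N = j % N + 1 := by
        rw [Nat.add_mod]
        by_cases h1N : N = 1
        · omega
        · rw [Nat.mod_eq_of_lt (show 1 < N by omega), Nat.mod_eq_of_lt h2]
      rw [h3]
      exact hadj _ h2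
    · have h4 : j % N = N - 1 := by omega
      have h3 : (j + 1) % N = 0 := by
        have h5 : j + 1 = N * (j / N + 1) := by
          have := Nat.mod_add_div j N
          rw [Nat.mul_succ]
          omega
        rw [h5]
        exact Nat.mul_mod_right _ _
      rw [h3, h4]
      exact hlast

theorem PC.shift {G : SimpleGraph V} {N : ℕ} {c : ℕ → V} (h : PC G N c) (hN : 1 ≤ N) (s : ℕ) :
    PC G N (fun j => c (j + s)) ∧
      (range N).image (fun j => c (j + s)) = (range N).image c := by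
  have hlt : ∀ i, i % N < N := fun i => Nat.mod_lt _ hN
  refine ⟨⟨?_, ?_, ?_⟩, ?_⟩
  · intro j
    rw [add_right_comm, h.per]
  · intro i hi j hj hij
    rw [pci_mod h (i + s), pci_mod h (j + s)] at hij
    have h1 := h.inj _ (hlt _) _ (hlt _) hij
    have h2 : i ≡ j [MOD N] := Nat.ModEq.add_right_cancel' s h1
    exact Nat.ModEq.eq_of_lt_of_lt h2 hi hj
  · intro j
    have := h.adj (j + s)
    rwa [add_right_comm] at this
  · ext x
    simp only [Finset.mem_image, Finset.mem_range]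
    constructor
    · rintro ⟨j, _, rfl⟩
      exact ⟨(j + s) % N, hlt _, (pci_mod h _).symm⟩
    · rintro ⟨j, hj, rfl⟩
      refine ⟨(j + (N - s % N)) % N, hlt _, ?_⟩
      rw [pci_mod h]
      congr 1
      have h1 : s % N < N := hlt s
      have h2 : (j + (N - s % N)) % N + s ≡ j [MOD N] := by
        have e1 : (j + (N - s % N)) % N + s ≡ (j + (N - s % N)) + s % N [MOD N] :=
          Nat.ModEq.add (Nat.mod_modEq _ _) (Nat.mod_modEq _ _).symm
        have e2 : (j + (N - s % N)) + s % N = j + N := by omega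
        rw [e2] at e1
        exact e1.trans (by simp [Nat.ModEq])
      have h3 : ((j + (N - s % N)) % N + s) % N = j % N := h2
      rw [h3, Nat.mod_eq_of_lt hj]

/-- insertion of `z` between the positions `N - 1` and `0` (the last gap) -/
theorem PC.insert_last {G : SimpleGraph V} {N : ℕ} {c : ℕ → V} (h : PC G N c) (hN : 1 ≤ N) {z : V}
    (hz : ∀ j, c j ≠ z) (h1 : G.Adj (c (N - 1)) z) (h2 : G.Adj z (c 0)) :
    ∃ c' : ℕ → V, PC G (N + 1) c' ∧ (∀ j < N, c' j = c j) ∧ c' N = z := by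
  obtain ⟨d, hd⟩ : ∃ d : ℕ → V, d = fun r => if r = N then z else c r := ⟨_, rfl⟩
  have dN : d N = z := by rw [hd]; simp
  have dlt : ∀ r < N, d r = c r := by
    intro r hr
    rw [hd]
    exact if_neg (by omega)
  refine ⟨fun j => d (j % (N + 1)), ?_, ?_, ?_⟩
  · apply pci_of_fun (by omega)
    · intro i hi j hj hij
      by_cases hiN : i = N
      · by_cases hjN : j = N
        · rw [hiN, hjN]
        · rw [hiN, dN, dlt j (by omega)] at hij
          exact absurd hij.symm (hz j)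
      · by_cases hjN : j = N
        · rw [hjN, dN, dlt i (by omega)] at hij
          exact absurd hij (hz i)
        · rw [dlt i (by omega), dlt j (by omega)] at hij
          exact h.inj i (by omega) j (by omega) hij
    · intro i hi
      by_cases hiN : i + 1 = N
      · rw [hiN, dN, dlt i (by omega), show i = N - 1 by omega]
        exact h1
      · rw [dlt i (by omega), dlt (i + 1) (by omega)]
        exact h.adj i
    · rw [Nat.add_sub_cancel, dN, dlt 0 (by omega)]
      exact h2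
  · intro j hj
    simp only
    rw [Nat.mod_eq_of_lt (by omega), dlt j hj]
  · simp only
    rw [Nat.mod_eq_of_lt (by omega), dN]

private theorem pci_image_insert {N : ℕ} {c c' : ℕ → V} {z : V} (h : ∀ j < N, c' j = c j)
    (hz : c' N = z) : (range (N + 1)).image c' = insert z ((range N).image c) := by
  ext x
  simp only [Finset.mem_image, Finset.mem_range, Finset.mem_insert]
  constructor
  · rintro ⟨j, hj, rfl⟩
    by_cases hjN : j = N
    · left
      rw [hjN, hz]
    · right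
      exact ⟨j, by omega, (h j (by omega)).symm⟩
  · rintro (rfl | ⟨j, hj, rfl⟩)
    · exact ⟨N, by omega, hz⟩
    · exact ⟨j, by omega, h j hj⟩

private theorem pci_ne {G : SimpleGraph V} {N : ℕ} {c c' : ℕ → V} {z : V} (h' : PC G (N + 1) c')
    (h : ∀ j < N, c' j = c j) {w : V} (hw : ∀ j, c j ≠ w) (hz : c' N = z) (hne : z ≠ w) :
    ∀ j, c' j ≠ w := by
  intro j
  rw [pci_mod h']
  have := Nat.mod_lt j (show 0 < N + 1 by omega)
  by_cases hj : j % (N + 1) = N
  · rw [hj, hz]
    exact hne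
  · rw [h _ (by omega)]
    exact hw _

/-- insertion of two vertices in two different gaps `(i, i+1)` and `(j, j+1)`: rotate so that the
first gap is the last one (`PC.shift` with `s = i + 1`), insert, the other gap is still a gap of the
longer sequence, rotate again and insert -/
theorem PC.insert_two {G : SimpleGraph V} {N : ℕ} {c : ℕ → V} (h : PC G N c) (hN : 2 ≤ N)
    {z z' : V} (hz : ∀ j, c j ≠ z) (hz' : ∀ j, c j ≠ z') (hne : z ≠ z') {i j : ℕ} (hi : i < N)
    (hj : j < N) (hij : i ≠ j) (hiz : G.Adj (c i) z) (hiz' : G.Adj (c (i + 1)) z)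
    (hjz : G.Adj (c j) z') (hjz' : G.Adj (c (j + 1)) z') :
    ∃ c' : ℕ → V, PC G (N + 2) c' ∧
      (range (N + 2)).image c' = insert z (insert z' ((range N).image c)) := by
  -- rotate so that the gap `i` is the last one
  obtain ⟨hc1, him1⟩ := h.shift (by omega) (i + 1)
  obtain ⟨c1, hc1def⟩ : ∃ c1 : ℕ → V, c1 = fun j => c (j + (i + 1)) := ⟨_, rfl⟩
  rw [← hc1def] at hc1 him1
  have e1 : c1 (N - 1) = c i := by
    rw [hc1def]
    simp only
    rw [show N - 1 + (i + 1) = i + N by omega, h.per]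
  have e2 : c1 0 = c (i + 1) := by
    rw [hc1def]
    simp
  obtain ⟨c2, hc2, hc2a, hc2b⟩ := hc1.insert_last (by omega) (z := z)
    (fun m => by rw [hc1def]; exact hz _) (by rw [e1]; exact hiz) (by rw [e2]; exact hiz'.symm)
  have him2 := pci_image_insert hc2a hc2b
  -- the gap `j`
  obtain ⟨j1, hj1, e3, e4⟩ : ∃ j1, j1 + 1 < N ∧ c1 j1 = c j ∧ c1 (j1 + 1) = c (j + 1) := by
    rcases Nat.lt_or_gt_of_ne hij with hlt | hgt
    · refine ⟨j - i - 1, by omega, ?_, ?_⟩
      · rw [hc1def]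
        simp only
        congr 1
        omega
      · rw [hc1def]
        simp only
        congr 1
        omega
    · refine ⟨j + N - i - 1, by omega, ?_, ?_⟩
      · rw [hc1def]
        simp only
        rw [show j + N - i - 1 + (i + 1) = j + N by omega, h.per]
      · rw [hc1def]
        simp only
        rw [show j + N - i - 1 + 1 + (i + 1) = j + 1 + N by omega, h.per]
  obtain ⟨hc3, him3⟩ := hc2.shift (by omega) (j1 + 1)
  obtain ⟨c3, hc3def⟩ : ∃ c3 : ℕ → V, c3 = fun m => c2 (m + (j1 + 1)) := ⟨_, rfl⟩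
  rw [← hc3def] at hc3 him3
  have e5 : c3 (N + 1 - 1) = c j := by
    rw [hc3def]
    simp only
    rw [show N + 1 - 1 + (j1 + 1) = j1 + (N + 1) by omega, hc2.per, hc2a j1 (by omega), e3]
  have e6 : c3 0 = c (j + 1) := by
    rw [hc3def]
    simp only
    rw [Nat.zero_add, hc2a (j1 + 1) hj1, e4]
  have hne2 : ∀ m, c2 m ≠ z' :=
    pci_ne hc2 hc2a (fun m => by rw [hc1def]; exact hz' _) hc2b hne
  obtain ⟨c4, hc4, hc4a, hc4b⟩ := hc3.insert_last (by omega) (z := z')
    (fun m => by rw [hc3def]; exact hne2 _) (by rw [e5]; exact hjz) (by rw [e6]; exact hjz'.symm)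
  have him4 := pci_image_insert hc4a hc4b
  refine ⟨c4, hc4, ?_⟩
  rw [him4, him3, him2, him1, Finset.insert_comm]

/-- insertion of an edge `z z'` in the gap `(j, j+1)` -/
theorem PC.insert_edge {G : SimpleGraph V} {N : ℕ} {c : ℕ → V} (h : PC G N c) (hN : 2 ≤ N)
    {z z' : V} (hz : ∀ j, c j ≠ z) (hz' : ∀ j, c j ≠ z') {j : ℕ}
    (hjz : G.Adj (c j) z) (hzz : G.Adj z z') (hjz' : G.Adj (c (j + 1)) z') :
    ∃ c' : ℕ → V, PC G (N + 2) c' ∧
      (range (N + 2)).image c' = insert z (insert z' ((range N).image c)) := by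
  obtain ⟨hc1, him1⟩ := h.shift (by omega) (j + 1)
  obtain ⟨c1, hc1def⟩ : ∃ c1 : ℕ → V, c1 = fun m => c (m + (j + 1)) := ⟨_, rfl⟩
  rw [← hc1def] at hc1 him1
  have e1 : c1 (N - 1) = c j := by
    rw [hc1def]
    simp only
    rw [show N - 1 + (j + 1) = j + N by omega, h.per]
  have e2 : c1 0 = c (j + 1) := by
    rw [hc1def]
    simp
  have hz1 : ∀ m, c1 m ≠ z := fun m => by rw [hc1def]; exact hz _
  have hz1' : ∀ m, c1 m ≠ z' := fun m => by rw [hc1def]; exact hz' _
  have hzz' : z ≠ z' := hzz.ne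
  obtain ⟨d, hd⟩ : ∃ d : ℕ → V, d = fun r => if r = N then z else if r = N + 1 then z' else c1 r :=
    ⟨_, rfl⟩
  have dN : d N = z := by rw [hd]; simp
  have dN1 : d (N + 1) = z' := by rw [hd]; simp
  have dlt : ∀ r < N, d r = c1 r := by
    intro r hr
    rw [hd]
    simp only
    rw [if_neg (by omega), if_neg (by omega)]
  have hcases : ∀ i < N + 2, i < N ∨ i = N ∨ i = N + 1 := by omega
  refine ⟨fun m => d (m % (N + 2)), ?_, ?_⟩
  · apply pci_of_fun (by omega)
    · intro i hi j hj hij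
      rcases hcases i hi with h1 | h1 | h1 <;> rcases hcases j hj with h2 | h2 | h2
      · rw [dlt i h1, dlt j h2] at hij
        exact hc1.inj i h1 j h2 hij
      · rw [dlt i h1, h2, dN] at hij
        exact absurd hij (hz1 i)
      · rw [dlt i h1, h2, dN1] at hij
        exact absurd hij (hz1' i)
      · rw [dlt j h2, h1, dN] at hij
        exact absurd hij.symm (hz1 j)
      · rw [h1, h2]
      · rw [h1, h2, dN, dN1] at hij
        exact absurd hij hzz'
      · rw [dlt j h2, h1, dN1] at hij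
        exact absurd hij.symm (hz1' j)
      · rw [h1, h2, dN, dN1] at hij
        exact absurd hij.symm hzz'
      · rw [h1, h2]
    · intro i hi
      rcases hcases i (by omega) with h1 | h1 | h1
      · by_cases h3 : i + 1 = N
        · rw [h3, dN, dlt i h1, show i = N - 1 by omega, e1]
          exact hjz
        · rw [dlt i h1, dlt (i + 1) (by omega)]
          exact hc1.adj i
      · rw [h1, dN, dN1]
        exact hzz
      · omega
    · rw [show N + 2 - 1 = N + 1 by omega, dN1, dlt 0 (by omega), e2]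
      exact hjz'.symm
  · ext x
    rw [← him1]
    simp only [Finset.mem_image, Finset.mem_range, Finset.mem_insert]
    constructor
    · rintro ⟨i, hi, rfl⟩
      rw [Nat.mod_eq_of_lt hi]
      rcases hcases i hi with h1 | h1 | h1
      · right; right
        exact ⟨i, h1, (dlt i h1).symm⟩
      · left
        rw [h1, dN]
      · right; left
        rw [h1, dN1]
    · rintro (rfl | rfl | ⟨i, hi, rfl⟩)
      · exact ⟨N, by omega, by rw [Nat.mod_eq_of_lt (by omega), dN]⟩
      · exact ⟨N + 1, by omega, by rw [Nat.mod_eq_of_lt (by omega), dN1]⟩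
      · exact ⟨i, by omega, by rw [Nat.mod_eq_of_lt (by omega), dlt i hi]⟩

/-- the list of a cyclic sequence -/
theorem PC.isCyc {G : SimpleGraph V} {N : ℕ} {c : ℕ → V} (h : PC G N c) (hN : 1 ≤ N) :
    ∃ l : List V, IsCyc G l ∧ l.length = N ∧ l.toFinset = (range N).image c := by
  obtain ⟨N, rfl⟩ : ∃ N', N = N' + 1 := ⟨N - 1, by omega⟩
  refine ⟨(List.range (N + 1)).map c, ⟨?_, ?_⟩, by simp, ?_⟩
  · rw [List.nodup_map_iff_inj_on List.nodup_range]
    intro i hi j hj hij
    rw [List.mem_range] at hi hj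
    exact h.inj i hi j hj hij
  · have e : (List.range (N + 1)).map c ++ ((List.range (N + 1)).map c).take 1 =
        (List.range (N + 2)).map c := by
      have e1 : ((List.range (N + 1)).map c).take 1 = [c 0] := by
        rw [List.range_succ_eq_map]
        simp
      rw [e1, List.range_succ (n := N + 1), List.map_append]
      congr 1
      have := h.per 0
      rw [Nat.zero_add] at this
      simp [this]
    rw [e, List.isChain_iff_getElem]
    intro i hi
    simpa using h.adj i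
  · ext x
    simp

theorem PC.cycM {G : SimpleGraph V} {N : ℕ} {c : ℕ → V} (h : PC G N c) (hN : 1 ≤ N) {B : Finset V}
    (hB : (range N).image c ⊆ B) : CycM G B N := by
  obtain ⟨l, hl, hlen, him⟩ := h.isCyc hN
  refine cycM_of_isCyc hl ?_ hN hlen.ge
  intro x hx
  apply hB
  rw [← him, List.mem_toFinset]
  exact hx

theorem PC.card_image {G : SimpleGraph V} {N : ℕ} {c : ℕ → V} (h : PC G N c) :
    ((range N).image c).card = N := by
  rw [Finset.card_image_of_injOn, Finset.card_range]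
  intro i hi j hj hij
  rw [Finset.mem_coe, Finset.mem_range] at hi hj
  exact h.inj i hi j hj hij

theorem PC.mem_image {G : SimpleGraph V} {N : ℕ} {c : ℕ → V} (h : PC G N c) (hN : 1 ≤ N) (j : ℕ) :
    c j ∈ (range N).image c := by
  rw [pci_mod h j]
  exact Finset.mem_image_of_mem c (Finset.mem_range.2 (Nat.mod_lt _ hN))

/-! ## JOB EXC1: heavy vertices have no two consecutive neighbours

Abstract setting: `R` a set of vertices not on the cyclic sequence `c` of period `2M`; `κ` a number.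
`tri2`: every edge from `c j` to `R` is in a triangle with third vertex in `R`.
`no2`: for `z` adjacent to `c j`, `z'` adjacent to `c (j+1)`, `z z'` adjacent: `o z + o z' < κ`. -/

/-- number of `j < 2M` with `c j` adjacent to `y` -/
noncomputable def an (G : SimpleGraph V) (N : ℕ) (c : ℕ → V) (y : V) : ℕ := by
  classical exact ((range N).filter (fun j => G.Adj (c j) y)).card

private theorem exc1_an_eq (G : SimpleGraph V) (N : ℕ) (c : ℕ → V) (y : V)
    [DecidablePred fun j => G.Adj (c j) y] :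
    an G N c y = ((range N).filter (fun j => G.Adj (c j) y)).card := by
  unfold an
  congr

theorem an_add_md {G : SimpleGraph V} {N : ℕ} {c : ℕ → V} (h : PC G N c) {y : V}
    (hy : y ∉ (range N).image c) : an G N c y + md G ((range N).image c) y = N := by
  classical
  rw [exc1_an_eq]
  have e1 : md G ((range N).image c) y = ((range N).filter (fun j => ¬ G.Adj (c j) y)).card := by
    unfold md
    rw [Finset.filter_image]
    have hinj : Set.InjOn c ((range N).filter (fun j => c j ≠ y ∧ ¬ G.Adj y (c j)) : Finset ℕ) := by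
      intro i hi j hj hij
      simp only [coe_filter, mem_range, Set.mem_ofPred_eq] at hi hj
      exact h.inj i hi.1 j hj.1 hij
    have hcard := Finset.card_image_of_injOn hinj
    have e2 : (range N).filter (fun j => c j ≠ y ∧ ¬ G.Adj y (c j)) =
        (range N).filter (fun j => ¬ G.Adj (c j) y) := by
      apply Finset.filter_congr
      intro j hj
      constructor
      · rintro ⟨_, h2⟩ h3
        exact h2 h3.symm
      · intro h2
        refine ⟨fun h3 => hy (mem_image.2 ⟨j, hj, h3⟩), fun h3 => h2 h3.symm⟩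
    rw [e2] at hcard
    rw [← hcard, ← e2]
  rw [e1, Finset.card_filter_add_card_filter_not, card_range]

/-- if no two consecutive positions are neighbours of `y` then at most half of them are -/
theorem an_le_half {G : SimpleGraph V} {M : ℕ} {c : ℕ → V} (hper : ∀ j, c (j + 2 * M) = c j) {y : V}
    (h : ∀ j, ¬ (G.Adj (c j) y ∧ G.Adj (c (j + 1)) y)) : an G (2 * M) c y ≤ M := by
  classical
  have _ := hper
  rw [exc1_an_eq]
  have hinj : Set.InjOn (fun j : ℕ => j / 2)
      ((range (2 * M)).filter (fun j => G.Adj (c j) y) : Finset ℕ) := by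
    intro i hi j hj hij
    simp only [coe_filter, mem_range, Set.mem_ofPred_eq] at hi hj
    have hij' : i / 2 = j / 2 := hij
    by_contra hne
    rcases lt_or_gt_of_ne hne with hlt | hlt
    · have e : j = i + 1 := by omega
      subst e
      exact h i ⟨hi.2, hj.2⟩
    · have e : i = j + 1 := by omega
      subst e
      exact h j ⟨hj.2, hi.2⟩
  have h1 := Finset.card_le_card_of_injOn (s := (range (2 * M)).filter (fun j => G.Adj (c j) y))
    (t := range M) (fun j : ℕ => j / 2) (by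
      intro j hj
      simp only [coe_filter, mem_range, Set.mem_ofPred_eq] at hj
      simp only [coe_range, Set.mem_Iio]
      omega) hinj
  rwa [card_range] at h1

/-- more than half of the positions are neighbours: at least two consecutive pairs
(`#{j : both c j, c (j+1) adjacent} ≥ 2 an y - 2M`, inclusion-exclusion for the set of neighbour
positions and its shift) -/
theorem two_pairs {G : SimpleGraph V} {M : ℕ} {c : ℕ → V} (hper : ∀ j, c (j + 2 * M) = c j) {y : V}
    (h : M + 1 ≤ an G (2 * M) c y) :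
    ∃ i < 2 * M, ∃ j < 2 * M, i ≠ j ∧ G.Adj (c i) y ∧ G.Adj (c (i + 1)) y ∧ G.Adj (c j) y ∧
      G.Adj (c (j + 1)) y := by
  classical
  rw [exc1_an_eq] at h
  have hMpos : 0 < M := by
    by_contra h0
    have h0' : M = 0 := by omega
    subst h0'
    simp at h
  -- the set of neighbour positions and its shift
  set N := 2 * M with hN
  have hNpos : 0 < N := by omega
  set T := (range N).filter (fun j => G.Adj (c j) y) with hT
  set T' := (range N).filter (fun j => G.Adj (c (j + 1)) y) with hT'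
  have hcard : T.card ≤ T'.card := by
    refine Finset.card_le_card_of_injOn (fun j => if j = 0 then N - 1 else j - 1) ?_ ?_
    · intro j hj
      simp only [hT, coe_filter, mem_range, Set.mem_ofPred_eq] at hj
      simp only [hT', coe_filter, mem_range, Set.mem_ofPred_eq]
      by_cases h0 : j = 0
      · subst h0
        rw [if_pos rfl]
        refine ⟨by omega, ?_⟩
        have e : N - 1 + 1 = 0 + N := by omega
        rw [e, hper]
        exact hj.2
      · rw [if_neg h0]
        refine ⟨by omega, ?_⟩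
        have e : j - 1 + 1 = j := by omega
        rw [e]
        exact hj.2
    · intro i hi j hj hij
      simp only [hT, coe_filter, mem_range, Set.mem_ofPred_eq] at hi hj
      simp only at hij
      split_ifs at hij <;> omega
  have hun : (T ∪ T').card ≤ N := by
    have : T ∪ T' ⊆ range N := by
      apply union_subset
      · exact filter_subset _ _
      · exact filter_subset _ _
    simpa using card_le_card this
  have hint := card_union_add_card_inter T T'
  have h2 : 1 < (T ∩ T').card := by omega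
  obtain ⟨i, hi, j, hj, hij⟩ := Finset.one_lt_card.1 h2
  simp only [hT, hT', mem_inter, mem_filter, mem_range] at hi hj
  exact ⟨i, hi.1.1, j, hj.1.1, hij, hi.1.2, hi.2.2, hj.1.2, hj.2.2⟩

/-- (1)+(2): let `y ∈ R` be heavy (`κ ≤ o y`) and adjacent to `c j` and `c (j+1)`. `tri2` gives
`z ∈ R` adjacent to `c j` and `y`; `no2` for the pair `z` (adjacent to `c j`), `y` (adjacent to
`c (j+1)`) gives `o z + o y < κ`, contradiction. -/
theorem heavy_gap {G : SimpleGraph V} {R : Finset V} {κ : ℕ} {c : ℕ → V}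
    (tri2 : ∀ j, ∀ y ∈ R, G.Adj (c j) y → ∃ z ∈ R, G.Adj (c j) z ∧ G.Adj z y)
    (no2 : ∀ j, ∀ z ∈ R, ∀ z' ∈ R, G.Adj (c j) z → G.Adj (c (j + 1)) z' → G.Adj z z' →
      md G R z + md G R z' < κ) {y : V} (hy : y ∈ R) (hk : κ ≤ md G R y) (j : ℕ) :
    ¬ (G.Adj (c j) y ∧ G.Adj (c (j + 1)) y) := by
  rintro ⟨h1, h2⟩
  obtain ⟨z, hz, hz1, hz2⟩ := tri2 j y hy h1
  have := no2 j z hz y hy hz1 h2 hz2
  omega

/-! ## JOB EXC2: the total number of neighbours of the heavy vertices -/

open Classical in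
/-- (3): for `z ∈ R` adjacent to `c j` and `c (j+1)`: the heavy neighbours of `c j` and the heavy
neighbours of `c (j+1)` are disjoint sets of non-neighbours of `z`, different from `z` -/
theorem heavy_sum_le {G : SimpleGraph V} {R : Finset V} {κ : ℕ} {c : ℕ → V}
    (tri2 : ∀ j, ∀ y ∈ R, G.Adj (c j) y → ∃ z ∈ R, G.Adj (c j) z ∧ G.Adj z y)
    (no2 : ∀ j, ∀ z ∈ R, ∀ z' ∈ R, G.Adj (c j) z → G.Adj (c (j + 1)) z' → G.Adj z z' →
      md G R z + md G R z' < κ) {z : V} (hz : z ∈ R) (j : ℕ) (h0 : G.Adj (c j) z)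
    (h1 : G.Adj (c (j + 1)) z) :
    (R.filter (fun y => κ ≤ md G R y ∧ G.Adj (c j) y)).card
      + (R.filter (fun y => κ ≤ md G R y ∧ G.Adj (c (j + 1)) y)).card ≤ md G R z ∧
    ∀ z' ∈ R, z' ≠ z → ¬ G.Adj z z' → md G R z' < κ →
      (R.filter (fun y => κ ≤ md G R y ∧ G.Adj (c j) y)).card
      + (R.filter (fun y => κ ≤ md G R y ∧ G.Adj (c (j + 1)) y)).card + 1 ≤ md G R z := by
  set A := R.filter (fun y => κ ≤ md G R y ∧ G.Adj (c j) y) with hA
  set B := R.filter (fun y => κ ≤ md G R y ∧ G.Adj (c (j + 1)) y) with hB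
  have hmdz : md G R z < κ := by
    by_contra hcon
    exact heavy_gap tri2 no2 hz (not_lt.mp hcon) j ⟨h0, h1⟩
  have hdisj : Disjoint A B := by
    rw [Finset.disjoint_left]
    intro y hyA hyB
    rw [hA, Finset.mem_filter] at hyA
    rw [hB, Finset.mem_filter] at hyB
    exact heavy_gap tri2 no2 hyA.1 hyA.2.1 j ⟨hyA.2.2, hyB.2.2⟩
  have hsub : A ∪ B ⊆ R.filter (fun x => x ≠ z ∧ ¬ G.Adj z x) := by
    intro y hy
    rw [Finset.mem_union] at hy
    rw [Finset.mem_filter]
    rcases hy with hy | hy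
    · rw [hA, Finset.mem_filter] at hy
      refine ⟨hy.1, ?_, ?_⟩
      · rintro rfl
        omega
      · intro hadj
        have := no2 j y hy.1 z hz hy.2.2 h1 hadj.symm
        omega
    · rw [hB, Finset.mem_filter] at hy
      refine ⟨hy.1, ?_, ?_⟩
      · rintro rfl
        omega
      · intro hadj
        have := no2 j z hz y hy.1 h0 hy.2.2 hadj
        omega
  have hmd : md G R z = (R.filter (fun x => x ≠ z ∧ ¬ G.Adj z x)).card := rfl
  refine ⟨?_, ?_⟩
  · rw [hmd, ← Finset.card_union_of_disjoint hdisj]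
    exact Finset.card_le_card hsub
  · intro z' hz' hne hna hlt
    have hz'n : z' ∉ A ∪ B := by
      rw [Finset.mem_union, hA, hB, Finset.mem_filter, Finset.mem_filter]
      rintro (h | h)
      · omega
      · omega
    have : insert z' (A ∪ B) ⊆ R.filter (fun x => x ≠ z ∧ ¬ G.Adj z x) := by
      apply Finset.insert_subset
      · rw [Finset.mem_filter]
        exact ⟨hz', hne, hna⟩
      · exact hsub
    have h2 := Finset.card_le_card this
    rw [Finset.card_insert_of_notMem hz'n, Finset.card_union_of_disjoint hdisj] at h2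
    rw [hmd]
    exact h2

/-- pairing sum -/
theorem exc2_pairs (M κ : ℕ) (hM : 1 ≤ M) (h : ℕ → ℕ) (hper : ∀ j, h (j + 2 * M) = h j)
    (hp : ∀ i < 2 * M, ∀ j < 2 * M, i ≠ j → h i + h (i + 1) + h j + h (j + 1) + 1 ≤ κ) :
    2 * ∑ j ∈ range (2 * M), h j ≤ M * (κ - 1) := by
  have hsum : ∀ n, ∑ j ∈ range (2 * n), h j = ∑ l ∈ range n, (h (2 * l) + h (2 * l + 1)) := by
    intro n
    induction n with
    | zero => simp
    | succ n ih =>
      rw [show 2 * (n + 1) = 2 * n + 1 + 1 by ring, Finset.sum_range_succ, Finset.sum_range_succ,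
        Finset.sum_range_succ, ih]
      ring
  rcases Nat.eq_or_lt_of_le hM with hM1 | hM2
  · subst hM1
    have := hp 0 (by norm_num) 1 (by norm_num) (by norm_num)
    have h2 : h 2 = h 0 := by
      have := hper 0
      simpa using this
    rw [hsum]
    simp at this ⊢
    omega
  · -- sum of the shifted sequence
    set g : ℕ → ℕ := fun l => h (2 * l) + h (2 * l + 1) with hg
    have hgM : g M = g 0 := by
      have e1 := hper 0
      have e2 := hper 1
      simp only [hg]
      rw [show 2 * M = 0 + 2 * M by ring, e1, show 0 + 2 * M + 1 = 1 + 2 * M by ring, e2]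
    have hshift : ∑ l ∈ range M, g (l + 1) = ∑ l ∈ range M, g l := by
      have e1 := Finset.sum_range_succ g M
      have e2 := Finset.sum_range_succ' g M
      omega
    have hle : ∀ l ∈ range M, g l + g (l + 1) ≤ κ - 1 := by
      intro l hl
      rw [Finset.mem_range] at hl
      by_cases hlast : l + 1 < M
      · have := hp (2 * l) (by omega) (2 * (l + 1)) (by omega) (by omega)
        simp only [hg]
        omega
      · have hl' : l + 1 = M := by omega
        have := hp (2 * l) (by omega) 0 (by omega) (by omega)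
        rw [hl', hgM]
        simp only [hg]
        simp at this ⊢
        omega
    have := Finset.sum_le_sum hle
    rw [Finset.sum_add_distrib, hshift, Finset.sum_const, Finset.card_range, smul_eq_mul] at this
    rw [hsum]
    change 2 * ∑ l ∈ range M, g l ≤ _
    omega

open Classical in
/-- (4): with `h j = #{y ∈ R heavy, adjacent to c j}`: for `i ≠ j` (both `< 2M`)
`h i + h (i+1) + h j + h (j+1) ≤ κ - 1`: choose `z ∈ Z_i`, `z' ∈ Z_j` distinct (`tri1`: at least two
choices), `no1` and `heavy_sum_le` (both `z, z'` are not heavy by `heavy_gap`). Sum over the pairs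
`(2l, 2l+1)`, `l < M`: `2 ∑_{j < 2M} h j ≤ M (κ - 1)` (for `M = 1` use `i = 0, j = 1` and
`h 2 = h 0`; for `M ≥ 2` sum the inequalities for `(2l, 2l+2)`, cyclically). Finally
`∑_{j < 2M} h j = ∑_{y heavy} an y`. -/
theorem heavy_total {G : SimpleGraph V} {R : Finset V} {M κ : ℕ} (hM : 1 ≤ M) {c : ℕ → V}
    (hper : ∀ j, c (j + 2 * M) = c j)
    (tri1 : ∀ j, ∃ z ∈ R, ∃ z' ∈ R, z ≠ z' ∧ G.Adj (c j) z ∧ G.Adj (c (j + 1)) z ∧
      G.Adj (c j) z' ∧ G.Adj (c (j + 1)) z')
    (tri2 : ∀ j, ∀ y ∈ R, G.Adj (c j) y → ∃ z ∈ R, G.Adj (c j) z ∧ G.Adj z y)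
    (no1 : ∀ i < 2 * M, ∀ j < 2 * M, i ≠ j → ∀ z ∈ R, ∀ z' ∈ R, z ≠ z' → G.Adj (c i) z →
      G.Adj (c (i + 1)) z → G.Adj (c j) z' → G.Adj (c (j + 1)) z' →
      (G.Adj z z' → md G R z + md G R z' < κ) ∧ (¬ G.Adj z z' → md G R z + md G R z' < κ + 1))
    (no2 : ∀ j, ∀ z ∈ R, ∀ z' ∈ R, G.Adj (c j) z → G.Adj (c (j + 1)) z' → G.Adj z z' →
      md G R z + md G R z' < κ) :
    2 * ∑ y ∈ R.filter (fun y => κ ≤ md G R y), an G (2 * M) c y ≤ M * (κ - 1) := by
  set h : ℕ → ℕ := fun j => (R.filter (fun y => κ ≤ md G R y ∧ G.Adj (c j) y)).card with hh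
  have hperh : ∀ j, h (j + 2 * M) = h j := by
    intro j
    simp only [hh, hper]
  have key : ∀ i < 2 * M, ∀ j < 2 * M, i ≠ j →
      h i + h (i + 1) + h j + h (j + 1) + 1 ≤ κ := by
    intro i hi j hj hij
    obtain ⟨z1, hz1, z2, hz2, hne, ha1, hb1, ha2, hb2⟩ := tri1 i
    obtain ⟨w, hw, _, _, _, hc1, hd1, _, _⟩ := tri1 j
    have hex : ∃ z ∈ R, z ≠ w ∧ G.Adj (c i) z ∧ G.Adj (c (i + 1)) z := by
      by_cases h1 : z1 = w
      · exact ⟨z2, hz2, fun h2 => hne (h1.trans h2.symm), ha2, hb2⟩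
      · exact ⟨z1, hz1, h1, ha1, hb1⟩
    obtain ⟨z, hz, hzw, hza, hzb⟩ := hex
    have hlz : md G R z < κ := by
      by_contra hcon
      exact heavy_gap tri2 no2 hz (not_lt.mp hcon) i ⟨hza, hzb⟩
    have hlw : md G R w < κ := by
      by_contra hcon
      exact heavy_gap tri2 no2 hw (not_lt.mp hcon) j ⟨hc1, hd1⟩
    have e1 := heavy_sum_le tri2 no2 hz i hza hzb
    have e2 := heavy_sum_le tri2 no2 hw j hc1 hd1
    have e3 := no1 i hi j hj hij z hz w hw hzw hza hzb hc1 hd1
    by_cases hadj : G.Adj z w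
    · have := e3.1 hadj
      have f1 := e1.1
      have f2 := e2.1
      simp only [hh]
      omega
    · have := e3.2 hadj
      have f1 := e1.2 w hw (Ne.symm hzw) hadj hlw
      have f2 := e2.2 z hz hzw (fun h => hadj h.symm) hlz
      simp only [hh]
      omega
  have hmain := exc2_pairs M κ hM h hperh key
  have hsw : ∑ y ∈ R.filter (fun y => κ ≤ md G R y), an G (2 * M) c y
      = ∑ j ∈ range (2 * M), h j := by
    simp only [hh, an, Finset.card_filter]
    rw [Finset.sum_comm]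
    apply Finset.sum_congr rfl
    intro j _
    rw [Finset.sum_filter]
    apply Finset.sum_congr rfl
    intro y _
    by_cases h1 : κ ≤ md G R y
    · simp [h1]
    · simp [h1]
  rw [hsw]
  exact hmain

/-! ## JOB EXC3 -/

/-- (6): all vertices `y ∈ R` with `κ + 1 ≤ 2 o y` and `an y ≥ M + 1` coincide: two different ones
`y, y'` lie in at least two of the sets `Z_j` each (`two_pairs`), so `y ∈ Z_i`, `y' ∈ Z_j` with
`i ≠ j`, contradicting `no1`. -/
theorem medium_unique {G : SimpleGraph V} {R : Finset V} {M κ : ℕ} {c : ℕ → V}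
    (hper : ∀ j, c (j + 2 * M) = c j)
    (no1 : ∀ i < 2 * M, ∀ j < 2 * M, i ≠ j → ∀ z ∈ R, ∀ z' ∈ R, z ≠ z' → G.Adj (c i) z →
      G.Adj (c (i + 1)) z → G.Adj (c j) z' → G.Adj (c (j + 1)) z' →
      (G.Adj z z' → md G R z + md G R z' < κ) ∧ (¬ G.Adj z z' → md G R z + md G R z' < κ + 1))
    {y y' : V} (hy : y ∈ R) (hy' : y' ∈ R) (h1 : κ + 1 ≤ 2 * md G R y)
    (h1' : κ + 1 ≤ 2 * md G R y') (h2 : M + 1 ≤ an G (2 * M) c y)
    (h2' : M + 1 ≤ an G (2 * M) c y') : y = y' := by
  by_contra hne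
  obtain ⟨i, hi, _, _, _, hi1, hi2, _, _⟩ := two_pairs hper h2
  obtain ⟨k, hk, l, hl, hkl, hk1, hk2, hl1, hl2⟩ := two_pairs hper h2'
  have key : ∀ j < 2 * M, i ≠ j → G.Adj (c j) y' → G.Adj (c (j + 1)) y' → False := by
    intro j hj hij hj1 hj2
    have h := no1 i hi j hj hij y hy y' hy' hne hi1 hi2 hj1 hj2
    by_cases had : G.Adj y y'
    · have := h.1 had
      omega
    · have := h.2 had
      omega
  by_cases hik : i = k
  · exact key l hl (by omega) hl1 hl2
  · exact key k hk hik hk1 hk2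

/-! ## JOB EXA: the arithmetic -/

private theorem exa_core (t M κ x Ns Nm Nl Ss Sm Sl As Am : ℤ) (ht : 1 ≤ t) (hM : 1 ≤ M)
    (hκ : 1 ≤ κ) (hx : 0 ≤ x) (hK2 : 2 ≤ κ + x) (hNs : 0 ≤ Ns) (hNm : 0 ≤ Nm) (hAm : 0 ≤ Am)
    (hb : Ns + Nm + Nl = 2 * t + 2 * M + κ + x)
    (h1 : Ss + As + 2 * Ns ≤ (t + 2 * M + κ + x) * Ns) (h2 : Sm + Nm ≤ κ * Nm)
    (h3 : 2 * Sl ≤ κ * Nl)
    (f1 : Ss + Sm + Sl + 2 + 2 * x = (κ + x) * (2 * t + 2 * M + κ + x - 1))
    (h4 : M * Ns ≤ As) (h5 : 2 * (2 * M * Ns - As) ≤ M * (κ - 1)) (h6 : M * Nm ≤ Am + M)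
    (f2 : As + Am ≤ M * (κ + x) + x) (h7 : Nm ≤ Sm) : False := by
  have hNl : Nl = 2 * t + 2 * M + κ + x - Ns - Nm := by linarith
  subst hNl
  have hD : 2 * (κ + x) * (2 * t + 2 * M + κ + x - 1) - 4 - 4 * x ≤
      2 * (t + 2 * M + κ + x - 2) * Ns - 2 * As + 2 * (κ - 1) * Nm +
        κ * (2 * t + 2 * M + κ + x - Ns - Nm) := by linarith
  have hM0 : 0 ≤ M := by linarith
  rcases eq_or_lt_of_le hκ with h | h
  · -- κ = 1
    have hk : κ = 1 := h.symm
    subst hk
    have hNm0 : Nm = 0 := by linarith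
    subst hNm0
    have hx1 : 1 ≤ x := by linarith
    have hA2 : 2 * M * Ns ≤ As := by linarith
    have hxM : 0 ≤ (M - 1) * x := mul_nonneg (by linarith) hx
    have hAs : As ≤ M * (1 + 2 * x) := by linarith
    have hNs2 : 2 * Ns ≤ 1 + 2 * x := by
      have h8 : M * (2 * Ns) ≤ M * (1 + 2 * x) := by linarith
      exact le_of_mul_le_mul_left h8 (by linarith)
    have h9 : 0 ≤ (2 * t + 2 * x - 3) * (1 + 2 * x - 2 * Ns) :=
      mul_nonneg (by linarith) (by linarith)
    have h10 : 0 ≤ (t - 1) * (1 + 2 * x) := mul_nonneg (by linarith) (by linarith)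
    have h11 : 0 ≤ (M - 1) * (1 + 2 * x) := mul_nonneg (by linarith) (by linarith)
    linarith
  · have hκ2 : 2 ≤ κ := by linarith
    have hMD := mul_le_mul_of_nonneg_left hD hM0
    have h6' : 0 ≤ (κ - 2) * (M * (κ + x) + x + M - As - M * Nm) :=
      mul_nonneg (by linarith) (by linarith)
    have hP3 : 0 ≤ (κ - 2) * x * (M - 1) :=
      mul_nonneg (mul_nonneg (by linarith) hx) (by linarith)
    have hposA : 0 < M * ((t + M) * (κ + 1 + 4 * x) + 2 * x ^ 2 - x - 3) := by
      refine mul_pos (by linarith) ?_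
      have e1 : 0 ≤ (t + M - 2) * (κ + 1 + 4 * x) := mul_nonneg (by linarith) (by linarith)
      have e2 : 0 ≤ x * x := mul_nonneg hx hx
      linarith
    by_cases hc : 2 * Ns ≤ κ - 1
    · have hP1 : 0 ≤ (2 * M + κ - 2) * (As - M * Ns) := mul_nonneg (by linarith) (by linarith)
      have hP2 : 0 ≤ M * (2 * t + 2 * M + 2 * x - 2) * (κ - 1 - 2 * Ns) :=
        mul_nonneg (mul_nonneg hM0 (by linarith)) (by linarith)
      linarith
    · push Not at hc
      have hc' : κ - 1 ≤ 2 * Ns := by linarith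
      have hP4 : 0 ≤ (2 * t + 4 * M + κ + 2 * x - 4) * (M * (κ - 1) - 2 * (2 * M * Ns - As)) :=
        mul_nonneg (by linarith) (by linarith)
      by_cases hs : 0 ≤ κ - 2 * t - 2 * x
      · have hMc : 0 ≤ M * (2 * Ns - (κ - 1)) := mul_nonneg hM0 (by linarith)
        have hAs2 : M * (κ - 1) ≤ 2 * As := by linarith
        have hP5 : 0 ≤ (κ - 2 * t - 2 * x) * (2 * As - M * (κ - 1)) :=
          mul_nonneg hs (by linarith)
        linarith
      · push Not at hs
        have hxM : 0 ≤ (M - 1) * x := mul_nonneg (by linarith) hx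
        have hAs3 : As ≤ M * (κ + 2 * x) := by linarith
        have hP6 : 0 ≤ (2 * t + 2 * x - κ) * (M * (κ + 2 * x) - As) :=
          mul_nonneg (by linarith) (by linarith)
        have hposB : 0 < M * ((κ + 1) * (2 * t + 4 * M + κ) + 2 * x * (4 * t + 8 * M + κ - 3) -
            12) := by
          refine mul_pos (by linarith) ?_
          have e1 : 0 ≤ (κ - 2) * (2 * t + 4 * M + κ) := mul_nonneg (by linarith) (by linarith)
          have e2 : 0 ≤ x * (4 * t + 8 * M + κ - 3) := mul_nonneg hx (by linarith)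
          linarith
        linarith

/-- Pure arithmetic of the extension lemma. `o y, cc y` the numbers of non-neighbours of `y ∈ R` in
`R` and on the cycle. `SH = {κ ≤ o}` (`Ns` elements), `MH = {o < κ, κ + 1 ≤ 2 o}` (`Nm` elements).
`As = ∑_{SH} cc`. From f3: `o ≤ t + 2M + K - 2 - cc` on `SH`; `o ≤ κ - 1` on `MH`; `2 o ≤ κ` on the
rest. So `2 ∑ o ≤ κ (b - Ns - Nm) + 2 (κ-1) Nm + 2 (t+2M+K-2) Ns - 2 As`. Also f4: `As ≥ M Ns`,
f5: `2 (2M Ns - As) ≤ M (κ - 1)`, f2 + f6: `As + M (Nm - 1) ≤ M K + x`, `As ≤ M K + x`. With `K = κ + x`,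
`a = t + 2M`, `b = 2t + 2M + K`:
`κ ≥ 2`: `D := 2 (K (b-1) - 2 - 2x) - (upper bound)` satisfies `M D ≥ G := M b (K+x) - M (2K+4+4x)
- (κ-2)(M + M K + x) - M Ns (2a+K+x-4) + (2M+κ-2) As` (used the bound for `Nm`).
 If `2 Ns ≤ κ - 1`: `As ≥ M Ns` gives `G ≥ M ((t+M)(κ+1+4x) + 2x² - x - 3) > 0`
 (uses `(κ-2) x ≤ M (κ-2) x`).
 If `2 Ns ≥ κ - 1`: `M Ns ≤ As/2 + M (κ-1)/4`; the coefficient of `As` becomes `κ/2 - t - x`; if it is
 nonnegative use `As ≥ M Ns ≥ M (κ-1)/2` (same value as before), otherwise `As ≤ M K + x`: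
 `4 G ≥ M ((κ+1)(2t+4M+κ) + 2x (4t+8M+κ-3) - 12) > 0` (uses `M K + x ≤ M (κ + 2x)` and
 `2t + κ + 2x ≥ 4`).
`κ = 1`: `MH` is empty, f5 gives `As = 2M Ns`, `As ≤ M K + x ≤ M (1 + 2x)` so `2 Ns ≤ 1 + 2x`,
`x = K - 1 ≥ 1`: `D = b (1+2x) - 6 - 6x - Ns (2t+2x-3)`, `2 D ≥ (1+2x)(2t+4M+5) - 12 - 12x > 0`. -/
theorem ext_arith {W : Type} (R : Finset W) (o cc : W → ℕ) (t M K x κ : ℕ) (ht : 1 ≤ t)
    (hM : 1 ≤ M) (hκ : 1 ≤ κ) (hK : K = κ + x) (hK2 : 2 ≤ K) (hb : R.card = 2 * t + 2 * M + K)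
    (f1 : ∑ y ∈ R, o y + 2 + 2 * x = K * (R.card - 1))
    (f2 : ∑ y ∈ R, cc y ≤ M * K + x)
    (f3 : ∀ y ∈ R, o y + cc y + 2 ≤ t + 2 * M + K)
    (f4 : ∀ y ∈ R, κ ≤ o y → M ≤ cc y)
    (f5 : 2 * ∑ y ∈ R.filter (fun y => κ ≤ o y), (2 * M - cc y) ≤ M * (κ - 1))
    (f6 : ∃ y0 : Option W, ∀ y ∈ R, some y ≠ y0 → o y < κ → κ + 1 ≤ 2 * o y → M ≤ cc y) :
    False := by
  classical
  set SH := R.filter (fun y => κ ≤ o y) with hSH
  set T := R.filter (fun y => ¬ κ ≤ o y) with hT
  set MH := T.filter (fun y => κ + 1 ≤ 2 * o y) with hMH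
  set LH := T.filter (fun y => ¬ κ + 1 ≤ 2 * o y) with hLH
  have hsplit : ∀ f : W → ℕ, ∑ y ∈ R, f y = ∑ y ∈ SH, f y + (∑ y ∈ MH, f y + ∑ y ∈ LH, f y) := by
    intro f
    rw [hMH, hLH, Finset.sum_filter_add_sum_filter_not, hSH, hT,
      Finset.sum_filter_add_sum_filter_not]
  have hcard : R.card = SH.card + (MH.card + LH.card) := by
    have := hsplit (fun _ => 1)
    simpa using this
  have hSHmem : ∀ y ∈ SH, y ∈ R ∧ κ ≤ o y := fun y hy => Finset.mem_filter.1 hy
  have hMHmem : ∀ y ∈ MH, y ∈ R ∧ o y < κ ∧ κ + 1 ≤ 2 * o y := by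
    intro y hy
    have h1 := Finset.mem_filter.1 hy
    have h2 := Finset.mem_filter.1 h1.1
    exact ⟨h2.1, not_le.1 h2.2, h1.2⟩
  have hLHmem : ∀ y ∈ LH, 2 * o y ≤ κ := by
    intro y hy
    have h1 := Finset.mem_filter.1 hy
    have := h1.2
    omega
  have g1 : ∑ y ∈ SH, o y + ∑ y ∈ SH, cc y + 2 * SH.card ≤ (t + 2 * M + K) * SH.card := by
    have h1 : ∑ y ∈ SH, (o y + cc y + 2) ≤ ∑ _y ∈ SH, (t + 2 * M + K) :=
      Finset.sum_le_sum fun y hy => f3 y (hSHmem y hy).1
    rw [Finset.sum_add_distrib, Finset.sum_add_distrib, Finset.sum_const, Finset.sum_const,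
      smul_eq_mul, smul_eq_mul] at h1
    linarith
  have g2 : ∑ y ∈ MH, o y + MH.card ≤ κ * MH.card := by
    have h1 : ∑ y ∈ MH, (o y + 1) ≤ ∑ _y ∈ MH, κ :=
      Finset.sum_le_sum fun y hy => (hMHmem y hy).2.1
    rw [Finset.sum_add_distrib, Finset.sum_const, Finset.sum_const, smul_eq_mul,
      smul_eq_mul] at h1
    linarith
  have g3 : 2 * ∑ y ∈ LH, o y ≤ κ * LH.card := by
    have h1 : ∑ y ∈ LH, (2 * o y) ≤ ∑ _y ∈ LH, κ := Finset.sum_le_sum fun y hy => hLHmem y hy
    rw [← Finset.mul_sum, Finset.sum_const, smul_eq_mul] at h1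
    linarith
  have g4 : M * SH.card ≤ ∑ y ∈ SH, cc y := by
    have h1 : ∑ _y ∈ SH, M ≤ ∑ y ∈ SH, cc y :=
      Finset.sum_le_sum fun y hy => f4 y (hSHmem y hy).1 (hSHmem y hy).2
    rw [Finset.sum_const, smul_eq_mul] at h1
    linarith
  have g5 : 2 * M * SH.card ≤ ∑ y ∈ SH, (2 * M - cc y) + ∑ y ∈ SH, cc y := by
    have h1 : ∑ _y ∈ SH, (2 * M) ≤ ∑ y ∈ SH, ((2 * M - cc y) + cc y) :=
      Finset.sum_le_sum fun y _ => by omega
    rw [Finset.sum_const, smul_eq_mul, Finset.sum_add_distrib] at h1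
    linarith
  have g6 : M * MH.card ≤ ∑ y ∈ MH, cc y + M := by
    obtain ⟨y0, hy0⟩ := f6
    have hgood : ∀ y ∈ MH, some y ≠ y0 → M ≤ cc y := fun y hy hne =>
      hy0 y (hMHmem y hy).1 hne (hMHmem y hy).2.1 (hMHmem y hy).2.2
    by_cases hex : ∃ z ∈ MH, some z = y0
    · obtain ⟨z, hz, hzy⟩ := hex
      have h1 : ∑ _y ∈ MH.erase z, M ≤ ∑ y ∈ MH.erase z, cc y :=
        Finset.sum_le_sum fun y hy => hgood y (Finset.mem_of_mem_erase hy) (by
          rw [← hzy]
          intro he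
          exact (Finset.ne_of_mem_erase hy) (Option.some.inj he))
      rw [Finset.sum_const, smul_eq_mul] at h1
      have h2 : ∑ y ∈ MH.erase z, cc y ≤ ∑ y ∈ MH, cc y :=
        Finset.sum_le_sum_of_subset (Finset.erase_subset z MH)
      have h3 : (MH.erase z).card + 1 = MH.card := Finset.card_erase_add_one hz
      rw [← h3]
      linarith
    · push Not at hex
      have h1 : ∑ _y ∈ MH, M ≤ ∑ y ∈ MH, cc y :=
        Finset.sum_le_sum fun y hy => hgood y hy (hex y hy)
      rw [Finset.sum_const, smul_eq_mul] at h1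
      linarith
  have g7 : MH.card ≤ ∑ y ∈ MH, o y := by
    have h1 : ∑ _y ∈ MH, 1 ≤ ∑ y ∈ MH, o y := Finset.sum_le_sum fun y hy => by
      have := (hMHmem y hy).2.2
      omega
    rw [Finset.sum_const, smul_eq_mul, mul_one] at h1
    exact h1
  rw [hsplit o] at f1
  rw [hsplit cc] at f2
  have hRpos : 1 ≤ R.card := by omega
  rw [hcard] at hb
  rw [hcard] at f1
  have hRpos' : 1 ≤ SH.card + (MH.card + LH.card) := by rw [← hcard]; exact hRpos
  have hf5' : 2 * ((2 * M * SH.card : ℕ) : ℤ) - 2 * ((∑ y ∈ SH, cc y : ℕ) : ℤ) ≤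
      (M : ℤ) * ((κ : ℤ) - 1) := by
    have e1 : ((M * (κ - 1) : ℕ) : ℤ) = (M : ℤ) * ((κ : ℤ) - 1) := by
      rw [Nat.cast_mul, Nat.cast_sub hκ, Nat.cast_one]
    have e2 : ((2 * ∑ y ∈ SH, (2 * M - cc y) : ℕ) : ℤ) ≤ ((M * (κ - 1) : ℕ) : ℤ) := by
      exact_mod_cast f5
    have e3 : ((2 * M * SH.card : ℕ) : ℤ) ≤
        ((∑ y ∈ SH, (2 * M - cc y) : ℕ) : ℤ) + ((∑ y ∈ SH, cc y : ℕ) : ℤ) := by
      exact_mod_cast g5
    rw [e1] at e2
    rw [Nat.cast_mul] at e2
    push_cast at e2 e3 ⊢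
    linarith
  have hf1' : ((∑ y ∈ SH, o y : ℕ) : ℤ) + ((∑ y ∈ MH, o y : ℕ) : ℤ) + ((∑ y ∈ LH, o y : ℕ) : ℤ)
      + 2 + 2 * (x : ℤ) = ((κ : ℤ) + x) * (2 * t + 2 * M + κ + x - 1) := by
    have e1 : ((K * (SH.card + (MH.card + LH.card) - 1) : ℕ) : ℤ) =
        ((κ : ℤ) + x) * (2 * t + 2 * M + κ + x - 1) := by
      rw [Nat.cast_mul, Nat.cast_sub hRpos', hb, hK]
      push_cast
      ring
    rw [← e1, ← f1]
    push_cast
    ring
  refine exa_core t M κ x SH.card MH.card LH.card (∑ y ∈ SH, o y : ℕ) (∑ y ∈ MH, o y : ℕ)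
    (∑ y ∈ LH, o y : ℕ) (∑ y ∈ SH, cc y : ℕ) (∑ y ∈ MH, cc y : ℕ) (by exact_mod_cast ht)
    (by exact_mod_cast hM) (by exact_mod_cast hκ) (Nat.cast_nonneg _) ?_ (Nat.cast_nonneg _)
    (Nat.cast_nonneg _) (Nat.cast_nonneg _) ?_ ?_ (by exact_mod_cast g2) (by exact_mod_cast g3)
    hf1' (by exact_mod_cast g4) ?_ (by exact_mod_cast g6) ?_ (by exact_mod_cast g7)
  · have : 2 ≤ κ + x := hK ▸ hK2
    exact_mod_cast this
  · have : SH.card + MH.card + LH.card = 2 * t + 2 * M + κ + x := by omega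
    exact_mod_cast this
  · rw [hK] at g1
    have : ∑ y ∈ SH, o y + ∑ y ∈ SH, cc y + 2 * SH.card ≤ (t + 2 * M + κ + x) * SH.card := by
      rw [show t + 2 * M + κ + x = t + 2 * M + (κ + x) by ring]
      exact g1
    exact_mod_cast this
  · push_cast at hf5' ⊢
    linarith
  · have : ∑ y ∈ SH, cc y + ∑ y ∈ MH, cc y ≤ M * (κ + x) + x := by
      rw [hK] at f2
      omega
    exact_mod_cast this

/-! ## JOB EXD: the extension step -/

/-- Extension lemma. `X = mi G A S`, write `X = M K + x`. Suppose there is no such `c'`. Then for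
every insertable pair (`PC.insert_two`, `PC.insert_edge`) by `mi_insert_two`:
`X + o z + o z' < (M+1) K` (adjacent), `X + o z + o z' < (M+1) K + 1` (nonadjacent). `tri1`: the edge
`c j, c (j+1)` is in at least `a` triangles, at most `2M - 2` third vertices on the cycle, so at least
`a - 2M + 2 ≥ 3` in `R`. `tri2`: the edge `c j, y` is in at least `a ≥ 2M + 1` triangles, at most
`2M - 1` third vertices on the cycle. A pair `z ∈ Z_0`, `z' ∈ Z_1` (distinct) shows
`X < (M+1) K` (if `z, z'` are nonadjacent both `o` are positive); put `κ = (M+1) K - X ≥ 1`,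
`K = κ + x`. f1: `∑_R o = 2 me(R)`, `me A = X + me R` (`me_eq_mi_add`), `2 ed A + 2 me A = n (n-1)`,
`ed A = a (n-1) + 1`, so `2 me A = K (n-1) - 2`. f2: `∑_R cc = ∑_{v ∈ S} md (A \ S) v ≤ X`. f3:
`Crit.md_le`. f4: `heavy_gap`, `an_le_half`, `an_add_md`. f5: `heavy_total`. f6: `medium_unique`. Then
`ext_arith` with `t = a - 2M`. -/
theorem extend_step {G : SimpleGraph V} {A : Finset V} {a K M : ℕ} (h : Crit G A a)
    (hK : A.card = 2 * a + K) (hM : 1 ≤ M) (ht : 2 * M + 1 ≤ a) {c : ℕ → V} (hc : PC G (2 * M) c)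
    (hcA : ∀ j, c j ∈ A) (hI : M * K ≤ mi G A ((range (2 * M)).image c)) :
    ∃ c' : ℕ → V, PC G (2 * (M + 1)) c' ∧ (∀ j, c' j ∈ A) ∧
      (M + 1) * K ≤ mi G A ((range (2 * (M + 1))).image c') := by
  classical
  by_contra hcon
  have hcon' : ∀ c' : ℕ → V, PC G (2 * M + 2) c' → (∀ j, c' j ∈ A) →
      mi G A ((range (2 * M + 2)).image c') < (M + 1) * K := by
    intro c' h1 h2
    by_contra h3
    exact hcon ⟨c', h1, h2, not_lt.mp h3⟩
  have hN1 : 1 ≤ 2 * M := by omega
  have hN2 : 2 ≤ 2 * M := by omega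
  obtain ⟨S, hS⟩ : ∃ S, S = (range (2 * M)).image c := ⟨_, rfl⟩
  rw [← hS] at hI
  have hSA : S ⊆ A := by
    intro x hx
    rw [hS, mem_image] at hx
    obtain ⟨j, _, rfl⟩ := hx
    exact hcA j
  have hScard : S.card = 2 * M := by rw [hS]; exact hc.card_image
  have hcS : ∀ j, c j ∈ S := fun j => by rw [hS]; exact hc.mem_image hN1 j
  obtain ⟨R, hR⟩ : ∃ R, R = A \ S := ⟨_, rfl⟩
  have hRmem : ∀ y, y ∈ R ↔ y ∈ A ∧ y ∉ S := fun y => by rw [hR, mem_sdiff]
  have hRA : R ⊆ A := fun y hy => ((hRmem y).mp hy).1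
  have hcR : ∀ z ∈ R, ∀ j, c j ≠ z := by
    rintro z hz j rfl
    exact ((hRmem _).mp hz).2 (hcS j)
  have hK2 : 2 ≤ K := by have := h.card; omega
  obtain ⟨X, hX⟩ : ∃ X, X = mi G A S := ⟨_, rfl⟩
  rw [← hX] at hI
  -- the new cycles
  have hins : ∀ c' : ℕ → V, PC G (2 * M + 2) c' → ∀ z ∈ R, ∀ z' ∈ R, z ≠ z' →
      (range (2 * M + 2)).image c' = insert z (insert z' S) →
      (G.Adj z z' → X + md G R z + md G R z' < (M + 1) * K) ∧
      (¬ G.Adj z z' → X + md G R z + md G R z' < (M + 1) * K + 1) := by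
    intro c' hc' z hz z' hz' hne him
    have hA : ∀ j, c' j ∈ A := by
      intro j
      have h1 : c' j ∈ (range (2 * M + 2)).image c' := hc'.mem_image (by omega) j
      rw [him, mem_insert, mem_insert] at h1
      rcases h1 with h1 | h1 | h1
      · rw [h1]; exact hRA hz
      · rw [h1]; exact hRA hz'
      · exact hSA h1
    have h1 := hcon' c' hc' hA
    rw [him] at h1
    have h2 := mi_insert_two G hSA ((hRmem _).mp hz).1 ((hRmem _).mp hz).2
      ((hRmem _).mp hz').1 ((hRmem _).mp hz').2 hne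
    rw [← hR, ← hX] at h2
    constructor
    · intro hadj
      have h3 := h2.1 hadj
      omega
    · intro hadj
      have h3 := h2.2 hadj
      omega
  have no1' : ∀ i < 2 * M, ∀ j < 2 * M, i ≠ j → ∀ z ∈ R, ∀ z' ∈ R, z ≠ z' → G.Adj (c i) z →
      G.Adj (c (i + 1)) z → G.Adj (c j) z' → G.Adj (c (j + 1)) z' →
      (G.Adj z z' → X + md G R z + md G R z' < (M + 1) * K) ∧
      (¬ G.Adj z z' → X + md G R z + md G R z' < (M + 1) * K + 1) := by
    intro i hi j hj hij z hz z' hz' hne h1 h2 h3 h4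
    obtain ⟨c', hc', him⟩ := hc.insert_two hN2 (hcR z hz) (hcR z' hz') hne hi hj hij h1 h2 h3 h4
    rw [← hS] at him
    exact hins c' hc' z hz z' hz' hne him
  have no2' : ∀ j, ∀ z ∈ R, ∀ z' ∈ R, G.Adj (c j) z → G.Adj (c (j + 1)) z' → G.Adj z z' →
      X + md G R z + md G R z' < (M + 1) * K := by
    intro j z hz z' hz' h1 h2 h3
    obtain ⟨c', hc', him⟩ := hc.insert_edge hN2 (hcR z hz) (hcR z' hz') h1 h3 h2
    rw [← hS] at him
    exact (hins c' hc' z hz z' hz' h3.ne him).1 h3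
  -- triangles
  have tri1 : ∀ j, ∃ z ∈ R, ∃ z' ∈ R, z ≠ z' ∧ G.Adj (c j) z ∧ G.Adj (c (j + 1)) z ∧
      G.Adj (c j) z' ∧ G.Adj (c (j + 1)) z' := by
    intro j
    have hne : c j ≠ c (j + 1) := (hc.adj j).ne
    have h1 : a ≤ (A.filter (fun x => G.Adj (c j) x ∧ G.Adj (c (j + 1)) x)).card :=
      h.tri (hcA j) (hcA (j + 1)) (hc.adj j) _ (fun x => by rw [mem_filter])
    have h2 : (A.filter (fun x => G.Adj (c j) x ∧ G.Adj (c (j + 1)) x)) ∩ S ⊆
        (S.erase (c j)).erase (c (j + 1)) := by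
      intro x hx
      rw [mem_inter, mem_filter] at hx
      rw [mem_erase, mem_erase]
      exact ⟨hx.1.2.2.ne', hx.1.2.1.ne', hx.2⟩
    have h3 := card_le_card h2
    rw [card_erase_of_mem (mem_erase.mpr ⟨hne.symm, hcS (j + 1)⟩), card_erase_of_mem (hcS j),
      hScard] at h3
    have h4 := card_sdiff_add_card_inter
      (A.filter (fun x => G.Adj (c j) x ∧ G.Adj (c (j + 1)) x)) S
    have h5 : 1 < ((A.filter (fun x => G.Adj (c j) x ∧ G.Adj (c (j + 1)) x)) \ S).card := by
      omega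
    obtain ⟨z, hz, z', hz', hzz⟩ := one_lt_card.mp h5
    rw [mem_sdiff, mem_filter] at hz hz'
    exact ⟨z, (hRmem z).mpr ⟨hz.1.1, hz.2⟩, z', (hRmem z').mpr ⟨hz'.1.1, hz'.2⟩, hzz,
      hz.1.2.1, hz.1.2.2, hz'.1.2.1, hz'.1.2.2⟩
  have tri2 : ∀ j, ∀ y ∈ R, G.Adj (c j) y → ∃ z ∈ R, G.Adj (c j) z ∧ G.Adj z y := by
    intro j y hy hadj
    have h1 : a ≤ (A.filter (fun x => G.Adj (c j) x ∧ G.Adj y x)).card :=
      h.tri (hcA j) (hRA hy) hadj _ (fun x => by rw [mem_filter])
    have h2 : (A.filter (fun x => G.Adj (c j) x ∧ G.Adj y x)) ∩ S ⊆ S.erase (c j) := by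
      intro x hx
      rw [mem_inter, mem_filter] at hx
      rw [mem_erase]
      exact ⟨hx.1.2.1.ne', hx.2⟩
    have h3 := card_le_card h2
    rw [card_erase_of_mem (hcS j), hScard] at h3
    have h4 := card_sdiff_add_card_inter (A.filter (fun x => G.Adj (c j) x ∧ G.Adj y x)) S
    have h5 : 0 < ((A.filter (fun x => G.Adj (c j) x ∧ G.Adj y x)) \ S).card := by omega
    obtain ⟨z, hz⟩ := card_pos.mp h5
    rw [mem_sdiff, mem_filter] at hz
    exact ⟨z, (hRmem z).mpr ⟨hz.1.1, hz.2⟩, hz.1.2.1, hz.1.2.2.symm⟩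
  -- `X < (M+1) K`
  have hXlt : X < (M + 1) * K := by
    obtain ⟨z1, hz1, -, -, -, h1a, h1b, -, -⟩ := tri1 0
    have hex : ∃ z2 ∈ R, z1 ≠ z2 ∧ G.Adj (c 1) z2 ∧ G.Adj (c (1 + 1)) z2 := by
      obtain ⟨z2, hz2, z3, hz3, hne, ha, hb, ha', hb'⟩ := tri1 1
      by_cases h : z1 = z2
      · exact ⟨z3, hz3, by rw [h]; exact hne, ha', hb'⟩
      · exact ⟨z2, hz2, h, ha, hb⟩
    obtain ⟨z2, hz2, hne, h2a, h2b⟩ := hex
    have h3 := no1' 0 (by omega) 1 (by omega) (by omega) z1 hz1 z2 hz2 hne h1a h1b h2a h2b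
    by_cases hadj : G.Adj z1 z2
    · have h4 := h3.1 hadj
      omega
    · have h4 := h3.2 hadj
      have h5 : 1 ≤ md G R z1 := by
        unfold md
        apply card_pos.mpr
        exact ⟨z2, by rw [mem_filter]; exact ⟨hz2, hne.symm, hadj⟩⟩
      omega
  obtain ⟨κ, hκ⟩ : ∃ κ, κ + X = (M + 1) * K := ⟨(M + 1) * K - X, by omega⟩
  obtain ⟨x, hx⟩ : ∃ x, X = M * K + x := ⟨X - M * K, by omega⟩
  have hMK : (M + 1) * K = M * K + K := by ring
  have hκ1 : 1 ≤ κ := by omega
  have hKx : K = κ + x := by omega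
  have no1 : ∀ i < 2 * M, ∀ j < 2 * M, i ≠ j → ∀ z ∈ R, ∀ z' ∈ R, z ≠ z' → G.Adj (c i) z →
      G.Adj (c (i + 1)) z → G.Adj (c j) z' → G.Adj (c (j + 1)) z' →
      (G.Adj z z' → md G R z + md G R z' < κ) ∧
      (¬ G.Adj z z' → md G R z + md G R z' < κ + 1) := by
    intro i hi j hj hij z hz z' hz' hne h1 h2 h3 h4
    have h5 := no1' i hi j hj hij z hz z' hz' hne h1 h2 h3 h4
    constructor
    · intro hadj
      have h6 := h5.1 hadj
      omega
    · intro hadj
      have h6 := h5.2 hadj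
      omega
  have no2 : ∀ j, ∀ z ∈ R, ∀ z' ∈ R, G.Adj (c j) z → G.Adj (c (j + 1)) z' → G.Adj z z' →
      md G R z + md G R z' < κ := by
    intro j z hz z' hz' h1 h2 h3
    have h4 := no2' j z hz z' hz' h1 h2 h3
    omega
  have hanmd : ∀ y ∈ R, an G (2 * M) c y + md G S y = 2 * M := by
    intro y hy
    have h1 : y ∉ (range (2 * M)).image c := by
      rw [← hS]
      exact ((hRmem y).mp hy).2
    have h2 := an_add_md hc h1
    rw [← hS] at h2
    exact h2
  have hRcard : R.card + 2 * M = 2 * a + K := by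
    have h1 := card_sdiff_add_card_eq_card hSA
    rw [← hR, hScard, hK] at h1
    exact h1
  have hb : R.card = 2 * (a - 2 * M) + 2 * M + K := by omega
  refine ext_arith R (fun y => md G R y) (fun y => md G S y) (a - 2 * M) M K x κ (by omega) hM
    hκ1 hKx hK2 hb ?_ ?_ ?_ ?_ ?_ ?_
  · -- f1
    have e1 := two_mul_me G R
    have e2 := me_eq_mi_add G hSA
    rw [← hR, ← hX] at e2
    have e3 := two_ed_add_two_me G A
    have e4 := h.edges
    obtain ⟨p, hp⟩ : ∃ p, A.card = p + 1 := ⟨A.card - 1, by omega⟩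
    rw [e4, hp, Nat.add_sub_cancel] at e3
    have e5 : (p + 1) * p = 2 * (a * p) + K * p := by
      have : p + 1 = 2 * a + K := by omega
      rw [this]
      ring
    have e6 : R.card - 1 = p - 2 * M := by omega
    rw [e6, Nat.mul_sub, ← e1]
    have e7 : K * (2 * M) = 2 * (M * K) := by ring
    rw [e7]
    rw [e5] at e3
    omega
  · -- f2
    have e1 : ∑ y ∈ R, md G S y = ∑ y ∈ S, md G R y := sum_md_comm G R S
    have e2 : mi G A S = me G S + ∑ v ∈ S, md G (A \ S) v := rfl
    rw [← hX, ← hR] at e2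
    simp only [e1]
    omega
  · -- f3
    intro y hy
    have e1 := h.md_le hK (hRA hy)
    have e2 : R ∪ S = A := by rw [hR]; exact sdiff_union_of_subset hSA
    have e3 : Disjoint R S := by rw [hR]; exact sdiff_disjoint
    have e4 := md_union G e3 y
    rw [e2] at e4
    omega
  · -- f4
    intro y hy hk
    have e1 := an_le_half hc.per (fun j => heavy_gap tri2 no2 hy hk j)
    have e2 := hanmd y hy
    omega
  · -- f5
    have e1 := heavy_total hM hc.per tri1 tri2 no1 no2
    refine le_trans (Nat.mul_le_mul_left 2 (le_of_eq ?_)) e1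
    apply sum_congr rfl
    intro y hy
    have e2 := hanmd y (mem_filter.mp hy).1
    omega
  · -- f6
    by_cases hex : ∃ y0 ∈ R, κ + 1 ≤ 2 * md G R y0 ∧ M + 1 ≤ an G (2 * M) c y0
    · obtain ⟨y0, hy0, h1, h2⟩ := hex
      refine ⟨some y0, ?_⟩
      intro y hy hne hlt h3
      by_contra h4
      have e2 := hanmd y hy
      have h5 : M + 1 ≤ an G (2 * M) c y := by omega
      exact hne (congrArg some (medium_unique hc.per no1 hy hy0 h3 h1 h5 h2))
    · refine ⟨none, ?_⟩
      intro y hy _ hlt h3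
      by_contra h4
      have e2 := hanmd y hy
      exact hex ⟨y, hy, h3, by omega⟩

/-! ## JOB EXE: start and consequence -/

/-- start: `∑ md = 2 me A = K (n-1) - 2 > (K-1) n` because `n = 2a + K > K + 2`, so some `u ∈ A` has
`md G A u ≥ K`; take any neighbour `v` and the 2-periodic sequence `u, v, u, v, ...` -/
theorem exists_start {G : SimpleGraph V} {A : Finset V} {a K : ℕ} (h : Crit G A a) (ha : 2 ≤ a)
    (hK : A.card = 2 * a + K) :
    ∃ c : ℕ → V, PC G 2 c ∧ (∀ j, c j ∈ A) ∧ 1 * K ≤ mi G A ((range (2 * 1)).image c) := by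
  have hcard := h.card
  have hK2 : 2 ≤ K := by omega
  -- a vertex with many non-neighbours
  obtain ⟨u, hu, huK⟩ : ∃ u ∈ A, K ≤ md G A u := by
    by_contra hno
    have hall : ∀ v ∈ A, md G A v + 1 ≤ K := by
      intro v hv
      by_contra hlt
      exact hno ⟨v, hv, by omega⟩
    have h1 : ∑ v ∈ A, (md G A v + 1) ≤ ∑ _v ∈ A, K := Finset.sum_le_sum hall
    rw [Finset.sum_add_distrib, ← two_mul_me] at h1
    simp only [sum_const, smul_eq_mul, mul_one] at h1
    have h2 := two_ed_add_two_me G A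
    rw [h.edges] at h2
    obtain ⟨n', hn'⟩ : ∃ n', A.card = n' + 1 := ⟨A.card - 1, by omega⟩
    rw [hn'] at h1 h2
    have e : n' + 1 - 1 = n' := by omega
    rw [e] at h2
    have hn'K : n' + 1 = 2 * a + K := by omega
    -- 2 me = (n'+1) n' - 2 a n' - 2 = K n' - 2
    have h3 : 2 * me G A + 2 = K * n' := by
      have : (n' + 1) * n' = 2 * (a * n') + K * n' := by
        rw [hn'K]
        ring
      omega
    have h4 : (n' + 1) * K = K * n' + K := by ring
    omega
  -- a neighbour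
  have hdg := h.deg hu
  obtain ⟨v, hv, huv⟩ := (dg_pos_iff G A u).1 (by omega)
  have hne : u ≠ v := huv.ne
  refine ⟨fun j => if j % 2 = 0 then u else v, ⟨?_, ?_, ?_⟩, ?_, ?_⟩
  · intro j
    simp only [Nat.add_mod_right]
  · intro i hi j hj hij
    have hi' : i = 0 ∨ i = 1 := by omega
    have hj' : j = 0 ∨ j = 1 := by omega
    rcases hi' with rfl | rfl <;> rcases hj' with rfl | rfl
    · rfl
    · exact absurd (by simpa using hij) hne
    · exact absurd (by simpa using hij.symm) hne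
    · rfl
  · intro j
    by_cases hj : j % 2 = 0
    · have hj1 : ¬ (j + 1) % 2 = 0 := by omega
      simp only [if_pos hj, if_neg hj1]
      exact huv
    · have hj1 : (j + 1) % 2 = 0 := by omega
      simp only [if_neg hj, if_pos hj1]
      exact huv.symm
  · intro j
    by_cases hj : j % 2 = 0
    · simp only [if_pos hj]
      exact hu
    · simp only [if_neg hj]
      exact hv
  · have himg : (range (2 * 1)).image (fun j => if j % 2 = 0 then u else v) =
        insert u (insert v ∅) := by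
      ext x
      simp only [mem_image, mem_range, mem_insert, notMem_empty, or_false]
      constructor
      · rintro ⟨j, hj, rfl⟩
        by_cases hj0 : j % 2 = 0
        · left
          rw [if_pos hj0]
        · right
          rw [if_neg hj0]
      · rintro (rfl | rfl)
        · exact ⟨0, by omega, by simp⟩
        · exact ⟨1, by omega, by simp⟩
    rw [himg]
    have hmi := (mi_insert_two G (A := A) (S := ∅) (empty_subset A) hu (notMem_empty u) hv
      (notMem_empty v) hne).1 huv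
    rw [hmi, sdiff_empty]
    omega

theorem exists_good_cycle {G : SimpleGraph V} {A : Finset V} {a K m : ℕ} (h : Crit G A a)
    (ha : 2 ≤ a) (hK : A.card = 2 * a + K) (hm : 1 ≤ m) (hma : 2 * m ≤ a + 1) :
    ∃ c : ℕ → V, PC G (2 * m) c ∧ (∀ j, c j ∈ A) ∧ m * K ≤ mi G A ((range (2 * m)).image c) := by
  induction m, hm using Nat.le_induction with
  | base => exact exists_start h ha hK
  | succ m hm ih =>
    obtain ⟨c, hc, hcA, hI⟩ := ih (by omega)
    exact extend_step h hK hm (by omega) hc hcA hI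

/-- Consequence: a `2m`-cycle whose removal keeps more than `(a-m)(n'-1)` edges.
`me A = mi A S + me (A \ S)`, `2 ed + 2 me = card (card - 1)` for `A` and `A \ S`. -/
theorem remove_cycle {G : SimpleGraph V} {A : Finset V} {a' m : ℕ} (h : Crit G A (a' + m))
    (ha : 2 ≤ a' + m) (hm : 1 ≤ m) (hma : 2 * m ≤ a' + m + 1) :
    ∃ c : ℕ → V, PC G (2 * m) c ∧ (∀ j, c j ∈ A) ∧
      a' * ((A \ (range (2 * m)).image c).card - 1) + 1 ≤ ed G (A \ (range (2 * m)).image c) := by
  have hcard := h.card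
  obtain ⟨K, hK⟩ : ∃ K, A.card = 2 * (a' + m) + K := ⟨A.card - 2 * (a' + m), by omega⟩
  obtain ⟨c, hc, hcA, hI⟩ := exists_good_cycle h ha hK hm hma
  refine ⟨c, hc, hcA, ?_⟩
  set S := (range (2 * m)).image c with hS
  have hSA : S ⊆ A := by
    intro x hx
    obtain ⟨j, _, rfl⟩ := mem_image.1 hx
    exact hcA j
  have hScard : S.card = 2 * m := hc.card_image
  have hR : (A \ S).card + S.card = A.card := card_sdiff_add_card_eq_card hSA
  have h1 := me_eq_mi_add G hSA
  have h2 := two_ed_add_two_me G A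
  have h3 := two_ed_add_two_me G (A \ S)
  rw [h.edges] at h2
  obtain ⟨r, hr⟩ : ∃ r, (A \ S).card = r + 1 := ⟨(A \ S).card - 1, by omega⟩
  have hr' : r + 1 = 2 * a' + K := by omega
  have hA1 : A.card - 1 = r + 2 * m := by omega
  have hA2 : A.card = r + 2 * m + 1 := by omega
  rw [hA1, hA2] at h2
  rw [hr] at h3 ⊢
  have e : r + 1 - 1 = r := by omega
  rw [e] at h3 ⊢
  have e1 : (r + 2 * m + 1) * (r + 2 * m) =
      2 * ((a' + m) * (r + 2 * m)) + K * r + 2 * (m * K) := by
    have : r + 2 * m + 1 = 2 * (a' + m) + K := by omega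
    rw [this]
    ring
  have e2 : (r + 1) * r = 2 * (a' * r) + K * r := by
    rw [hr']
    ring
  omega

end Pool.Agent.TwoRegMinor
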