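import Mathlib

set_option autoImplicit false

/-!
Components of a 2-regular graph as cyclic sequences, and the passage from packed cyclic branch-set
models to the minor form.
-/

namespace Pool.Agent.Lib.MP_616546_co

open SimpleGraph

/-- Every component of a 2-regular graph is a cyclic sequence of its vertices. -/
theorem comp_cyclic {t : ℕ} (H : SimpleGraph (Fin t))
    (h2 : ∀ v : Fin t, Nat.card (H.neighborSet v) = 2) (C : H.ConnectedComponent) :
    ∃ g : ℕ → Fin t, 3 ≤ Nat.card C.supp ∧
      (∀ i j, i < Nat.card C.supp → j < Nat.card C.supp → g i = g j → i = j) ∧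
      g (Nat.card C.supp) = g 0 ∧
      (∀ x, x ∈ C.supp ↔ ∃ i < Nat.card C.supp, g i = x) ∧
      (∀ x y, x ∈ C.supp → H.Adj x y →
        ∃ i < Nat.card C.supp, (x = g i ∧ y = g (i + 1)) ∨ (y = g i ∧ x = g (i + 1))) := by
  classical
  obtain ⟨v, hv⟩ := C.exists_rep
  have hvC : v ∈ C.supp := by
    rw [ConnectedComponent.mem_supp_iff]; exact hv
  have hcyc : H.IsCycles := by
    intro w _
    rw [← Nat.card_coe_set_eq]
    exact h2 w
  have hne : (H.neighborSet v).Nonempty := by
    apply Set.nonempty_of_ncard_ne_zero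
    rw [← Nat.card_coe_set_eq, h2]
    norm_num
  obtain ⟨p, hp1, hp2⟩ := hcyc.exists_cycle_toSubgraph_verts_eq_connectedComponentSupp
    (c := C) hvC hne
  have hmem : ∀ x, x ∈ C.supp ↔ x ∈ p.support := by
    intro x
    rw [← hp2, Walk.mem_verts_toSubgraph]
  have hmem2 : ∀ x, x ∈ C.supp ↔ ∃ i < p.length, p.getVert i = x := by
    intro x
    rw [hmem, Walk.mem_support_iff_exists_getVert]
    constructor
    · rintro ⟨i, hi, hle⟩
      rcases Nat.lt_or_ge i p.length with h | h
      · exact ⟨i, h, hi⟩
      · refine ⟨0, by have := hp1.three_le_length; omega, ?_⟩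
        rw [← hi, p.getVert_of_length_le h, Walk.getVert_zero]
    · rintro ⟨i, hi, hx⟩
      exact ⟨i, hx, hi.le⟩
  have hinj : ∀ i j, i < p.length → j < p.length → p.getVert i = p.getVert j → i = j := by
    intro i j hi hj h
    exact hp1.getVert_injOn' (by simp only [Set.mem_ofPred_eq]; omega)
      (by simp only [Set.mem_ofPred_eq]; omega) h
  have hcard : Nat.card C.supp = p.length := by
    have himg : C.supp = ↑((Finset.range p.length).image p.getVert) := by
      ext x
      rw [hmem2]
      simp
    rw [himg, Nat.card_coe_set_eq, Set.ncard_coe_finset, Finset.card_image_of_injOn,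
      Finset.card_range]
    intro i hi j hj h
    exact hinj i j (by simpa using hi) (by simpa using hj) h
  refine ⟨p.getVert, ?_, ?_, ?_, ?_, ?_⟩
  · rw [hcard]; exact hp1.three_le_length
  · rw [hcard]; exact hinj
  · rw [hcard, Walk.getVert_length, Walk.getVert_zero]
  · rw [hcard]; exact hmem2
  · rw [hcard]
    intro x y hx hxy
    have hadj : p.toSubgraph.Adj x y :=
      (hp1.adj_toSubgraph_iff_of_isCycles hcyc (by rw [hp2]; exact hx) y).2 hxy
    rw [Walk.toSubgraph_adj_iff] at hadj
    obtain ⟨i, hi, hlt⟩ := hadj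
    refine ⟨i, hlt, ?_⟩
    rw [Sym2.eq_iff] at hi
    rcases hi with ⟨h1, h2⟩ | ⟨h1, h2⟩
    · exact Or.inl ⟨h1.symm, h2.symm⟩
    · exact Or.inr ⟨h1.symm, h2.symm⟩

/-- The minor form from cyclic branch-set models, one for each component. -/
theorem minor_of_models {t n : ℕ} (H : SimpleGraph (Fin t)) (G : SimpleGraph (Fin n))
    (h2 : ∀ v : Fin t, Nat.card (H.neighborSet v) = 2)
    (Z : H.ConnectedComponent → ℕ → Set (Fin n))
    (hconn : ∀ C, ∀ i < Nat.card C.supp, (G.induce (Z C i)).Connected)
    (hdisj : ∀ C C' i i', i < Nat.card C.supp → i' < Nat.card C'.supp →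
      (C ≠ C' ∨ i ≠ i') → Disjoint (Z C i) (Z C' i'))
    (hadj : ∀ C, ∀ i < Nat.card C.supp,
      ∃ x ∈ Z C i, ∃ y ∈ Z C ((i + 1) % Nat.card C.supp), G.Adj x y) :
    ∃ f : Fin t → Set (Fin n),
      (∀ i, (G.induce (f i)).Connected) ∧
      (∀ i j, i ≠ j → Disjoint (f i) (f j)) ∧
      (∀ i j, H.Adj i j → ∃ x ∈ f i, ∃ y ∈ f j, G.Adj x y) := by
  classical
  choose g hg3 hginj hgper hgmem hgadj using comp_cyclic H h2
  -- index of a vertex in its component
  have hidx : ∀ v : Fin t, ∃ i, i < Nat.card (H.connectedComponentMk v).supp ∧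
      g (H.connectedComponentMk v) i = v := by
    intro v
    have : v ∈ (H.connectedComponentMk v).supp := by
      rw [ConnectedComponent.mem_supp_iff]
    obtain ⟨i, hi, h⟩ := (hgmem _ _).1 this
    exact ⟨i, hi, h⟩
  choose idx hidx1 hidx2 using hidx
  refine ⟨fun v => Z (H.connectedComponentMk v) (idx v), ?_, ?_, ?_⟩
  · intro v
    exact hconn _ _ (hidx1 v)
  · intro v w hvw
    apply hdisj _ _ _ _ (hidx1 v) (hidx1 w)
    by_contra hcon
    push Not at hcon
    apply hvw
    rw [← hidx2 v, ← hidx2 w, hcon.1, hcon.2]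
  · intro v w hvw
    have hvmem : v ∈ (H.connectedComponentMk v).supp := by
      rw [ConnectedComponent.mem_supp_iff]
    have hCw : H.connectedComponentMk w = H.connectedComponentMk v :=
      (ConnectedComponent.connectedComponentMk_eq_of_adj hvw).symm
    set C := H.connectedComponentMk v with hC
    -- indices
    have key : ∀ u, H.connectedComponentMk u = C → ∀ i, i < Nat.card C.supp → g C i = u →
        idx u = i := by
      intro u hu i hi hgi
      have h1 := hidx1 u
      have h2' := hidx2 u
      rw [hu] at h1 h2'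
      exact hginj C _ _ h1 hi (h2'.trans hgi.symm)
    have key2 : ∀ u, H.connectedComponentMk u = C → ∀ i, i < Nat.card C.supp → g C (i + 1) = u →
        idx u = (i + 1) % Nat.card C.supp := by
      intro u hu i hi hgi
      rcases Nat.lt_or_ge (i + 1) (Nat.card C.supp) with h | h
      · rw [Nat.mod_eq_of_lt h]
        exact key u hu _ h hgi
      · have he : i + 1 = Nat.card C.supp := by omega
        rw [he, Nat.mod_self]
        apply key u hu 0 (by have := hg3 C; omega)
        rw [← hgper C, ← he]
        exact hgi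
    obtain ⟨i, hi, h⟩ := hgadj C v w hvmem hvw
    obtain ⟨x, hx, y, hy, hxy⟩ := hadj C i hi
    rcases h with ⟨h1, h2'⟩ | ⟨h1, h2'⟩
    · refine ⟨x, ?_, y, ?_, hxy⟩
      · have := key v rfl i hi h1.symm
        show x ∈ Z C (idx v)
        rw [this]; exact hx
      · have := key2 w hCw i hi h2'.symm
        show y ∈ Z (H.connectedComponentMk w) (idx w)
        rw [hCw, this]; exact hy
    · refine ⟨y, ?_, x, ?_, hxy.symm⟩
      · have := key2 v rfl i hi h2'.symm
        show y ∈ Z C (idx v)
        rw [this]; exact hy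
      · have := key w hCw i hi h1.symm
        show x ∈ Z (H.connectedComponentMk w) (idx w)
        rw [hCw, this]; exact hx

/-- The components of a graph on `Fin t` partition its vertex set. -/
theorem sum_card_comp {t : ℕ} (H : SimpleGraph (Fin t)) [Fintype H.ConnectedComponent] :
    ∑ C : H.ConnectedComponent, Nat.card C.supp = t := by
  classical
  have h : ∀ C : H.ConnectedComponent, Nat.card C.supp =
      (Finset.univ.filter (fun v : Fin t => H.connectedComponentMk v = C)).card := by
    intro C
    rw [Nat.card_coe_set_eq, ← Set.ncard_coe_finset]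
    congr 1
    ext v
    simp [ConnectedComponent.mem_supp_iff]
  simp_rw [h]
  have := Finset.card_eq_sum_card_fiberwise (s := (Finset.univ : Finset (Fin t)))
    (t := (Finset.univ : Finset H.ConnectedComponent)) (f := fun v => H.connectedComponentMk v)
    (by intro v _; simp)
  rw [Finset.card_univ, Fintype.card_fin] at this
  exact this.symm

end Pool.Agent.Lib.MP_616546_co
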