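import Mathlib
import Pool.Agent.Lib.MP_616546_co.FCycle

set_option autoImplicit false

/-!
Elementary parts of the final deduction: complete graphs, arithmetic of the hypothesis.
-/

namespace Pool.Agent.Lib.MP_616546_co

open SimpleGraph

/-- A complete graph on at least `t` vertices has every graph on `t` vertices as a minor. -/
theorem minor_of_complete {t n : ℕ} (H : SimpleGraph (Fin t)) (G : SimpleGraph (Fin n))
    (hc : ∀ x y, x ≠ y → G.Adj x y) (htn : t ≤ n) :
    ∃ f : Fin t → Set (Fin n),
      (∀ i, (G.induce (f i)).Connected) ∧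
      (∀ i j, i ≠ j → Disjoint (f i) (f j)) ∧
      (∀ i j, H.Adj i j → ∃ x ∈ f i, ∃ y ∈ f j, G.Adj x y) := by
  refine ⟨fun i => {Fin.castLE htn i}, ?_, ?_, ?_⟩
  · intro i
    have : Subsingleton ({Fin.castLE htn i} : Set (Fin n)) := by
      constructor
      rintro ⟨a, ha⟩ ⟨b, hb⟩
      rw [Set.mem_singleton_iff] at ha hb
      exact Subtype.ext (ha.trans hb.symm)
    have : Nonempty ({Fin.castLE htn i} : Set (Fin n)) := ⟨⟨_, rfl⟩⟩
    exact Connected.mk Preconnected.of_subsingleton
  · intro i j hij
    rw [Set.disjoint_singleton]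
    intro h
    exact hij (Fin.castLE_injective htn h)
  · intro i j hij
    refine ⟨_, rfl, _, rfl, hc _ _ ?_⟩
    intro h
    exact hij.ne (Fin.castLE_injective htn h)

/-- Number of edges of a graph on `n` vertices. -/
theorem card_edgeSet_le {n : ℕ} (G : SimpleGraph (Fin n)) :
    2 * Nat.card G.edgeSet ≤ n * (n - 1) := by
  classical
  have h := G.card_edgeFinset_le_card_choose_two
  rw [Fintype.card_fin] at h
  have h2 : Nat.card G.edgeSet = G.edgeFinset.card := by
    rw [Nat.card_eq_fintype_card, SimpleGraph.edgeFinset_card]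
  rw [h2]
  have h3 := Nat.choose_two_right n
  have h4 : 2 * (n * (n - 1) / 2) ≤ n * (n - 1) := Nat.mul_div_le _ _
  rw [h3] at h
  omega

/-- A graph with all possible edges is complete. -/
theorem complete_of_card {n : ℕ} (G : SimpleGraph (Fin n))
    (h : n * (n - 1) ≤ 2 * Nat.card G.edgeSet) : ∀ x y, x ≠ y → G.Adj x y := by
  classical
  have h2 : Nat.card G.edgeSet = G.edgeFinset.card := by
    rw [Nat.card_eq_fintype_card, SimpleGraph.edgeFinset_card]
  have h3 : (⊤ : SimpleGraph (Fin n)).edgeFinset.card = n.choose 2 := by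
    rw [card_edgeFinset_top_eq_card_choose_two, Fintype.card_fin]
  have h4 : G.edgeFinset ⊆ (⊤ : SimpleGraph (Fin n)).edgeFinset := by
    rw [edgeFinset_subset_edgeFinset]; exact le_top
  have h5 : 2 * (n * (n - 1) / 2) = n * (n - 1) := by
    have := Nat.even_mul_pred_self n
    obtain ⟨k, hk⟩ := this
    rw [hk]; omega
  have h6 : G.edgeFinset = (⊤ : SimpleGraph (Fin n)).edgeFinset := by
    apply Finset.eq_of_subset_of_card_le h4
    rw [h3, Nat.choose_two_right]
    rw [h2] at h
    omega
  intro x y hxy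
  have h7 : s(x, y) ∈ G.edgeFinset := by
    rw [h6, mem_edgeFinset, mem_edgeSet, top_adj]; exact hxy
  rwa [mem_edgeFinset, mem_edgeSet] at h7

/-- Arithmetic: `r + [r odd] = 2 * ((r + 1) / 2)`, summed over the components. -/
theorem sum_half {t : ℕ} (H : SimpleGraph (Fin t)) [Fintype H.ConnectedComponent] :
    t + Nat.card {C : H.ConnectedComponent // Odd (Nat.card C.supp)} =
      2 * ∑ C : H.ConnectedComponent, (Nat.card C.supp + 1) / 2 := by
  classical
  have h1 : Nat.card {C : H.ConnectedComponent // Odd (Nat.card C.supp)} =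
      ∑ C : H.ConnectedComponent, if Odd (Nat.card C.supp) then 1 else 0 := by
    rw [Nat.card_eq_fintype_card, Fintype.card_subtype, Finset.card_filter]
  have h0 := sum_card_comp H
  rw [h1]
  refine (congrArg (· + _) h0.symm).trans ?_
  rw [← Finset.sum_add_distrib, Finset.mul_sum]
  apply Finset.sum_congr rfl
  intro C _
  split_ifs with h
  · obtain ⟨k, hk⟩ := h; omega
  · rw [Nat.not_odd_iff_even] at h
    obtain ⟨k, hk⟩ := h; omega

end Pool.Agent.Lib.MP_616546_co
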