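import Mathlib
import Pool.Agent.Lib.MP_616546_co.Defs
import Pool.Agent.Lib.MP_616546_co.FCycle

set_option autoImplicit false

/-!
From packings of cycle minors (`Pack`) to the minor form of the frozen statement.
-/

namespace Pool.Agent.TwoRegMinor

open Finset

variable {V : Type} [DecidableEq V]

theorem Conn.connected {G : SimpleGraph V} {P : Finset V} (h : Conn G P) :
    (G.induce (P : Set V)).Connected := by
  classical
  obtain ⟨hne, hcut⟩ := h
  obtain ⟨x0, hx0⟩ := hne
  have hn : Nonempty (P : Set V) := ⟨⟨x0, hx0⟩⟩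
  refine SimpleGraph.Connected.mk ?_
  intro x y
  by_contra hcon
  let X : Finset V := P.filter (fun z => ∃ hz : z ∈ (P : Set V), (G.induce (P : Set V)).Reachable x ⟨z, hz⟩)
  have hX : X ⊆ P := Finset.filter_subset _ _
  have hxX : (x : V) ∈ X := by
    rw [Finset.mem_filter]
    exact ⟨x.2, x.2, SimpleGraph.Reachable.refl _⟩
  have hyX : (y : V) ∉ X := by
    intro hy
    rw [Finset.mem_filter] at hy
    obtain ⟨_, hz, hr⟩ := hy
    exact hcon hr
  have hne : X ≠ P := by
    intro he
    apply hyX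
    rw [he]
    exact y.2
  obtain ⟨u, hu, w, hw, huw⟩ := hcut X hX ⟨x, hxX⟩ hne
  rw [Finset.mem_filter] at hu
  obtain ⟨_, hz, hr⟩ := hu
  rw [Finset.mem_sdiff] at hw
  apply hw.2
  rw [Finset.mem_filter]
  refine ⟨hw.1, hw.1, hr.trans ?_⟩
  apply SimpleGraph.Adj.reachable
  rw [SimpleGraph.induce_adj]
  exact huw

theorem Conn.union {G : SimpleGraph V} {X Y : Finset V} (hX : Conn G X) (hY : Conn G Y)
    (h : adjS G X Y) : Conn G (X ∪ Y) := by
  classical
  obtain ⟨x, hx, y, hy, hxy⟩ := h
  refine ⟨⟨x, Finset.mem_union_left _ hx⟩, ?_⟩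
  intro W hW hWne hWneq
  by_cases h1 : (W ∩ X).Nonempty ∧ W ∩ X ≠ X
  · obtain ⟨u, hu, w, hw, huw⟩ := hX.2 (W ∩ X) Finset.inter_subset_right h1.1 h1.2
    rw [Finset.mem_inter] at hu
    rw [Finset.mem_sdiff, Finset.mem_inter, not_and] at hw
    refine ⟨u, hu.1, w, ?_, huw⟩
    rw [Finset.mem_sdiff, Finset.mem_union]
    exact ⟨Or.inl hw.1, fun hc => hw.2 hc hw.1⟩
  by_cases h2 : (W ∩ Y).Nonempty ∧ W ∩ Y ≠ Y
  · obtain ⟨u, hu, w, hw, huw⟩ := hY.2 (W ∩ Y) Finset.inter_subset_right h2.1 h2.2
    rw [Finset.mem_inter] at hu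
    rw [Finset.mem_sdiff, Finset.mem_inter, not_and] at hw
    refine ⟨u, hu.1, w, ?_, huw⟩
    rw [Finset.mem_sdiff, Finset.mem_union]
    exact ⟨Or.inr hw.1, fun hc => hw.2 hc hw.1⟩
  -- now `W ∩ X` is empty or `X`, similarly for `Y`
  have h1' : W ∩ X = ∅ ∨ X ⊆ W := by
    by_cases hc : (W ∩ X).Nonempty
    · right
      have : W ∩ X = X := by
        by_contra hne
        exact h1 ⟨hc, hne⟩
      rw [← this]
      exact Finset.inter_subset_left
    · left
      exact Finset.not_nonempty_iff_eq_empty.1 hc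
  have h2' : W ∩ Y = ∅ ∨ Y ⊆ W := by
    by_cases hc : (W ∩ Y).Nonempty
    · right
      have : W ∩ Y = Y := by
        by_contra hne
        exact h2 ⟨hc, hne⟩
      rw [← this]
      exact Finset.inter_subset_left
    · left
      exact Finset.not_nonempty_iff_eq_empty.1 hc
  have hnX : ∀ z, z ∈ W → W ∩ X = ∅ → z ∉ X := by
    intro z hz he hzX
    have : z ∈ W ∩ X := Finset.mem_inter.2 ⟨hz, hzX⟩
    rw [he] at this
    exact absurd this (Finset.notMem_empty _)
  have hnY : ∀ z, z ∈ W → W ∩ Y = ∅ → z ∉ Y := by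
    intro z hz he hzY
    have : z ∈ W ∩ Y := Finset.mem_inter.2 ⟨hz, hzY⟩
    rw [he] at this
    exact absurd this (Finset.notMem_empty _)
  rcases h1' with e1 | e1
  · rcases h2' with e2 | e2
    · obtain ⟨z, hz⟩ := hWne
      rcases Finset.mem_union.1 (hW hz) with h3 | h3
      · exact absurd h3 (hnX z hz e1)
      · exact absurd h3 (hnY z hz e2)
    · refine ⟨y, e2 hy, x, ?_, hxy.symm⟩
      rw [Finset.mem_sdiff, Finset.mem_union]
      exact ⟨Or.inl hx, fun hc => hnX x hc e1 hx⟩
  · rcases h2' with e2 | e2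
    · refine ⟨x, e1 hx, y, ?_, hxy⟩
      rw [Finset.mem_sdiff, Finset.mem_union]
      exact ⟨Or.inr hy, fun hc => hnY y hc e2 hy⟩
    · exfalso
      apply hWneq
      exact Finset.Subset.antisymm hW (Finset.union_subset e1 e2)

omit [DecidableEq V] in
theorem adjS.symm {G : SimpleGraph V} {X Y : Finset V} (h : adjS G X Y) : adjS G Y X := by
  obtain ⟨x, hx, y, hy, hxy⟩ := h
  exact ⟨y, hy, x, hx, hxy.symm⟩

omit [DecidableEq V] in
theorem adjS.mono {G : SimpleGraph V} {X Y X' Y' : Finset V} (h : adjS G X Y) (h1 : X ⊆ X')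
    (h2 : Y ⊆ Y') : adjS G X' Y' := by
  obtain ⟨x, hx, y, hy, hxy⟩ := h
  exact ⟨x, h1 hx, y, h2 hy, hxy⟩

theorem CycM.mono {G : SimpleGraph V} {A B : Finset V} {r : ℕ} (h : CycM G A r) (hAB : A ⊆ B) :
    CycM G B r := by
  obtain ⟨l, h1, h2, h3, h4⟩ := h
  exact ⟨l, h1, fun X hX => ⟨(h2 X hX).1.trans hAB, (h2 X hX).2⟩, h3, h4⟩

theorem Pack.mono {G : SimpleGraph V} {L : List ℕ} : ∀ {A B : Finset V}, Pack G L A → A ⊆ B →
    Pack G L B := by
  induction L with
  | nil => intro A B _ _; trivial
  | cons r L ih =>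
    intro A B h hAB
    obtain ⟨C, hC, h1, h2⟩ := h
    exact ⟨C, hC.trans hAB, h1, ih h2 (Finset.sdiff_subset_sdiff hAB (Finset.Subset.refl _))⟩

/-- merging two consecutive branch sets -/
theorem CycM.merge {G : SimpleGraph V} {A : Finset V} {r : ℕ} (h : CycM G A (r + 1))
    (hr : 2 ≤ r) : CycM G A r := by
  obtain ⟨l, h1, h2, h3, h4⟩ := h
  match l, h1, h2, h3, h4 with
  | X :: Y :: Z :: l, h1, h2, h3, h4 =>
    refine ⟨(X ∪ Y) :: Z :: l, ?_, ?_, ?_, ?_⟩
    · simp only [List.length_cons] at h1 ⊢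
      omega
    · have hXY : adjS G X Y := by
        simp only [List.take_succ_cons, List.take_zero, List.cons_append, List.isChain_cons_cons]
          at h4
        exact h4.1
      intro W hW
      rcases List.mem_cons.1 hW with h | h
      · subst h
        have hX := h2 X (by simp)
        have hY := h2 Y (by simp)
        exact ⟨Finset.union_subset hX.1 hY.1, hX.2.union hY.2 hXY⟩
      · exact h2 W (by simp only [List.mem_cons] at h ⊢; tauto)
    · simp only [List.pairwise_cons] at h3 ⊢
      refine ⟨?_, h3.2.2.1, h3.2.2.2⟩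
      intro W hW
      rw [Finset.disjoint_union_left]
      exact ⟨h3.1 W (by simp only [List.mem_cons] at hW ⊢; tauto), h3.2.1 W hW⟩
    · simp only [List.take_succ_cons, List.take_zero, List.cons_append, List.isChain_cons_cons]
        at h4 ⊢
      obtain ⟨h5, h6, h7⟩ := h4
      refine ⟨h6.mono Finset.subset_union_right (Finset.Subset.refl _), ?_⟩
      rw [← List.cons_append, List.isChain_append] at h7 ⊢
      refine ⟨h7.1, ?_, ?_⟩
      · simp
      · intro x hx y hy
        have h8 := h7.2.2 x hx X (by simp)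
        simp only [List.head?_cons, Option.mem_def, Option.some.injEq] at hy
        rw [← hy]
        exact h8.mono (Finset.Subset.refl _) Finset.subset_union_left
  | [], h1, _, _, _ => simp at h1
  | [X], h1, _, _, _ => simp at h1; omega
  | [X, Y], h1, _, _, _ => simp at h1; omega

theorem CycM.le {G : SimpleGraph V} {A : Finset V} {r s : ℕ} (h : CycM G A s) (hr : 2 ≤ r)
    (hrs : r ≤ s) : CycM G A r := by
  induction s, hrs using Nat.le_induction with
  | base => exact h
  | succ n hn ih => exact ih (h.merge (by omega))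

theorem Pack.le {G : SimpleGraph V} {ι : Type} (f g : ι → ℕ) : ∀ (cs : List ι) {A : Finset V},
    Pack G (cs.map f) A → (∀ c ∈ cs, 2 ≤ g c ∧ g c ≤ f c) → Pack G (cs.map g) A := by
  intro cs
  induction cs with
  | nil => intro A _ _; trivial
  | cons c cs ih =>
    intro A h hc
    rw [List.map_cons] at h ⊢
    obtain ⟨B, hB, h1, h2⟩ := h
    have h3 := hc c (by simp)
    exact ⟨B, hB, h1.le h3.1 h3.2, ih h2 (fun c' hc' => hc c' (by simp [hc']))⟩

/-- the branch sets of a cycle minor as a function of the index -/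
theorem CycM.models {G : SimpleGraph V} {A : Finset V} {r : ℕ} (h : CycM G A r) :
    ∃ Z : ℕ → Finset V, (∀ i < r, Z i ⊆ A ∧ Conn G (Z i)) ∧
      (∀ i j, i < r → j < r → i ≠ j → Disjoint (Z i) (Z j)) ∧
      (∀ i < r, adjS G (Z i) (Z ((i + 1) % r))) := by
  obtain ⟨l, h1, h2, h3, h4⟩ := h
  refine ⟨fun i => l.getD i ∅, ?_, ?_, ?_⟩
  · intro i hi
    have hi' : i < l.length := by omega
    simp only [List.getD_eq_getElem _ _ hi']
    exact h2 _ (List.getElem_mem hi')
  · intro i j hi hj hij
    have hi' : i < l.length := by omega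
    have hj' : j < l.length := by omega
    simp only [List.getD_eq_getElem _ _ hi', List.getD_eq_getElem _ _ hj']
    rw [List.pairwise_iff_getElem] at h3
    rcases Nat.lt_or_gt_of_ne hij with h | h
    · exact h3 i j hi' hj' h
    · exact (h3 j i hj' hi' h).symm
  · intro i hi
    have hi' : i < l.length := by omega
    have hpos : 0 < l.length := by omega
    have h0 : l.take 1 = [l[0]] := by
      rw [List.take_one]
      cases l with
      | nil => simp at hpos
      | cons a l => rfl
    rw [h0, List.isChain_iff_getElem] at h4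
    have h5 := h4 i (by rw [List.length_append]; simp; omega)
    rw [List.getElem_append_left hi'] at h5
    have hmod : (i + 1) % r < l.length := by
      rw [h1]; exact Nat.mod_lt _ (by omega)
    simp only [List.getD_eq_getElem _ _ hi', List.getD_eq_getElem _ _ hmod]
    rcases Nat.lt_or_ge (i + 1) r with h | h
    · have h6 : i + 1 < l.length := by omega
      rw [List.getElem_append_left h6] at h5
      have h7 : (i + 1) % r = i + 1 := Nat.mod_eq_of_lt h
      simp only [h7]
      exact h5
    · have h6 : i + 1 = r := by omega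
      rw [List.getElem_append_right (by omega)] at h5
      have h7 : (i + 1) % r = 0 := by rw [h6]; exact Nat.mod_self r
      simp only [h7]
      simpa using h5

/-- the branch sets of a packing of cycle minors -/
theorem Pack.models {G : SimpleGraph V} {ι : Type} (r : ι → ℕ) : ∀ (cs : List ι) (A : Finset V),
    cs.Nodup → Pack G (cs.map r) A →
    ∃ Z : ι → ℕ → Finset V, (∀ c ∈ cs, ∀ i < r c, Z c i ⊆ A ∧ Conn G (Z c i)) ∧
      (∀ c ∈ cs, ∀ c' ∈ cs, ∀ i i', i < r c → i' < r c' → (c ≠ c' ∨ i ≠ i') →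
        Disjoint (Z c i) (Z c' i')) ∧
      (∀ c ∈ cs, ∀ i < r c, adjS G (Z c i) (Z c ((i + 1) % r c))) := by
  classical
  intro cs
  induction cs with
  | nil =>
    intro A _ _
    exact ⟨fun _ _ => ∅, by simp, by simp, by simp⟩
  | cons c cs ih =>
    intro A hnd h
    rw [List.map_cons] at h
    obtain ⟨B, hB, h1, h2⟩ := h
    rw [List.nodup_cons] at hnd
    obtain ⟨Z, hZ1, hZ2, hZ3⟩ := ih (A \ B) hnd.2 h2
    obtain ⟨Y, hY1, hY2, hY3⟩ := h1.models
    have hne : ∀ c' ∈ cs, c' ≠ c := fun c' hc' he => hnd.1 (he ▸ hc')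
    refine ⟨fun c' => if c' = c then Y else Z c', ?_, ?_, ?_⟩
    · intro c' hc' i hi
      rcases List.mem_cons.1 hc' with h | h
      · subst h
        simp only [if_true]
        exact ⟨(hY1 i hi).1.trans hB, (hY1 i hi).2⟩
      · simp only [if_neg (hne c' h)]
        exact ⟨(hZ1 c' h i hi).1.trans Finset.sdiff_subset, (hZ1 c' h i hi).2⟩
    · have key : ∀ c' ∈ cs, ∀ i i', i < r c → i' < r c' → Disjoint (Y i) (Z c' i') := by
        intro c' hc' i i' hi hi'
        have e1 := (hY1 i hi).1
        have e2 := (hZ1 c' hc' i' hi').1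
        exact Finset.disjoint_of_subset_left e1 (Finset.disjoint_of_subset_right e2
          Finset.disjoint_sdiff)
      intro c1 hc1 c2 hc2 i i' hi hi' hd
      rcases List.mem_cons.1 hc1 with g1 | g1
      · rcases List.mem_cons.1 hc2 with g2 | g2
        · subst g1
          subst g2
          simp only [if_true]
          exact hY2 i i' hi hi' (by simpa using hd)
        · subst g1
          simp only [if_true, if_neg (hne c2 g2)]
          exact key c2 g2 i i' hi hi'
      · rcases List.mem_cons.1 hc2 with g2 | g2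
        · subst g2
          simp only [if_true, if_neg (hne c1 g1)]
          exact (key c1 g1 i' i hi' hi).symm
        · simp only [if_neg (hne c1 g1), if_neg (hne c2 g2)]
          exact hZ2 c1 g1 c2 g2 i i' hi hi' hd
    · intro c' hc' i hi
      rcases List.mem_cons.1 hc' with h | h
      · subst h
        simp only [if_true]
        exact hY3 i hi
      · simp only [if_neg (hne c' h)]
        exact hZ3 c' h i hi

/-- The frozen minor form from a packing of cycle minors whose lengths are the sizes of the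
components. -/
theorem minor_of_pack {t n : ℕ} (H : SimpleGraph (Fin t)) (G : SimpleGraph (Fin n))
    (h2 : ∀ v : Fin t, Nat.card (H.neighborSet v) = 2) (cs : List H.ConnectedComponent)
    (hnd : cs.Nodup) (hall : ∀ C, C ∈ cs) (A : Finset (Fin n))
    (hp : Pack G (cs.map (fun C => Nat.card C.supp)) A) :
    ∃ f : Fin t → Set (Fin n),
      (∀ i, (G.induce (f i)).Connected) ∧
      (∀ i j, i ≠ j → Disjoint (f i) (f j)) ∧
      (∀ i j, H.Adj i j → ∃ x ∈ f i, ∃ y ∈ f j, G.Adj x y) := by
  obtain ⟨Z, h1, h3, h4⟩ := hp.models _ cs A hnd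
  apply Pool.Agent.Lib.MP_616546_co.minor_of_models H G h2 (fun C i => (Z C i : Set (Fin n)))
  · intro C i hi
    exact (h1 C (hall C) i hi).2.connected
  · intro C C' i i' hi hi' hd
    rw [Finset.disjoint_coe]
    exact h3 C (hall C) C' (hall C') i i' hi hi' hd
  · intro C i hi
    obtain ⟨x, hx, y, hy, hxy⟩ := h4 C (hall C) i hi
    exact ⟨x, hx, y, hy, hxy⟩

end Pool.Agent.TwoRegMinor
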