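import Mathlib
import Pool.Agent.Lib.MP_616546_co.Emb
import Pool.Agent.Lib.MP_616546_co.FPack
import Pool.Agent.Lib.MP_616546_co.FBasic

set_option autoImplicit false

/-!
The final deduction of the frozen statement from the two main properties.
-/

namespace Pool.Agent.TwoRegMinor

open Finset

section counting

variable {V : Type} [DecidableEq V]

omit [DecidableEq V] in
theorem fin_sum_dg_comm (G : SimpleGraph V) (A B : Finset V) :
    ∑ v ∈ A, dg G B v = ∑ v ∈ B, dg G A v := by
  classical
  unfold dg
  simp_rw [Finset.card_filter]
  rw [Finset.sum_comm]
  apply Finset.sum_congr rfl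
  intro x _
  apply Finset.sum_congr rfl
  intro y _
  simp only [G.adj_comm x y]

theorem fin_dg_sdiff (G : SimpleGraph V) (A B : Finset V) (hB : B ⊆ A) (v : V) :
    dg G A v = dg G B v + dg G (A \ B) v := by
  classical
  unfold dg
  rw [← Finset.card_union_of_disjoint]
  · congr 1
    rw [← Finset.filter_union, Finset.union_sdiff_of_subset hB]
  · apply Finset.disjoint_filter_filter
    exact Finset.disjoint_sdiff

omit [DecidableEq V] in
theorem fin_dg_le (G : SimpleGraph V) (A : Finset V) (v : V) (hv : v ∈ A) :
    dg G A v ≤ A.card - 1 := by
  classical
  unfold dg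
  rw [← Finset.card_erase_of_mem hv]
  apply Finset.card_le_card
  intro x hx
  rw [Finset.mem_filter] at hx
  rw [Finset.mem_erase]
  exact ⟨hx.2.ne', hx.1⟩

theorem fin_ed_univ {n : ℕ} (G : SimpleGraph (Fin n)) : ed G univ = Nat.card G.edgeSet := by
  classical
  have h := G.sum_degrees_eq_twice_card_edges
  have h2 : Nat.card G.edgeSet = G.edgeFinset.card := by
    rw [Nat.card_eq_fintype_card, SimpleGraph.edgeFinset_card]
  have h3 : ∑ v : Fin n, dg G univ v = ∑ v : Fin n, G.degree v := by
    apply Finset.sum_congr rfl
    intro v _
    rw [← SimpleGraph.card_neighborFinset_eq_degree]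
    unfold dg
    congr 1
    ext x
    simp
  unfold ed
  rw [h3, h, h2]
  omega

end counting

theorem final_of
    (hTP : ∀ (n : ℕ) (ms : List ℕ) (a : ℕ), Adm ms a → TP (Fin n) (ms.map (fun m => 2 * m)) a)
    (hTPP : ∀ (n q : ℕ) (G : SimpleGraph (Fin n)) (A : Finset (Fin n)), 1 ≤ q →
      (2 * q - 1) * (A.card - 1) < ed G A → Pack G (3 :: List.replicate (q - 1) 4) A) :
    ∀ (t : ℕ) (H : SimpleGraph (Fin t)),
      (∀ v : Fin t, Nat.card (H.neighborSet v) = 2) →
      ¬ (H.Connected ∧ Even t) →
      ¬ (∀ C : H.ConnectedComponent, Nat.card C.supp = 4) →
      ∀ (n : ℕ) (G : SimpleGraph (Fin n)),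
        t ≤ n →
        (((t : ℤ) + (Nat.card {C : H.ConnectedComponent // Odd (Nat.card C.supp)} : ℤ) - 2)
            * (n : ℤ) ≤ 2 * (Nat.card G.edgeSet : ℤ)) →
        ∃ f : Fin t → Set (Fin n),
          (∀ i, (G.induce (f i)).Connected) ∧
          (∀ i j, i ≠ j → Disjoint (f i) (f j)) ∧
          (∀ i j, H.Adj i j → ∃ x ∈ f i, ∃ y ∈ f j, G.Adj x y) := by
  classical
  intro t H h2 hconn h4 n G htn hedges
  have hfin : Fintype H.ConnectedComponent := Fintype.ofFinite _
  -- sizes of the components
  set r : H.ConnectedComponent → ℕ := fun C => Nat.card C.supp with hr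
  have hr3 : ∀ C, 3 ≤ r C := by
    intro C
    obtain ⟨g, hg, _⟩ := Pool.Agent.Lib.MP_616546_co.comp_cyclic H h2 C
    exact hg
  have hsum : ∑ C, r C = t := Pool.Agent.Lib.MP_616546_co.sum_card_comp H
  -- a component exists
  have hexC : ∃ C : H.ConnectedComponent, r C ≠ 4 := by
    by_contra hcon
    push Not at hcon
    exact h4 hcon
  obtain ⟨C1, hC1⟩ := hexC
  obtain ⟨C0, _, hmin⟩ := Finset.exists_min_image (Finset.univ : Finset H.ConnectedComponent) r
    ⟨C1, Finset.mem_univ _⟩
  have hmin' : ∀ C, r C0 ≤ r C := fun C => hmin C (Finset.mem_univ _)
  -- the list of components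
  set rest : List H.ConnectedComponent := (Finset.univ.erase C0).toList with hrest
  have hrestmem : ∀ C, C ∈ rest ↔ C ≠ C0 := by
    intro C
    rw [hrest, Finset.mem_toList, Finset.mem_erase]
    simp
  have hnd : (C0 :: rest).Nodup := by
    rw [List.nodup_cons]
    refine ⟨?_, Finset.nodup_toList _⟩
    rw [hrestmem]
    simp
  have hall : ∀ C, C ∈ C0 :: rest := by
    intro C
    rw [List.mem_cons, hrestmem]
    tauto
  have hlsum : ∀ f : H.ConnectedComponent → ℕ, ((C0 :: rest).map f).sum = ∑ C, f C := by
    intro f
    rw [List.map_cons, List.sum_cons, hrest, Finset.sum_map_toList,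
      Finset.add_sum_erase _ f (Finset.mem_univ C0)]
  -- half lengths
  set m : H.ConnectedComponent → ℕ := fun C => (r C + 1) / 2 with hm
  have hm2 : ∀ C, 2 ≤ m C := by
    intro C
    have := hr3 C
    simp only [hm]
    omega
  have hmC0 : ∀ C, m C0 ≤ m C := by
    intro C
    have := hmin' C
    simp only [hm]
    omega
  obtain ⟨a, ha⟩ : ∃ a, ∑ C, m C = a + 1 := by
    have h1 : m C0 ≤ ∑ C, m C := Finset.single_le_sum (fun C _ => Nat.zero_le _)
      (Finset.mem_univ C0)
    have := hm2 C0
    exact ⟨∑ C, m C - 1, by omega⟩
  have hhalf := Pool.Agent.Lib.MP_616546_co.sum_half H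
  set c : ℕ := Nat.card {C : H.ConnectedComponent // Odd (Nat.card C.supp)} with hc
  have htc : t + c = 2 * a + 2 := by
    have : t + c = 2 * ∑ C, m C := hhalf
    rw [this, ha]; ring
  have ha1 : 1 ≤ a := by
    have h1 : m C0 ≤ ∑ C, m C := Finset.single_le_sum (fun C _ => Nat.zero_le _)
      (Finset.mem_univ C0)
    have := hm2 C0
    omega
  -- number of edges
  have hed : a * n ≤ ed G univ := by
    rw [fin_ed_univ]
    have h1 : ((t : ℤ) + (c : ℤ) - 2) = 2 * (a : ℤ) := by
      have : ((t + c : ℕ) : ℤ) = ((2 * a + 2 : ℕ) : ℤ) := by rw [htc]
      push_cast at this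
      linarith
    rw [h1] at hedges
    have h2 : (a : ℤ) * n ≤ (Nat.card G.edgeSet : ℤ) := by nlinarith
    exact_mod_cast h2
  have hn3 : 3 ≤ n := by
    have h1 : r C0 ≤ ∑ C, r C := Finset.single_le_sum (fun C _ => Nat.zero_le _)
      (Finset.mem_univ C0)
    have := hr3 C0
    omega
  have hcard : (univ : Finset (Fin n)).card = n := by rw [Finset.card_univ, Fintype.card_fin]
  have hed' : a * ((univ : Finset (Fin n)).card - 1) < ed G univ := by
    rw [hcard]
    have : a * (n - 1) < a * n := Nat.mul_lt_mul_of_pos_left (by omega) (by omega)
    omega
  -- it suffices to find the packing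
  suffices hP : Pack G ((C0 :: rest).map r) univ from
    minor_of_pack H G h2 (C0 :: rest) hnd hall univ hP
  have hrm : ∀ C, r C ≤ 2 * m C := by
    intro C
    simp only [hm]
    omega
  have hmapm : ((C0 :: rest).map m).map (fun m => 2 * m) = (C0 :: rest).map (fun C => 2 * m C) := by
    rw [List.map_map]
    rfl
  by_cases hcase : rest.length = 0 ∨ ∃ C, 3 ≤ m C
  · -- admissible list
    have hadm : Adm ((C0 :: rest).map m) a := by
      refine ⟨?_, ?_, ?_⟩
      · intro x hx
        rw [List.mem_map] at hx
        obtain ⟨C, _, rfl⟩ := hx
        exact hm2 C
      · rw [hlsum, ha]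
      · rcases hcase with h | ⟨C, hC⟩
        · left
          rw [List.length_map, List.length_cons, h]
        · right
          exact ⟨m C, List.mem_map.2 ⟨C, hall C, rfl⟩, hC⟩
    rcases hTP n _ a hadm G univ hed' with h | ⟨Q, _, hQ⟩
    · rw [hmapm] at h
      refine Pack.le (fun C => 2 * m C) r _ h ?_
      intro C _
      exact ⟨by have := hr3 C; omega, hrm C⟩
    · by_cases hc0 : c = 0
      · -- all components are even
        have heven : ∀ C, r C = 2 * m C := by
          intro C
          have hno : ¬ Odd (r C) := by
            intro ho
            have hempty : IsEmpty {C : H.ConnectedComponent // Odd (Nat.card C.supp)} := by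
              rw [hc, Nat.card_eq_fintype_card, Fintype.card_eq_zero_iff] at hc0
              exact hc0
            exact hempty.false ⟨C, ho⟩
          rw [Nat.not_odd_iff_even] at hno
          obtain ⟨k, hk⟩ := hno
          simp only [hm]
          omega
        have ht : t = 2 * a + 2 := by omega
        -- at least two components
        have hlen : rest.length ≠ 0 := by
          intro h
          apply hconn
          have hrest0 : rest = [] := List.length_eq_zero_iff.1 h
          have hsub : ∀ C : H.ConnectedComponent, C = C0 := by
            intro C
            have := hall C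
            rw [hrest0, List.mem_singleton] at this
            exact this
          refine ⟨?_, ⟨a + 1, by omega⟩⟩
          have hne : Nonempty (Fin t) := ⟨⟨0, by omega⟩⟩
          refine SimpleGraph.Connected.mk ?_
          intro x y
          have := (hsub (H.connectedComponentMk x)).trans (hsub (H.connectedComponentMk y)).symm
          exact SimpleGraph.ConnectedComponent.exact this
        obtain ⟨C2, hC2⟩ : ∃ C2, C2 ∈ rest := by
          cases hrr : rest with
          | nil => rw [hrr] at hlen; simp at hlen
          | cons x _ => exact ⟨x, by simp⟩
        have hC20 : C2 ≠ C0 := (hrestmem C2).1 hC2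
        have hbig : ∃ C, 3 ≤ m C := by
          refine ⟨C1, ?_⟩
          have h5 := heven C1
          have h6 := hm2 C1
          omega
        -- `m C0 + 3 ≤ a + 1`
        have hm0 : m C0 + 3 ≤ a + 1 := by
          rw [← ha]
          obtain ⟨C3, hC3⟩ := hbig
          by_cases h30 : C3 = C0
          · have h7 : m C0 + m C2 ≤ ∑ C, m C := by
              have h8 : ∑ C ∈ ({C0, C2} : Finset H.ConnectedComponent), m C ≤ ∑ C, m C :=
                Finset.sum_le_sum_of_subset (Finset.subset_univ _)
              rwa [Finset.sum_pair (Ne.symm hC20)] at h8
            have h9 := hmC0 C2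
            rw [h30] at hC3
            omega
          · have h8 : ∑ C ∈ ({C0, C3} : Finset H.ConnectedComponent), m C ≤ ∑ C, m C :=
              Finset.sum_le_sum_of_subset (Finset.subset_univ _)
            rw [Finset.sum_pair (Ne.symm h30)] at h8
            omega
        obtain ⟨hQ1, hQ2⟩ := hQ
        set S : Finset (Fin n) := univ \ Q with hS
        have hScard : S.card + (2 * a + 1) = n := by
          rw [hS, Finset.card_sdiff_of_subset (Finset.subset_univ Q), hcard, hQ1]
          have : Q.card ≤ n := by
            have := Finset.card_le_univ Q
            rwa [Fintype.card_fin] at this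
          omega
        by_cases hexs : ∃ s ∈ S, 2 ≤ dg G Q s
        · obtain ⟨s, hs, hs2⟩ := hexs
          have hsQ : s ∉ Q := by
            rw [hS, Finset.mem_sdiff] at hs; exact hs.2
          have hcs : Conn G ({s} : Finset (Fin n)) := by
            refine ⟨Finset.singleton_nonempty s, ?_⟩
            intro X hX hXne hXneq
            exfalso
            rcases Finset.subset_singleton_iff.1 hX with h | h
            · exact absurd h hXne.ne_empty
            · exact hXneq h
          have hnb : (nb G Q {s}).card = dg G Q s := by
            unfold nb dg
            congr 1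
            ext x
            simp [G.adj_comm]
          have hp := near_add (G := G) (Q := Q) (P := {s}) ⟨hQ1, hQ2⟩ hcs
            (by rw [Finset.disjoint_singleton_left]; exact hsQ) (by rw [hnb]; exact hs2)
            ((C0 :: rest).map m)
            (by
              intro x hx
              rw [List.mem_map] at hx
              obtain ⟨C, _, rfl⟩ := hx
              exact hm2 C)
            (by rw [hlsum, ha])
          unfold Pk at hp
          rw [hmapm] at hp
          have hreq : (C0 :: rest).map (fun C => 2 * m C) = (C0 :: rest).map r := by
            apply List.map_congr_left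
            intro C _
            exact (heven C).symm
          rw [hreq] at hp
          exact hp.mono (Finset.subset_univ _)
        · push Not at hexs
          -- count the edges of `S`
          have hQb : ∑ v ∈ Q, dg G Q v ≤ (2 * a + 1) * (2 * a) := by
            calc ∑ v ∈ Q, dg G Q v ≤ ∑ v ∈ Q, (2 * a) := by
                  apply Finset.sum_le_sum
                  intro v hv
                  have := fin_dg_le G Q v hv
                  rw [hQ1] at this
                  exact this
              _ = (2 * a + 1) * (2 * a) := by
                  rw [Finset.sum_const, hQ1, smul_eq_mul]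
          have hQS : ∑ v ∈ S, dg G Q v ≤ S.card := by
            calc ∑ v ∈ S, dg G Q v ≤ ∑ v ∈ S, 1 := by
                  apply Finset.sum_le_sum
                  intro v hv
                  have := hexs v hv
                  omega
              _ = S.card := by rw [Finset.sum_const, smul_eq_mul, mul_one]
          have hdeg : ∀ v, dg G univ v = dg G Q v + dg G S v := by
            intro v
            exact fin_dg_sdiff G univ Q (Finset.subset_univ Q) v
          have htot : ∑ v, dg G univ v = ∑ v ∈ Q, dg G Q v + 2 * ∑ v ∈ S, dg G Q v +
              ∑ v ∈ S, dg G S v := by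
            have h1 : ∑ v, dg G univ v = ∑ v, dg G Q v + ∑ v, dg G S v := by
              rw [← Finset.sum_add_distrib]
              exact Finset.sum_congr rfl (fun v _ => hdeg v)
            have h2 : ∀ f : Fin n → ℕ, ∑ v, f v = ∑ v ∈ Q, f v + ∑ v ∈ S, f v := by
              intro f
              rw [hS, add_comm]
              exact (Finset.sum_sdiff (Finset.subset_univ Q)).symm
            rw [h1, h2 (fun v => dg G Q v), h2 (fun v => dg G S v), fin_sum_dg_comm G Q S]
            ring
          have hedS : m C0 * (S.card - 1) < ed G S := by
            have h1 : 2 * (a * n) ≤ ∑ v, dg G univ v := by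
              have h5 : ed G univ = (∑ v, dg G univ v) / 2 := rfl
              omega
            have h6 : 2 * ((a - 1) * S.card) ≤ ∑ v ∈ S, dg G S v := by
              obtain ⟨b, hb⟩ : ∃ b, a = b + 1 := ⟨a - 1, by omega⟩
              have h7 : a - 1 = b := by omega
              rw [h7]
              have h13 : a * n = a * S.card + a * (2 * a + 1) := by
                rw [← Nat.mul_add, hScard]
              have h14 : a * (2 * a + 1) * 2 = (2 * a + 1) * (2 * a) := by ring
              have h15 : a * S.card = b * S.card + S.card := by rw [hb]; ring
              omega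
            have h8 : (a - 1) * S.card ≤ ed G S := by
              unfold ed
              omega
            have hSpos : 1 ≤ S.card := by omega
            have h9 : m C0 * (S.card - 1) < (a - 1) * S.card := by
              obtain ⟨b, hb⟩ : ∃ b, S.card = b + 1 := ⟨S.card - 1, by omega⟩
              rw [hb]
              have h10 : m C0 ≤ a - 1 := by omega
              have h11 : 1 ≤ a - 1 := by omega
              simp only [Nat.add_sub_cancel]
              have h12 : m C0 * b ≤ (a - 1) * b := Nat.mul_le_mul_right _ h10
              rw [Nat.mul_succ]
              omega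
            omega
          have hcyc : CycM G S (r C0) := by
            have hadm1 : Adm [m C0 + 1] (m C0) := by
              refine ⟨?_, ?_, Or.inl rfl⟩
              · intro x hx
                rw [List.mem_singleton] at hx
                have := hm2 C0
                omega
              · simp
            rcases hTP n _ (m C0) hadm1 G S hedS with h | ⟨Q', hQ', hQn⟩
            · rw [List.map_singleton] at h
              obtain ⟨B, hB, hB2, _⟩ := h
              have := heven C0
              exact (hB2.mono hB).le (by have := hr3 C0; omega) (by omega)
            · have hp := near_pack hQn [r C0] (by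
                intro x hx
                rw [List.mem_singleton] at hx
                rw [hx]; exact hr3 C0) (by
                  have := heven C0
                  simp only [List.sum_cons, List.sum_nil]
                  omega)
              obtain ⟨B, hB, hB2, _⟩ := hp
              exact (hB2.mono hB).mono hQ'
          have hrestP : Pack G (rest.map r) Q := by
            apply near_pack (a := a) ⟨hQ1, hQ2⟩
            · intro x hx
              rw [List.mem_map] at hx
              obtain ⟨C, _, rfl⟩ := hx
              exact hr3 C
            · have h1 := hlsum r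
              rw [hsum, List.map_cons, List.sum_cons] at h1
              have := hr3 C0
              omega
          rw [List.map_cons]
          refine ⟨S, Finset.subset_univ _, hcyc, hrestP.mono ?_⟩
          intro x hx
          rw [hS, Finset.mem_sdiff, Finset.mem_sdiff]
          simp [hx]
      · -- some odd component: the near-clique contains everything
        have hp := near_pack hQ ((C0 :: rest).map r) (by
          intro x hx
          rw [List.mem_map] at hx
          obtain ⟨C, _, rfl⟩ := hx
          exact hr3 C) (by rw [hlsum, hsum]; omega)
        exact hp.mono (Finset.subset_univ _)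
  · -- all half lengths are two and there are at least two components
    push Not at hcase
    obtain ⟨hlen, hm3⟩ := hcase
    have hm_eq : ∀ C, m C = 2 := by
      intro C
      have h1 := hm2 C
      have h2 := hm3 C
      omega
    have hr4 : ∀ C, r C ≤ 4 := by
      intro C
      have h1 := hm_eq C
      have h2 := hrm C
      omega
    have hrC0 : r C0 = 3 := by
      have h1 := hmin' C1
      have h2 := hr3 C0
      have h3 := hr4 C1
      omega
    have hq : a + 1 = 2 * (rest.length + 1) := by
      rw [← ha, ← hlsum m]
      have : (C0 :: rest).map m = List.replicate (rest.length + 1) 2 := by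
        rw [List.eq_replicate_iff]
        refine ⟨by simp, ?_⟩
        intro x hx
        rw [List.mem_map] at hx
        obtain ⟨C, _, rfl⟩ := hx
        exact hm_eq C
      rw [this, List.sum_replicate, smul_eq_mul]
      ring
    have hp := hTPP n (rest.length + 1) G univ (by omega) (by
      have : 2 * (rest.length + 1) - 1 = a := by omega
      rw [this]
      exact hed')
    rw [Nat.add_sub_cancel] at hp
    have hmap : (C0 :: rest).map (fun C => if C = C0 then 3 else 4) =
        3 :: List.replicate rest.length 4 := by
      rw [List.map_cons, if_pos rfl]
      congr 1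
      rw [List.eq_replicate_iff]
      refine ⟨by simp, ?_⟩
      intro x hx
      rw [List.mem_map] at hx
      obtain ⟨C, hC, rfl⟩ := hx
      rw [if_neg ((hrestmem C).1 hC)]
    rw [← hmap] at hp
    refine Pack.le _ r _ hp ?_
    intro C _
    refine ⟨by have := hr3 C; omega, ?_⟩
    split_ifs with h
    · rw [h, hrC0]
    · exact hr4 C

end Pool.Agent.TwoRegMinor
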