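import Pool.Agent.Lib.MP_616546_co.Conn

/-!
# MP_616546_co: packings of cycle minors, basic facts
-/

set_option autoImplicit false

namespace Pool.Agent.TwoRegMinor

open Finset

variable {V : Type} [DecidableEq V]

/-! ## JOB PCK1 -/

omit [DecidableEq V] in
theorem adjS_symm {G : SimpleGraph V} {X Y : Finset V} (h : adjS G X Y) : adjS G Y X := by
  obtain ⟨x, hx, y, hy, hxy⟩ := h
  exact ⟨y, hy, x, hx, hxy.symm⟩

omit [DecidableEq V] in
theorem adjS_mono {G : SimpleGraph V} {X Y X' Y' : Finset V} (hX : X ⊆ X') (hY : Y ⊆ Y')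
    (h : adjS G X Y) : adjS G X' Y' := by
  obtain ⟨x, hx, y, hy, hxy⟩ := h
  exact ⟨x, hX hx, y, hY hy, hxy⟩

theorem cycM_mono {G : SimpleGraph V} {A B : Finset V} {r : ℕ} (hAB : A ⊆ B) (h : CycM G A r) :
    CycM G B r := by
  obtain ⟨l, h1, h2, h3, h4⟩ := h
  exact ⟨l, h1, fun X hX => ⟨(h2 X hX).1.trans hAB, (h2 X hX).2⟩, h3, h4⟩

theorem cycM_mono_graph {G G' : SimpleGraph V} (hG : G' ≤ G) {A : Finset V} {r : ℕ}
    (h : CycM G' A r) : CycM G A r := by
  obtain ⟨l, h1, h2, h3, h4⟩ := h
  refine ⟨l, h1, fun X hX => ⟨(h2 X hX).1, conn_mono_graph hG (h2 X hX).2⟩, h3, ?_⟩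
  apply h4.imp
  intro X Y hXY
  obtain ⟨x, hx, y, hy, hxy⟩ := hXY
  exact ⟨x, hx, y, hy, hG hxy⟩

theorem pack_mono {G : SimpleGraph V} {L : List ℕ} {A B : Finset V} (hAB : A ⊆ B)
    (h : Pack G L A) : Pack G L B := by
  induction L generalizing A B with
  | nil => trivial
  | cons r L ih =>
    obtain ⟨C, hC, h1, h2⟩ := h
    exact ⟨C, hC.trans hAB, h1, ih (sdiff_subset_sdiff hAB (Subset.refl _)) h2⟩

theorem pack_mono_graph {G G' : SimpleGraph V} (hG : G' ≤ G) {L : List ℕ} {A : Finset V}
    (h : Pack G' L A) : Pack G L A := by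
  induction L generalizing A with
  | nil => trivial
  | cons r L ih =>
    obtain ⟨C, hC, h1, h2⟩ := h
    exact ⟨C, hC, cycM_mono_graph hG h1, ih h2⟩

/-- assembling: a cycle minor in `B` and a packing in a disjoint set -/
theorem pack_cons {G : SimpleGraph V} {r : ℕ} {L : List ℕ} {A B C : Finset V}
    (hB : CycM G B r) (hA : Pack G L A) (hd : Disjoint B A) (hC : B ∪ A ⊆ C) :
    Pack G (r :: L) C := by
  refine ⟨B, subset_union_left.trans hC, hB, pack_mono ?_ hA⟩
  intro x hx
  rw [mem_sdiff]
  refine ⟨hC (mem_union_right _ hx), ?_⟩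
  intro hxB
  exact (disjoint_left.1 hd) hxB hx

theorem pack_singleton_iff {G : SimpleGraph V} {r : ℕ} {A : Finset V} :
    Pack G [r] A ↔ CycM G A r := by
  constructor
  · rintro ⟨B, hB, h, _⟩
    exact cycM_mono hB h
  · intro h
    exact ⟨A, Subset.refl _, h, trivial⟩

/-- the order of the lengths is irrelevant (induction on `List.Perm`, the swap case by
`(A \ B) \ C = (A \ C) \ B`) -/
theorem pack_perm {G : SimpleGraph V} {L L' : List ℕ} (hL : L.Perm L') {A : Finset V}
    (h : Pack G L A) : Pack G L' A := by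
  induction hL generalizing A with
  | nil => exact h
  | cons r _ ih =>
    obtain ⟨B, hB, h1, h2⟩ := h
    exact ⟨B, hB, h1, ih h2⟩
  | swap x y L =>
    obtain ⟨B, hB, h1, C, hC, h2, h3⟩ := h
    refine ⟨C, hC.trans sdiff_subset, h2, B, ?_, h1, ?_⟩
    · intro z hz
      rw [mem_sdiff]
      refine ⟨hB hz, ?_⟩
      intro hzC
      exact (mem_sdiff.1 (hC hzC)).2 hz
    · have he : (A \ C) \ B = (A \ B) \ C := by
        rw [sdiff_sdiff_left, sdiff_sdiff_left, sup_comm]
      rw [he]
      exact h3
  | trans _ _ ih1 ih2 => exact ih2 (ih1 h)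

theorem pk_perm {G : SimpleGraph V} {L L' : List ℕ} (hL : L.Perm L') {A : Finset V}
    (h : Pk G L A) : Pk G L' A :=
  pack_perm (hL.map _) h

theorem pk_cons {G : SimpleGraph V} {m : ℕ} {ms : List ℕ} {A B C : Finset V}
    (hB : CycM G B (2 * m)) (hA : Pk G ms A) (hd : Disjoint B A) (hC : B ∪ A ⊆ C) :
    Pk G (m :: ms) C := by
  unfold Pk
  rw [List.map_cons]
  exact pack_cons hB hA hd hC

theorem pk_mono {G : SimpleGraph V} {L : List ℕ} {A B : Finset V} (hAB : A ⊆ B)
    (h : Pk G L A) : Pk G L B :=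
  pack_mono hAB h

/-! ## JOB PCK2 -/

/-- rotating the cyclic list of branch sets -/
theorem isChain_rotate {α : Type} {R : α → α → Prop} {l : List α}
    (h : (l ++ l.take 1).IsChain R) (k : ℕ) :
    ((l.rotate k) ++ (l.rotate k).take 1).IsChain R := by
  induction k with
  | zero => rw [List.rotate_zero]; exact h
  | succ k ih =>
    rw [← List.rotate_rotate]
    generalize l.rotate k = l' at ih
    match l', ih with
    | [], _ => simp
    | [a], ih => simpa using ih
    | a :: b :: t, ih =>
      have e1 : (a :: b :: t).rotate 1 = b :: (t ++ [a]) := by simp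
      rw [e1]
      simp only [List.take_succ_cons, List.take_zero, List.cons_append,
        List.isChain_cons_cons] at ih ⊢
      have h2 : ((b :: (t ++ [a])) ++ [b]).IsChain R := by
        rw [List.isChain_append]
        refine ⟨ih.2, by simp, ?_⟩
        intro x hx y hy
        rw [← List.cons_append, List.getLast?_append] at hx
        simp only [List.getLast?_singleton, Option.some_or, Option.mem_def,
          Option.some.injEq, List.head?_cons] at hx hy
        rw [← hx, ← hy]
        exact ih.1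
      exact h2

/-- merging the first two branch sets shortens the cycle by one (needs at least two branch sets):
`[X, Y, Z, ...]` becomes `[X ∪ Y, Z, ...]`; for `[X, Y]` one gets `[X ∪ Y]` with
`adjS (X ∪ Y) (X ∪ Y)`. -/
theorem cycM_pred {G : SimpleGraph V} {A : Finset V} {r : ℕ} (hr : 1 ≤ r)
    (h : CycM G A (r + 1)) : CycM G A r := by
  obtain ⟨l, h1, h2, h3, h4⟩ := h
  match l, h1, h2, h3, h4 with
  | X :: Y :: Z :: l, h1, h2, h3, h4 =>
    refine ⟨(X ∪ Y) :: Z :: l, ?_, ?_, ?_, ?_⟩
    · simp only [List.length_cons] at h1 ⊢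
      omega
    · have hXY : adjS G X Y := by
        simp only [List.take_succ_cons, List.take_zero, List.cons_append, List.isChain_cons_cons]
          at h4
        exact h4.1
      intro W hW
      rcases List.mem_cons.1 hW with h | h
      · subst h
        have hX := h2 X (by simp)
        have hY := h2 Y (by simp)
        exact ⟨union_subset hX.1 hY.1, conn_union hX.2 hY.2 (Or.inr hXY)⟩
      · exact h2 W (by simp only [List.mem_cons] at h ⊢; tauto)
    · simp only [List.pairwise_cons] at h3 ⊢
      refine ⟨?_, h3.2.2.1, h3.2.2.2⟩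
      intro W hW
      rw [disjoint_union_left]
      exact ⟨h3.1 W (by simp only [List.mem_cons] at hW ⊢; tauto), h3.2.1 W hW⟩
    · simp only [List.take_succ_cons, List.take_zero, List.cons_append, List.isChain_cons_cons]
        at h4 ⊢
      obtain ⟨h5, h6, h7⟩ := h4
      refine ⟨adjS_mono subset_union_right (Subset.refl _) h6, ?_⟩
      rw [← List.cons_append, List.isChain_append] at h7 ⊢
      refine ⟨h7.1, ?_, ?_⟩
      · simp
      · intro x hx y hy
        have h8 := h7.2.2 x hx X (by simp)
        simp only [List.head?_cons, Option.mem_def, Option.some.injEq] at hy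
        rw [← hy]
        exact adjS_mono (Subset.refl _) subset_union_left h8
  | [], h1, _, _, _ => simp at h1
  | [X], h1, _, _, _ => simp at h1; omega
  | [X, Y], h1, h2, h3, h4 =>
    have hr1 : r = 1 := by simp at h1; omega
    subst hr1
    simp only [List.take_succ_cons, List.take_zero, List.cons_append, List.nil_append,
      List.isChain_cons_cons] at h4
    have hX := h2 X (by simp)
    have hY := h2 Y (by simp)
    refine ⟨[X ∪ Y], by simp, ?_, by simp, ?_⟩
    · intro W hW
      rw [List.mem_singleton] at hW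
      subst hW
      exact ⟨union_subset hX.1 hY.1, conn_union hX.2 hY.2 (Or.inr h4.1)⟩
    · simp only [List.take_succ_cons, List.take_zero, List.cons_append, List.nil_append,
        List.isChain_cons_cons]
      exact ⟨adjS_mono subset_union_left subset_union_right h4.1, by simp⟩

theorem cycM_le {G : SimpleGraph V} {A : Finset V} {r r' : ℕ} (h1 : 1 ≤ r') (hr : r' ≤ r)
    (h : CycM G A r) : CycM G A r' := by
  induction r, hr using Nat.le_induction with
  | base => exact h
  | succ n hn ih => exact ih (cycM_pred (by omega) h)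

theorem pack_le {G : SimpleGraph V} {L L' : List ℕ} (h1 : ∀ r ∈ L', 1 ≤ r)
    (hL : List.Forall₂ (fun x y => x ≤ y) L' L) {A : Finset V} (h : Pack G L A) :
    Pack G L' A := by
  induction hL generalizing A with
  | nil => exact h
  | cons hab _ ih =>
    obtain ⟨B, hB, h2, h3⟩ := h
    exact ⟨B, hB, cycM_le (h1 _ (by simp)) hab h2, ih (fun r hr => h1 r (by simp [hr])) h3⟩

/-- singletons of a list of distinct vertices are pairwise disjoint -/
theorem pck2_pairwise {l : List V} (hl : l.Nodup) :
    (l.map (fun x => ({x} : Finset V))).Pairwise Disjoint := by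
  rw [List.pairwise_map]
  apply hl.imp
  intro a b hab
  rw [disjoint_singleton]
  exact hab

omit [DecidableEq V] in
theorem pck2_chain {G : SimpleGraph V} {l : List V} (hc : l.IsChain G.Adj) :
    (l.map (fun x => ({x} : Finset V))).IsChain (adjS G) := by
  rw [List.isChain_map]
  apply hc.imp
  intro a b hab
  exact ⟨a, mem_singleton_self a, b, mem_singleton_self b, hab⟩

/-- an actual cycle of length at least `r` (branch sets = singletons, then `cycM_le`) -/
theorem cycM_of_isCyc {G : SimpleGraph V} {l : List V} (h : IsCyc G l) {A : Finset V}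
    (hA : ∀ x ∈ l, x ∈ A) {r : ℕ} (h1 : 1 ≤ r) (hr : r ≤ l.length) : CycM G A r := by
  refine cycM_le h1 hr ?_
  refine ⟨l.map (fun x => ({x} : Finset V)), by simp, ?_, pck2_pairwise h.1, ?_⟩
  · intro X hX
    rw [List.mem_map] at hX
    obtain ⟨x, hx, rfl⟩ := hX
    refine ⟨?_, conn_singleton G x⟩
    rw [singleton_subset_iff]
    exact hA x hx
  · rw [← List.map_take, ← List.map_append]
    exact pck2_chain h.2

/-- a cycle minor made of a path `l` of vertices and one further connected set `P` adjacent to both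
ends of the path: branch sets `P, {l_1}, ..., {l_k}` -/
theorem cycM_path_set {G : SimpleGraph V} {l : List V} (hl : l.Nodup) (hc : l.IsChain G.Adj)
    {P : Finset V} (hP : Conn G P) (hd : ∀ x ∈ l, x ∉ P) {u v : V} (hu : l.head? = some u)
    (hv : l.getLast? = some v) (huP : ∃ x ∈ P, G.Adj u x) (hvP : ∃ x ∈ P, G.Adj v x)
    {A : Finset V} (hA : P ⊆ A) (hlA : ∀ x ∈ l, x ∈ A) : CycM G A (l.length + 1) := by
  refine ⟨P :: l.map (fun x => ({x} : Finset V)), by simp, ?_, ?_, ?_⟩
  · intro X hX
    rcases List.mem_cons.1 hX with h | h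
    · subst h
      exact ⟨hA, hP⟩
    · rw [List.mem_map] at h
      obtain ⟨x, hx, rfl⟩ := h
      refine ⟨?_, conn_singleton G x⟩
      rw [singleton_subset_iff]
      exact hlA x hx
  · rw [List.pairwise_cons]
    refine ⟨?_, pck2_pairwise hl⟩
    intro X hX
    rw [List.mem_map] at hX
    obtain ⟨x, hx, rfl⟩ := hX
    rw [disjoint_singleton_right]
    exact hd x hx
  · simp only [List.take_succ_cons, List.take_zero, List.cons_append]
    rw [List.isChain_cons]
    constructor
    · intro Y hY
      rw [List.head?_append, List.head?_map, hu] at hY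
      simp only [Option.map_some, Option.some_or, Option.mem_def, Option.some.injEq] at hY
      rw [← hY]
      obtain ⟨x, hx, hux⟩ := huP
      exact ⟨x, hx, u, mem_singleton_self u, hux.symm⟩
    · rw [List.isChain_append]
      refine ⟨pck2_chain hc, by simp, ?_⟩
      intro X hX Y hY
      rw [List.getLast?_map, hv] at hX
      simp only [Option.map_some, Option.mem_def, Option.some.injEq, List.head?_cons] at hX hY
      rw [← hX, ← hY]
      obtain ⟨x, hx, hvx⟩ := hvP
      exact ⟨v, mem_singleton_self v, x, hx, hvx⟩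

/-- the same with two adjacent connected sets `X, Y`: cyclic list `l_1, ..., l_k, Y, X` with `l_1`
adjacent to `X` and `l_k` adjacent to `Y` -/
theorem cycM_path_two_sets {G : SimpleGraph V} {l : List V} (hl : l.Nodup)
    (hc : l.IsChain G.Adj) {X Y : Finset V} (hX : Conn G X) (hY : Conn G Y)
    (hXY : adjS G X Y) (hdXY : Disjoint X Y) (hdX : ∀ x ∈ l, x ∉ X) (hdY : ∀ x ∈ l, x ∉ Y) {u v : V}
    (hu : l.head? = some u) (hv : l.getLast? = some v) (huX : ∃ x ∈ X, G.Adj u x)
    (hvY : ∃ x ∈ Y, G.Adj v x) {A : Finset V} (hXA : X ⊆ A) (hYA : Y ⊆ A)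
    (hlA : ∀ x ∈ l, x ∈ A) : CycM G A (l.length + 2) := by
  refine ⟨Y :: X :: l.map (fun x => ({x} : Finset V)), by simp, ?_, ?_, ?_⟩
  · intro Z hZ
    rcases List.mem_cons.1 hZ with h | h
    · subst h
      exact ⟨hYA, hY⟩
    rcases List.mem_cons.1 h with h | h
    · subst h
      exact ⟨hXA, hX⟩
    · rw [List.mem_map] at h
      obtain ⟨x, hx, rfl⟩ := h
      refine ⟨?_, conn_singleton G x⟩
      rw [singleton_subset_iff]
      exact hlA x hx
  · rw [List.pairwise_cons, List.pairwise_cons]
    refine ⟨?_, ?_, pck2_pairwise hl⟩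
    · intro Z hZ
      rcases List.mem_cons.1 hZ with h | h
      · rw [h]; exact hdXY.symm
      · rw [List.mem_map] at h
        obtain ⟨x, hx, rfl⟩ := h
        rw [disjoint_singleton_right]
        exact hdY x hx
    · intro Z hZ
      rw [List.mem_map] at hZ
      obtain ⟨x, hx, rfl⟩ := hZ
      rw [disjoint_singleton_right]
      exact hdX x hx
  · simp only [List.take_succ_cons, List.take_zero, List.cons_append, List.isChain_cons_cons]
    refine ⟨adjS_symm hXY, ?_⟩
    rw [List.isChain_cons]
    constructor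
    · intro Z hZ
      rw [List.head?_append, List.head?_map, hu] at hZ
      simp only [Option.map_some, Option.some_or, Option.mem_def, Option.some.injEq] at hZ
      rw [← hZ]
      obtain ⟨x, hx, hux⟩ := huX
      exact ⟨x, hx, u, mem_singleton_self u, hux.symm⟩
    · rw [List.isChain_append]
      refine ⟨pck2_chain hc, by simp, ?_⟩
      intro Z hZ W hW
      rw [List.getLast?_map, hv] at hZ
      simp only [Option.map_some, Option.mem_def, Option.some.injEq, List.head?_cons] at hZ hW
      rw [← hZ, ← hW]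
      obtain ⟨x, hx, hvx⟩ := hvY
      exact ⟨v, mem_singleton_self v, x, hx, hvx⟩

/-- pairwise disjoint nonempty subsets of `A` -/
theorem pck2_card : ∀ (l : List (Finset V)) (A : Finset V), (∀ X ∈ l, X ⊆ A ∧ X.Nonempty) →
    l.Pairwise Disjoint → l.length ≤ A.card := by
  intro l
  induction l with
  | nil => intro A _ _; simp
  | cons X l ih =>
    intro A h1 h2
    rw [List.pairwise_cons] at h2
    have hX := h1 X (by simp)
    have h3 := ih (A \ X) (by
      intro Y hY
      have hYA := h1 Y (by simp [hY])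
      refine ⟨?_, hYA.2⟩
      intro y hy
      rw [mem_sdiff]
      exact ⟨hYA.1 hy, fun hyX => (disjoint_left.1 (h2.1 Y hY)) hyX hy⟩) h2.2
    have h4 : (A \ X).card + X.card = A.card := card_sdiff_add_card_eq_card hX.1
    have h5 := hX.2.card_pos
    rw [List.length_cons]
    omega

/-- branch sets may be enlarged by nothing: a cycle minor uses at least `r` vertices -/
theorem cycM_card {G : SimpleGraph V} {A : Finset V} {r : ℕ} (h : CycM G A r) : r ≤ A.card := by
  obtain ⟨l, h1, h2, h3, _⟩ := h
  rw [← h1]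
  exact pck2_card l A (fun X hX => ⟨(h2 X hX).1, (h2 X hX).2.1⟩) h3

/-! ## JOB PCK3: contraction -/

theorem pck3_fib_self (P : Finset V) (p : V) : fib P p p = P := by simp [fib]

theorem pck3_fib_ne (P : Finset V) {p x : V} (h : x ≠ p) : fib P p x = {x} := by simp [fib, h]

theorem pck3_adj {G : SimpleGraph V} {P : Finset V} {p x y : V} (hx : x ≠ p) (hy : y ≠ p) :
    (contr G P p).Adj x y ↔ G.Adj x y := by
  show (x ≠ y ∧ adjS G (fib P p x) (fib P p y)) ↔ G.Adj x y
  rw [pck3_fib_ne P hx, pck3_fib_ne P hy]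
  constructor
  · rintro ⟨-, u, hu, v, hv, huv⟩
    rw [Finset.mem_singleton] at hu hv
    rw [← hu, ← hv]
    exact huv
  · intro h
    exact ⟨h.ne, x, Finset.mem_singleton_self x, y, Finset.mem_singleton_self y, h⟩

theorem pck3_adj_p {G : SimpleGraph V} {P : Finset V} {p x : V} (hx : x ≠ p) :
    (contr G P p).Adj p x ↔ ∃ u ∈ P, G.Adj x u := by
  show (p ≠ x ∧ adjS G (fib P p p) (fib P p x)) ↔ _
  rw [pck3_fib_self, pck3_fib_ne P hx]
  constructor
  · rintro ⟨-, u, hu, v, hv, huv⟩
    rw [Finset.mem_singleton] at hv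
    rw [← hv]
    exact ⟨u, hu, huv.symm⟩
  · rintro ⟨u, hu, h⟩
    exact ⟨hx.symm, u, hu, x, Finset.mem_singleton_self x, h.symm⟩

theorem pck3_fib_disj {A P : Finset V} {p x y : V} (hx : x ∈ insert p (A \ P))
    (hy : y ∈ insert p (A \ P)) (hxy : x ≠ y) : Disjoint (fib P p x) (fib P p y) := by
  rw [Finset.mem_insert, Finset.mem_sdiff] at hx hy
  by_cases hxp : x = p
  · have hyp : y ≠ p := fun h => hxy (hxp.trans h.symm)
    rw [pck3_fib_ne P hyp, hxp, pck3_fib_self, Finset.disjoint_singleton_right]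
    rcases hy with h | h
    · exact absurd h hyp
    · exact h.2
  · rw [pck3_fib_ne P hxp]
    rcases hx with h | h
    · exact absurd h hxp
    · by_cases hyp : y = p
      · rw [hyp, pck3_fib_self, Finset.disjoint_singleton_left]
        exact h.2
      · rw [pck3_fib_ne P hyp, Finset.disjoint_singleton_left, Finset.mem_singleton]
        exact hxy

theorem pck3_biUnion_disj {A P X Y : Finset V} {p : V} (hX : X ⊆ insert p (A \ P))
    (hY : Y ⊆ insert p (A \ P)) (hXY : Disjoint X Y) :
    Disjoint (X.biUnion (fib P p)) (Y.biUnion (fib P p)) := by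
  rw [Finset.disjoint_left]
  intro z hz hz'
  rw [Finset.mem_biUnion] at hz hz'
  obtain ⟨x, hx, hzx⟩ := hz
  obtain ⟨y, hy, hzy⟩ := hz'
  have hxy : x ≠ y := by
    rintro rfl
    exact (Finset.disjoint_left.mp hXY) hx hy
  exact (Finset.disjoint_left.mp (pck3_fib_disj (hX hx) (hY hy) hxy)) hzx hzy

theorem pck3_adjS_lift {G : SimpleGraph V} {P X Y : Finset V} {p : V}
    (h : adjS (contr G P p) X Y) : adjS G (X.biUnion (fib P p)) (Y.biUnion (fib P p)) := by
  obtain ⟨x, hx, y, hy, hxy⟩ := h
  obtain ⟨-, u, hu, v, hv, huv⟩ := hxy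
  exact ⟨u, Finset.mem_biUnion.mpr ⟨x, hx, hu⟩, v, Finset.mem_biUnion.mpr ⟨y, hy, hv⟩, huv⟩

/-- number of edges of the contracted graph -/
theorem ed_contr (G : SimpleGraph V) {A P : Finset V} {p : V} (hP : P ⊆ A) (hp : p ∈ P) :
    ed G A = ed (contr G P p) (insert p (A \ P)) + ed G P + ∑ u ∈ A \ P, (dg G P u - 1) := by
  classical
  have hpn : p ∉ A \ P := fun h => (Finset.mem_sdiff.mp h).2 hp
  have hne : ∀ u ∈ A \ P, u ≠ p := fun u hu h => hpn (h ▸ hu)
  have h1 : ed G A = ed G (A \ P) + ed G P + ∑ v ∈ A \ P, dg G P v := by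
    have h := ed_union G (Finset.sdiff_disjoint : Disjoint (A \ P) P)
    rwa [Finset.sdiff_union_of_subset hP] at h
  have h2 : ed (contr G P p) (insert p (A \ P))
      = ed (contr G P p) (A \ P) + dg (contr G P p) (A \ P) p := ed_insert _ hpn
  have h3 : ed (contr G P p) (A \ P) = ed G (A \ P) := by
    unfold ed
    congr 1
    refine Finset.sum_congr rfl fun v hv => ?_
    unfold dg
    congr 1
    ext x
    simp only [Finset.mem_filter]
    constructor
    · rintro ⟨hx, h⟩
      exact ⟨hx, (pck3_adj (hne v hv) (hne x hx)).mp h⟩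
    · rintro ⟨hx, h⟩
      exact ⟨hx, (pck3_adj (hne v hv) (hne x hx)).mpr h⟩
  have h4 : dg (contr G P p) (A \ P) p = ∑ u ∈ A \ P, (if 0 < dg G P u then 1 else 0) := by
    rw [← Finset.card_filter]
    unfold dg
    congr 1
    ext x
    simp only [Finset.mem_filter]
    constructor
    · rintro ⟨hx, h⟩
      refine ⟨hx, ?_⟩
      have := (dg_pos_iff G P x).mpr ((pck3_adj_p (hne x hx)).mp h)
      unfold dg at this
      exact this
    · rintro ⟨hx, h⟩
      refine ⟨hx, ?_⟩
      refine (pck3_adj_p (hne x hx)).mpr ((dg_pos_iff G P x).mp ?_)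
      unfold dg
      exact h
  have h5 : ∑ v ∈ A \ P, dg G P v
      = ∑ u ∈ A \ P, (if 0 < dg G P u then 1 else 0) + ∑ u ∈ A \ P, (dg G P u - 1) := by
    rw [← Finset.sum_add_distrib]
    refine Finset.sum_congr rfl fun u _ => ?_
    split_ifs with h <;> omega
  omega

theorem card_contr {A P : Finset V} {p : V} (hP : P ⊆ A) (hp : p ∈ P) :
    (insert p (A \ P)).card + P.card = A.card + 1 := by
  have hpn : p ∉ A \ P := fun h => (Finset.mem_sdiff.mp h).2 hp
  rw [Finset.card_insert_of_notMem hpn]
  have := Finset.card_sdiff_add_card_eq_card hP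
  omega

/-- lifting a connected set of the contracted graph -/
theorem conn_lift {G : SimpleGraph V} {A P X : Finset V} {p : V} (hP : P ⊆ A) (hp : p ∈ P)
    (hPc : Conn G P) (hX : X ⊆ insert p (A \ P)) (h : Conn (contr G P p) X) :
    Conn G (X.biUnion (fib P p)) := by
  classical
  have hfne : ∀ x, (fib P p x).Nonempty := by
    intro x
    by_cases hx : x = p
    · rw [hx, pck3_fib_self]
      exact ⟨p, hp⟩
    · rw [pck3_fib_ne P hx]
      exact Finset.singleton_nonempty x
  refine ⟨?_, ?_⟩
  · obtain ⟨x, hx⟩ := h.1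
    obtain ⟨z, hz⟩ := hfne x
    exact ⟨z, Finset.mem_biUnion.mpr ⟨x, hx, hz⟩⟩
  · intro W hW hWn hWne
    by_cases hcase : ∃ x ∈ X, (fib P p x ∩ W).Nonempty ∧ ¬ fib P p x ⊆ W
    · obtain ⟨x, hx, ⟨z, hz⟩, hns⟩ := hcase
      rw [Finset.mem_inter] at hz
      have hxp : x = p := by
        by_contra hxp
        rw [pck3_fib_ne P hxp] at hz hns
        apply hns
        rw [Finset.mem_singleton] at hz
        rw [Finset.singleton_subset_iff, ← hz.1]
        exact hz.2
      rw [hxp, pck3_fib_self] at hz hns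
      rw [hxp] at hx
      obtain ⟨u, hu, v, hv, huv⟩ := hPc.2 (P ∩ W) Finset.inter_subset_left
        ⟨z, Finset.mem_inter.mpr hz⟩ (fun he => hns (Finset.inter_eq_left.mp he))
      rw [Finset.mem_inter] at hu
      rw [Finset.mem_sdiff, Finset.mem_inter] at hv
      refine ⟨u, hu.2, v, ?_, huv⟩
      rw [Finset.mem_sdiff]
      refine ⟨Finset.mem_biUnion.mpr ⟨p, hx, ?_⟩, fun hvW => hv.2 ⟨hv.1, hvW⟩⟩
      rw [pck3_fib_self]
      exact hv.1
    · have hcase' : ∀ x ∈ X, (fib P p x ∩ W).Nonempty → fib P p x ⊆ W := by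
        intro x hx hne
        by_contra hns
        exact hcase ⟨x, hx, hne, hns⟩
      obtain ⟨x, hx, y, hy, hxy⟩ := h.2 (X.filter (fun x => fib P p x ⊆ W))
        (Finset.filter_subset _ _) (by
          obtain ⟨w, hw⟩ := hWn
          obtain ⟨x, hx, hwx⟩ := Finset.mem_biUnion.mp (hW hw)
          exact ⟨x, Finset.mem_filter.mpr ⟨hx, hcase' x hx ⟨w, Finset.mem_inter.mpr ⟨hwx, hw⟩⟩⟩⟩)
        (by
          intro he
          apply hWne
          refine Finset.Subset.antisymm hW ?_
          intro z hz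
          obtain ⟨x, hx, hzx⟩ := Finset.mem_biUnion.mp hz
          rw [← he] at hx
          exact (Finset.mem_filter.mp hx).2 hzx)
      rw [Finset.mem_filter] at hx
      rw [Finset.mem_sdiff, Finset.mem_filter] at hy
      obtain ⟨-, u, hu, v, hv, huv⟩ := hxy
      refine ⟨u, hx.2 hu, v, ?_, huv⟩
      rw [Finset.mem_sdiff]
      refine ⟨Finset.mem_biUnion.mpr ⟨y, hy.1, hv⟩, fun hvW => hy.2 ⟨hy.1, ?_⟩⟩
      exact hcase' y hy.1 ⟨v, Finset.mem_inter.mpr ⟨hv, hvW⟩⟩

theorem pck3_cycM_lift {G : SimpleGraph V} {A P S : Finset V} {p : V} (hP : P ⊆ A) (hp : p ∈ P)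
    (hPc : Conn G P) (hS : S ⊆ insert p (A \ P)) {r : ℕ} (h : CycM (contr G P p) S r) :
    CycM G (S.biUnion (fib P p)) r := by
  obtain ⟨l, hl, hm, hd, hc⟩ := h
  refine ⟨l.map (fun X => X.biUnion (fib P p)), by rw [List.length_map, hl], ?_, ?_, ?_⟩
  · intro Y hY
    obtain ⟨X, hX, rfl⟩ := List.mem_map.mp hY
    exact ⟨Finset.biUnion_subset_biUnion_of_subset_left _ (hm X hX).1,
      conn_lift hP hp hPc ((hm X hX).1.trans hS) (hm X hX).2⟩
  · rw [List.pairwise_map]
    exact hd.imp_of_mem (fun {X Y} hX hY hXY =>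
      pck3_biUnion_disj ((hm X hX).1.trans hS) ((hm Y hY).1.trans hS) hXY)
  · rw [← List.map_take, ← List.map_append, List.isChain_map]
    exact hc.imp (fun X Y hXY => pck3_adjS_lift hXY)

theorem pck3_pack_lift {G : SimpleGraph V} {A P : Finset V} {p : V} (hP : P ⊆ A) (hp : p ∈ P)
    (hPc : Conn G P) (L : List ℕ) : ∀ S : Finset V, S ⊆ insert p (A \ P) →
    Pack (contr G P p) L S → Pack G L (S.biUnion (fib P p)) := by
  induction L with
  | nil => intro S _ _; exact trivial
  | cons r L ih =>
    intro S hS h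
    obtain ⟨B, hB, hBc, hBp⟩ := h
    have h1 := ih (S \ B) (Finset.sdiff_subset.trans hS) hBp
    exact pack_cons (pck3_cycM_lift hP hp hPc (hB.trans hS) hBc) h1
      (pck3_biUnion_disj (hB.trans hS) (Finset.sdiff_subset.trans hS) Finset.disjoint_sdiff)
      (Finset.union_subset (Finset.biUnion_subset_biUnion_of_subset_left _ hB)
        (Finset.biUnion_subset_biUnion_of_subset_left _ Finset.sdiff_subset))

/-- lifting a packing through the contraction: replace every branch set `X` by
`X.biUnion (fib P p)`. Prove the general statement `S ⊆ insert p (A \ P) → Pack (contr G P p) L S →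
Pack G L (S.biUnion (fib P p))` by induction on `L`; fibres of distinct vertices of
`insert p (A \ P)` are disjoint. -/
theorem pack_lift {G : SimpleGraph V} {A P : Finset V} {p : V} (hP : P ⊆ A) (hp : p ∈ P)
    (hPc : Conn G P) {L : List ℕ} (h : Pack (contr G P p) L (insert p (A \ P))) :
    Pack G L A := by
  refine pack_mono ?_ (pck3_pack_lift hP hp hPc L _ (Finset.Subset.refl _) h)
  intro z hz
  obtain ⟨x, hx, hzx⟩ := Finset.mem_biUnion.mp hz
  by_cases hxp : x = p
  · rw [hxp, pck3_fib_self] at hzx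
    exact hP hzx
  · rw [pck3_fib_ne P hxp, Finset.mem_singleton] at hzx
    rw [hzx]
    rcases Finset.mem_insert.mp hx with h | h
    · exact absurd h hxp
    · exact (Finset.mem_sdiff.mp h).1

end Pool.Agent.TwoRegMinor
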