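import Pool.Agent.Lib.MP_616546_co.Step
import Pool.Agent.Lib.MP_616546_co.Base

/-!
# MP_616546_co: the induction step, case `a' ≤ m`
-/

set_option autoImplicit false

namespace Pool.Agent.TwoRegMinor

open Finset

variable {V : Type} [DecidableEq V]

/-- second state: `c0 ∈ C` has two neighbours in `Q`, `Q2` is a near-clique of `R - c0`,
`R = A \ Q`. The rest is `X = ((A \ Q).erase c0) \ Q2`. -/
structure St2 (G : SimpleGraph V) (A : Finset V) (a' m K : ℕ) (ms : List ℕ) (c : ℕ → V)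
    (C Q : Finset V) (c0 : V) (Q2 : Finset V) : Prop where
  st : St G A a' m K ms c C Q
  small : a' ≤ m
  K3 : 3 ≤ K
  c0C : c0 ∈ C
  c0Q : 2 ≤ dg G Q c0
  Q2R : Q2 ⊆ (A \ Q).erase c0
  nQ2 : Near G Q2 (m - 1)

section

variable {G : SimpleGraph V} {A : Finset V} {a' m K : ℕ} {ms : List ℕ} {c : ℕ → V} {C Q : Finset V}
  {c0 : V} {Q2 : Finset V}

/-! ## JOB SM1 -/

theorem St2.cards (h : St2 G A a' m K ms c C Q c0 Q2) :
    Q2.card + 1 = 2 * m ∧ (((A \ Q).erase c0) \ Q2).card + 1 = K ∧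
      (((A \ Q).erase c0) \ Q2).Nonempty ∧ c0 ∈ A \ Q := by
  obtain ⟨h1, h2, h3, h4, h5, h6, h7⟩ := h.st.cards
  have hc : c0 ∈ A \ Q := h5 h.c0C
  have hm := h.st.m2
  have hK := h.K3
  have hq : Q2.card = 2 * (m - 1) + 1 := h.nQ2.1
  have he : ((A \ Q).erase c0).card = (A \ Q).card - 1 := Finset.card_erase_of_mem hc
  have hd : (((A \ Q).erase c0) \ Q2).card = ((A \ Q).erase c0).card - Q2.card :=
    Finset.card_sdiff_of_subset h.Q2R
  refine ⟨by omega, by omega, ?_, hc⟩
  rw [← Finset.card_pos]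
  omega

/-- no `2m`-cycle minor in `R - c0` (`St.o1'`) -/
theorem St2.no_cyc (h : St2 G A a' m K ms c C Q c0 Q2) :
    ¬ CycM G ((A \ Q).erase c0) (2 * m) :=
  h.st.o1' h.cards.2.2.2 h.c0Q

/-- (D1): otherwise `near_cyc` gives a cycle minor in `Q2 ∪ P`, contradicting `no_cyc` -/
theorem St2.d1 (h : St2 G A a' m K ms c C Q c0 Q2) {P : Finset V}
    (hP : P ⊆ ((A \ Q).erase c0) \ Q2) (hPc : Conn G P) : (nb G Q2 P).card ≤ 1 := by
  by_contra hcon
  have hd : Disjoint P Q2 := by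
    rw [Finset.disjoint_left]
    intro x hx
    exact (Finset.mem_sdiff.1 (hP hx)).2
  have hcy := near_cyc h.st.m2 h.nQ2 hPc hd (by omega)
  have hsub : Q2 ∪ P ⊆ (A \ Q).erase c0 :=
    Finset.union_subset h.Q2R (fun x hx => (Finset.mem_sdiff.1 (hP hx)).1)
  obtain ⟨l, hl1, hl2, hl3, hl4⟩ := hcy
  exact h.no_cyc ⟨l, hl1, fun X hX => ⟨(hl2 X hX).1.trans hsub, (hl2 X hX).2⟩, hl3, hl4⟩

/-! ## JOB SM2 -/

/-- (D2). Suppose `nb Q D` has at most one element. The neighbours of `D` outside `D` are among `c0`,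
`nb Q2 D` (at most one, `d1`) and `nb Q D`, so `∑_{v ∈ D} dg (A \ D) v ≤ 3 |D|`, and `Crit.inc` gives
`ed D ≥ (a'+m-3)|D| + 1 ≥ (m-1)|D| + 1`. `IH1` on `D`: a `2m`-cycle minor in `D` contradicts `no_cyc`;
a near-clique `Q3 ⊆ D`: `Crit.star` (`s = m-1`) with `U = insert c0 (nb Q D)`; a vertex
`u ∈ D \ Q3` or `u ∈ Q2` with two neighbours in `Q3` gives a cycle minor in `insert u Q3`
(`near_cyc'`), contradicting `no_cyc`; a vertex of the rest outside `D` has no neighbour in `D`. So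
`a' + m ≤ m - 1 + 2`, contradiction to `a' ≥ 2`. -/
theorem St2.d2 (h : St2 G A a' m K ms c C Q c0 Q2) (IH1 : TP V [2 * m] (m - 1)) {D : Finset V}
    (hD : D ⊆ ((A \ Q).erase c0) \ Q2) (hDc : Conn G D)
    (hcomp : ∀ y ∈ D, ∀ z ∈ (((A \ Q).erase c0) \ Q2) \ D, ¬ G.Adj y z) :
    2 ≤ (nb G Q D).card := by
  classical
  by_contra hlt
  have hlt' : (nb G Q D).card ≤ 1 := by omega
  have hcards := h.cards
  have hc0A : c0 ∈ A := (mem_sdiff.1 hcards.2.2.2).1
  have hDR : D ⊆ (A \ Q).erase c0 := hD.trans sdiff_subset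
  have hRA : (A \ Q).erase c0 ⊆ A := (erase_subset _ _).trans sdiff_subset
  have hDA : D ⊆ A := hDR.trans hRA
  have hc0D : c0 ∉ D := fun hc => (notMem_erase c0 (A \ Q)) (hDR hc)
  have hDneA : D ≠ A := fun he => hc0D (he ▸ hc0A)
  have hd1 := h.d1 hD hDc
  -- the vertices outside `D` adjacent to `D`
  have hnbr : ∀ v ∈ D, dg G (A \ D) v ≤ 3 := by
    intro v hv
    have hsub : (A \ D).filter (fun x => G.Adj v x) ⊆ insert c0 (nb G Q2 D ∪ nb G Q D) := by
      intro x hx
      rw [mem_filter, mem_sdiff] at hx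
      obtain ⟨⟨hxA, hxD⟩, hvx⟩ := hx
      rw [mem_insert, mem_union, mem_nb, mem_nb]
      by_cases h1 : x = c0
      · exact Or.inl h1
      · right
        by_cases h2 : x ∈ Q
        · exact Or.inr ⟨h2, v, hv, hvx.symm⟩
        · by_cases h3 : x ∈ Q2
          · exact Or.inl ⟨h3, v, hv, hvx.symm⟩
          · exfalso
            refine hcomp v hv x ?_ hvx
            rw [mem_sdiff, mem_sdiff, mem_erase, mem_sdiff]
            exact ⟨⟨⟨h1, hxA, h2⟩, h3⟩, hxD⟩
    have h1 := card_le_card hsub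
    have h2 := card_insert_le c0 (nb G Q2 D ∪ nb G Q D)
    have h3 := card_union_le (nb G Q2 D) (nb G Q D)
    have h4 : dg G (A \ D) v = ((A \ D).filter (fun x => G.Adj v x)).card := by
      unfold dg
      congr
    rw [h4]
    omega
  have hsum : ∑ v ∈ D, dg G (A \ D) v ≤ D.card * 3 := by
    rw [← smul_eq_mul]
    exact Finset.sum_le_card_nsmul _ _ _ hnbr
  have hinc := h.st.crit.inc hDA hDneA hDc.1
  have ha2 := h.st.a2
  have hm2 := h.st.m2
  have hed : (m - 1) * (D.card - 1) < ed G D := by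
    have e1 : (m - 1 + 3) * D.card ≤ (a' + m) * D.card := Nat.mul_le_mul_right _ (by omega)
    have e2 : (m - 1 + 3) * D.card = (m - 1) * D.card + D.card * 3 := by ring
    have e3 : (m - 1) * (D.card - 1) ≤ (m - 1) * D.card := Nat.mul_le_mul_left _ (by omega)
    omega
  rcases IH1 G D hed with hp | ⟨Q3, hQ3D, hQ3⟩
  · rw [pack_singleton_iff] at hp
    exact h.no_cyc (cycM_mono hDR hp)
  · have hstar := h.st.crit.star (hQ3D.trans hDA) hQ3 (insert c0 (nb G Q D)) (by
      intro u huA huQ3 hu2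
      rw [mem_insert, mem_nb]
      by_cases h1 : u = c0
      · exact Or.inl h1
      · right
        by_cases h2 : u ∈ Q
        · obtain ⟨y, hy, huy⟩ := (dg_pos_iff G Q3 u).1 (by omega)
          exact ⟨h2, y, hQ3D hy, huy⟩
        · exfalso
          apply h.no_cyc
          refine cycM_mono ?_ (near_cyc' hm2 hQ3 huQ3 hu2)
          intro x hx
          rcases mem_insert.1 hx with rfl | hx
          · rw [mem_erase, mem_sdiff]
            exact ⟨h1, huA, h2⟩
          · exact hDR (hQ3D hx))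
    have h2 := card_insert_le c0 (nb G Q D)
    omega

/-! ## JOB SM3 -/

/-- (D3) is `St.o1`. (D4): a vertex of the rest by `d1` for a singleton; for `c0`: `near_cyc'` would
give a cycle minor in `insert c0 Q2 ⊆ R \ D`. -/
theorem St2.d4 (h : St2 G A a' m K ms c C Q c0 Q2) {D : Finset V}
    (hD : D ⊆ ((A \ Q).erase c0) \ Q2) (hDc : Conn G D) (hD2 : 2 ≤ (nb G Q D).card) {u : V}
    (hu : u ∈ (A \ Q) \ Q2) : dg G Q2 u ≤ 1 := by
  by_contra hlt
  have hlt' : 2 ≤ dg G Q2 u := by omega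
  have hcards := h.cards
  have hm2 := h.st.m2
  rw [mem_sdiff] at hu
  have hDR : D ⊆ (A \ Q).erase c0 := hD.trans sdiff_subset
  by_cases huc : u = c0
  · subst huc
    apply h.st.o1 (hDR.trans (erase_subset _ _)) hDc hD2
    refine cycM_mono ?_ (near_cyc' hm2 h.nQ2 hu.2 hlt')
    intro x hx
    rw [mem_sdiff]
    rcases mem_insert.1 hx with rfl | hx
    · exact ⟨hu.1, fun hxD => (notMem_erase x (A \ Q)) (hDR hxD)⟩
    · exact ⟨(erase_subset _ _) (h.Q2R hx), fun hxD => (mem_sdiff.1 (hD hxD)).2 hx⟩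
  · have h1 := h.d1 (P := {u}) (by
      intro x hx
      rw [mem_singleton] at hx
      subst hx
      rw [mem_sdiff, mem_erase]
      exact ⟨⟨huc, hu.1⟩, hu.2⟩) (conn_singleton G u)
    rw [card_nb_singleton] at h1
    omega

/-- (D5): `Crit.star` for `Q2` (`s = m-1`) and `d4` -/
theorem St2.d5 (h : St2 G A a' m K ms c C Q c0 Q2) {D : Finset V}
    (hD : D ⊆ ((A \ Q).erase c0) \ Q2) (hDc : Conn G D) (hD2 : 2 ≤ (nb G Q D).card)
    (Y : Finset V) (hY : ∀ x, x ∈ Y ↔ x ∈ Q ∧ 2 ≤ dg G Q2 x) : a' + 1 ≤ Y.card := by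
  have hm2 := h.st.m2
  have hQ2A : Q2 ⊆ A := (h.Q2R.trans (erase_subset _ _)).trans sdiff_subset
  have hstar := h.st.crit.star hQ2A h.nQ2 Y (by
    intro u huA huQ2 hu2
    by_cases huQ : u ∈ Q
    · exact (hY u).2 ⟨huQ, hu2⟩
    · exfalso
      have h1 := h.d4 hD hDc hD2 (u := u) (by
        rw [mem_sdiff, mem_sdiff]
        exact ⟨⟨huA, huQ⟩, huQ2⟩)
      omega)
  omega

/-- (D6): `C` meets `D` by (D3) (`St.o1` for `D`, `PC.cycM`), `c0 ∈ C`, `c0 ∉ D`; the vertices of
`R \ D` adjacent to `D` are `c0` and at most one vertex of `Q2` (`d1`, `hcomp`). `PC.two_exits`. -/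
theorem St2.d6 (h : St2 G A a' m K ms c C Q c0 Q2) {D : Finset V}
    (hD : D ⊆ ((A \ Q).erase c0) \ Q2) (hDc : Conn G D)
    (hcomp : ∀ y ∈ D, ∀ z ∈ (((A \ Q).erase c0) \ Q2) \ D, ¬ G.Adj y z)
    (hD2 : 2 ≤ (nb G Q D).card) : ∃ d ∈ D, G.Adj c0 d := by
  have hm2 := h.st.m2
  have hcards := h.st.cards
  have hDR : D ⊆ (A \ Q).erase c0 := hD.trans sdiff_subset
  have hCR : C ⊆ A \ Q := hcards.2.2.2.2.1
  have hCmem : ∀ j, c j ∈ C := by
    intro j
    rw [h.st.hC]
    exact h.st.pc.mem_image (by omega) j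
  -- the cycle meets `D`
  obtain ⟨i0, hi0⟩ : ∃ i, c i ∈ D := by
    by_contra hno
    have hno' : ∀ i, c i ∉ D := fun i hi => hno ⟨i, hi⟩
    apply h.st.o1 (hDR.trans (erase_subset _ _)) hDc hD2
    apply h.st.pc.cycM (by omega)
    intro x hx
    obtain ⟨j, _, rfl⟩ := mem_image.1 hx
    rw [mem_sdiff]
    exact ⟨hCR (hCmem j), hno' j⟩
  obtain ⟨j0, hj0⟩ : ∃ j, c j = c0 := by
    have h1 := h.c0C
    rw [h.st.hC] at h1
    obtain ⟨j, _, hj⟩ := mem_image.1 h1
    exact ⟨j, hj⟩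
  have hc0D : c j0 ∉ D := by
    rw [hj0]
    exact fun hc => (notMem_erase c0 (A \ Q)) (hDR hc)
  rcases h.st.pc.two_exits (by omega) hc0D hi0 with h1 | ⟨j, j', hne, hj, hj', hd, hd'⟩
  · rw [hj0] at h1
    exact h1
  · by_cases e1 : c j = c0
    · rw [e1] at hd
      exact hd
    · by_cases e2 : c j' = c0
      · rw [e2] at hd'
        exact hd'
      · exfalso
        have key : ∀ x, x ∈ C → x ≠ c0 → x ∉ D → (∃ d ∈ D, G.Adj x d) → x ∈ nb G Q2 D := by
          intro x hxC hxc hxD hxd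
          rw [mem_nb]
          obtain ⟨d, hdD, hxd'⟩ := hxd
          refine ⟨?_, d, hdD, hxd'⟩
          by_contra hxQ2
          refine hcomp d hdD x ?_ hxd'.symm
          rw [mem_sdiff, mem_sdiff, mem_erase]
          exact ⟨⟨⟨hxc, hCR hxC⟩, hxQ2⟩, hxD⟩
        have k1 := key _ (hCmem j) e1 hj hd
        have k2 := key _ (hCmem j') e2 hj' hd'
        have h2 := h.d1 hD hDc
        have h3 := Finset.one_lt_card.2 ⟨_, k1, _, k2, hne⟩
        omega

/-! ## JOB SM4 -/

/-- selection of three distinct representatives, one of them a given `p` -/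
theorem select_three {N1 N2 Y : Finset V} (h1 : 2 ≤ N1.card) (h2 : 2 ≤ N2.card)
    (h3 : 3 ≤ Y.card) {p : V} (hp : p ∈ N1 ∨ p ∈ N2 ∨ p ∈ Y) :
    ∃ x ∈ Y, ∃ c1 ∈ N1, ∃ d1 ∈ N2, x ≠ c1 ∧ x ≠ d1 ∧ c1 ≠ d1 ∧ (p = x ∨ p = c1 ∨ p = d1) := by
  have hY : ∀ s t : V, ∃ x ∈ Y, x ≠ s ∧ x ≠ t := by
    intro s t
    have h4 : 0 < ((Y.erase s).erase t).card := by
      have e1 := pred_card_le_card_erase (s := Y) (a := s)
      have e2 := pred_card_le_card_erase (s := Y.erase s) (a := t)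
      omega
    obtain ⟨x, hx⟩ := card_pos.1 h4
    rw [mem_erase, mem_erase] at hx
    exact ⟨x, hx.2.2, hx.2.1, hx.1⟩
  by_cases hp1 : p ∈ N1
  · obtain ⟨d1, hd1, hne⟩ := exists_mem_ne (by omega : 1 < N2.card) p
    obtain ⟨x, hx, hx1, hx2⟩ := hY p d1
    exact ⟨x, hx, p, hp1, d1, hd1, hx1, hx2, hne.symm, Or.inr (Or.inl rfl)⟩
  · by_cases hp2 : p ∈ N2
    · obtain ⟨c1, hc1, hne⟩ := exists_mem_ne (by omega : 1 < N1.card) p
      obtain ⟨x, hx, hx1, hx2⟩ := hY c1 p
      exact ⟨x, hx, c1, hc1, p, hp2, hx1, hx2, hne, Or.inr (Or.inr rfl)⟩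
    · have hpY : p ∈ Y := by
        rcases hp with h | h | h
        · exact absurd h hp1
        · exact absurd h hp2
        · exact h
      obtain ⟨c1, hc1⟩ := card_pos.1 (by omega : 0 < N1.card)
      obtain ⟨d1, hd1, hne⟩ := exists_mem_ne (by omega : 1 < N2.card) c1
      exact ⟨p, hpY, c1, hc1, d1, hd1, fun e => hp1 (e ▸ hc1), fun e => hp2 (e ▸ hd1), hne.symm,
        Or.inl rfl⟩

/-- Final construction: `ham_path` in `Q.erase x` from `c1` to `d1`, closed through `D` and `c0`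
(`cycM_path_two_sets` with `X = {c0}`, `Y = D`), gives a cycle minor of length `2a'+2`; `near_cyc'`
gives a cycle minor of length `2m` in `insert x Q2`; together `Pk G [m, a'+1] A`, contradiction
(`St.ms_eq`). -/
theorem St2.finish (h : St2 G A a' m K ms c C Q c0 Q2) {D : Finset V}
    (hD : D ⊆ ((A \ Q).erase c0) \ Q2) (hDc : Conn G D) (hc0 : ∃ d ∈ D, G.Adj c0 d) {x c1 d1 : V}
    (hx : x ∈ Q) (hx2 : 2 ≤ dg G Q2 x) (hc1 : c1 ∈ Q) (hc1' : G.Adj c1 c0)
    (hd1 : d1 ∈ Q) (hd1' : ∃ d ∈ D, G.Adj d1 d) (h1 : x ≠ c1) (h2 : x ≠ d1) (h3 : c1 ≠ d1)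
    (hmiss : 2 * me G (((Q.erase x).erase c1).erase d1) + md G (((Q.erase x).erase c1).erase d1) c1
      + md G (((Q.erase x).erase c1).erase d1) d1 + 2 < 2 * a') : False := by
  have hm2 := h.st.m2
  have ha2 := h.st.a2
  have hcards := h.st.cards
  have hcards2 := h.cards
  have hQA : Q ⊆ A := hcards.2.2.2.2.2.1
  have hQc : Q.card = 2 * a' + 1 := hcards.2.1
  have hc0R : c0 ∈ A \ Q := hcards2.2.2.2
  rw [mem_sdiff] at hc0R
  have hDR : D ⊆ (A \ Q).erase c0 := hD.trans sdiff_subset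
  have hDmem : ∀ y ∈ D, y ∈ A ∧ y ∉ Q ∧ y ≠ c0 ∧ y ∉ Q2 := by
    intro y hy
    have h4 := hD hy
    rw [mem_sdiff, mem_erase, mem_sdiff] at h4
    exact ⟨h4.1.2.1, h4.1.2.2, h4.1.1, h4.2⟩
  have hQ2mem : ∀ y ∈ Q2, y ∈ A ∧ y ∉ Q ∧ y ≠ c0 := by
    intro y hy
    have h4 := h.Q2R hy
    rw [mem_erase, mem_sdiff] at h4
    exact ⟨h4.2.1, h4.2.2, h4.1⟩
  have hScard : (Q.erase x).card = 2 * a' := by
    rw [card_erase_of_mem hx, hQc]
    omega
  obtain ⟨l, hl, hlS, hlc, hlh, hll⟩ := ham_path (G := G) (S := Q.erase x) (u := c1) (v := d1)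
    (mem_erase.2 ⟨h1.symm, hc1⟩) (mem_erase.2 ⟨h2.symm, hd1⟩) h3 (by omega) (by omega)
  have hlmem : ∀ y ∈ l, y ∈ Q ∧ y ≠ x := by
    intro y hy
    have h4 : y ∈ l.toFinset := List.mem_toFinset.2 hy
    rw [hlS, mem_erase] at h4
    exact ⟨h4.2, h4.1⟩
  have hllen : l.length = 2 * a' := by
    rw [← List.toFinset_card_of_nodup hl, hlS, hScard]
  have hcyc1 : CycM G ((Q.erase x) ∪ ({c0} ∪ D)) (l.length + 2) := by
    refine cycM_path_two_sets hl hlc (X := {c0}) (Y := D) (conn_singleton G c0) hDc ?_ ?_ ?_ ?_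
      hlh hll ⟨c0, mem_singleton_self c0, hc1'⟩ hd1' ?_ ?_ ?_
    · obtain ⟨d, hdD, hd⟩ := hc0
      exact ⟨c0, mem_singleton_self c0, d, hdD, hd⟩
    · rw [disjoint_singleton_left]
      exact fun hc => (hDmem c0 hc).2.2.1 rfl
    · intro y hy hyc
      rw [mem_singleton] at hyc
      exact hc0R.2 (hyc ▸ (hlmem y hy).1)
    · intro y hy hyD
      exact (hDmem y hyD).2.1 (hlmem y hy).1
    · exact subset_union_left.trans subset_union_right
    · exact subset_union_right.trans subset_union_right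
    · intro y hy
      rw [mem_union, mem_erase]
      exact Or.inl ⟨(hlmem y hy).2, (hlmem y hy).1⟩
  have hxQ2 : x ∉ Q2 := fun hc => (hQ2mem x hc).2.1 hx
  have hcyc2 : CycM G (insert x Q2) (2 * m) := near_cyc' hm2 h.nQ2 hxQ2 hx2
  apply h.st.nopack
  rw [h.st.ms_eq h.small]
  refine pk_cons (A := (Q.erase x) ∪ ({c0} ∪ D)) hcyc2 ?_ ?_ ?_
  · show Pack G [2 * (a' + 1)] _
    rw [pack_singleton_iff]
    rw [hllen] at hcyc1
    exact hcyc1
  · rw [disjoint_left]
    intro y hy hy'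
    rw [mem_union, mem_union, mem_erase, mem_singleton] at hy'
    rcases mem_insert.1 hy with rfl | hy
    · rcases hy' with hy' | rfl | hy'
      · exact hy'.1 rfl
      · exact hc0R.2 hx
      · exact (hDmem y hy').2.1 hx
    · rcases hy' with hy' | rfl | hy'
      · exact (hQ2mem y hy).2.1 hy'.2
      · exact (hQ2mem y hy).2.2 rfl
      · exact (hDmem y hy').2.2.2 hy
  · intro y hy
    rw [mem_union, mem_union, mem_union, mem_erase, mem_singleton, mem_insert] at hy
    rcases hy with (rfl | hy) | (hy | rfl | hy)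
    · exact hQA hx
    · exact (hQ2mem y hy).1
    · exact hQA hy.2
    · exact hc0R.1
    · exact (hDmem y hy).1

/-! ## JOB SM5 -/

private theorem sm5_md_pos {G : SimpleGraph V} {W : Finset V} {u z : V} (hz : z ∈ W) (hzu : z ≠ u)
    (hadj : ¬ G.Adj u z) : 1 ≤ md G W u := by
  classical
  unfold md
  rw [Nat.succ_le_iff, Finset.card_pos]
  refine ⟨z, ?_⟩
  rw [Finset.mem_filter]
  exact ⟨hz, hzu, hadj⟩

private theorem sm5_count {G : SimpleGraph V} {F : Finset V} {u v z : V} (hu : u ∈ F) (hv : v ∈ F)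
    (huv : u ≠ v) (hz : z ∈ F) (h : (z ≠ u ∧ ¬ G.Adj u z) ∨ (z ≠ v ∧ ¬ G.Adj v z)) :
    2 * me G ((F.erase u).erase v) + md G ((F.erase u).erase v) u
      + md G ((F.erase u).erase v) v < 2 * me G F := by
  obtain ⟨h1, h2, h3⟩ := me_erase_two (G := G) hu hv huv
  by_cases hadj : G.Adj u v
  · have h4 := h3 hadj
    have h5 : 1 ≤ md G ((F.erase u).erase v) u + md G ((F.erase u).erase v) v := by
      rcases h with ⟨hzu, hz'⟩ | ⟨hzv, hz'⟩
      · have hzv : z ≠ v := by
          rintro rfl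
          exact hz' hadj
        have := sm5_md_pos (W := (F.erase u).erase v)
          (Finset.mem_erase.2 ⟨hzv, Finset.mem_erase.2 ⟨hzu, hz⟩⟩) hzu hz'
        omega
      · have hzu : z ≠ u := by
          rintro rfl
          exact hz' hadj.symm
        have := sm5_md_pos (W := (F.erase u).erase v)
          (Finset.mem_erase.2 ⟨hzv, Finset.mem_erase.2 ⟨hzu, hz⟩⟩) hzv hz'
        omega
    omega
  · have h4 := h2 hadj
    omega

/-- numbers of missing edges: if `me Q ≤ a' - 2`, or if one of `x, c1, d1` is an end of a missing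
edge `y y'` of `Q`, then the condition of `St2.finish` holds (`me Q ≤ a' - 1`). -/
theorem miss_count {x c1 d1 : V} (hQ : Near G Q a') (ha : 2 ≤ a') (hx : x ∈ Q) (hc1 : c1 ∈ Q)
    (hd1 : d1 ∈ Q) (h1 : x ≠ c1) (h2 : x ≠ d1) (h3 : c1 ≠ d1)
    (hy : me G Q + 2 ≤ a' ∨ ∃ y ∈ Q, ∃ y' ∈ Q, y ≠ y' ∧ ¬ G.Adj y y' ∧ (y = x ∨ y = c1 ∨ y = d1)) :
    2 * me G (((Q.erase x).erase c1).erase d1) + md G (((Q.erase x).erase c1).erase d1) c1
      + md G (((Q.erase x).erase c1).erase d1) d1 + 2 < 2 * a' := by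
  obtain ⟨_, hme⟩ := hQ
  have e1 := me_erase G hx
  have hc1' : c1 ∈ Q.erase x := Finset.mem_erase.2 ⟨h1.symm, hc1⟩
  have hd1' : d1 ∈ Q.erase x := Finset.mem_erase.2 ⟨h2.symm, hd1⟩
  obtain ⟨e2, _, _⟩ := me_erase_two (G := G) hc1' hd1' h3
  rcases hy with hy | ⟨y, hyQ, y', hy'Q, hne, hna, hy⟩
  · omega
  · by_cases hxx : ∃ z ∈ Q.erase x, ¬ G.Adj x z
    · obtain ⟨z, hz, hzx⟩ := hxx
      have e3 := sm5_md_pos (Finset.mem_of_mem_erase hz) (Finset.ne_of_mem_erase hz) hzx
      omega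
    · push Not at hxx
      have hyx : y ≠ x := by
        rintro rfl
        exact hna (hxx y' (Finset.mem_erase.2 ⟨hne.symm, hy'Q⟩))
      have hy'x : y' ≠ x := by
        rintro rfl
        exact hna (hxx y (Finset.mem_erase.2 ⟨hyx, hyQ⟩)).symm
      have hy'F : y' ∈ Q.erase x := Finset.mem_erase.2 ⟨hy'x, hy'Q⟩
      have e3 : 2 * me G (((Q.erase x).erase c1).erase d1)
          + md G (((Q.erase x).erase c1).erase d1) c1
          + md G (((Q.erase x).erase c1).erase d1) d1 < 2 * me G (Q.erase x) := by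
        rcases hy with rfl | rfl | rfl
        · exact absurd rfl hyx
        · exact sm5_count hc1' hd1' h3 hy'F (Or.inl ⟨hne.symm, hna⟩)
        · exact sm5_count hc1' hd1' h3 hy'F (Or.inr ⟨hne.symm, hna⟩)
      omega

/-- The case `a' ≤ m` is impossible. `Y = {x ∈ Q : 2 ≤ dg Q2 x}` has at least 3 elements (`d5`),
`nb Q {c0}` at least 2, `nb Q D` at least 2 for every component `D` of the rest `X` (`exists_comp`,
`d2`). If `me Q ≤ a' - 2` take any component `D` and any selection (`select_three` with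
`p ∈ nb Q {c0}`). Otherwise there is a missing pair `y y'` in `Q`. If `y` is adjacent to some
`w ∈ X`, let `D` be the component of `w`: `y ∈ nb Q D`, `select_three` with `p = y`; if `y` is
adjacent to `c0` or `y ∈ Y` take any `D` and `p = y`. Otherwise
`dg A y = dg Q y + dg Q2 y + 0 + 0 ≤ (2a' - 1) + 1 = 2a' < a' + m + 1`, contradicting
`Crit.deg`. -/
theorem St2.false (h : St2 G A a' m K ms c C Q c0 Q2) (IH1 : TP V [2 * m] (m - 1)) : False := by
  classical
  obtain ⟨_, _, hXne, _⟩ := h.cards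
  set Y : Finset V := Q.filter (fun x => 2 ≤ dg G Q2 x) with hYdef
  have hYmem : ∀ x, x ∈ Y ↔ x ∈ Q ∧ 2 ≤ dg G Q2 x := fun x => by
    rw [hYdef, Finset.mem_filter]
  have ha2 := h.st.a2
  have hN1 : 2 ≤ (nb G Q {c0}).card := by
    rw [card_nb_singleton]
    exact h.c0Q
  have key : ∀ w ∈ ((A \ Q).erase c0) \ Q2, ∀ p : V,
      (p ∈ nb G Q {c0} ∨ (p ∈ Q ∧ G.Adj p w) ∨ p ∈ Y) →
      (me G Q + 2 ≤ a' ∨ (p ∈ Q ∧ ∃ y' ∈ Q, p ≠ y' ∧ ¬ G.Adj p y')) → False := by
    intro w hw p hp hm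
    obtain ⟨D, hD, hwD, hDc, hcomp⟩ := exists_comp G (((A \ Q).erase c0) \ Q2) hw
    have hD2 := h.d2 IH1 hD hDc hcomp
    have hY := h.d5 hD hDc hD2 Y hYmem
    have hp' : p ∈ nb G Q {c0} ∨ p ∈ nb G Q D ∨ p ∈ Y := by
      rcases hp with hp | hp | hp
      · exact Or.inl hp
      · refine Or.inr (Or.inl ?_)
        rw [mem_nb]
        exact ⟨hp.1, w, hwD, hp.2⟩
      · exact Or.inr (Or.inr hp)
    obtain ⟨x, hx, c1, hc1, d1, hd1, h1, h2, h3, hpe⟩ :=
      select_three hN1 hD2 (by omega : 3 ≤ Y.card) hp'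
    rw [hYmem] at hx
    rw [mem_nb] at hc1 hd1
    have hc1' : G.Adj c1 c0 := by
      obtain ⟨_, y, hy, hy'⟩ := hc1
      rw [Finset.mem_singleton] at hy
      rw [← hy]
      exact hy'
    refine h.finish hD hDc (h.d6 hD hDc hcomp hD2) hx.1 hx.2 hc1.1 hc1' hd1.1 hd1.2 h1 h2 h3 ?_
    refine miss_count h.st.nQ ha2 hx.1 hc1.1 hd1.1 h1 h2 h3 ?_
    rcases hm with hm | ⟨hpQ, y', hy', hpy, hna⟩
    · exact Or.inl hm
    · exact Or.inr ⟨p, hpQ, y', hy', hpy, hna, hpe⟩
  obtain ⟨w, hw⟩ := hXne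
  have hQcard := h.st.nQ.1
  have hme := h.st.nQ.2
  by_cases hm : me G Q + 2 ≤ a'
  · obtain ⟨p, hp⟩ : (nb G Q {c0}).Nonempty := by
      rw [← Finset.card_pos]
      omega
    exact key w hw p (Or.inl hp) (Or.inl hm)
  · obtain ⟨y, hy, y', hy', hne, hna⟩ := exists_missing_of_me_pos (G := G) (W := Q) (by omega)
    have hm2 : me G Q + 2 ≤ a' ∨ (y ∈ Q ∧ ∃ y' ∈ Q, y ≠ y' ∧ ¬ G.Adj y y') :=
      Or.inr ⟨hy, y', hy', hne, hna⟩
    by_cases c1 : ∃ w' ∈ ((A \ Q).erase c0) \ Q2, G.Adj y w'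
    · obtain ⟨w', hw', hyw⟩ := c1
      exact key w' hw' y (Or.inr (Or.inl ⟨hy, hyw⟩)) hm2
    by_cases c2 : G.Adj y c0
    · refine key w hw y (Or.inl ?_) hm2
      rw [mem_nb]
      exact ⟨hy, c0, Finset.mem_singleton_self c0, c2⟩
    by_cases c3 : 2 ≤ dg G Q2 y
    · exact key w hw y (Or.inr (Or.inr ((hYmem y).2 ⟨hy, c3⟩))) hm2
    · push Not at c1
      have hyA : y ∈ A := (Finset.mem_sdiff.1 (h.st.QA hy)).1
      have e1 := h.st.crit.deg hyA
      have e2 := dg_add_md_mem G Q y hy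
      have e3 := sm5_md_pos hy' hne.symm hna
      have e4 : dg G A y ≤ dg G Q y + dg G Q2 y := by
        unfold dg
        refine le_trans (Finset.card_le_card ?_) (Finset.card_union_le _ _)
        intro z hz
        rw [Finset.mem_filter] at hz
        rw [Finset.mem_union, Finset.mem_filter, Finset.mem_filter]
        by_cases hzQ : z ∈ Q
        · exact Or.inl ⟨hzQ, hz.2⟩
        by_cases hzQ2 : z ∈ Q2
        · exact Or.inr ⟨hzQ2, hz.2⟩
        exfalso
        have hzc : z ≠ c0 := by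
          rintro rfl
          exact c2 hz.2
        exact c1 z (Finset.mem_sdiff.2 ⟨Finset.mem_erase.2 ⟨hzc,
          Finset.mem_sdiff.2 ⟨hz.1, hzQ⟩⟩, hzQ2⟩) hz.2
      have e5 := h.small
      omega

end

/-! ## JOB MAI -/

/-- the induction step: suppose no packing. `remove_cycle` gives `c`, `C`; `IH` on `A \ C` gives the
packing of `ms` in `A \ C` (with the cycle `C` a packing of `m :: ms`, contradiction) or `Q`. This is
a state `St` with `K = A.card - 2 (a'+m) ≥ 2`; `K ≠ 2` by `St.K_ne_two`; if `m + 1 ≤ a'`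
use `St.big`, otherwise `St.exists_Q2` and `St2.false`. -/
theorem step {G : SimpleGraph V} {A : Finset V} {a' m : ℕ} {ms : List ℕ} (m2 : 2 ≤ m)
    (a2 : 2 ≤ a') (msne : ms ≠ []) (msmin : ∀ x ∈ ms, m ≤ x) (msum : ms.sum = a' + 1)
    (IH : TP V (ms.map (fun m => 2 * m)) a') (IH1 : TP V [2 * m] (m - 1))
    (h : Crit G A (a' + m)) : Pk G (m :: ms) A := by
  by_contra hno
  have hma : m ≤ a' + 1 := by
    obtain ⟨x, hx⟩ := List.exists_mem_of_ne_nil ms msne
    have h1 := msmin x hx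
    have h2 : x ≤ ms.sum := List.single_le_sum (fun _ _ => Nat.zero_le _) x hx
    omega
  obtain ⟨c, hc, hcA, hced⟩ := remove_cycle h (by omega) (by omega) (by omega)
  have hCA : (range (2 * m)).image c ⊆ A := by
    intro x hx
    obtain ⟨j, _, rfl⟩ := mem_image.1 hx
    exact hcA j
  rcases IH G (A \ (range (2 * m)).image c) (by omega) with hp | ⟨Q, hQ, hn⟩
  · refine hno (pk_cons (hc.cycM (by omega) (Subset.refl _)) hp disjoint_sdiff ?_)
    exact union_subset hCA sdiff_subset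
  · have hcard := h.card
    have hst : St G A a' m (A.card - 2 * (a' + m)) ms c ((range (2 * m)).image c) Q :=
      { crit := h
        hK := by omega
        K2 := by omega
        m2 := m2
        a2 := a2
        msne := msne
        msmin := msmin
        msum := msum
        nopack := hno
        pc := hc
        hC := rfl
        CA := hCA
        ced := hced
        QA := hQ
        nQ := hn }
    have hK2 := hst.K_ne_two
    have hK3 : 3 ≤ A.card - 2 * (a' + m) := by omega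
    by_cases hb : m + 1 ≤ a'
    · exact hst.big IH1 hK3 hb
    · obtain ⟨c0, hc0, hc0Q, Q2, hQ2, hnQ2⟩ := hst.exists_Q2 IH1 hK3
      have hst2 : St2 G A a' m (A.card - 2 * (a' + m)) ms c ((range (2 * m)).image c) Q c0 Q2 :=
        { st := hst
          small := by omega
          K3 := hK3
          c0C := hc0
          c0Q := hc0Q
          Q2R := hQ2
          nQ2 := hnQ2 }
      exact hst2.false IH1

theorem tp_perm {L L' : List ℕ} (hL : L.Perm L') {a : ℕ} (h : TP V L a) : TP V L' a := by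
  intro G A hA
  rcases h G A hA with h1 | h1
  · exact Or.inl (pack_perm hL h1)
  · exact Or.inr h1

/-- one cycle: `tp_of_crit`, `hN_adm` with `ms = [m]`, `base_cycle` -/
theorem tp_single {m : ℕ} (hm : 2 ≤ m) : TP V [2 * m] (m - 1) := by
  have hadm : Adm [m] (m - 1) := by
    refine ⟨?_, ?_, Or.inl rfl⟩
    · intro x hx
      rw [List.mem_singleton] at hx
      omega
    · simp only [List.sum_cons, List.sum_nil]
      omega
  refine tp_of_crit [2 * m] (m - 1) (by omega) ?_ ?_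
  · intro G A P p h2 hP hP2 hPc hp hQ hno
    exact hN_adm (by omega) hadm G A P p h2 hP hP2 hPc hp hQ hno
  · intro G A hc
    have h1 := base_cycle hc
    have h2 : 2 * (m - 1) + 2 = 2 * m := by omega
    rw [h2] at h1
    exact pack_singleton_iff.2 h1

/-- Main theorem, by strong induction on the length of `ms`. Length 1: `tp_single`. Otherwise let `m`
be a smallest element, `ms` a permutation of `m :: ms'`, `a = a' + m`. `ms'` is admissible for `a'`: it
has an element at least 3 (if all elements of `ms'` are 2 then `m = 2` as well, contradiction) and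
`a' + 1 = ms'.sum ≥ 3`. `tp_of_crit` with `hN_adm` and `step`. -/
theorem tp_main {ms : List ℕ} {a : ℕ} (h : Adm ms a) : TP V (ms.map (fun m => 2 * m)) a := by
  induction hn : ms.length using Nat.strong_induction_on generalizing ms a with
  | _ n IH =>
    subst hn
    by_cases h1 : ms.length = 1
    · obtain ⟨m, rfl⟩ := List.length_eq_one_iff.1 h1
      obtain ⟨h2, h3, _⟩ := h
      have h4 : 2 ≤ m := h2 m (List.mem_singleton_self m)
      simp only [List.sum_cons, List.sum_nil] at h3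
      have h5 : a = m - 1 := by omega
      subst h5
      exact tp_single h4
    · obtain ⟨h2, h3, h4⟩ := h
      obtain ⟨x, hx, hx3⟩ := h4.resolve_left h1
      obtain ⟨m, hm, hmin⟩ := exists_min_image ms.toFinset id ⟨x, List.mem_toFinset.2 hx⟩
      rw [List.mem_toFinset] at hm
      have hmin' : ∀ y ∈ ms, m ≤ y := fun y hy => hmin y (List.mem_toFinset.2 hy)
      have hperm : ms.Perm (m :: ms.erase m) := List.perm_cons_erase hm
      have hlen : ms.length = (ms.erase m).length + 1 := by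
        rw [hperm.length_eq, List.length_cons]
      have hsum : ms.sum = m + (ms.erase m).sum := by
        rw [hperm.sum_eq, List.sum_cons]
      have hsub : ∀ y ∈ ms.erase m, y ∈ ms := fun y hy => List.mem_of_mem_erase hy
      have hm2 : 2 ≤ m := h2 m hm
      have hne : ms.erase m ≠ [] := by
        intro he
        rw [he, List.length_nil] at hlen
        exact h1 hlen
      have h3' : ∃ y ∈ ms.erase m, 3 ≤ y := by
        rcases List.mem_cons.1 (hperm.mem_iff.1 hx) with hxm | hxm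
        · obtain ⟨y, hy⟩ := List.exists_mem_of_ne_nil _ hne
          refine ⟨y, hy, ?_⟩
          have := hmin' y (hsub y hy)
          omega
        · exact ⟨x, hxm, hx3⟩
      have hs3 : 3 ≤ (ms.erase m).sum := by
        obtain ⟨y, hy, hy3⟩ := h3'
        have h5 : y ≤ (ms.erase m).sum := List.single_le_sum (fun _ _ => Nat.zero_le _) y hy
        omega
      have hadm' : Adm (ms.erase m) (a - m) := by
        refine ⟨fun y hy => h2 y (hsub y hy), by omega, Or.inr h3'⟩
      have hadm : Adm (m :: ms.erase m) a := by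
        refine ⟨fun y hy => h2 y (hperm.mem_iff.2 hy), ?_, Or.inr ?_⟩
        · rw [List.sum_cons]
          omega
        · obtain ⟨y, hy, hy3⟩ := h3'
          exact ⟨y, List.mem_cons_of_mem _ hy, hy3⟩
      have IH' : TP V ((ms.erase m).map (fun m => 2 * m)) (a - m) :=
        IH (ms.erase m).length (by omega) hadm' rfl
      have hT : TP V ((m :: ms.erase m).map (fun m => 2 * m)) a := by
        refine tp_of_crit _ a (by omega) ?_ ?_
        · intro G A P p h2 hP hP2 hPc hp hQ hno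
          exact hN_adm (by omega) hadm G A P p h2 hP hP2 hPc hp hQ hno
        · intro G A hc
          have h6 : a = (a - m) + m := by omega
          rw [h6] at hc
          exact step hm2 (by omega) hne (fun y hy => hmin' y (hsub y hy)) (by omega) IH'
            (tp_single hm2) hc
      exact tp_perm (hperm.symm.map _) hT

/-! ## JOB TPP -/

private theorem tpp_sum (q : ℕ) (hq : 1 ≤ q) :
    (3 :: List.replicate (q - 1) 4).sum ≤ 2 * (2 * q - 1) + 1 := by
  rw [List.sum_cons, List.sum_replicate, smul_eq_mul]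
  omega

private theorem tpp_three (q : ℕ) : ∀ r ∈ 3 :: List.replicate (q - 1) 4, 3 ≤ r := by
  intro r hr
  rcases List.mem_cons.1 hr with h | h
  · omega
  · have := List.eq_of_mem_replicate h
    omega

private theorem tpp_of_crit {q : ℕ} (hq : 1 ≤ q)
    (hC : ∀ (G : SimpleGraph V) (A : Finset V), Crit G A (2 * q - 1) →
      Pack G (3 :: List.replicate (q - 1) 4) A) (G : SimpleGraph V) (A : Finset V)
    (h : (2 * q - 1) * (A.card - 1) < ed G A) : Pack G (3 :: List.replicate (q - 1) 4) A := by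
  have ht : TP V (3 :: List.replicate (q - 1) 4) (2 * q - 1) :=
    tp_of_crit _ _ (by omega)
      (fun G A P p _ hP _ hPc hp hQ _ => hN_small (tpp_three q) (tpp_sum q hq) G A P p hP hPc hp hQ)
      hC
  rcases ht G A h with h1 | ⟨Q, hQ, hn⟩
  · exact h1
  · exact pack_mono hQ (near_pack hn _ (tpp_three q) (tpp_sum q hq))

open Classical in
private theorem tpp_base (G : SimpleGraph V) (A : Finset V) (hc : Crit G A (2 * 1 - 1)) :
    Pack G (3 :: List.replicate (1 - 1) 4) A := by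
  have hcard := hc.card
  obtain ⟨v, hv⟩ : A.Nonempty := Finset.card_pos.1 (by omega)
  have hd := hc.deg hv
  obtain ⟨w, hw, hvw⟩ := (dg_pos_iff G A v).1 (by omega)
  have ht := hc.tri hv hw hvw (A.filter fun x => G.Adj v x ∧ G.Adj w x)
    (fun x => Finset.mem_filter)
  obtain ⟨x, hx⟩ : (A.filter fun x => G.Adj v x ∧ G.Adj w x).Nonempty :=
    Finset.card_pos.1 (by omega)
  rw [Finset.mem_filter] at hx
  obtain ⟨hxA, hvx, hwx⟩ := hx
  show Pack G [3] A
  rw [pack_singleton_iff]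
  refine cycM_of_isCyc (l := [v, w, x]) ⟨?_, ?_⟩ ?_ (by norm_num) (by simp)
  · simp [hvw.ne, hvx.ne, hwx.ne]
  · simp [hvw, hwx, hvx.symm]
  · intro y hy
    simp only [List.mem_cons, List.not_mem_nil, or_false] at hy
    rcases hy with rfl | rfl | rfl
    · exact hv
    · exact hw
    · exact hxA

/-- `q - 1` cycles of length 4 and a triangle. Induction on `q`. `tp_of_crit` with `L = 3 :: ...`,
`a = 2q - 1`, `hN_small` (`L.sum = 4q - 1 = 2a + 1`). Critical graph: `q = 1`: a triangle (`Crit.tri`).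
`q ≥ 2`: `remove_cycle` with `m = 2`, `a' = 2q - 3 = 2(q-1) - 1`, induction hypothesis on `A \ C`,
`PC.cycM`, reorder by `pack_perm`. Finally a near-clique also contains the packing (`near_pack`). -/
theorem tpp_main (q : ℕ) (hq : 1 ≤ q) (G : SimpleGraph V) (A : Finset V)
    (h : (2 * q - 1) * (A.card - 1) < ed G A) : Pack G (3 :: List.replicate (q - 1) 4) A := by
  induction q, hq using Nat.le_induction generalizing G A with
  | base =>
    exact tpp_of_crit (q := 1) le_rfl (fun G A hc => tpp_base G A hc) G A h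
  | succ q hq ih =>
    refine tpp_of_crit (q := q + 1) (by omega) (fun G A hc => ?_) G A h
    obtain ⟨a', ha'⟩ : ∃ a', a' = 2 * q - 1 := ⟨_, rfl⟩
    have hc' : Crit G A (a' + 2) := by
      have e : 2 * (q + 1) - 1 = a' + 2 := by omega
      rwa [e] at hc
    obtain ⟨c, hpc, hcA, hed⟩ := remove_cycle hc' (by omega) (by norm_num) (by omega)
    have hP := ih G (A \ (range (2 * 2)).image c) (by rw [← ha']; omega)
    have hcyc : CycM G ((range (2 * 2)).image c) (2 * 2) :=
      hpc.cycM (by norm_num) (Finset.Subset.refl _)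
    have hsub : (range (2 * 2)).image c ⊆ A := by
      intro x hx
      obtain ⟨j, -, rfl⟩ := Finset.mem_image.1 hx
      exact hcA j
    have hk : Pack G (2 * 2 :: 3 :: List.replicate (q - 1) 4) A :=
      pack_cons hcyc hP Finset.disjoint_sdiff (by rw [Finset.union_sdiff_of_subset hsub])
    refine pack_perm ?_ hk
    have e : List.replicate (q + 1 - 1) 4 = 4 :: List.replicate (q - 1) 4 := by
      have e1 : q + 1 - 1 = (q - 1) + 1 := by omega
      rw [e1, List.replicate_succ]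
    rw [e]
    exact List.Perm.swap _ _ _

end Pool.Agent.TwoRegMinor
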