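import Pool.Agent.Lib.MP_616546_co.Ext

/-!
# MP_616546_co: the induction step, cases `K = 2` and `a' ≥ m + 1`
-/

set_option autoImplicit false

namespace Pool.Agent.TwoRegMinor

open Finset

variable {V : Type} [DecidableEq V]

/-- State of the induction step: `a = a' + m`; `C` is the vertex set of the `2m`-cycle `c` given by
`remove_cycle`, `Q` a near-clique of `A \ C`. Throughout `R = A \ Q` and `O = (A \ Q) \ C`. -/
structure St (G : SimpleGraph V) (A : Finset V) (a' m K : ℕ) (ms : List ℕ) (c : ℕ → V)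
    (C Q : Finset V) : Prop where
  crit : Crit G A (a' + m)
  hK : A.card = 2 * (a' + m) + K
  K2 : 2 ≤ K
  m2 : 2 ≤ m
  a2 : 2 ≤ a'
  msne : ms ≠ []
  msmin : ∀ x ∈ ms, m ≤ x
  msum : ms.sum = a' + 1
  nopack : ¬ Pk G (m :: ms) A
  pc : PC G (2 * m) c
  hC : C = (range (2 * m)).image c
  CA : C ⊆ A
  ced : a' * ((A \ C).card - 1) + 1 ≤ ed G (A \ C)
  QA : Q ⊆ A \ C
  nQ : Near G Q a'

section

variable {G : SimpleGraph V} {A : Finset V} {a' m K : ℕ} {ms : List ℕ} {c : ℕ → V} {C Q : Finset V}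

/-! ## JOB ST1 -/

/-- `m ≤ a' + 1`, and `ms = [a' + 1]` if `a' ≤ m` (two entries would give `a' + 1 ≥ 2m`) -/
theorem St.m_le (h : St G A a' m K ms c C Q) : m ≤ a' + 1 := by
  have h1 := h.msne
  have h2 := h.msmin
  have h3 := h.msum
  cases ms with
  | nil => exact absurd rfl h1
  | cons x t =>
    have h4 := h2 x (by simp)
    rw [List.sum_cons] at h3
    omega

theorem St.ms_eq (h : St G A a' m K ms c C Q) (hs : a' ≤ m) : ms = [a' + 1] := by
  have h1 := h.msne
  have h2 := h.msmin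
  have h3 := h.msum
  have h4 := h.m2
  cases ms with
  | nil => exact absurd rfl h1
  | cons x t =>
    cases t with
    | nil =>
      rw [List.sum_cons, List.sum_nil] at h3
      have : x = a' + 1 := by omega
      rw [this]
    | cons y t' =>
      exfalso
      have h5 := h2 x (by simp)
      have h6 := h2 y (by simp)
      rw [List.sum_cons, List.sum_cons] at h3
      omega

theorem St.cards (h : St G A a' m K ms c C Q) :
    C.card = 2 * m ∧ Q.card = 2 * a' + 1 ∧ (A \ Q).card + 1 = 2 * m + K ∧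
      ((A \ Q) \ C).card + 1 = K ∧ C ⊆ A \ Q ∧ Q ⊆ A ∧ Disjoint C Q := by
  have hCc : C.card = 2 * m := by
    rw [h.hC]; exact h.pc.card_image
  have hQc : Q.card = 2 * a' + 1 := h.nQ.1
  have hQA : Q ⊆ A := h.QA.trans sdiff_subset
  have hd : Disjoint C Q := by
    rw [disjoint_left]
    intro x hx hxQ
    exact (mem_sdiff.1 (h.QA hxQ)).2 hx
  have hCR : C ⊆ A \ Q := by
    intro x hx
    exact mem_sdiff.2 ⟨h.CA hx, fun hxQ => disjoint_left.1 hd hx hxQ⟩
  have h1 : (A \ Q).card + Q.card = A.card := card_sdiff_add_card_eq_card hQA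
  have h2 : ((A \ Q) \ C).card + C.card = (A \ Q).card := card_sdiff_add_card_eq_card hCR
  have h3 := h.hK
  have h4 := h.K2
  refine ⟨hCc, hQc, ?_, ?_, hCR, hQA, hd⟩
  · omega
  · omega

/-- (O1): otherwise `near_add` puts `ms` into `Q ∪ P` and `pk_cons` gives the packing -/
theorem St.o1 (h : St G A a' m K ms c C Q) {P : Finset V} (hP : P ⊆ A \ Q) (hPc : Conn G P)
    (h2 : 2 ≤ (nb G Q P).card) : ¬ CycM G ((A \ Q) \ P) (2 * m) := by
  intro hc
  obtain ⟨-, -, -, -, -, hQA, -⟩ := h.cards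
  apply h.nopack
  have hd : Disjoint P Q := by
    rw [disjoint_left]
    intro x hx hxQ
    exact (mem_sdiff.1 (hP hx)).2 hxQ
  have hpk : Pk G ms (Q ∪ P) :=
    near_add h.nQ hPc hd h2 ms (fun x hx => le_trans h.m2 (h.msmin x hx)) h.msum
  refine pk_cons hc hpk ?_ ?_
  · rw [disjoint_left]
    intro x hx hx'
    obtain ⟨hx1, hx2⟩ := mem_sdiff.1 hx
    rcases mem_union.1 hx' with h3 | h3
    · exact (mem_sdiff.1 hx1).2 h3
    · exact hx2 h3
  · intro x hx
    rcases mem_union.1 hx with h3 | h3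
    · exact (mem_sdiff.1 (mem_sdiff.1 h3).1).1
    · rcases mem_union.1 h3 with h4 | h4
      · exact hQA h4
      · exact (mem_sdiff.1 (hP h4)).1

/-- (O1) for a single vertex -/
theorem St.o1' (h : St G A a' m K ms c C Q) {u : V} (hu : u ∈ A \ Q) (h2 : 2 ≤ dg G Q u) :
    ¬ CycM G ((A \ Q).erase u) (2 * m) := by
  have h1 := h.o1 (P := {u}) (singleton_subset_iff.2 hu) (conn_singleton G u)
    (by rw [card_nb_singleton]; exact h2)
  rwa [sdiff_singleton_eq_erase] at h1

/-- (O2): `C` is a cycle of length `2m` in `R \ P` -/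
theorem St.o2 (h : St G A a' m K ms c C Q) {P : Finset V} (hP : P ⊆ (A \ Q) \ C)
    (hPc : Conn G P) : (nb G Q P).card ≤ 1 := by
  by_contra hn
  obtain ⟨-, -, -, -, hCR, -, -⟩ := h.cards
  refine h.o1 (P := P) (hP.trans sdiff_subset) hPc (by omega) ?_
  have hm := h.m2
  refine h.pc.cycM (by omega) ?_
  rw [← h.hC]
  intro x hx
  exact mem_sdiff.2 ⟨hCR hx, fun hxP => (mem_sdiff.1 (hP hxP)).2 hx⟩

theorem St.o2' (h : St G A a' m K ms c C Q) {u : V} (hu : u ∈ (A \ Q) \ C) : dg G Q u ≤ 1 := by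
  have h1 := h.o2 (P := {u}) (singleton_subset_iff.2 hu) (conn_singleton G u)
  rwa [card_nb_singleton] at h1

/-- (O3): the vertices of `R` with at least two neighbours in `Q` are in `C` (`o2'`), and there are at
least `m` of them (`Crit.star` with `s = a'`) -/
theorem St.o3 (h : St G A a' m K ms c C Q) (U : Finset V)
    (hU : ∀ u, u ∈ U ↔ u ∈ C ∧ 2 ≤ dg G Q u) : m ≤ U.card := by
  obtain ⟨-, -, -, -, -, hQA, -⟩ := h.cards
  have h1 := h.crit.star hQA h.nQ U (by
    intro u hu hQ h2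
    rw [hU]
    refine ⟨?_, h2⟩
    by_contra hC
    have := h.o2' (mem_sdiff.2 ⟨mem_sdiff.2 ⟨hu, hQ⟩, hC⟩)
    omega)
  omega

/-- at least one such vertex -/
theorem St.exists_c0 (h : St G A a' m K ms c C Q) : ∃ u ∈ C, 2 ≤ dg G Q u := by
  classical
  have h1 := h.o3 (C.filter fun u => 2 ≤ dg G Q u) (fun u => mem_filter)
  have h2 := h.m2
  have h3 : 0 < (C.filter fun u => 2 ≤ dg G Q u).card := by omega
  obtain ⟨u, hu⟩ := card_pos.1 h3
  exact ⟨u, (mem_filter.1 hu).1, (mem_filter.1 hu).2⟩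

/-! ## JOB ST2: edge counts -/

/-- `A \ C = Q ∪ O` (disjoint), `ed Q + me Q = a' (2a'+1)`, every vertex of `O` has at most one
neighbour in `Q`, `|A \ C| - 1 = 2a' + K - 1`, `|O| = K - 1`. So
`ed O ≥ a' (2a'+K-1) + 1 - a' (2a'+1) - (K-1) = (a'-1)(K-2)`. -/
theorem St.edO (h : St G A a' m K ms c C Q) : (a' - 1) * (K - 2) ≤ ed G ((A \ Q) \ C) := by
  obtain ⟨hC, hQ, hR, hO, hCR, hQA, hCQ⟩ := h.cards
  have hdis : Disjoint Q ((A \ Q) \ C) := by
    rw [Finset.disjoint_left]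
    intro x hx hx'
    rw [Finset.mem_sdiff, Finset.mem_sdiff] at hx'
    exact hx'.1.2 hx
  have hun : A \ C = Q ∪ ((A \ Q) \ C) := by
    ext x
    have h1 : x ∈ Q → x ∈ A \ C := fun hx => h.QA hx
    simp only [Finset.mem_union, Finset.mem_sdiff] at h1 ⊢
    tauto
  have hcard : (A \ C).card = 2 * a' + K := by
    rw [hun, Finset.card_union_of_disjoint hdis]
    omega
  have hed := ed_union G hdis
  rw [← hun, sum_dg_comm] at hed
  have hsum : ∑ v ∈ (A \ Q) \ C, dg G Q v ≤ ((A \ Q) \ C).card := by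
    calc ∑ v ∈ (A \ Q) \ C, dg G Q v ≤ ∑ v ∈ (A \ Q) \ C, 1 :=
          Finset.sum_le_sum fun v hv => h.o2' hv
      _ = _ := by simp
  have hnq := near_ed h.nQ
  have hced := h.ced
  rw [hcard] at hced
  obtain ⟨k, rfl⟩ : ∃ k, K = k + 2 := ⟨K - 2, by have := h.K2; omega⟩
  obtain ⟨b, rfl⟩ : ∃ b, a' = b + 1 := ⟨a' - 1, by have := h.a2; omega⟩
  have e1 : b + 1 - 1 = b := rfl
  have e2 : k + 2 - 2 = k := rfl
  have e3 : 2 * (b + 1) + (k + 2) - 1 = 2 * (b + 1) + k + 1 := by omega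
  rw [e1, e2]
  rw [e3] at hced
  have hO' : ((A \ Q) \ C).card = k + 1 := by omega
  rw [hO'] at hsum
  nlinarith [hced, hed, hsum, hnq]

/-- `A = Q ∪ R`, `ed A = (a'+m)(n-1) + 1`, `n = 2a'+2m+K`, `ed Q = a'(2a'+1) - me Q`, edges between
`Q` and `C`: `2m (2a'+1) - ∑_{v ∈ C} md Q v`, between `Q` and `O`: at most `K - 1`. So
`ed R ≥ (m-1) r + a' (K-2) + 1 + me Q + ∑_{v ∈ C} md Q v` with `r = |R| = 2m + K - 1`. -/
theorem St.edR (h : St G A a' m K ms c C Q) :
    (m - 1) * (A \ Q).card + a' * (K - 2) + 1 + me G Q + ∑ v ∈ C, md G Q v ≤ ed G (A \ Q) := by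
  obtain ⟨hC, hQ, hR, hO, hCR, hQA, hCQ⟩ := h.cards
  have hdis : Disjoint Q (A \ Q) := Finset.disjoint_sdiff
  have hun : Q ∪ (A \ Q) = A := Finset.union_sdiff_of_subset hQA
  have hed := ed_union G hdis
  rw [hun, sum_dg_comm] at hed
  have hun2 : C ∪ ((A \ Q) \ C) = A \ Q := Finset.union_sdiff_of_subset hCR
  have hdis2 : Disjoint C ((A \ Q) \ C) := Finset.disjoint_sdiff
  have hsplit : ∑ v ∈ A \ Q, dg G Q v = ∑ v ∈ C, dg G Q v + ∑ v ∈ (A \ Q) \ C, dg G Q v := by
    rw [← Finset.sum_union hdis2, hun2]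
  have hsum : ∑ v ∈ (A \ Q) \ C, dg G Q v ≤ ((A \ Q) \ C).card := by
    calc ∑ v ∈ (A \ Q) \ C, dg G Q v ≤ ∑ v ∈ (A \ Q) \ C, 1 :=
          Finset.sum_le_sum fun v hv => h.o2' hv
      _ = _ := by simp
  have hsumC : ∑ v ∈ C, dg G Q v + ∑ v ∈ C, md G Q v = 2 * m * (2 * a' + 1) := by
    rw [← Finset.sum_add_distrib]
    calc ∑ v ∈ C, (dg G Q v + md G Q v) = ∑ v ∈ C, (2 * a' + 1) := by
          refine Finset.sum_congr rfl fun v hv => ?_
          rw [dg_add_md_not_mem G Q v (Finset.disjoint_left.1 hCQ hv), hQ]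
      _ = 2 * m * (2 * a' + 1) := by rw [Finset.sum_const, hC, smul_eq_mul]
  have hnq := near_ed h.nQ
  have hce := h.crit.edges
  rw [h.hK] at hce
  obtain ⟨k, rfl⟩ : ∃ k, K = k + 2 := ⟨K - 2, by have := h.K2; omega⟩
  obtain ⟨l, rfl⟩ : ∃ l, m = l + 1 := ⟨m - 1, by have := h.m2; omega⟩
  have e1 : l + 1 - 1 = l := rfl
  have e2 : k + 2 - 2 = k := rfl
  have e3 : 2 * (a' + (l + 1)) + (k + 2) - 1 = 2 * (a' + (l + 1)) + k + 1 := by omega
  have hR' : (A \ Q).card = 2 * (l + 1) + k + 1 := by omega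
  have hO' : ((A \ Q) \ C).card = k + 1 := by omega
  rw [e1, e2, hR']
  rw [e3] at hce
  rw [hO'] at hsum
  rw [hsplit] at hed
  nlinarith [hce, hed, hsum, hnq, hsumC]

/-! ## JOB ST3: `K = 2` is impossible -/

private theorem st3_ne {N : ℕ} (hN : 3 ≤ N) (i : ℕ) : (i + 1) % N ≠ i % N := by
  intro h
  have h1 : i + 1 ≡ i + 0 [MOD N] := h
  have h2 : 1 ≡ 0 [MOD N] := Nat.ModEq.add_left_cancel' i h1
  have h3 : 1 % N = 0 % N := h2
  rw [Nat.mod_eq_of_lt (by omega), Nat.zero_mod] at h3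
  omega

omit [DecidableEq V] in
private theorem st3_mod {N : ℕ} {c : ℕ → V} (hper : ∀ j, c (j + N) = c j) (_hN : 0 < N) {i i' : ℕ}
    (h : i % N = i' % N) : c i = c i' := by
  have key : ∀ k j, c (j + N * k) = c j := by
    intro k
    induction k with
    | zero => intro j; simp
    | succ k ih =>
      intro j
      rw [Nat.mul_succ, ← Nat.add_assoc, hper, ih]
  rw [← Nat.mod_add_div i N, ← Nat.mod_add_div i' N, key, key, h]

/-- replacing the vertex `c (j+1)` of the cycle by `w`, adjacent to `c j` and `c (j+2)` -/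
theorem PC.replace {N : ℕ} (h : PC G N c) (hN : 3 ≤ N) {w : V} (hw : ∀ j, c j ≠ w) {j : ℕ}
    (h1 : G.Adj (c j) w) (h2 : G.Adj (c (j + 2)) w) :
    ∃ c' : ℕ → V, PC G N c' ∧
      (range N).image c' = insert w (((range N).image c).erase (c (j + 1))) := by
  have hN0 : 0 < N := by omega
  refine ⟨fun i => if i % N = (j + 1) % N then w else c i, ⟨?_, ?_, ?_⟩, ?_⟩
  · intro i
    simp only [Nat.add_mod_right, h.per]
  · intro i hi i' hi' hii
    try simp only at hii
    rw [Nat.mod_eq_of_lt hi, Nat.mod_eq_of_lt hi'] at hii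
    split_ifs at hii with e1 e2 e2
    · rw [e1, e2]
    · exact absurd hii.symm (hw i')
    · exact absurd hii (hw i)
    · exact h.inj i hi i' hi' hii
  · intro i
    try simp only
    by_cases e1 : i % N = (j + 1) % N
    · have e2 : ¬ (i + 1) % N = (j + 1) % N := by
        intro e2
        have e3 : (i + 1) % N = (j + 1 + 1) % N := by rw [Nat.add_mod i 1, e1, ← Nat.add_mod]
        rw [e3] at e2
        exact st3_ne hN (j + 1) e2
      rw [if_pos e1, if_neg e2]
      have e3 : (i + 1) % N = (j + 2) % N := by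
        have : j + 2 = j + 1 + 1 := rfl
        rw [this, Nat.add_mod i 1, e1, ← Nat.add_mod]
      rw [st3_mod h.per hN0 e3]
      exact h2.symm
    · rw [if_neg e1]
      by_cases e2 : (i + 1) % N = (j + 1) % N
      · rw [if_pos e2]
        have e3 : i % N = j % N := by
          have e4 : i + 1 ≡ j + 1 [MOD N] := e2
          exact Nat.ModEq.add_right_cancel' 1 e4
        rw [st3_mod h.per hN0 e3]
        exact h1
      · rw [if_neg e2]
        exact h.adj i
  · ext x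
    rw [Finset.mem_image, mem_insert, mem_erase, Finset.mem_image]
    constructor
    · rintro ⟨i, hi, rfl⟩
      rw [mem_range] at hi
      by_cases e1 : i % N = (j + 1) % N
      · left
        rw [if_pos e1]
      · right
        rw [if_neg e1]
        refine ⟨?_, i, mem_range.mpr hi, rfl⟩
        intro e2
        apply e1
        have e3 : c (j + 1) = c ((j + 1) % N) := st3_mod h.per hN0 (Nat.mod_mod _ _).symm
        rw [e3] at e2
        have e4 := h.inj i hi _ (Nat.mod_lt _ hN0) e2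
        rw [e4, Nat.mod_mod]
    · rintro (rfl | ⟨hx, i, hi, rfl⟩)
      · refine ⟨(j + 1) % N, mem_range.mpr (Nat.mod_lt _ hN0), ?_⟩
        simp only [Nat.mod_mod, if_true]
      · refine ⟨i, hi, ?_⟩
        rw [if_neg]
        intro e1
        exact hx (st3_mod h.per hN0 e1)

/-- a vertex `w ∈ O` is nonadjacent to `c j` or to `c (j+2)` if `c (j+1)` has at least two neighbours
in `Q`: otherwise replace `c (j+1)` by `w` and use `St.o1'` -/
theorem St.miss (h : St G A a' m K ms c C Q) {w : V} (hw : w ∈ (A \ Q) \ C) {j : ℕ}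
    (hj : 2 ≤ dg G Q (c (j + 1))) : ¬ (G.Adj (c j) w ∧ G.Adj (c (j + 2)) w) := by
  rintro ⟨h1, h2⟩
  obtain ⟨_, _, _, _, hCR, _, _⟩ := h.cards
  have hm := h.m2
  have hwR : w ∈ A \ Q := (mem_sdiff.mp hw).1
  have hwC : w ∉ C := (mem_sdiff.mp hw).2
  have hmem : ∀ i, c i ∈ C := fun i => by
    rw [h.hC]
    exact h.pc.mem_image (by omega) i
  have hne : ∀ i, c i ≠ w := fun i e => hwC (e ▸ hmem i)
  obtain ⟨c', hc', him⟩ := h.pc.replace (by omega) hne h1 h2
  rw [← h.hC] at him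
  refine h.o1' (hCR (hmem (j + 1))) hj (hc'.cycM (by omega) ?_)
  rw [him]
  intro x hx
  rw [mem_insert, mem_erase] at hx
  rw [mem_erase]
  rcases hx with rfl | ⟨hx1, hx2⟩
  · exact ⟨(hne (j + 1)).symm, hwR⟩
  · exact ⟨hx1, hCR hx2⟩

omit [DecidableEq V] in
private theorem st3_an (G : SimpleGraph V) [DecidableRel G.Adj] (N : ℕ) (c : ℕ → V) (y : V) :
    ((range N).filter (fun j => ¬ G.Adj (c j) y)).card + an G N c y = N := by
  have h1 := card_filter_add_card_filter_not (s := range N) (fun j => G.Adj (c j) y)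
  rw [card_range] at h1
  have h2 : an G N c y = ((range N).filter (fun j => G.Adj (c j) y)).card := by
    unfold an
    congr
  omega

/-- `K = 2`: `O = {w}`. By `St.miss` every `j` with `c (j+1)` in the set `U` of `St.o3` gives a
non-neighbour `c j` or `c (j+2)` of `w`, every non-neighbour position serves at most two `j`; so
`w` has at least `m/2` non-neighbours on `C`: `m ≤ 2 md G C w`. Degree:
`a' + m + 1 ≤ dg A w ≤ 1 + dg C w = 1 + 2m - md C w` (`St.o2'`). So `2 a' ≤ m ≤ a' + 1`,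
contradicting `a' ≥ 2`. -/
theorem St.K_ne_two (h : St G A a' m K ms c C Q) : K ≠ 2 := by
  classical
  intro hK2
  obtain ⟨hC1, hQ1, _, hO1, hCR, hQA, hdis⟩ := h.cards
  have hm := h.m2
  have ha := h.a2
  have hml := h.m_le
  have hO : ((A \ Q) \ C).card = 1 := by omega
  obtain ⟨w, hw⟩ := card_eq_one.mp hO
  have hwO : w ∈ (A \ Q) \ C := by rw [hw]; exact mem_singleton_self w
  have hwR : w ∈ A \ Q := (mem_sdiff.mp hwO).1
  have hwC : w ∉ C := (mem_sdiff.mp hwO).2
  have hwA : w ∈ A := (mem_sdiff.mp hwR).1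
  have hmU := h.o3 (C.filter fun u => 2 ≤ dg G Q u) (by
    intro u
    rw [mem_filter])
  have hN1 : 1 ≤ 2 * m := by omega
  -- positions
  have hUJ : (C.filter fun u => 2 ≤ dg G Q u).card ≤
      ((range (2 * m)).filter fun i => 2 ≤ dg G Q (c (i + 1))).card := by
    have hsub : (C.filter fun u => 2 ≤ dg G Q u) ⊆
        ((range (2 * m)).filter fun i => 2 ≤ dg G Q (c (i + 1))).image (fun i => c (i + 1)) := by
      intro u hu
      rw [mem_filter, h.hC, ← (h.pc.shift hN1 1).2] at hu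
      obtain ⟨hu1, hu2⟩ := hu
      obtain ⟨i, hi, rfl⟩ := mem_image.mp hu1
      exact mem_image.mpr ⟨i, mem_filter.mpr ⟨hi, hu2⟩, rfl⟩
    exact (card_le_card hsub).trans card_image_le
  have hJ : ((range (2 * m)).filter fun i => 2 ≤ dg G Q (c (i + 1))).card ≤
      ((range (2 * m)).filter fun i => ¬ G.Adj (c i) w).card +
        ((range (2 * m)).filter fun i => ¬ G.Adj (c (i + 2)) w).card := by
    refine (card_le_card ?_).trans (card_union_le _ _)
    intro i hi
    rw [mem_filter] at hi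
    have h1 := h.miss hwO hi.2
    rw [mem_union, mem_filter, mem_filter]
    by_cases h2 : G.Adj (c i) w
    · exact Or.inr ⟨hi.1, fun h3 => h1 ⟨h2, h3⟩⟩
    · exact Or.inl ⟨hi.1, h2⟩
  have e1 := st3_an G (2 * m) c w
  have e2 := st3_an G (2 * m) (fun i => c (i + 2)) w
  have e3 := an_add_md h.pc (y := w) (by rw [← h.hC]; exact hwC)
  have e4 := an_add_md (h.pc.shift hN1 2).1 (y := w) (by rw [(h.pc.shift hN1 2).2, ← h.hC]; exact hwC)
  rw [(h.pc.shift hN1 2).2] at e4
  rw [← h.hC] at e3 e4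
  -- degree
  have hdeg := h.crit.deg hwA
  have hA : A = Q ∪ (C ∪ {w}) := by
    rw [← hw, union_sdiff_of_subset hCR, union_sdiff_of_subset hQA]
  have hd1 : Disjoint Q (C ∪ {w}) := by
    rw [← hw, union_sdiff_of_subset hCR]
    exact disjoint_sdiff
  have hd2 : Disjoint C {w} := by
    rw [disjoint_singleton_right]
    exact hwC
  rw [hA, dg_union G hd1, dg_union G hd2] at hdeg
  have e5 := h.o2' hwO
  have e6 := dg_add_md_not_mem G C w hwC
  have e7 := dg_add_md_mem G {w} w (mem_singleton_self w)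
  rw [card_singleton] at e7
  omega

/-! ## JOB ST4: `a' ≥ m + 1` is impossible -/

/-- a near-clique `Q'` of size `2(m-1)+1` together with a connected set with two neighbours in it
has a cycle minor of length `2m` (`near_add` with `ms = [m]`) -/
theorem near_cyc {Q' P : Finset V} (hm : 2 ≤ m) (hQ : Near G Q' (m - 1)) (hP : Conn G P)
    (hd : Disjoint P Q') (h2 : 2 ≤ (nb G Q' P).card) : CycM G (Q' ∪ P) (2 * m) := by
  have h1 : Pk G [m] (Q' ∪ P) := by
    refine near_add hQ hP hd h2 [m] ?_ ?_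
    · intro x hx
      rw [List.mem_singleton] at hx
      omega
    · simp only [List.sum_cons, List.sum_nil]
      omega
  exact pack_singleton_iff.1 h1

theorem near_cyc' {Q' : Finset V} {u : V} (hm : 2 ≤ m) (hQ : Near G Q' (m - 1))
    (hd : u ∉ Q') (h2 : 2 ≤ dg G Q' u) : CycM G (insert u Q') (2 * m) := by
  have h1 : CycM G (Q' ∪ {u}) (2 * m) := by
    refine near_cyc hm hQ (conn_singleton G u) (disjoint_singleton_left.2 hd) ?_
    rw [card_nb_singleton]
    exact h2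
  refine cycM_mono ?_ h1
  intro x hx
  rw [mem_union, mem_singleton] at hx
  rw [mem_insert]
  tauto

/-- Let `O = (A \ Q) \ C`, `|O| = K - 1`. `ed O ≥ (a'-1)(K-2) > (m-1)(K-2)`, so `IH1` on `O` gives a
`2m`-cycle minor in `O` (contradicts `St.o1'` for `u` from `St.exists_c0`) or a near-clique `Q2 ⊆ O`.
`Crit.star` for `Q2` (`s = m - 1`) with `U = {u ∈ C : 2 ≤ dg Q2 u} ∪ nb Q Q2`: a vertex `u ∈ O \ Q2`
with two neighbours in `Q2` is impossible (`near_cyc'` gives a cycle minor in `O`). `nb Q Q2` has at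
most one element (`St.o2`, `near_conn`). So at least `a' ≥ 2` vertices `u ∈ C` have two neighbours in
`Q2`; take one, `u`, different from a vertex `c0` of `St.exists_c0`; then `insert u Q2` has a `2m`-cycle
minor and avoids `c0`: contradiction to `St.o1'`. -/
theorem St.big (h : St G A a' m K ms c C Q) (IH1 : TP V [2 * m] (m - 1)) (hK3 : 3 ≤ K)
    (hb : m + 1 ≤ a') : False := by
  classical
  obtain ⟨hC, hQ, hR, hO, hCR, hQA, hCQ⟩ := h.cards
  obtain ⟨c0, hc0C, hc0⟩ := h.exists_c0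
  have hno := h.o1' (hCR hc0C) hc0
  have hOs : (A \ Q) \ C ⊆ (A \ Q).erase c0 := by
    intro x hx
    rw [mem_sdiff] at hx
    rw [mem_erase]
    exact ⟨fun he => hx.2 (he ▸ hc0C), hx.1⟩
  have hm2 := h.m2
  have hed : (m - 1) * (((A \ Q) \ C).card - 1) < ed G ((A \ Q) \ C) := by
    refine lt_of_lt_of_le ?_ h.edO
    have h1 : ((A \ Q) \ C).card - 1 = K - 2 := by omega
    rw [h1]
    exact Nat.mul_lt_mul_of_pos_right (by omega) (by omega)
  rcases IH1 G ((A \ Q) \ C) hed with hcyc | ⟨Q2, hQ2, hn2⟩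
  · exact hno (cycM_mono hOs (pack_singleton_iff.1 hcyc))
  · have hQ2A : Q2 ⊆ A := hQ2.trans (sdiff_subset.trans sdiff_subset)
    have hnb : (nb G Q Q2).card ≤ 1 := h.o2 hQ2 (near_conn hn2)
    have hst := h.crit.star hQ2A hn2 ((C.filter fun u => 2 ≤ dg G Q2 u) ∪ nb G Q Q2) (by
      intro u huA huQ2 hu2
      rw [mem_union, mem_filter, mem_nb]
      by_cases huQ : u ∈ Q
      · right
        refine ⟨huQ, ?_⟩
        exact (dg_pos_iff G Q2 u).1 (by omega)
      · by_cases huC : u ∈ C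
        · exact Or.inl ⟨huC, hu2⟩
        · exfalso
          refine hno (cycM_mono ?_ (near_cyc' hm2 hn2 huQ2 hu2))
          refine (insert_subset_iff.2 ⟨?_, hQ2⟩).trans hOs
          exact mem_sdiff.2 ⟨mem_sdiff.2 ⟨huA, huQ⟩, huC⟩)
    have hcu := card_union_le (C.filter fun u => 2 ≤ dg G Q2 u) (nb G Q Q2)
    have ha2 := h.a2
    have h2 : 1 < (C.filter fun u => 2 ≤ dg G Q2 u).card := by omega
    obtain ⟨u, hu, huc⟩ := exists_mem_ne h2 c0
    rw [mem_filter] at hu
    have huQ2 : u ∉ Q2 := fun hx => (mem_sdiff.1 (hQ2 hx)).2 hu.1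
    refine hno (cycM_mono ?_ (near_cyc' hm2 hn2 huQ2 hu.2))
    refine insert_subset_iff.2 ⟨?_, hQ2.trans hOs⟩
    exact mem_erase.2 ⟨huc, hCR hu.1⟩

/-! ## JOB ST5: choice of `c0` in the case `a' ≤ m` -/

/-- With `r = |A \ Q| = 2m + K - 1`: `ed (R - c0) = ed R - (r - 1) + md R c0`, so by `St.edR`
`ed (R - c0) - (m-1)(r-2) ≥ (a'-1)(K-2) - 1 + me Q + ∑_{v ∈ C} md Q v + md R c0`. This is at least 1
if `(a'-1)(K-2) ≥ 2`. Otherwise `a' = 2`, `K = 3` and we need one of the other terms positive: if some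
`v ∈ C` has at most one neighbour in `Q` then `md Q v ≥ 2a' > 0`. If all vertices of `C` have at
least two neighbours in `Q`, take `w ∈ O` (`|O| = 2`); by `St.miss` some `c j` is nonadjacent to `w`;
take `c0 = c j`, `md R c0 ≥ 1`. -/
theorem St.exists_c (h : St G A a' m K ms c C Q) (hK3 : 3 ≤ K) :
    ∃ c0 ∈ C, 2 ≤ dg G Q c0 ∧
      (m - 1) * (((A \ Q).erase c0).card - 1) < ed G ((A \ Q).erase c0) := by
  classical
  obtain ⟨hC1, hQ1, hR1, hO1, hCR, hQA, hdis⟩ := h.cards
  have hm := h.m2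
  have ha := h.a2
  have hedR := h.edR
  -- reduction to a positive correction term
  have key : ∀ c0 ∈ C, 2 ≤ dg G Q c0 →
      2 ≤ (a' - 1) * (K - 2) + (me G Q + ∑ v ∈ C, md G Q v) + md G (A \ Q) c0 →
      (m - 1) * (((A \ Q).erase c0).card - 1) < ed G ((A \ Q).erase c0) := by
    intro c0 hc0 _ hpos
    have hc0R := hCR hc0
    have e1 := ed_erase G hc0R
    have e2 := dg_add_md_mem G (A \ Q) c0 hc0R
    have e3 : ((A \ Q).erase c0).card + 1 = (A \ Q).card := card_erase_add_one hc0R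
    obtain ⟨m1, rfl⟩ : ∃ m1, m = m1 + 1 := ⟨m - 1, by omega⟩
    obtain ⟨a1, rfl⟩ : ∃ a1, a' = a1 + 1 := ⟨a' - 1, by omega⟩
    obtain ⟨k1, rfl⟩ : ∃ k1, K = k1 + 2 := ⟨K - 2, by omega⟩
    simp only [Nat.add_sub_cancel] at hpos hedR ⊢
    have e4 : ((A \ Q).erase c0).card - 1 + 2 = (A \ Q).card := by omega
    have e5 : (A \ Q).card = 2 * m1 + k1 + 3 := by omega
    have e6 : m1 * (A \ Q).card = m1 * (((A \ Q).erase c0).card - 1) + 2 * m1 := by
      rw [← e4]
      ring
    have e7 : (a1 + 1) * k1 = a1 * k1 + k1 := by ring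
    generalize m1 * (((A \ Q).erase c0).card - 1) = X at *
    generalize a1 * k1 = Y at *
    omega
  obtain ⟨u, hu, hu2⟩ := h.exists_c0
  by_cases h1 : 2 ≤ (a' - 1) * (K - 2)
  · exact ⟨u, hu, hu2, key u hu hu2 (by omega)⟩
  have h2 : 1 ≤ (a' - 1) * (K - 2) := Nat.mul_pos (by omega) (by omega)
  by_cases h3 : ∃ v ∈ C, dg G Q v ≤ 1
  · obtain ⟨v, hv, hv1⟩ := h3
    refine ⟨u, hu, hu2, key u hu hu2 ?_⟩
    have hvQ : v ∉ Q := fun hq => disjoint_left.mp hdis hv hq
    have e1 := dg_add_md_not_mem G Q v hvQ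
    have e2 : md G Q v ≤ ∑ v ∈ C, md G Q v :=
      single_le_sum (f := fun v => md G Q v) (fun _ _ => Nat.zero_le _) hv
    omega
  · push Not at h3
    have hOne : ((A \ Q) \ C).Nonempty := by
      rw [← card_pos]
      omega
    obtain ⟨w, hw⟩ := hOne
    have hwR : w ∈ A \ Q := (mem_sdiff.mp hw).1
    have hwC : w ∉ C := (mem_sdiff.mp hw).2
    have hmem : ∀ i, c i ∈ C := fun i => by
      rw [h.hC]
      exact h.pc.mem_image (by omega) i
    have h4 := h.miss hw (j := 0) (h3 _ (hmem 1))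
    obtain ⟨i, hi⟩ : ∃ i, ¬ G.Adj (c i) w := by
      by_contra hcon
      push Not at hcon
      exact h4 ⟨hcon _, hcon _⟩
    refine ⟨c i, hmem i, h3 _ (hmem i), key _ (hmem i) (h3 _ (hmem i)) ?_⟩
    have h5 : 1 ≤ md G (A \ Q) (c i) := by
      unfold md
      rw [Nat.one_le_iff_ne_zero, ← Nat.pos_iff_ne_zero, card_pos]
      exact ⟨w, mem_filter.mpr ⟨hwR, fun e => hwC (e ▸ hmem i), hi⟩⟩
    omega

/-- so `IH1` gives a near-clique `Q2` in `R - c0` (a cycle minor contradicts `St.o1'`) -/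
theorem St.exists_Q2 (h : St G A a' m K ms c C Q) (IH1 : TP V [2 * m] (m - 1)) (hK3 : 3 ≤ K) :
    ∃ c0 ∈ C, 2 ≤ dg G Q c0 ∧ ∃ Q2 ⊆ (A \ Q).erase c0, Near G Q2 (m - 1) := by
  obtain ⟨_, _, _, _, hCR, _, _⟩ := h.cards
  obtain ⟨c0, hc0, hc2, hed⟩ := h.exists_c hK3
  refine ⟨c0, hc0, hc2, ?_⟩
  rcases IH1 G _ hed with h1 | h1
  · exact absurd (pack_singleton_iff.mp h1) (h.o1' (hCR hc0) hc2)
  · exact h1

/-! ## JOB ST7: leaving a set twice -/

/-- a cycle through a vertex `c j0 ∉ D` which meets `D`: either `c j0` is adjacent to `D`, or two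
different vertices of the cycle outside `D` are adjacent to `D`. Rotate so that `j0 = 0`; first and
last position in `D`. -/
theorem PC.two_exits {N : ℕ} (h : PC G N c) (hN : 1 ≤ N) {D : Finset V} {j0 i0 : ℕ}
    (h0 : c j0 ∉ D) (hi : c i0 ∈ D) :
    (∃ d ∈ D, G.Adj (c j0) d) ∨
      ∃ j j' : ℕ, c j ≠ c j' ∧ c j ∉ D ∧ c j' ∉ D ∧ (∃ d ∈ D, G.Adj (c j) d) ∧
        ∃ d ∈ D, G.Adj (c j') d := by
  classical
  have he := (h.shift hN j0).1
  have hN0 : 0 < N := by omega
  -- a position in `D`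
  have hex : ∃ k, c (k + j0) ∈ D := by
    refine ⟨i0 + N * j0 - j0, ?_⟩
    have h1 : j0 ≤ N * j0 := Nat.le_mul_of_pos_left _ hN0
    have h2 : i0 + N * j0 - j0 + j0 = i0 + N * j0 := by omega
    rw [h2]
    have h3 : ∀ k, c (i0 + N * k) = c i0 := by
      intro k
      induction k with
      | zero => simp
      | succ k ih => rw [Nat.mul_succ, ← Nat.add_assoc, h.per, ih]
    rw [h3]
    exact hi
  have hex2 : ∃ k < N, c (k + j0) ∈ D := by
    obtain ⟨k, hk⟩ := hex
    refine ⟨k % N, Nat.mod_lt _ hN0, ?_⟩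
    have h3 : ∀ q r, (fun j => c (j + j0)) (r + N * q) = (fun j => c (j + j0)) r := by
      intro q
      induction q with
      | zero => intro r; simp
      | succ q ih =>
        intro r
        rw [Nat.mul_succ, ← Nat.add_assoc]
        exact (he.per _).trans (ih r)
    have h4 := h3 (k / N) (k % N)
    rw [Nat.mod_add_div] at h4
    simp only at h4
    rw [← h4]
    exact hk
  set S := (range N).filter fun k => c (k + j0) ∈ D with hS
  have hSne : S.Nonempty := by
    obtain ⟨k, hk, hkD⟩ := hex2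
    exact ⟨k, mem_filter.mpr ⟨mem_range.mpr hk, hkD⟩⟩
  have hmem : ∀ k, k ∈ S ↔ k < N ∧ c (k + j0) ∈ D := fun k => by
    rw [hS, mem_filter, mem_range]
  have hk1 := (hmem _).mp (S.min'_mem hSne)
  have hk2 := (hmem _).mp (S.max'_mem hSne)
  have hmin : ∀ k ∈ S, S.min' hSne ≤ k := fun k hk => S.min'_le k hk
  have hmax : ∀ k ∈ S, k ≤ S.max' hSne := fun k hk => S.le_max' k hk
  have h12 := hmax _ (S.min'_mem hSne)
  generalize S.min' hSne = k1 at *
  generalize S.max' hSne = k2 at *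
  have hk1pos : 0 < k1 := by
    rcases Nat.eq_zero_or_pos k1 with e | e
    · rw [e, Nat.zero_add] at hk1
      exact absurd hk1.2 h0
    · exact e
  by_cases hlast : k2 + 1 = N
  · left
    refine ⟨c (k2 + j0), hk2.2, ?_⟩
    have h1 := h.adj (k2 + j0)
    have h2 : k2 + j0 + 1 = j0 + N := by omega
    rw [h2, h.per] at h1
    exact h1.symm
  · right
    have hk2N : k2 + 1 < N := by omega
    refine ⟨k1 - 1 + j0, k2 + 1 + j0, ?_, ?_, ?_, ⟨c (k1 + j0), hk1.2, ?_⟩, ⟨c (k2 + j0), hk2.2, ?_⟩⟩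
    · intro e
      have := he.inj (k1 - 1) (by omega) (k2 + 1) hk2N e
      omega
    · intro e
      have := hmin (k1 - 1) ((hmem _).mpr ⟨by omega, e⟩)
      omega
    · intro e
      have := hmax (k2 + 1) ((hmem _).mpr ⟨hk2N, e⟩)
      omega
    · have h1 := h.adj (k1 - 1 + j0)
      have h2 : k1 - 1 + j0 + 1 = k1 + j0 := by omega
      rwa [h2] at h1
    · have h1 := h.adj (k2 + j0)
      have h2 : k2 + j0 + 1 = k2 + 1 + j0 := by omega
      rw [h2] at h1
      exact h1.symm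

end

end Pool.Agent.TwoRegMinor
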